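import Pool.Agent.Lib.MP_2a1a00_nt.R.Stmt3
import Pool.Agent.Lib.MP_2a1a00_nt.V.Defs
import Pool.Agent.Lib.MP_2a1a00_nt.Zeta
import Pool.Agent.Lib.MP_2a1a00_nt.Nm
import Pool.Agent.Lib.MP_2a1a00_nt.Mvt

/-! Internal vocabulary for the resonance between the two divisor problems. -/

namespace Pool.Agent.Lib.MP_2a1a00_nt

open Complex MeasureTheory Set

/-- The power `ζ ^ k` with its data. -/
noncomputable def zs (k : ℕ) : Sel where
  f := fun n => (((ArithmeticFunction.zeta ^ k) n : ℕ) : ℂ)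
  m := k
  G := fun s => zG s ^ k
  Q := Real.exp (-(k / 2) * Real.log Real.pi)
  R := k
  lam := fun _ => 1 / 2
  mu := fun _ => 0
  om := 1
  ram := fun ε hε => by
    obtain ⟨C, hC⟩ := dk_le k hε
    exact ⟨C, fun n hn => by simpa only [Complex.norm_natCast] using hC n hn⟩
  ent := zG_diff.pow k
  ord := fun a b => by
    obtain ⟨C, hC, h⟩ := zG_le a b
    refine ⟨2, C ^ k * Real.exp (4 * (k : ℝ) ^ 2), fun s h1 h2 => ?_⟩
    rw [norm_pow]
    refine (pow_le_pow_left₀ (norm_nonneg _) (h s h1 h2) k).trans ?_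
    rw [mul_pow, ← Real.exp_nat_mul, mul_assoc, ← Real.exp_add, Real.rpow_two]
    refine mul_le_mul_of_nonneg_left (Real.exp_le_exp.2 ?_) (by positivity)
    nlinarith [sq_nonneg (2 * (k : ℝ) - ‖s‖)]
  ser := fun s hs => by
    have h1 : s ≠ 1 := fun h => by simp [h] at hs
    rw [dk_ser k hs, zG_eq h1, mul_pow]
  Q_pos := Real.exp_pos _
  lam_pos := fun _ => by norm_num
  mu_re := fun _ => by simp
  om_norm := norm_one
  fe := fun s h0 h1 => by
    have a1 : s ≠ 1 := fun h => by simp [h] at h1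
    have a2 : 1 - (starRingEnd ℂ) s ≠ 1 := fun h => by
      have := congrArg re h
      simp at this
      linarith
    have a3 : 1 - (starRingEnd ℂ) s = (starRingEnd ℂ) (1 - s) := by rw [map_sub, map_one]
    have a4 : 0 < (1 - s).re := by simpa using h1
    rw [zeta_L k a1, zeta_L k a2, zeta_gam, zeta_gam, ← mul_pow, ← mul_pow, one_mul, a3,
      riemannZeta_conj, zeta_gam_conj, ← map_mul, map_pow, conj_conj, zeta_comp h0, zeta_comp a4,
      completedRiemannZeta_one_sub]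

/-- The number of divisors. -/
def dv (n : ℕ) : ℝ := n.divisors.card

/-- The properties of the Voronoi kernel of the divisor problem. -/
structure Good (P : Vo) : Prop where
  th : P.th = 0
  ka : P.ka = 4 * Real.pi
  am : P.ap * P.am = ((1 / (8 * Real.pi ^ 2) : ℝ) : ℂ)
  vor : (zs 2).Vor P
  rho : ∀ σ : ℝ, σ = 1 / 8 ∨ σ = -1 / 8 → ∃ (r : ℝ → ℂ) (C : ℝ), 0 < C ∧ Continuous r ∧
    (∀ t, ‖r t‖ ≤ C * jb t ^ (-1 - 2 * σ)) ∧ ∀ W y : ℝ, 0 < W → 0 < y →
      (zs 2).kr W y = (∫ v : ℝ, (ph W v : ℂ) * J0 P 2 (y * Real.exp v)) +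
        ∫ t : ℝ, r t * gW W (σ + t * I) * px (σ + t * I) y

/-- A piece of the Voronoi series of the divisor problem. -/
noncomputable def HH (P : Vo) (M N : ℕ) (x : ℝ) : ℂ :=
  ∑ m ∈ Finset.Ioc M N, ((dv m / m : ℝ) : ℂ) * J0 P 2 (m * x)

/-- The main term of the divisor problem. -/
noncomputable def Mk (k : ℕ) (x : ℝ) : ℂ := (zs k).res fun s => (x : ℂ) ^ s / s

/-- Its derivative. -/
noncomputable def Md (k : ℕ) (x : ℝ) : ℂ := ((zs k).res fun s => (x : ℂ) ^ s) / x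

/-- The sawtooth function. -/
noncomputable def saw (u : ℝ) : ℝ := Int.fract u - 1 / 2

/-- The sum of sawtooth functions. -/
noncomputable def sawS (N : ℕ) (x : ℝ) : ℂ :=
  ((∑ n ∈ Finset.Icc 1 N, dv n * saw (x / n) : ℝ) : ℂ)

/-- The sum of dilated error terms. -/
noncomputable def GG (N : ℕ) (x : ℝ) : ℂ := ∑ a ∈ Finset.Icc 1 ⌊x / N⌋₊, (zs 2).E (x / a)

/-- The logarithmic sum of the divisor function. -/
noncomputable def AA (N : ℕ) : ℝ := ∑ n ∈ Finset.Icc 1 N, dv n / n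

/-- The smooth remainder in the hyperbola method. -/
noncomputable def SS (N : ℕ) (x : ℝ) : ℂ :=
  x * (AA N - (zs 2).E N / N) - Mk 2 N / 2 +
    ∑ a ∈ Finset.Icc 1 ⌊x / N⌋₊, (Mk 2 (x / a) - Mk 2 N) - Mk 3 x

/-- Its right derivative. -/
noncomputable def SD (N : ℕ) (x : ℝ) : ℂ :=
  AA N - (zs 2).E N / N + ∑ a ∈ Finset.Icc 1 ⌊x / N⌋₊, Md 2 (x / a) / a - Md 3 x

/-- The terms near the diagonal. -/
noncomputable def od (n : ℕ) : ℝ := ∑ k ∈ (Finset.Icc 1 (2 * n)).erase n, dv k / |(k : ℝ) - n|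

/-- The diagonal sum. -/
noncomputable def fa (m : ℕ) (Z : ℝ) : ℝ := ∑ a ∈ Finset.Icc 1 ⌊Z⌋₊, dv (a * m) / a

/-- The correlation of two kernels. -/
noncomputable def Lam (P : Vo) (m α β b : ℝ) : ℂ := ∫ x in α..β, J0 P 2 (m * x) * J0 P 2 (b * x)

/-- The size of the Mellin transform of the kernel. -/
noncomputable def mw (V t : ℝ) : ℝ := min (√(jb t) / V) (√V / jb t)

/-- The parameter of the hyperbola method. -/
noncomputable def NN (L T : ℝ) (j : ℕ) : ℕ := ⌈L * √T * (2 ^ j : ℝ) ^ (1 / 8 : ℝ)⌉₊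

/-- The number of blocks. -/
noncomputable def JJ (T : ℝ) : ℕ := Nat.log 2 ⌊T ^ (2 / 5 : ℝ)⌋₊

/-- The diagonal terms of a block. -/
noncomputable def dB (j : ℕ) (Z : ℝ) : ℝ :=
  ∑ m ∈ Finset.Ioc (2 ^ j / 2) (2 ^ j), dv m / (m : ℝ) ^ (3 / 2 : ℝ) * fa m Z

theorem zs_deg (k : ℕ) : (zs k).deg = k := by
  change 2 * ∑ _i : Fin k, (1 / 2 : ℝ) = k
  simp only [Finset.sum_const, Finset.card_univ, Fintype.card_fin, nsmul_eq_mul]
  ring

theorem zs_deg2 : (zs 2).deg = 2 := by rw [zs_deg]; norm_num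

theorem zs_deg3 : (zs 3).deg = 3 := by rw [zs_deg]; norm_num

theorem zs_L (k : ℕ) {s : ℂ} (hs : s ≠ 1) : (zs k).L s = riemannZeta s ^ k := zeta_L k hs

theorem dv_nonneg (n : ℕ) : 0 ≤ dv n := Nat.cast_nonneg _

theorem zs_f2 (n : ℕ) : (zs 2).f n = (dv n : ℝ) := by
  have h : (ArithmeticFunction.zeta ^ 2) n = n.divisors.card := by
    rw [sq, ArithmeticFunction.zeta_mul_apply, Finset.card_eq_sum_ones]
    refine Finset.sum_congr rfl fun i hi => ?_
    rw [ArithmeticFunction.zeta_apply_ne (Nat.pos_of_mem_divisors hi).ne']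
  simp only [zs, dv, h, ofReal_natCast]

theorem zs_f3 (n : ℕ) : (zs 3).f n = ((∑ p ∈ n.divisorsAntidiagonal, dv p.2 : ℝ) : ℂ) := by
  have h2 := fun n => zs_f2 n
  simp only [zs] at h2 ⊢
  rw [pow_succ', ArithmeticFunction.mul_apply]
  push_cast
  refine Finset.sum_congr rfl fun p hp => ?_
  have h := Nat.left_ne_zero_of_mem_divisorsAntidiagonal hp
  rw [ArithmeticFunction.zeta_apply_ne h, h2]
  simp

theorem Del_eq (k : ℕ) (x : ℝ) : Del k x = (zs k).E x := by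
  unfold Del Sel.E Sel.res
  congr 2
  refine circleIntegral.integral_congr (by norm_num) fun s hs => ?_
  have h : s ≠ 1 := by
    rintro rfl
    norm_num at hs
  simp only [zs_L k h]

theorem E_eq (k : ℕ) (x : ℝ) :
    (zs k).E x = ∑ n ∈ Finset.Icc 1 ⌊x⌋₊, (zs k).f n - Mk k x := rfl

theorem HH_eq (P : Vo) (M N : ℕ) : (zs 2).H P M N = HH P M N := by
  funext x
  simp only [Sel.H, HH, zs_f2, zs_deg2, conj_ofReal, ofReal_div, ofReal_natCast]

theorem mw_nonneg {V : ℝ} (hV : 0 ≤ V) (t : ℝ) : 0 ≤ mw V t :=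
  le_min (by positivity) (by have := jb_pos t; positivity)

theorem saw_le (u : ℝ) : |saw u| ≤ 1 / 2 :=
  abs_le.2 ⟨by unfold saw; linarith [Int.fract_nonneg u], by unfold saw; linarith [Int.fract_lt_one u]⟩

theorem saw_meas (c : ℝ) : Measurable fun x : ℝ => saw (x / c) :=
  (measurable_fract.comp (measurable_id.div_const c)).sub measurable_const

theorem bm_saw (c T : ℝ) : Bm (fun x => ((saw (x / c) : ℝ) : ℂ)) T :=
  ⟨(measurable_ofReal.comp (saw_meas c)).aestronglyMeasurable, 1 / 2, fun x _ => by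
    rw [norm_real]
    exact saw_le _⟩

theorem sawS_le (N : ℕ) (x : ℝ) : ‖sawS N x‖ ≤ ∑ n ∈ Finset.Icc 1 N, dv n := by
  rw [sawS, norm_real]
  refine (Finset.abs_sum_le_sum_abs _ _).trans (Finset.sum_le_sum fun n _ => ?_)
  rw [abs_mul, abs_of_nonneg (dv_nonneg n)]
  exact mul_le_of_le_one_right (dv_nonneg n) ((saw_le _).trans (by norm_num))

theorem bm_sawS (N : ℕ) (T : ℝ) : Bm (sawS N) T :=
  ⟨(measurable_ofReal.comp (Finset.measurable_sum _ fun (n : ℕ) _ =>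
    (saw_meas n).const_mul (dv n))).aestronglyMeasurable, _, fun x _ => sawS_le N x⟩

theorem bm_pos {T : ℝ} (hT : 0 < T) {h : ℝ → ℂ} (hh : ContinuousOn h (Ioi 0)) : Bm h T :=
  Bm.of_cont (hh.mono fun _ hx => hT.trans_le hx.1)

theorem HH_cont (P : Vo) (M N : ℕ) : ContinuousOn (HH P M N) (Ioi 0) := by
  refine continuousOn_finsetSum _ fun m hm => continuousOn_const.mul ?_
  have h : (0 : ℝ) < m := by exact_mod_cast (Nat.zero_le M).trans_lt (Finset.mem_Ioc.1 hm).1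
  exact (J0_cont P 2).comp (continuousOn_const.mul continuousOn_id) fun x hx => mul_pos h hx

end Pool.Agent.Lib.MP_2a1a00_nt
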