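import Pool.Agent.Lib.MP_2a1a00_nt.R.Z1
import Pool.Agent.Lib.MP_2a1a00_nt.V.F2

/-! The explicit Voronoi kernel. -/

namespace Pool.Agent.Lib.MP_2a1a00_nt

open Complex MeasureTheory Set

theorem rz2_mdl (F : Sel) (c₁ c₂ : ℂ) {d Lb : ℝ} {a : ℂ} (hd0 : 0 < d) (hdd : d = F.deg)
    (hLb : Lb = Real.log (F.q / F.deg ^ F.deg)) (ha : a = al d + (-F.th / d : ℝ) * I) {σ W y : ℝ}
    (hσ : σ < al d) (hW : 0 < W) (hy : 0 < y) :
    Integrable (fun t : ℝ => F.mdl c₁ c₂ (σ + t * I) * ((y : ℂ) ^ (σ + t * I : ℂ) * gW W (σ + t * I))) ∧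
      Ln (fun s => F.mdl c₁ c₂ s * ((y : ℂ) ^ s * gW W s)) σ =
        ∫ v : ℝ, (ph W v : ℂ) * J0 ⟨c₁ * exp ((1 / 2 - a) * Lb) / d, c₂ * exp ((1 / 2 - a) * Lb) / d,
          -F.th / d, Real.exp (-Lb / d)⟩ d (y * Real.exp v) := by
  have hdc : (d : ℂ) ≠ 0 := ofReal_ne_zero.2 hd0.ne'
  obtain ⟨u, hu⟩ : ∃ u : ℝ, u = (Real.log y - Lb) / d := ⟨_, rfl⟩
  obtain ⟨c, hc⟩ : ∃ c : ℝ, c = d * (1 / 2 - σ) - 1 / 2 := ⟨_, rfl⟩
  have hc0 : 0 < c := by
    have h1 : d * σ < d * al d := mul_lt_mul_of_pos_left hσ hd0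
    have h2 : d * al d = d / 2 - 1 / 2 := by
      unfold al
      field_simp
    rw [hc]
    linarith
  obtain ⟨h, hh⟩ : ∃ h : ℝ → ℂ → ℂ, h = fun (ς : ℝ) (z : ℂ) =>
      Gamma z * exp (-z * (u - (ς * (Real.pi / 2) : ℝ) * I)) * gW W (a - z / d) := ⟨_, rfl⟩
  obtain ⟨K, hK⟩ : ∃ K : ℂ, K = exp ((1 / 2 - a) * Lb) * px a y := ⟨_, rfl⟩
  have key : ∀ t : ℝ, F.mdl c₁ c₂ (σ + t * I) * ((y : ℂ) ^ (σ + t * I : ℂ) * gW W (σ + t * I)) =
      K * c₁ * h 1 (c + (-d * t - F.th : ℝ) * I) + K * c₂ * h (-1) (c + (-d * t - F.th : ℝ) * I) := by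
    intro t
    have hz : F.zz (σ + t * I) = c + (-d * t - F.th : ℝ) * I := by
      rw [Sel.zz, ← hdd, hc]
      push_cast
      ring
    obtain ⟨z, hz'⟩ : ∃ z : ℂ, z = c + (-d * t - F.th : ℝ) * I := ⟨_, rfl⟩
    have hs : (σ + t * I : ℂ) = a - z / d := by
      rw [hz', ha, hc, al]
      push_cast
      field_simp
      ring
    rw [Sel.mdl, hz, ← hz', ← hLb, px_cpow _ hy, hs, hh, hK]
    simp only [px]
    have e1 : exp ((1 / 2 - (a - z / d)) * Lb) * exp (Real.pi / 2 * I * z) *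
        exp ((a - z / d) * (Real.log y : ℝ)) = exp ((1 / 2 - a) * Lb) * exp (a * (Real.log y : ℝ)) *
        exp (-z * (u - (1 * (Real.pi / 2) : ℝ) * I)) := by
      rw [← exp_add, ← exp_add, ← exp_add, ← exp_add, hu]
      congr 1
      push_cast
      field_simp
      ring
    have e2 : exp ((1 / 2 - (a - z / d)) * Lb) * exp (-(Real.pi / 2 * I * z)) *
        exp ((a - z / d) * (Real.log y : ℝ)) = exp ((1 / 2 - a) * Lb) * exp (a * (Real.log y : ℝ)) *
        exp (-z * (u - (-1 * (Real.pi / 2) : ℝ) * I)) := by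
      rw [← exp_add, ← exp_add, ← exp_add, ← exp_add, hu]
      congr 1
      push_cast
      field_simp
      ring
    linear_combination c₁ * Gamma z * gW W (a - z / d) * e1 + c₂ * Gamma z * gW W (a - z / d) * e2
  have hi : ∀ ς : ℝ, ς = 1 ∨ ς = -1 →
      Integrable fun t : ℝ => h ς (c + (-d * t - F.th : ℝ) * I) := by
    intro ς hς
    refine vker_int hd0 c F.th ?_
    rw [hh]
    refine me2_int hc0 hd0 hW a u (φ := ς * (Real.pi / 2)) ?_
    have := Real.pi_pos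
    rcases hς with rfl | rfl
    · rw [one_mul, abs_of_pos (by positivity)]
    · rw [neg_one_mul, abs_neg, abs_of_pos (by positivity)]
  have h1 := (hi 1 (Or.inl rfl)).const_mul (K * c₁)
  have h2 := (hi (-1) (Or.inr rfl)).const_mul (K * c₂)
  refine ⟨by simp only [key]; exact h1.add h2, ?_⟩
  have hm : ∀ ς : ℝ, ς = 1 ∨ ς = -1 → (1 / (2 * Real.pi) : ℝ) *
      ∫ t : ℝ, h ς (c + (-d * t - F.th : ℝ) * I) = (1 / d : ℝ) *
      ∫ v : ℝ, (ph W v : ℂ) * exp (a * v) * exp (I * (ς * Real.exp (u + v / d) : ℝ)) := by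
    intro ς hς
    rw [ker_subst (h ς) hd0, hh]
    exact congrArg _ (mel_mod hc0 hd0 hW a u hς)
  have hr : ∀ v : ℝ, Real.exp (-Lb / d) * (y * Real.exp v) ^ (1 / d) = Real.exp (u + v / d) := by
    intro v
    rw [Real.rpow_def_of_pos (by positivity), ← Real.exp_add, Real.log_mul hy.ne' (Real.exp_pos v).ne',
      Real.log_exp, hu]
    congr 1
    field_simp
    ring
  have hJ : ∀ v : ℝ, (ph W v : ℂ) * J0 ⟨c₁ * exp ((1 / 2 - a) * Lb) / d, c₂ * exp ((1 / 2 - a) * Lb) / d,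
      -F.th / d, Real.exp (-Lb / d)⟩ d (y * Real.exp v) =
      K * c₁ * (1 / d : ℝ) * ((ph W v : ℂ) * exp (a * v) * exp (I * (1 * Real.exp (u + v / d) : ℝ))) +
      K * c₂ * (1 / d : ℝ) *
        ((ph W v : ℂ) * exp (a * v) * exp (I * (-1 * Real.exp (u + v / d) : ℝ))) := by
    intro v
    simp only [J0, Vo.ex]
    rw [← ha, neg_mul, hr, px_mul _ hy (Real.exp_pos v), px_exp, hK, one_mul, neg_one_mul]
    push_cast
    ring
  have hk : ∀ ς : ℝ, Continuous fun v : ℝ => ς * Real.exp (u + v / d) := fun ς => by fun_prop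
  simp only [Ln, key, hJ]
  rw [integral_add h1 h2, integral_add ((vker_osc hW a (hk 1)).const_mul _)
    ((vker_osc hW a (hk (-1))).const_mul _), integral_const_mul, integral_const_mul,
    integral_const_mul, integral_const_mul]
  linear_combination K * c₁ * hm 1 (Or.inl rfl) + K * c₂ * hm (-1) (Or.inr rfl)

theorem rz2_vor (F : Sel) (hd : 2 ≤ F.deg) {P : Vo} (hP : 0 < P.ka)
    (hk : ∀ η : ℝ, 0 < η → η < 1 / (2 * F.deg) → ∃ C : ℝ, 0 < C ∧ ∀ W y : ℝ, 1 ≤ W → 0 < y →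
      ‖F.kr W y - ∫ v : ℝ, (ph W v : ℂ) * J0 P F.deg (y * Real.exp v)‖ ≤
        C * y ^ (1 / 2 - 1 / F.deg + η)) : F.Vor P := by
  refine ⟨hP, fun ε hε => ?_⟩
  set d := F.deg with hdd
  have hd0 : 0 < d := by linarith
  obtain ⟨η, η0, η1, η2⟩ : ∃ η : ℝ, 0 < η ∧ η < 1 / (2 * d) ∧ η * (2 * d + ε) ≤ ε / 2 := by
    refine ⟨min (1 / (4 * d)) (ε / 2 / (2 * d + ε)), by positivity,
      (min_le_left _ _).trans_lt (one_div_lt_one_div_of_lt (by positivity) (by linarith)), ?_⟩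
    rw [← le_div_iff₀ (by positivity)]
    exact min_le_right _ _
  have η3 : 1 / (2 * d) ≤ 1 / 4 := one_div_le_one_div_of_le (by norm_num) (by linarith)
  have η4 : 1 / d = 2 * (1 / (2 * d)) := by field_simp
  obtain ⟨A, A0, A1⟩ : ∃ A : ℝ, η < A ∧ d / 2 + 1 ≤ A * ε := by
    refine ⟨η + 1 + (d / 2 + 1) / ε, by
      have : 0 < (d / 2 + 1) / ε := by positivity
      linarith, ?_⟩
    rw [add_mul, div_mul_cancel₀ _ hε.ne']
    have : 0 < (η + 1) * ε := by positivity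
    linarith
  obtain ⟨C1, hC1, h1⟩ := F.B_split η0 A0
  obtain ⟨C2, hC2, h2⟩ := F.ram' η0
  obtain ⟨C3, hC3, h3⟩ := hk η η0 η1
  obtain ⟨C4, hC4, h4⟩ := sum_rpow_head η0
  obtain ⟨C5, hC5, h5⟩ := f2_cut P hd (d + 2 * ε)
  obtain ⟨a1, a2, -⟩ := al_mem hd
  have hC2' : 0 < C2 := by linarith
  refine ⟨4 * C1 + C2 * C4 * (2 * C3 + 2 * C5), by positivity, fun T W hT hTW hWT x hx => ?_⟩
  have hT0 : 0 < T := by linarith
  have hW : 1 ≤ W := (Real.one_le_sqrt.2 hT).trans hTW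
  have hW0 : 0 < W := by linarith
  have hx0 : 0 < x := hT0.trans_le hx.1
  set t := Real.log T with ht
  set w := Real.log W with hw
  have w0 : 0 ≤ w := Real.log_nonneg hW
  have w1 : w ≤ t := Real.log_le_log hW0 hWT
  have w2 : t ≤ 2 * w := by
    have := Real.log_le_log (Real.sqrt_pos.2 hT0) hTW
    rw [Real.log_sqrt hT0.le] at this
    linarith
  have t0 : 0 ≤ t := w0.trans w1
  have eW : ∀ a : ℝ, W ^ a = Real.exp (w * a) := fun a => Real.rpow_def_of_pos hW0 a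
  have eT : ∀ a : ℝ, T ^ a = Real.exp (t * a) := fun a => Real.rpow_def_of_pos hT0 a
  have eT1 : T = Real.exp t := (Real.exp_log hT0).symm
  set Y := W ^ d * T ^ (ε - 1) with hY
  have eY : Y = Real.exp (w * d + t * (ε - 1)) := by rw [hY, eW, eT, Real.exp_add]
  have eZ : Y * T = Real.exp (w * d + t * ε) := by
    rw [eY, eT1, ← Real.exp_add]
    congr 1
    ring
  set N := ⌊Y⌋₊ with hN
  have Y0 : 0 ≤ Y := by rw [eY]; positivity
  have N1 : (N : ℝ) ≤ Y := Nat.floor_le Y0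
  have N2 : Y < N + 1 := Nat.lt_floor_add_one Y
  have N0 : (0 : ℝ) ≤ N := Nat.cast_nonneg N
  have N3 : (N : ℝ) ≤ Real.exp (t * (d + ε)) := by
    refine N1.trans ?_
    rw [eY, Real.exp_le_exp]
    linarith [mul_le_mul_of_nonneg_right w1 hd0.le]
  have N4 : 1 ≤ Real.exp (t * (d + ε)) := Real.one_le_exp (by positivity)
  have two : ∀ a : ℝ, a ≤ 1 → (2 : ℝ) ^ a ≤ 2 := fun a ha => by
    simpa using Real.rpow_le_rpow_of_exponent_le one_le_two ha
  set R := T ^ ε * W ^ (d / 2 - 1) with hR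
  have eR : R = Real.exp (t * ε + w * (d / 2 - 1)) := by rw [hR, eW, eT, Real.exp_add]
  have wd : 0 ≤ w * (d / 2 - 1) := mul_nonneg w0 (by linarith)
  have tη : t * (η * (2 * d + ε)) ≤ t * (ε / 2) := mul_le_mul_of_nonneg_left η2 t0
  have tη0 : 0 ≤ t * η * d := by positivity
  have tε0 : 0 ≤ t * ε := by positivity
  have N5 : (N : ℝ) ^ η ≤ Real.exp (t * (d + ε) * η) := by
    rw [Real.exp_mul]
    exact Real.rpow_le_rpow N0 N3 η0.le
  have N6 : Real.exp (t * (d + ε) * η) ≤ R := by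
    rw [eR, Real.exp_le_exp]
    linarith
  have b1 : ((N : ℝ) + 1) ^ η ≤ 2 * R := by
    calc ((N : ℝ) + 1) ^ η ≤ (2 * Real.exp (t * (d + ε))) ^ η :=
          Real.rpow_le_rpow (by positivity) (by linarith) η0.le
      _ = 2 ^ η * Real.exp (t * (d + ε) * η) := by
          rw [Real.mul_rpow (by norm_num) (by positivity), Real.exp_mul (t * (d + ε))]
      _ ≤ 2 * R := mul_le_mul (two η (by linarith)) N6 (by positivity) (by norm_num)
  have b2 : (((N : ℝ) + 1) * x) ^ (-A) * W ^ (d * (1 / 2 + A) + 1) ≤ 1 := by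
    have e1 : (((N : ℝ) + 1) * x) ^ (-A) ≤ Real.exp ((w * d + t * ε) * (-A)) := by
      rw [Real.exp_mul]
      refine Real.rpow_le_rpow_of_nonpos (Real.exp_pos _) ?_ (by linarith)
      rw [← eZ]
      exact mul_le_mul N2.le hx.1 hT0.le (by positivity)
    refine (mul_le_mul_of_nonneg_right e1 (by positivity)).trans ?_
    rw [eW, ← Real.exp_add, Real.exp_le_one_iff]
    have e2 : w * (d / 2 + 1) ≤ t * (A * ε) := mul_le_mul w1 A1 (by positivity) t0
    linarith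
  have R0 : 0 < R := by rw [eR]; positivity
  have I1 := (h1 W x N hW hx0).trans (show C1 * ((N : ℝ) + 1) ^ η * (1 + (((N : ℝ) + 1) * x) ^ (-A) *
      W ^ (d * (1 / 2 + A) + 1)) ≤ C1 * (2 * R) * 2 from
    mul_le_mul (mul_le_mul_of_nonneg_left b1 hC1.le) (by linarith) (by positivity) (by positivity))
  set S := Real.exp (w * (d / 2 - 1) + t * (d * η + ε / 2)) with hS
  have S1 : 1 ≤ S := Real.one_le_exp (by positivity)
  have I2 : ∀ n ∈ Finset.Ioc 0 N, ‖(starRingEnd ℂ) (F.f n) / n * F.kr W (n * x) -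
      (starRingEnd ℂ) (F.f n) / n * av W (J0 P d) (n * x)‖ ≤
        C2 * ((2 * C3 + 2 * C5) * S) * (n : ℝ) ^ (η - 1) := by
    intro n hn
    obtain ⟨n1, n2⟩ := Finset.mem_Ioc.1 hn
    have n3 : (1 : ℝ) ≤ n := Nat.one_le_cast.2 n1
    have n4 : (n : ℝ) ≤ N := Nat.cast_le.2 n2
    have n0 : (0 : ℝ) < n := by linarith
    have y0 : 0 < (n : ℝ) * x := mul_pos n0 hx0
    have y1 : 1 ≤ (n : ℝ) * x := one_le_mul_of_one_le_of_one_le n3 (hT.trans hx.1)
    have y2 : (n : ℝ) * x ≤ 2 * Real.exp (w * d + t * ε) := by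
      rw [← eZ]
      calc (n : ℝ) * x ≤ Y * (2 * T) := mul_le_mul (n4.trans N1) hx.2 hx0.le Y0
        _ = _ := by ring
    have c1 : ‖(starRingEnd ℂ) (F.f n) / n‖ ≤ C2 * (n : ℝ) ^ (η - 1) := by
      rw [norm_div, Complex.norm_conj, Complex.norm_natCast, Real.rpow_sub_one n0.ne',
        ← mul_div_assoc]
      exact div_le_div_of_nonneg_right (h2 n n1) n0.le
    have c2 : ((n : ℝ) * x) ^ (1 / 2 - 1 / d + η) ≤ 2 * S := by
      have σ0 : 0 ≤ 1 / 2 - 1 / d + η := by linarith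
      have σ1 : 1 / 2 - 1 / d + η ≤ 1 / 2 := by linarith
      calc ((n : ℝ) * x) ^ (1 / 2 - 1 / d + η)
          ≤ (2 * Real.exp (w * d + t * ε)) ^ (1 / 2 - 1 / d + η) := Real.rpow_le_rpow y0.le y2 σ0
        _ = 2 ^ (1 / 2 - 1 / d + η) * Real.exp ((w * d + t * ε) * (1 / 2 - 1 / d + η)) := by
            rw [Real.mul_rpow (by norm_num) (by positivity), Real.exp_mul (w * d + t * ε)]
        _ ≤ 2 * S := by
            refine mul_le_mul (two _ (by linarith)) (Real.exp_le_exp.2 ?_) (by positivity)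
              (by norm_num)
            have e1 : w * d * (1 / 2 - 1 / d + η) = w * (d / 2 - 1) + w * (d * η) := by
              field_simp
            have e2 : w * (d * η) ≤ t * (d * η) := mul_le_mul_of_nonneg_right w1 (by positivity)
            have e3 : t * ε * (1 / 2 - 1 / d + η) ≤ t * ε * (1 / 2) :=
              mul_le_mul_of_nonneg_left σ1 tε0
            rw [add_mul, e1]
            linarith
    have c3 : ((n : ℝ) * x) ^ al d * W ^ (-(d + 2 * ε)) ≤ 2 * S := by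
      have e1 : ((n : ℝ) * x) ^ al d ≤ n * x := by
        simpa using Real.rpow_le_rpow_of_exponent_le y1 (show al d ≤ 1 by linarith)
      have e2 : Real.exp (w * d + t * ε) * W ^ (-(d + 2 * ε)) ≤ 1 := by
        rw [eW, ← Real.exp_add, Real.exp_le_one_iff]
        linarith [mul_le_mul_of_nonneg_right w2 hε.le]
      calc ((n : ℝ) * x) ^ al d * W ^ (-(d + 2 * ε))
          ≤ 2 * Real.exp (w * d + t * ε) * W ^ (-(d + 2 * ε)) :=
            mul_le_mul_of_nonneg_right (e1.trans y2) (by positivity)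
        _ ≤ 2 * S := by rw [mul_assoc]; linarith
    have c4 : ‖F.kr W (n * x) - av W (J0 P d) (n * x)‖ ≤ (2 * C3 + 2 * C5) * S := by
      refine (norm_sub_le_norm_sub_add_norm_sub _ _ _).trans
        ((add_le_add (h3 W _ hW y0) (h5 W _ hW y0)).trans ?_)
      have e1 := mul_le_mul_of_nonneg_left c2 hC3.le
      have e2 := mul_le_mul_of_nonneg_left c3 hC5.le
      rw [mul_assoc C5]
      linarith
    rw [← mul_sub, norm_mul]
    calc _ ≤ C2 * (n : ℝ) ^ (η - 1) * ((2 * C3 + 2 * C5) * S) :=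
          mul_le_mul c1 c4 (norm_nonneg _) (by positivity)
      _ = _ := by ring
  have I3 : ‖∑ n ∈ Finset.Ioc 0 N, (starRingEnd ℂ) (F.f n) / n * F.kr W (n * x) -
      av W (F.H P 0 N) x‖ ≤ C2 * ((2 * C3 + 2 * C5) * S) * (C4 * (N : ℝ) ^ η) := by
    rw [Sel.f2_av F P W N hx0, ← Finset.sum_sub_distrib]
    refine (norm_sum_le_of_le _ I2).trans ?_
    rw [← Finset.mul_sum]
    refine mul_le_mul_of_nonneg_left ?_ (by positivity)
    have e : Finset.Ioc 0 N = Finset.Icc 1 N := by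
      ext n
      simp only [Finset.mem_Ioc, Finset.mem_Icc]
      omega
    rw [e]
    exact h4 N
  have I4 : S * (N : ℝ) ^ η ≤ R := by
    refine (mul_le_mul_of_nonneg_left N5 (by positivity)).trans ?_
    rw [hS, eR, ← Real.exp_add, Real.exp_le_exp]
    linarith
  refine (norm_sub_le_norm_sub_add_norm_sub _ _ _).trans ((add_le_add I1 I3).trans ?_)
  have I5 := mul_le_mul_of_nonneg_left I4 (show 0 ≤ C2 * C4 * (2 * C3 + 2 * C5) by positivity)
  rw [mul_assoc _ (T ^ ε)]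
  linarith

theorem rz2_line {σ W y : ℝ} (hσ : 0 < σ ∧ σ ≤ 1 / 2 ∨ σ < 0) (hW : 0 < W) (hy : 0 < y) :
    (zs 2).kr W y = Ln (fun s => (zs 2).chi s / s * ((y : ℂ) ^ s * gW W s)) σ ∧
      Integrable fun t : ℝ => (zs 2).chi (σ + t * I) / (σ + t * I) *
        ((y : ℂ) ^ (σ + t * I : ℂ) * gW W (σ + t * I)) := by
  rcases hσ with ⟨h0, h1⟩ | h0
  · have hD := (zs 2).vker_dec h0 hW hy
    refine ⟨?_, ?_⟩
    · have e : (fun s => (zs 2).chi s / s * ((y : ℂ) ^ s * gW W s)) =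
          fun s => (zs 2).chi s / s * (y : ℂ) ^ s * gW W s := by
        funext s
        ring
      rw [e, hD.shift h1, Sel.kr]
      refine Ln_congr fun v => ?_
      ring
    · simpa only [mul_assoc] using hD.integrable le_rfl h1
  · obtain ⟨A, rfl⟩ : ∃ A, σ = -A := ⟨-σ, (neg_neg σ).symm⟩
    obtain ⟨C, K, hC, h⟩ := (zs 2).vf1_chi A
    have dc : DifferentiableOn ℂ (zs 2).chi (St (-A) (1 / 2)) :=
      (zs 2).chi_diff.mono fun s hs => lt_of_le_of_lt hs.2 (by norm_num)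
    obtain ⟨e1, i1⟩ := Sel.vf1_shift (by linarith) hW hy hC.le dc h
    have e : (fun s => (zs 2).chi s * ((y : ℂ) ^ s * (gW W s / s))) =
        fun s => (zs 2).chi s / s * ((y : ℂ) ^ s * gW W s) := by
      funext s
      ring
    refine ⟨?_, ?_⟩
    · rw [Sel.kr, e1, zs_chi0, zero_add, e]
    · rw [e] at i1
      exact i1

theorem rz2_Lb : Real.log ((zs 2).q / (zs 2).deg ^ (zs 2).deg) = -(2 * Real.log (4 * Real.pi)) := by
  have := Real.pi_pos
  rw [zs_q2, zs_deg2, Real.rpow_two, show 1 / (4 * Real.pi ^ 2) / 2 ^ 2 = ((4 * Real.pi) ^ 2)⁻¹ by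
    field_simp
    norm_num, Real.log_inv, Real.log_pow]
  norm_num

/- Copy `ker_mdl`, `kernel` (V/Ker) and `vor` (V/F2) with the explicit kernel
`P = ⟨c₁ * exp ((1 / 2 - a) * Lb) / d, c₂ * exp ((1 / 2 - a) * Lb) / d, -th / d, exp (-Lb / d)⟩`,
`Lb = log (q / d ^ d) = -log (16 π ^ 2)`, `a = 1 / 4`, `d = 2`.  For `rho` put
`r t = (1 / (2 π)) * (chi s / s - mdl s)`, `s = σ + t i`; `vker_dec` and `Dec.shift` for `σ = 1 / 8`,
`vf1_shift` with `A = 1 / 8` and `zs_chi0` for `σ = -1 / 8`. -/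
theorem exists_good : ∃ P : Vo, Good P := by
  obtain ⟨c₁, c₂, hc, hm⟩ := rz1_model
  have hπ := Real.pi_pos
  obtain ⟨Lb, hLb⟩ : ∃ Lb, Lb = Real.log ((zs 2).q / (zs 2).deg ^ (zs 2).deg) := ⟨_, rfl⟩
  obtain ⟨a, ha⟩ : ∃ a : ℂ, a = al 2 + (-(zs 2).th / 2 : ℝ) * I := ⟨_, rfl⟩
  obtain ⟨P, hP⟩ : ∃ P : Vo, P = ⟨c₁ * exp ((1 / 2 - a) * Lb) / (2 : ℝ),
    c₂ * exp ((1 / 2 - a) * Lb) / (2 : ℝ), -(zs 2).th / 2, Real.exp (-Lb / 2)⟩ := ⟨_, rfl⟩
  have hka : P.ka = 4 * Real.pi := by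
    rw [hP]
    change Real.exp (-Lb / 2) = _
    rw [hLb, rz2_Lb, show -(-(2 * Real.log (4 * Real.pi))) / 2 = Real.log (4 * Real.pi) by ring,
      Real.exp_log (by positivity)]
  have key : ∀ σ W y : ℝ, 0 < σ ∨ σ < 0 → σ < 1 / 4 → 0 < W → 0 < y →
      (zs 2).kr W y - ∫ v : ℝ, (ph W v : ℂ) * J0 P 2 (y * Real.exp v) =
        Ln (fun s => ((zs 2).chi s / s - (zs 2).mdl c₁ c₂ s) * ((y : ℂ) ^ s * gW W s)) σ := by
    intro σ W y h0 h1 hW hy
    obtain ⟨k1, k2⟩ := rz2_mdl (zs 2) c₁ c₂ (d := 2) two_pos zs_deg2.symm hLb ha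
      (σ := σ) (by rw [al_two]; exact h1) hW hy
    obtain ⟨l1, l2⟩ := rz2_line (σ := σ) (h0.imp_left fun h => ⟨h, by linarith⟩) hW hy
    rw [← hP] at k2
    rw [l1, ← k2, ← Ln_sub (g₁ := fun s => (zs 2).chi s / s * ((y : ℂ) ^ s * gW W s))
      (g₂ := fun s => (zs 2).mdl c₁ c₂ s * ((y : ℂ) ^ s * gW W s)) l2 k1]
    refine Ln_congr fun v => ?_
    ring
  refine ⟨P, ?_, hka, ?_, ?_, ?_⟩
  · rw [hP]
    change -(zs 2).th / 2 = 0
    rw [zs_th2]
    norm_num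
  · rw [hP]
    change c₁ * exp ((1 / 2 - a) * Lb) / (2 : ℝ) * (c₂ * exp ((1 / 2 - a) * Lb) / (2 : ℝ)) = _
    have e1 : exp ((1 / 2 - a) * Lb) * exp ((1 / 2 - a) * Lb) = (((4 * Real.pi)⁻¹ : ℝ) : ℂ) := by
      rw [← exp_add, ← Real.exp_log (show 0 < (4 * Real.pi)⁻¹ by positivity), ofReal_exp, Real.log_inv,
        ha, zs_th2, al_two, hLb, rz2_Lb]
      congr 1
      push_cast
      ring
    have e2 : (Real.pi : ℂ) ≠ 0 := ofReal_ne_zero.2 hπ.ne'
    calc _ = c₁ * c₂ * (exp ((1 / 2 - a) * Lb) * exp ((1 / 2 - a) * Lb)) / 4 := by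
          push_cast
          ring
      _ = _ := by
          rw [hc, e1]
          push_cast
          field_simp
          norm_num
  · refine rz2_vor (zs 2) zs_deg2.ge (by rw [hka]; positivity) fun σ h0 h1 => ?_
    rw [zs_deg2] at h1 ⊢
    have h2 : σ < 1 / 4 := by linarith
    obtain ⟨C, hC, -, hb⟩ := hm σ h0.ne' (by linarith) h2
    have hi : Integrable fun v : ℝ => (1 + ‖v‖) ^ (-(1 + 2 * σ)) := by
      refine integrable_one_add_norm ?_
      simp only [Module.finrank_self, Nat.cast_one]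
      linarith
    obtain ⟨J, hJ⟩ : ∃ J, J = ∫ v : ℝ, (1 + ‖v‖) ^ (-(1 + 2 * σ)) := ⟨_, rfl⟩
    have hJ0 : 0 ≤ J := hJ ▸ integral_nonneg fun v => by positivity
    refine ⟨C * Real.exp 1 * (J + 1), by positivity, fun W y hW hy => ?_⟩
    have hW0 : 0 < W := by linarith
    rw [key σ W y (Or.inl h0) h2 hW0 hy, show 1 / 2 - 1 / 2 + σ = σ by ring]
    refine (norm_Ln_le 0 (hi.const_mul (C * Real.exp 1 * y ^ σ)) fun v => ?_).trans ?_
    · rw [zero_add]
      have hg : ‖gW W (σ + v * I)‖ ≤ Real.exp 1 := by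
        rw [norm_gW hW0, Real.exp_le_exp, div_le_one (by positivity)]
        simp only [add_re, ofReal_re, mul_re, I_re, mul_zero, ofReal_im, I_im, mul_one, sub_self,
          add_zero, add_im, mul_im, zero_add]
        nlinarith [sq_nonneg v]
      have hb' := hb v
      rw [show -1 - 2 * σ = -(1 + 2 * σ) by ring] at hb'
      rw [norm_mul, norm_mul, norm_cpow_eq_rpow_re_of_pos hy, Real.norm_eq_abs]
      simp only [add_re, ofReal_re, mul_re, I_re, mul_zero, ofReal_im, I_im, mul_one, sub_self, add_zero]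
      calc _ ≤ C * (1 + |v|) ^ (-(1 + 2 * σ)) * (y ^ σ * Real.exp 1) := by gcongr
        _ = _ := by ring
    · rw [integral_const_mul, ← hJ]
      have : 0 < C * Real.exp 1 * y ^ σ := by positivity
      nlinarith
  · intro σ hσ
    have h0 : 0 < σ ∨ σ < 0 := hσ.imp (fun h => by rw [h]; norm_num) fun h => by rw [h]; norm_num
    have h1 : -1 ≤ σ ∧ σ < 1 / 4 := by rcases hσ with h | h <;> rw [h] <;> norm_num
    obtain ⟨C, hC, hc', hb⟩ := hm σ (h0.elim ne_of_gt ne_of_lt) h1.1 h1.2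
    refine ⟨fun t => (1 / (2 * Real.pi) : ℝ) * ((zs 2).chi (σ + t * I) / (σ + t * I) -
      (zs 2).mdl c₁ c₂ (σ + t * I)), C, hC, continuous_const.mul hc', fun t => ?_, fun W y hW hy => ?_⟩
    · rw [norm_mul, norm_real, Real.norm_of_nonneg (by positivity)]
      refine (mul_le_of_le_one_left (norm_nonneg _) ?_).trans (hb t)
      rw [div_le_one (by positivity)]
      linarith [Real.pi_gt_three]
    · rw [← sub_eq_iff_eq_add', key σ W y h0 h1.2 hW hy, Ln, ← integral_const_mul]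
      refine integral_congr_ae (Filter.Eventually.of_forall fun t => ?_)
      simp only [px_cpow _ hy]
      ring

end Pool.Agent.Lib.MP_2a1a00_nt
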