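import Pool.Agent.Lib.MP_2a1a00_nt.R.Defs
import Pool.Agent.Lib.MP_2a1a00_nt.Div

/-! Sums of the divisor function. -/

namespace Pool.Agent.Lib.MP_2a1a00_nt

open Complex MeasureTheory Set

/- `Nat.divisors_mul`, `Finset.card_mul_le`. -/
theorem dv_mul (a b : ℕ) : dv (a * b) ≤ dv a * dv b := by
  unfold dv
  rw [Nat.divisors_mul]
  exact_mod_cast Finset.card_mul_le

theorem dv_le_self (n : ℕ) : dv n ≤ n := by
  unfold dv
  exact_mod_cast Nat.card_divisors_le_self n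

theorem dv_le {ε : ℝ} (hε : 0 < ε) : ∃ C : ℝ, 1 ≤ C ∧ ∀ n : ℕ, dv n ≤ C * (n : ℝ) ^ ε := by
  obtain ⟨C, hC, h⟩ := card_divisors_le ε hε
  refine ⟨C + 1, by linarith, fun n => (h n).trans ?_⟩
  exact mul_le_mul_of_nonneg_right (by linarith) (by positivity)

/- The pairs `(n, u)` with `u ∣ n` correspond to the pairs `(u, v)` with `u * v ≤ N`. -/
theorem sum_dv_eq {E : Type} [AddCommMonoid E] (N : ℕ) (f : ℕ → ℕ → E) :
    ∑ n ∈ Finset.Icc 1 N, ∑ p ∈ n.divisorsAntidiagonal, f p.1 p.2 =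
      ∑ u ∈ Finset.Icc 1 N, ∑ v ∈ Finset.Icc 1 (N / u), f u v := by
  rw [Finset.sum_sigma', Finset.sum_sigma']
  refine Finset.sum_bij' (fun x _ => ⟨x.2.1, x.2.2⟩) (fun y _ => ⟨y.1 * y.2, (y.1, y.2)⟩)
    ?_ ?_ ?_ ?_ ?_
  · rintro ⟨n, u, v⟩ h
    simp only [Finset.mem_sigma, Finset.mem_Icc, Nat.mem_divisorsAntidiagonal] at h ⊢
    obtain ⟨⟨h1, h2⟩, rfl, -⟩ := h
    have hu : 0 < u := Nat.pos_of_mul_pos_right h1
    have hv : 0 < v := Nat.pos_of_mul_pos_left h1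
    exact ⟨⟨hu, (Nat.le_mul_of_pos_right u hv).trans h2⟩, hv,
      (Nat.le_div_iff_mul_le hu).2 (by rwa [mul_comm])⟩
  · rintro ⟨u, v⟩ h
    simp only [Finset.mem_sigma, Finset.mem_Icc, Nat.mem_divisorsAntidiagonal] at h ⊢
    obtain ⟨⟨h1, -⟩, h2, h3⟩ := h
    have := Nat.mul_pos h1 h2
    exact ⟨⟨this, by rw [mul_comm]; exact (Nat.le_div_iff_mul_le h1).1 h3⟩, trivial, this.ne'⟩
  · rintro ⟨n, u, v⟩ h
    simp only [Finset.mem_sigma, Finset.mem_Icc, Nat.mem_divisorsAntidiagonal] at h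
    obtain ⟨-, rfl, -⟩ := h
    rfl
  · rintro ⟨u, v⟩ _
    rfl
  · rintro ⟨n, u, v⟩ _
    rfl

theorem sum_dv_mul (N : ℕ) (f : ℕ → ℝ) : ∑ n ∈ Finset.Icc 1 N, dv n * f n =
    ∑ u ∈ Finset.Icc 1 N, ∑ v ∈ Finset.Icc 1 (N / u), f (u * v) := by
  rw [← sum_dv_eq N fun u v => f (u * v)]
  refine Finset.sum_congr rfl fun n _ => ?_
  rw [Finset.sum_congr rfl (g := fun _ => f n) fun p hp => by
    rw [(Nat.mem_divisorsAntidiagonal.1 hp).1], Finset.sum_const, nsmul_eq_mul, dv,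
    ← Nat.map_div_right_divisors, Finset.card_map]

theorem ra1_harm (N : ℕ) : ∑ n ∈ Finset.Icc 1 N, ((n : ℝ))⁻¹ ≤ 1 + Real.log N := by
  have := harmonic_le_one_add_log N
  rw [harmonic_eq_sum_Icc] at this
  push_cast at this
  exact this

theorem ra1_nn (n : ℕ) : 0 ≤ dv n := Nat.cast_nonneg _

theorem AA_le (N : ℕ) : AA N ≤ (1 + Real.log N) ^ 2 := by
  unfold AA
  simp only [div_eq_mul_inv]
  rw [sum_dv_mul N fun n => (n : ℝ)⁻¹]
  have h0 : 0 ≤ ∑ n ∈ Finset.Icc 1 N, ((n : ℝ))⁻¹ := by positivity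
  refine le_trans ?_ (pow_le_pow_left₀ h0 (ra1_harm N) 2)
  rw [sq, Finset.sum_mul_sum]
  refine Finset.sum_le_sum fun u _ => ?_
  simp only [Nat.cast_mul, mul_inv]
  exact Finset.sum_le_sum_of_subset_of_nonneg
    (Finset.Icc_subset_Icc_right (Nat.div_le_self _ _)) fun _ _ _ => by positivity

theorem sum_dv_le (N : ℕ) : ∑ n ∈ Finset.Icc 1 N, dv n ≤ N * (1 + Real.log N) := by
  have h := sum_dv_mul N fun _ => 1
  simp only [mul_one] at h
  rw [h]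
  refine le_trans ?_ (mul_le_mul_of_nonneg_left (ra1_harm N) (Nat.cast_nonneg N))
  rw [Finset.mul_sum]
  refine Finset.sum_le_sum fun u _ => ?_
  rw [Finset.sum_const, Nat.card_Icc, Nat.add_sub_cancel, nsmul_eq_mul, mul_one, ← div_eq_mul_inv]
  exact Nat.cast_div_le

/- The terms with `k ≤ n ^ 2` give at most `AA (n ^ 2)`; for `n ^ 2 < k` one has `n ^ (1 / 8) ≤ k ^ (1 / 16)`,
`dv k ≤ C k ^ (1 / 32)`, and `sum_rpow_tail`. -/
theorem tau_sum : ∃ C : ℝ, 0 < C ∧ ∀ n K : ℕ, 1 ≤ n →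
    ∑ k ∈ Finset.Ioc 0 K, dv k / k * min 1 (((n : ℝ) / k) ^ (1 / 8 : ℝ)) ≤
      C * (1 + Real.log n) ^ 2 := by
  obtain ⟨C, hC, h⟩ := dv_le (ε := 1 / 32) (by norm_num)
  obtain ⟨D, hD, h2⟩ := sum_rpow_tail (β := 1 / 32) (by norm_num)
  refine ⟨4 + C * D, by positivity, fun n K hn => ?_⟩
  have hn1 : (1 : ℝ) ≤ n := by exact_mod_cast hn
  have hl : 0 ≤ Real.log n := Real.log_nonneg hn1
  have key : ∀ k ∈ Finset.Ioc 0 K, dv k / k * min 1 (((n : ℝ) / k) ^ (1 / 8 : ℝ)) ≤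
      (if k ≤ n ^ 2 then dv k / k else 0) + C * (k : ℝ) ^ (-1 - 1 / 32 : ℝ) := by
    intro k hk
    have hk0 : (0 : ℝ) < k := by exact_mod_cast (Finset.mem_Ioc.1 hk).1
    have h0 : 0 ≤ dv k / k := div_nonneg (ra1_nn k) hk0.le
    split_ifs with c
    · have h3 := mul_le_mul_of_nonneg_left (min_le_left 1 (((n : ℝ) / k) ^ (1 / 8 : ℝ))) h0
      have h4 : 0 ≤ C * (k : ℝ) ^ (-1 - 1 / 32 : ℝ) := by positivity
      linarith
    · have c' : (n : ℝ) ^ 2 ≤ k := by exact_mod_cast (not_le.1 c).le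
      have h3 : (n : ℝ) / k ≤ (k : ℝ) ^ (-1 / 2 : ℝ) := by
        have h5 : (n : ℝ) ≤ (k : ℝ) ^ (1 / 2 : ℝ) := by
          rw [← Real.sqrt_eq_rpow]
          exact Real.le_sqrt_of_sq_le c'
        rw [div_le_iff₀ hk0, ← Real.rpow_add_one hk0.ne']
        exact h5.trans_eq (by norm_num)
      have h4 : ((n : ℝ) / k) ^ (1 / 8 : ℝ) ≤ (k : ℝ) ^ (-1 / 16 : ℝ) := by
        refine (Real.rpow_le_rpow (by positivity) h3 (by norm_num)).trans_eq ?_
        rw [← Real.rpow_mul hk0.le]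
        norm_num
      rw [zero_add]
      calc _ ≤ C * (k : ℝ) ^ (1 / 32 : ℝ) / k * (k : ℝ) ^ (-1 / 16 : ℝ) :=
            mul_le_mul (div_le_div_of_nonneg_right (h k) hk0.le) ((min_le_right _ _).trans h4)
              (le_min zero_le_one (by positivity)) (by positivity)
        _ = _ := by
            rw [mul_div_assoc, ← Real.rpow_sub_one hk0.ne', mul_assoc, ← Real.rpow_add hk0]
            norm_num
  refine (Finset.sum_le_sum key).trans ?_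
  rw [Finset.sum_add_distrib, ← Finset.mul_sum, ← Finset.sum_filter]
  have h3 : ∑ k ∈ (Finset.Ioc 0 K).filter (fun k => k ≤ n ^ 2), dv k / k ≤ AA (n ^ 2) :=
    Finset.sum_le_sum_of_subset_of_nonneg (fun k hk => by
      simp only [Finset.mem_filter, Finset.mem_Ioc, Finset.mem_Icc] at hk ⊢
      exact ⟨hk.1.1, hk.2⟩) fun k _ _ => div_nonneg (ra1_nn k) (Nat.cast_nonneg k)
  have h4 := AA_le (n ^ 2)
  rw [Nat.cast_pow, Real.log_pow] at h4
  have h5 := h2 0 K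
  rw [Nat.cast_zero, zero_add, Real.one_rpow, mul_one] at h5
  have h6 := mul_le_mul_of_nonneg_left h5 (show 0 ≤ C by linarith)
  have h7 : 0 ≤ C * D := by positivity
  have h8 : C * D * 1 ≤ C * D * (1 + Real.log n) ^ 2 :=
    mul_le_mul_of_nonneg_left (one_le_pow₀ (by linarith)) h7
  push_cast at h4
  nlinarith

theorem dv_tail : ∃ C : ℝ, 0 < C ∧ ∀ K N : ℕ,
    ∑ k ∈ Finset.Ioc K N, dv k / k * (k : ℝ) ^ (-1 / 4 : ℝ) ≤ C * ((K : ℝ) + 1) ^ (-1 / 8 : ℝ) := by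
  obtain ⟨C, hC, h⟩ := dv_le (ε := 1 / 8) (by norm_num)
  obtain ⟨D, hD, h2⟩ := sum_rpow_tail (β := 1 / 8) (by norm_num)
  refine ⟨C * D, by positivity, fun K N => ?_⟩
  have h3 := mul_le_mul_of_nonneg_left (h2 K N) (show 0 ≤ C by linarith)
  rw [show (-1 / 8 : ℝ) = -(1 / 8) by norm_num, mul_assoc]
  refine le_trans ?_ h3
  rw [Finset.mul_sum]
  refine Finset.sum_le_sum fun k hk => ?_
  have hk0 : (0 : ℝ) < k := by
    have := (Finset.mem_Ioc.1 hk).1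
    exact_mod_cast (by omega : 0 < k)
  calc _ ≤ C * (k : ℝ) ^ (1 / 8 : ℝ) / k * (k : ℝ) ^ (-1 / 4 : ℝ) :=
        mul_le_mul_of_nonneg_right (div_le_div_of_nonneg_right (h k) hk0.le) (by positivity)
    _ = _ := by
        rw [mul_div_assoc, ← Real.rpow_sub_one hk0.ne', mul_assoc, ← Real.rpow_add hk0]
        norm_num

/- For the block `(M / 2, M]` every `m` satisfies `M ≤ 2 m`, and there are at most `M` of them. -/
theorem dv_block {ε : ℝ} (hε : 0 < ε) (β : ℝ) (hβ : 0 ≤ β) : ∃ C : ℝ, 0 < C ∧ ∀ M : ℕ, 1 ≤ M →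
    ∑ m ∈ Finset.Ioc (M / 2) M, dv m ^ 2 / (m : ℝ) ^ (1 + β) ≤ C * (M : ℝ) ^ (ε - β) := by
  obtain ⟨C, hC, h⟩ := dv_le (ε := ε / 2) (by positivity)
  refine ⟨C ^ 2 * 2 ^ (1 + β), by positivity, fun M hM => ?_⟩
  have hM0 : (0 : ℝ) < M := by exact_mod_cast hM
  refine (Finset.sum_le_card_nsmul _ _
    (C ^ 2 * 2 ^ (1 + β) * (M : ℝ) ^ (ε - β) / M) fun m hm => ?_).trans ?_
  · obtain ⟨h1, h2⟩ := Finset.mem_Ioc.1 hm
    have hm0 : (0 : ℝ) < m := by exact_mod_cast (by omega : 0 < m)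
    have h3 : (M : ℝ) / 2 ≤ m := by
      rw [div_le_iff₀ two_pos]
      exact_mod_cast (by omega : M ≤ m * 2)
    have h4 : dv m ^ 2 ≤ C ^ 2 * (M : ℝ) ^ ε := by
      refine (pow_le_pow_left₀ (ra1_nn m) (h m) 2).trans ?_
      rw [mul_pow, ← Real.rpow_natCast ((m : ℝ) ^ (ε / 2)), ← Real.rpow_mul hm0.le]
      refine mul_le_mul_of_nonneg_left ?_ (by positivity)
      rw [show ε / 2 * ((2 : ℕ) : ℝ) = ε by push_cast; ring]
      exact Real.rpow_le_rpow hm0.le (by exact_mod_cast h2) hε.le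
    have h5 : ((M : ℝ) / 2) ^ (1 + β) ≤ (m : ℝ) ^ (1 + β) :=
      Real.rpow_le_rpow (by positivity) h3 (by linarith)
    refine (div_le_div₀ (by positivity) h4 (by positivity) h5).trans_eq ?_
    rw [Real.div_rpow hM0.le two_pos.le, Real.rpow_add hM0, Real.rpow_one, Real.rpow_sub hM0]
    field_simp
  · rw [nsmul_eq_mul, Nat.card_Ioc]
    have h1 : ((M - M / 2 : ℕ) : ℝ) ≤ M := by exact_mod_cast Nat.sub_le _ _
    refine (mul_le_mul_of_nonneg_right h1 (by positivity)).trans_eq ?_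
    field_simp

end Pool.Agent.Lib.MP_2a1a00_nt
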