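import Pool.Agent.Lib.MP_2a1a00_nt.R.A1

/-! The divisor function in arithmetic progressions. -/

namespace Pool.Agent.Lib.MP_2a1a00_nt

open Complex MeasureTheory Set

theorem ra2_inj {S T : Finset ℕ} {f g : ℕ → ℝ} (φ : ℕ → ℕ) (hφ : InjOn φ S)
    (hm : ∀ k ∈ S, φ k ∈ T) (h : ∀ k ∈ S, f k ≤ g (φ k)) (hg : ∀ j ∈ T, 0 ≤ g j) :
    ∑ k ∈ S, f k ≤ ∑ j ∈ T, g j := by
  refine (Finset.sum_le_sum h).trans ?_
  rw [← Finset.sum_image hφ]
  exact Finset.sum_le_sum_of_subset_of_nonneg (Finset.image_subset_iff.2 hm) fun j hj _ => hg j hj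

/- A divisor `e` of `n` with `n < e * e` is paired with `n / e`. -/
theorem dv_le_two (n X : ℕ) (h : n ≤ X) :
    dv n ≤ 2 * ∑ e ∈ Finset.Icc 1 (Nat.sqrt X), if e ∣ n then (1 : ℝ) else 0 := by
  rw [Finset.sum_boole]
  have h1 : (n.divisors.filter fun e => e * e ≤ n).card ≤
      ((Finset.Icc 1 (Nat.sqrt X)).filter fun e => e ∣ n).card := by
    refine Finset.card_le_card fun e he => ?_
    rw [Finset.mem_filter] at he ⊢
    exact ⟨Finset.mem_Icc.2 ⟨Nat.pos_of_mem_divisors he.1, Nat.le_sqrt.2 (he.2.trans h)⟩,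
      Nat.dvd_of_mem_divisors he.1⟩
  have h2 : (n.divisors.filter fun e => ¬e * e ≤ n).card ≤
      ((Finset.Icc 1 (Nat.sqrt X)).filter fun e => e ∣ n).card := by
    refine Finset.card_le_card_of_injOn (fun e => n / e) (fun e he => ?_) fun e he e' he' h' => ?_
    · rw [Finset.mem_coe, Finset.mem_filter] at he ⊢
      obtain ⟨⟨f, rfl⟩, h0⟩ := Nat.mem_divisors.1 he.1
      have he0 := Nat.pos_of_mem_divisors he.1
      have hf : f ≤ e := by
        by_contra hc
        exact he.2 (Nat.mul_le_mul_left e (not_le.1 hc).le)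
      simp only [Nat.mul_div_cancel_left f he0]
      exact ⟨Finset.mem_Icc.2 ⟨Nat.pos_of_ne_zero (right_ne_zero_of_mul h0),
        Nat.le_sqrt.2 ((Nat.mul_le_mul_right f hf).trans h)⟩, dvd_mul_left f e⟩
    · rw [Finset.mem_coe, Finset.mem_filter] at he he'
      have h0 := (Nat.mem_divisors.1 he.1).2
      rw [← Nat.div_div_self (Nat.dvd_of_mem_divisors he.1) h0,
        ← Nat.div_div_self (Nat.dvd_of_mem_divisors he'.1) h0]
      exact congrArg (n / ·) h'
  have h3 := Finset.card_filter_add_card_filter_not (s := n.divisors) fun e => e * e ≤ n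
  have h4 : n.divisors.card ≤ 2 * ((Finset.Icc 1 (Nat.sqrt X)).filter fun e => e ∣ n).card := by
    omega
  unfold dv
  exact_mod_cast h4

/- Two solutions are congruent modulo `e / gcd e m`. -/
theorem ap_count (m e Y : ℕ) (he : 1 ≤ e) (j : ℤ) :
    ((((Finset.Icc 1 Y).filter fun a : ℕ => (e : ℤ) ∣ a * m + j).card : ℕ) : ℝ) ≤
      Y * (Nat.gcd e m : ℝ) / e + 1 := by
  have hg : 0 < Nat.gcd e m := Nat.gcd_pos_of_pos_left m he
  obtain ⟨q, hq⟩ := Nat.gcd_dvd_left e m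
  have hq' : e / Nat.gcd e m = q := Nat.div_eq_of_eq_mul_right hg hq
  have hq0 : 0 < q := Nat.pos_of_mul_pos_left (hq ▸ he)
  have h1 : ((Finset.Icc 1 Y).filter fun a : ℕ => (e : ℤ) ∣ a * m + j).card ≤
      (Finset.range (Y / q + 1)).card := by
    refine Finset.card_le_card_of_injOn (fun a => a / q) (fun a ha => ?_) fun a ha b hb h => ?_
    · rw [Finset.mem_coe, Finset.mem_filter, Finset.mem_Icc] at ha
      exact Finset.mem_coe.2 (Finset.mem_range.2
        (Nat.lt_succ_of_le (Nat.div_le_div_right ha.1.2)))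
    · rw [Finset.mem_coe, Finset.mem_filter] at ha hb
      have h2 : a * m ≡ b * m [MOD e] := by
        rw [Nat.modEq_iff_dvd]
        have := dvd_sub hb.2 ha.2
        push_cast
        rwa [add_sub_add_right_eq_sub] at this
      have h3 : a % q = b % q := hq' ▸ h2.cancel_right_div_gcd he
      rw [← Nat.div_add_mod a q, ← Nat.div_add_mod b q, h3]
      exact congrArg (fun t => q * t + b % q) h
  rw [Finset.card_range] at h1
  have h4 : (Y : ℝ) * (Nat.gcd e m : ℝ) / e = Y / q := by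
    have h5 : (e : ℝ) = (Nat.gcd e m : ℝ) * q := by exact_mod_cast hq
    have h6 : (0 : ℝ) < Nat.gcd e m := by exact_mod_cast hg
    have h7 : (0 : ℝ) < q := by exact_mod_cast hq0
    rw [div_eq_div_iff (by positivity) h7.ne', mul_assoc, ← h5]
  rw [h4]
  refine (Nat.cast_le.2 h1).trans ?_
  push_cast
  linarith [Nat.cast_div_le (α := ℝ) (m := Y) (n := q)]

/- `gcd e m / e ≤ ∑ g ∣ m, g ∣ e, g / e`, `harm_le`. -/
theorem gcd_harm (m E : ℕ) (hm : 1 ≤ m) :
    ∑ e ∈ Finset.Icc 1 E, (Nat.gcd e m : ℝ) / e ≤ dv m * (1 + Real.log E) := by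
  have h1 : ∀ e ∈ Finset.Icc 1 E, (Nat.gcd e m : ℝ) / e ≤
      ∑ g ∈ m.divisors, if g ∣ e then (g : ℝ) / e else 0 := fun e _ => by
    have := Finset.single_le_sum (s := m.divisors) (a := Nat.gcd e m)
      (f := fun g => if g ∣ e then (g : ℝ) / e else 0) (fun g _ => by positivity)
      (Nat.mem_divisors.2 ⟨Nat.gcd_dvd_right e m, by omega⟩)
    rwa [if_pos (Nat.gcd_dvd_left e m)] at this
  refine (Finset.sum_le_sum h1).trans ?_
  rw [Finset.sum_comm, dv, ← nsmul_eq_mul]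
  refine Finset.sum_le_card_nsmul _ _ _ fun g hg => ?_
  have hg0 := Nat.pos_of_mem_divisors hg
  rw [← Finset.sum_filter]
  refine (ra2_inj (fun e => e / g) (fun e he e' he' h => ?_) (fun e he => ?_) (fun e he => ?_)
    fun j _ => by positivity).trans (harm_le E)
  · rw [Finset.mem_coe, Finset.mem_filter] at he he'
    rw [← Nat.mul_div_cancel' he.2, ← Nat.mul_div_cancel' he'.2]
    exact congrArg (g * ·) h
  · rw [Finset.mem_filter, Finset.mem_Icc] at he
    exact Finset.mem_Icc.2 ⟨Nat.div_pos (Nat.le_of_dvd he.1.1 he.2) hg0,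
      (Nat.div_le_self _ _).trans he.1.2⟩
  · obtain ⟨f, rfl⟩ := (Finset.mem_filter.1 he).2
    have h2 : (g : ℝ) ≠ 0 := by positivity
    simp only [Nat.mul_div_cancel_left f hg0]
    rw [Nat.cast_mul, div_mul_cancel_left₀ h2, one_div]

theorem ra2_od {n L : ℕ} (h : n ≤ L) :
    od n ≤ ∑ j ∈ Finset.Icc 1 L, 1 / (j : ℝ) * (dv (n + j) + dv (n - j)) := by
  simp only [mul_add]
  rw [od, ← Finset.sum_filter_add_sum_filter_not _ fun k => n ≤ k, Finset.sum_add_distrib]
  refine add_le_add (ra2_inj (fun k => k - n) (fun k hk k' hk' e => ?_) (fun k hk => ?_)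
    (fun k hk => ?_) fun j _ => mul_nonneg (by positivity) (dv_nonneg _))
    (ra2_inj (fun k => n - k) (fun k hk k' hk' e => ?_) (fun k hk => ?_)
    (fun k hk => ?_) fun j _ => mul_nonneg (by positivity) (dv_nonneg _))
  · simp only [Finset.mem_coe, Finset.mem_filter] at hk hk' e
    omega
  · simp only [Finset.mem_filter, Finset.mem_erase, Finset.mem_Icc] at hk ⊢
    omega
  · have hk' := (Finset.mem_filter.1 hk).2
    rw [Nat.add_sub_cancel' hk', Nat.cast_sub hk', abs_of_nonneg (sub_nonneg.2 (Nat.cast_le.2 hk')),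
      one_div_mul_eq_div]
  · simp only [Finset.mem_coe, Finset.mem_filter] at hk hk' e
    omega
  · simp only [Finset.mem_filter, Finset.mem_erase, Finset.mem_Icc] at hk ⊢
    omega
  · have hk' := (not_le.1 (Finset.mem_filter.1 hk).2).le
    rw [Nat.sub_sub_self hk', Nat.cast_sub hk', abs_sub_comm,
      abs_of_nonneg (sub_nonneg.2 (Nat.cast_le.2 hk')), one_div_mul_eq_div]

theorem ra2_ap {m Y : ℕ} (hm : 1 ≤ m) (hY : m ≤ Y) (u : ℕ → ℕ) (s : ℤ)
    (hu : ∀ a ∈ Finset.Icc 1 Y, u a ≤ 2 * (Y * m) ∧ (u a = 0 ∨ (u a : ℤ) = a * m + s)) :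
    ∑ a ∈ Finset.Icc 1 Y, dv (u a) ≤ 8 * Y * dv m * (1 + Real.log Y) := by
  set E := Nat.sqrt (2 * (Y * m)) with hE
  have hY1 : (1 : ℝ) ≤ Y := by exact_mod_cast hm.trans hY
  have hL : 0 ≤ Real.log Y := Real.log_nonneg hY1
  have h1 : ∀ a ∈ Finset.Icc 1 Y, dv (u a) ≤
      2 * ∑ e ∈ Finset.Icc 1 E, if (e : ℤ) ∣ a * m + s then (1 : ℝ) else 0 := fun a ha => by
    rcases (hu a ha).2 with h | h
    · rw [h, dv, Nat.divisors_zero, Finset.card_empty, Nat.cast_zero]
      positivity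
    · simpa only [← h, Int.natCast_dvd_natCast] using dv_le_two _ _ (hu a ha).1
  refine (Finset.sum_le_sum h1).trans ?_
  rw [← Finset.mul_sum, Finset.sum_comm]
  have h2 : ∀ e ∈ Finset.Icc 1 E, (∑ a ∈ Finset.Icc 1 Y,
      if (e : ℤ) ∣ (a : ℕ) * m + s then (1 : ℝ) else 0) ≤ Y * ((Nat.gcd e m : ℝ) / e) + 1 :=
    fun e he => by
      rw [Finset.sum_boole, ← mul_div_assoc]
      exact ap_count m e Y (Finset.mem_Icc.1 he).1 s
  have h3 := Finset.sum_le_sum h2
  rw [Finset.sum_add_distrib, ← Finset.mul_sum, Finset.sum_const, Nat.card_Icc, Nat.add_sub_cancel,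
    nsmul_one] at h3
  have h4 : E ≤ 2 * Y := by
    rw [hE, ← Nat.sqrt_eq (2 * Y)]
    exact Nat.sqrt_le_sqrt (by nlinarith)
  have h5 : (E : ℝ) ≤ 2 * Y := by exact_mod_cast h4
  have h6 : 1 ≤ E := Nat.le_sqrt.2 (by nlinarith)
  have h7 : Real.log E ≤ 1 + Real.log Y := by
    have := Real.log_le_log (by exact_mod_cast h6) h5
    rw [Real.log_mul (by norm_num) (by positivity)] at this
    linarith [Real.log_two_lt_d9]
  have h8 : 1 ≤ dv m := by
    have : 1 ≤ m.divisors.card := Finset.card_pos.2 ⟨1, Nat.one_mem_divisors.2 (by omega)⟩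
    unfold dv
    exact_mod_cast this
  have h9 : (Y : ℝ) * ∑ e ∈ Finset.Icc 1 E, (Nat.gcd e m : ℝ) / e ≤
      Y * (dv m * (2 * (1 + Real.log Y))) :=
    mul_le_mul_of_nonneg_left ((gcd_harm m E hm).trans
      (mul_le_mul_of_nonneg_left (by linarith) (dv_nonneg m))) (by positivity)
  have h10 : (Y : ℝ) * 1 ≤ Y * (dv m * (1 + Real.log Y)) :=
    mul_le_mul_of_nonneg_left (one_le_mul_of_one_le_of_one_le h8 (by linarith)) (by positivity)
  linarith

/- Write `k = a m + j` with `0 < |j| ≤ a m ≤ Y m`, exchange the sums over `a` and `j`, and use the three lemmas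
with `X = 2 Y m ≤ 2 Y ^ 2`. -/
theorem od_sum : ∃ C : ℝ, 0 < C ∧ ∀ m Y : ℕ, 1 ≤ m → m ≤ Y →
    ∑ a ∈ Finset.Icc 1 Y, od (a * m) ≤ C * Y * dv m * (1 + Real.log Y) ^ 2 := by
  refine ⟨32, by norm_num, fun m Y hm hY => ?_⟩
  have hY1 : (1 : ℝ) ≤ Y := by exact_mod_cast hm.trans hY
  have hL : 0 ≤ Real.log Y := Real.log_nonneg hY1
  have h1 : ∀ a ∈ Finset.Icc 1 Y, od (a * m) ≤
      ∑ j ∈ Finset.Icc 1 (Y * m), 1 / (j : ℝ) * (dv (a * m + j) + dv (a * m - j)) := fun a ha =>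
    ra2_od (Nat.mul_le_mul_right m (Finset.mem_Icc.1 ha).2)
  refine (Finset.sum_le_sum h1).trans ?_
  rw [Finset.sum_comm]
  have h2 : ∀ j ∈ Finset.Icc 1 (Y * m),
      ∑ a ∈ Finset.Icc 1 Y, 1 / (j : ℝ) * (dv (a * m + j) + dv (a * m - j)) ≤
        1 / (j : ℝ) * (16 * Y * dv m * (1 + Real.log Y)) := fun j hj => by
    have hj' := (Finset.mem_Icc.1 hj).2
    rw [← Finset.mul_sum, Finset.sum_add_distrib]
    refine mul_le_mul_of_nonneg_left ?_ (by positivity)
    have e1 := ra2_ap hm hY (fun a => a * m + j) j fun a ha => ⟨by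
      have := Nat.mul_le_mul_right m (Finset.mem_Icc.1 ha).2
      omega, Or.inr (by push_cast; rfl)⟩
    have e2 := ra2_ap hm hY (fun a => a * m - j) (-j) fun a ha => ⟨by
      have := Nat.mul_le_mul_right m (Finset.mem_Icc.1 ha).2
      omega, by
      rcases le_total (a * m) j with h | h
      · exact Or.inl (Nat.sub_eq_zero_of_le h)
      · exact Or.inr (by push_cast [h]; rfl)⟩
    linarith
  refine (Finset.sum_le_sum h2).trans ?_
  rw [← Finset.sum_mul]
  have h3 : Real.log ((Y * m : ℕ) : ℝ) ≤ 2 * Real.log Y := by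
    have hm1 : (1 : ℝ) ≤ m := by exact_mod_cast hm
    rw [Nat.cast_mul, Real.log_mul (by positivity) (by positivity)]
    linarith [Real.log_le_log (by positivity) (show (m : ℝ) ≤ Y by exact_mod_cast hY)]
  have h4 := dv_nonneg m
  refine (mul_le_mul_of_nonneg_right ((harm_le _).trans
    (show _ ≤ 2 * (1 + Real.log Y) by linarith)) (by positivity)).trans (le_of_eq (by ring))

end Pool.Agent.Lib.MP_2a1a00_nt
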