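import Pool.Agent.Lib.MP_2a1a00_nt.R.A1

/-! A sum over coinciding fractions. -/

namespace Pool.Agent.Lib.MP_2a1a00_nt

open Complex MeasureTheory Set

theorem ra3_sqrt (K : ℕ) : ∑ t ∈ Finset.Icc 1 K, 1 / √(t : ℝ) ≤ 2 * √(K : ℝ) := by
  induction K with
  | zero => simp
  | succ K ih =>
    rw [Finset.sum_Icc_succ_top (Nat.le_add_left 1 K)]
    have h1 : (0 : ℝ) < √((K + 1 : ℕ) : ℝ) := Real.sqrt_pos.2 (by positivity)
    have h2 := Real.sq_sqrt (show (0 : ℝ) ≤ ((K + 1 : ℕ) : ℝ) by positivity)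
    have h3 := Real.sq_sqrt (show (0 : ℝ) ≤ (K : ℝ) by positivity)
    have h4 : 1 / √((K + 1 : ℕ) : ℝ) ≤ 2 * √((K + 1 : ℕ) : ℝ) - 2 * √(K : ℝ) := by
      rw [div_le_iff₀ h1]
      push_cast at h2 ⊢
      nlinarith [sq_nonneg (√((K : ℝ) + 1) - √(K : ℝ))]
    linarith

theorem ra3_log {M N : ℕ} (h : M ≤ N) : Real.log M ≤ Real.log N := by
  rcases Nat.eq_zero_or_pos M with rfl | h0
  · simpa using Real.log_natCast_nonneg N
  · exact Real.log_le_log (Nat.cast_pos.2 h0) (Nat.cast_le.2 h)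

theorem ra3_div (M s : ℕ) : √((M / s : ℕ) : ℝ) ≤ √(M : ℝ) / √(s : ℝ) := by
  rw [← Real.sqrt_div (Nat.cast_nonneg _)]
  exact Real.sqrt_le_sqrt Nat.cast_div_le

theorem ra3_one (M : ℕ) :
    ∑ v ∈ Finset.Icc 1 M, dv v * (1 / √(v : ℝ)) ≤ 2 * √(M : ℝ) * (1 + Real.log M) := by
  rw [sum_dv_mul M fun v => 1 / √(v : ℝ)]
  refine le_trans (Finset.sum_le_sum fun s hs => ?_)
    ((Finset.mul_sum _ _ _).ge.trans (mul_le_mul_of_nonneg_left (harm_le M) (by positivity)))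
  have h0 : (0 : ℝ) ≤ s := Nat.cast_nonneg s
  calc _ = 1 / √(s : ℝ) * ∑ t ∈ Finset.Icc 1 (M / s), 1 / √(t : ℝ) := by
        rw [Finset.mul_sum]
        refine Finset.sum_congr rfl fun t _ => ?_
        rw [Nat.cast_mul, Real.sqrt_mul h0, one_div_mul_one_div]
    _ ≤ 1 / √(s : ℝ) * (2 * (√(M : ℝ) / √(s : ℝ))) :=
        mul_le_mul_of_nonneg_left ((ra3_sqrt _).trans (by linarith [ra3_div M s])) (by positivity)
    _ = 2 * √(M : ℝ) * (1 / (√(s : ℝ) * √(s : ℝ))) := by ring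
    _ = _ := by rw [Real.mul_self_sqrt h0]

theorem ra3_sq (n : ℕ) : dv n ^ 2 ≤ ∑ p ∈ n.divisorsAntidiagonal, dv p.1 * dv p.2 := by
  have h : (n.divisorsAntidiagonal.card : ℝ) = dv n := by
    rw [dv, ← Nat.map_div_right_divisors, Finset.card_map]
  rw [sq]
  nth_rewrite 1 [← h]
  rw [← nsmul_eq_mul, ← Finset.sum_const]
  refine Finset.sum_le_sum fun p hp => ?_
  rw [← (Nat.mem_divisorsAntidiagonal.1 hp).1]
  exact dv_mul _ _

theorem ra3_inv_sq (J : ℕ) : ∑ t ∈ Finset.Icc 1 J, ((t : ℝ) ^ 2)⁻¹ ≤ 2 := by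
  have h := sum_Ioo_inv_sq_le (α := ℝ) 0 (J + 1)
  have e : Finset.Ioo 0 (J + 1) = Finset.Icc 1 J := by
    ext t
    simp only [Finset.mem_Ioo, Finset.mem_Icc]
    omega
  rw [e] at h
  simpa using h

theorem ra3_pow {y : ℝ} (hy : 1 ≤ y) : (1 + Real.log y) ^ 4 ≤ 9 ^ 4 * √y := by
  have h0 : 0 ≤ y := by linarith
  have h1 : Real.log y ≤ y ^ (1 / 8 : ℝ) / (1 / 8) := Real.log_le_rpow_div h0 (by norm_num)
  have h2 : 1 ≤ y ^ (1 / 8 : ℝ) := Real.one_le_rpow hy (by norm_num)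
  have h3 : √y = (y ^ (1 / 8 : ℝ)) ^ 4 := by
    rw [← Real.rpow_natCast, ← Real.rpow_mul h0, Real.sqrt_eq_rpow]
    norm_num
  rw [h3, ← mul_pow]
  exact pow_le_pow_left₀ (by linarith [Real.log_nonneg hy]) (by linarith) 4

/- The pair of divisors `(a, b)` of `n` determines and is determined by `(g, a / g, b / g, n / lcm a b)`,
`g = gcd a b`, four numbers with the product `n`.  Sum `w ^ (-1 / 2)` over `w ≤ N / (g u v)` first. -/
theorem dv_sq_sum (N : ℕ) :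
    ∑ n ∈ Finset.Icc 1 N, dv n ^ 2 / √(n : ℝ) ≤ 2 * √(N : ℝ) * (1 + Real.log N) ^ 3 := by
  have hL : 0 ≤ 1 + Real.log N := by linarith [Real.log_natCast_nonneg N]
  calc _ ≤ ∑ n ∈ Finset.Icc 1 N, ∑ p ∈ n.divisorsAntidiagonal,
        dv p.1 * dv p.2 / √((p.1 * p.2 : ℕ) : ℝ) := by
        refine Finset.sum_le_sum fun n _ => ?_
        rw [Finset.sum_congr rfl (g := fun p => dv p.1 * dv p.2 / √(n : ℝ)) fun p hp => by
          rw [(Nat.mem_divisorsAntidiagonal.1 hp).1], ← Finset.sum_div]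
        exact div_le_div_of_nonneg_right (ra3_sq n) (Real.sqrt_nonneg _)
    _ = ∑ u ∈ Finset.Icc 1 N, ∑ v ∈ Finset.Icc 1 (N / u), dv u * dv v / √((u * v : ℕ) : ℝ) :=
        sum_dv_eq N fun u v => dv u * dv v / √((u * v : ℕ) : ℝ)
    _ ≤ ∑ u ∈ Finset.Icc 1 N, 2 * √(N : ℝ) * (1 + Real.log N) * (dv u / u) := by
        refine Finset.sum_le_sum fun u _ => ?_
        have h0 : (0 : ℝ) ≤ u := Nat.cast_nonneg u
        have h1 := dv_nonneg u
        calc _ = dv u / √(u : ℝ) * ∑ v ∈ Finset.Icc 1 (N / u), dv v * (1 / √(v : ℝ)) := by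
              rw [Finset.mul_sum]
              refine Finset.sum_congr rfl fun v _ => ?_
              rw [Nat.cast_mul, Real.sqrt_mul h0]
              ring
          _ ≤ dv u / √(u : ℝ) * (2 * (√(N : ℝ) / √(u : ℝ)) * (1 + Real.log N)) := by
              refine mul_le_mul_of_nonneg_left ((ra3_one _).trans ?_) (by positivity)
              have h2 := ra3_div N u
              have h3 := ra3_log (Nat.div_le_self N u)
              have h4 := Real.log_natCast_nonneg (N / u)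
              gcongr
          _ = 2 * √(N : ℝ) * (1 + Real.log N) * (dv u / (√(u : ℝ) * √(u : ℝ))) := by ring
          _ = _ := by rw [Real.mul_self_sqrt h0]
    _ ≤ 2 * √(N : ℝ) * (1 + Real.log N) * (1 + Real.log N) ^ 2 := by
        rw [← Finset.mul_sum]
        exact mul_le_mul_of_nonneg_left (AA_le N) (by positivity)
    _ = _ := by ring

/- Put `g = gcd n n'`, `n = g u`, `n' = g v`; then `j = t u`, `j' = t v`.  Use `dv_mul`, `∑ 1 / t ^ 2 ≤ 2`,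
`AA_le (N / g)`, `(1 + log y) ^ 4 ≤ C √y` and `dv_sq_sum`. -/
theorem gcd_sum : ∃ C : ℝ, 0 < C ∧ ∀ N J : ℕ,
    ∑ p ∈ Finset.Icc 1 N ×ˢ Finset.Icc 1 J, ∑ q ∈ Finset.Icc 1 N ×ˢ Finset.Icc 1 J,
      (if p.2 * q.1 = q.2 * p.1 then dv p.1 / p.2 * (dv q.1 / q.2) else 0) ≤
      C * N * (1 + Real.log N) ^ 3 := by
  classical
  refine ⟨4 * 9 ^ 4, by norm_num, fun N J => ?_⟩
  have hL : 0 ≤ 1 + Real.log N := by linarith [Real.log_natCast_nonneg N]
  set T := ((Finset.Icc 1 N).sigma fun g => Finset.Icc 1 (N / g) ×ˢ Finset.Icc 1 (N / g)) ×ˢ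
    Finset.Icc 1 J
  set φ : ((_ : ℕ) × (ℕ × ℕ)) × ℕ → (ℕ × ℕ) × (ℕ × ℕ) := fun x =>
    ((x.1.1 * x.1.2.1, x.2 * x.1.2.1), (x.1.1 * x.1.2.2, x.2 * x.1.2.2)) with hφ
  set f : (ℕ × ℕ) × (ℕ × ℕ) → ℝ := fun x => dv x.1.1 / x.1.2 * (dv x.2.1 / x.2.2) with hf
  have f0 : ∀ x, 0 ≤ f x := fun x => by
    have := dv_nonneg x.1.1
    have := dv_nonneg x.2.1
    positivity
  rw [← Finset.sum_product', ← Finset.sum_filter]
  calc _ ≤ ∑ x ∈ T.image φ, f x := by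
        refine Finset.sum_le_sum_of_subset_of_nonneg ?_ fun x _ _ => f0 x
        rintro ⟨⟨n, j⟩, n', j'⟩ hx
        simp only [Finset.mem_filter, Finset.mem_product, Finset.mem_Icc] at hx
        obtain ⟨⟨⟨⟨a1, a2⟩, a3, a4⟩, ⟨b1, b2⟩, -, -⟩, h⟩ := hx
        have hg : 0 < Nat.gcd n n' := Nat.gcd_pos_of_pos_left _ a1
        obtain ⟨u, v, hc, hu, hv⟩ := Nat.exists_coprime n n'
        set g := Nat.gcd n n'
        have h1 : j * v = j' * u := Nat.eq_of_mul_eq_mul_right hg (by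
          rw [mul_assoc, mul_assoc, ← hu, ← hv, h])
        obtain ⟨t, ht⟩ : u ∣ j := hc.dvd_of_dvd_mul_right ⟨j', by rw [h1, mul_comm]⟩
        have u0 : 0 < u := Nat.pos_of_mul_pos_right (hu ▸ a1)
        have v0 : 0 < v := Nat.pos_of_mul_pos_right (hv ▸ b1)
        have t0 : 0 < t := Nat.pos_of_mul_pos_left (ht ▸ a3)
        have h2 : t * v = j' := Nat.eq_of_mul_eq_mul_right u0 (by rw [← h1, ht]; ring)
        refine Finset.mem_image.2 ⟨(⟨g, u, v⟩, t), ?_, ?_⟩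
        · simp only [T, Finset.mem_product, Finset.mem_sigma, Finset.mem_Icc]
          exact ⟨⟨⟨hg, (Nat.gcd_le_left _ a1).trans a2⟩, ⟨u0, (Nat.le_div_iff_mul_le hg).2 (hu ▸ a2)⟩,
            v0, (Nat.le_div_iff_mul_le hg).2 (hv ▸ b2)⟩, t0,
            (Nat.le_mul_of_pos_left t u0).trans (ht ▸ a4)⟩
        · simp only [hφ]
          rw [mul_comm g u, mul_comm g v, ← hu, ← hv, h2, mul_comm t u, ← ht]
    _ ≤ ∑ x ∈ T, f (φ x) := Finset.sum_image_le_of_nonneg fun x _ => f0 x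
    _ ≤ ∑ x ∈ T, dv x.1.1 ^ 2 * (dv x.1.2.1 / x.1.2.1 * (dv x.1.2.2 / x.1.2.2)) *
          ((x.2 : ℝ) ^ 2)⁻¹ := by
        refine Finset.sum_le_sum fun x _ => ?_
        have h1 := dv_mul x.1.1 x.1.2.1
        have h2 := dv_mul x.1.1 x.1.2.2
        have h3 := dv_nonneg (x.1.1 * x.1.2.2)
        have h4 := (dv_nonneg _).trans h1
        calc f (φ x) ≤ dv x.1.1 * dv x.1.2.1 / ((x.2 * x.1.2.1 : ℕ) : ℝ) *
              (dv x.1.1 * dv x.1.2.2 / ((x.2 * x.1.2.2 : ℕ) : ℝ)) := by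
              simp only [hf, hφ]
              gcongr
          _ = _ := by
              push_cast
              ring
    _ = (∑ g ∈ Finset.Icc 1 N, dv g ^ 2 * AA (N / g) ^ 2) *
          ∑ t ∈ Finset.Icc 1 J, ((t : ℝ) ^ 2)⁻¹ := by
        rw [Finset.sum_product' _ _ fun (y : (_ : ℕ) × (ℕ × ℕ)) (t : ℕ) =>
          dv y.1 ^ 2 * (dv y.2.1 / y.2.1 * (dv y.2.2 / y.2.2)) * ((t : ℝ) ^ 2)⁻¹,
          ← Finset.sum_mul_sum, Finset.sum_sigma]
        congr 1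
        refine Finset.sum_congr rfl fun g _ => ?_
        dsimp only
        rw [← Finset.mul_sum, sq (AA _), AA, Finset.sum_mul_sum, Finset.sum_product]
    _ ≤ (9 ^ 4 * √(N : ℝ) * ∑ g ∈ Finset.Icc 1 N, dv g ^ 2 / √(g : ℝ)) * 2 := by
        refine mul_le_mul ?_ (ra3_inv_sq J) (Finset.sum_nonneg fun _ _ => by positivity)
          (mul_nonneg (by positivity) (Finset.sum_nonneg fun _ _ => by positivity))
        rw [Finset.mul_sum]
        refine Finset.sum_le_sum fun g hg => ?_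
        have h0 : 0 ≤ AA (N / g) := Finset.sum_nonneg fun n _ =>
          div_nonneg (dv_nonneg n) (Nat.cast_nonneg n)
        have h1 : (1 : ℝ) ≤ (N / g : ℕ) := Nat.one_le_cast.2
          (Nat.div_pos (Finset.mem_Icc.1 hg).2 (Finset.mem_Icc.1 hg).1)
        have h2 := pow_le_pow_left₀ h0 (AA_le (N / g)) 2
        rw [← pow_mul] at h2
        have h3 := h2.trans ((ra3_pow h1).trans
          (mul_le_mul_of_nonneg_left (ra3_div N g) (by norm_num)))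
        exact (mul_le_mul_of_nonneg_left h3 (sq_nonneg _)).trans (le_of_eq (by ring))
    _ ≤ (9 ^ 4 * √(N : ℝ) * (2 * √(N : ℝ) * (1 + Real.log N) ^ 3)) * 2 := by
        gcongr
        exact dv_sq_sum N
    _ = 4 * 9 ^ 4 * (√(N : ℝ) * √(N : ℝ)) * (1 + Real.log N) ^ 3 := by ring
    _ = _ := by rw [Real.mul_self_sqrt (Nat.cast_nonneg N)]

end Pool.Agent.Lib.MP_2a1a00_nt
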