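import Pool.Agent.Lib.MP_2a1a00_nt.R.Z1
import Pool.Agent.Lib.MP_2a1a00_nt.V.F1
import Pool.Agent.Lib.MP_2a1a00_nt.V.B2

/-! Limits of the smoothed error term. -/

namespace Pool.Agent.Lib.MP_2a1a00_nt

open Complex MeasureTheory Set

theorem rw0_Ln (F : Sel) {W : ℝ} (hW : 1 ≤ W) : ∃ C : ℝ, 0 < C ∧ ∀ (N : ℕ) (y : ℝ), 1 ≤ y →
    ‖Ln (fun s => F.chi s * F.Tl N s * ((y : ℂ) ^ s * (gW W s / s))) (-(1 : ℝ))‖ ≤
      C * ((N : ℝ) + 1) ^ (-1 / 2 : ℝ) := by
  have hd := F.deg_nonneg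
  have hW0 : 0 < W := by linarith
  obtain ⟨C2, hC2, e2⟩ := F.chi_le_strip 1
  obtain ⟨C3, hC3, e3⟩ := F.f1_tail (A := 1) (η := 1 / 2) (by norm_num) (by norm_num)
  obtain ⟨C4, hC4, e4⟩ := gW_poly (K := F.deg * (1 / 2 + 1)) (by positivity)
  obtain ⟨i4, e5⟩ := e4 W hW
  refine ⟨C2 * C3 * Real.exp 1 * (C4 * W ^ (F.deg * (1 / 2 + 1) + 1)), by positivity,
    fun N y hy => ?_⟩
  have hy0 : 0 < y := by linarith
  have hN : 0 ≤ ((N : ℝ) + 1) ^ (-1 / 2 : ℝ) := by positivity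
  have b2 : ‖Ln (fun s => F.chi s * F.Tl N s * ((y : ℂ) ^ s * (gW W s / s))) (-(1 : ℝ))‖ ≤
      ∫ t : ℝ, C2 * C3 * Real.exp 1 * ((N : ℝ) + 1) ^ (-1 / 2 : ℝ) *
        ((1 + |t|) ^ (F.deg * (1 / 2 + 1)) * Real.exp (-t ^ 2 / W ^ 2)) := by
    refine norm_Ln_le 0 (i4.const_mul _) fun v => ?_
    rw [zero_add]
    have f3 := e3 N v
    rw [show (-1 + 1 / 2 : ℝ) = -1 / 2 by norm_num] at f3
    have hre : ((((-1 : ℝ) : ℂ) + v * I)).re = -1 := by simp
    have him : ((((-1 : ℝ) : ℂ) + v * I)).im = v := by simp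
    generalize (((-1 : ℝ) : ℂ) + v * I) = s at hre him f3
    have f2 := e2 s ⟨hre.ge, by linarith⟩
    rw [hre, him, sub_neg_eq_add] at f2
    have f4 : 1 ≤ ‖s‖ := by
      have := abs_re_le_norm s
      rwa [hre, abs_neg, abs_one] at this
    have f5 : ‖gW W s‖ ≤ Real.exp 1 * Real.exp (-v ^ 2 / W ^ 2) := by
      rw [norm_gW hW0, hre, him, ← Real.exp_add, Real.exp_le_exp, neg_sq, one_pow, sub_div,
        neg_div, sub_eq_add_neg]
      have : 1 / W ^ 2 ≤ 1 := div_le_self zero_le_one (one_le_pow₀ hW)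
      linarith
    have f6 : y ^ (-1 : ℝ) ≤ 1 := Real.rpow_le_one_of_one_le_of_nonpos hy (by norm_num)
    simp only [norm_mul, norm_div]
    rw [Complex.norm_cpow_eq_rpow_re_of_pos hy0, hre]
    calc _ ≤ C2 * (1 + |v|) ^ (F.deg * (1 / 2 + 1)) * (C3 * ((N : ℝ) + 1) ^ (-1 / 2 : ℝ)) *
          (1 * (Real.exp 1 * Real.exp (-v ^ 2 / W ^ 2) / 1)) :=
          mul_le_mul (mul_le_mul f2 f3 (norm_nonneg _) (by positivity))
            (mul_le_mul f6 (div_le_div₀ (by positivity) f5 one_pos f4) (by positivity) zero_le_one)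
            (by positivity) (by positivity)
      _ = _ := by ring
  rw [integral_const_mul] at b2
  refine (b2.trans (mul_le_mul_of_nonneg_left e5 (by positivity))).trans (le_of_eq ?_)
  ring

/- `f1_split` with `A = 1`, `zs_chi0`; the bound for the integral is as in `B_split`. -/
theorem w1_tail {W : ℝ} (hW : 1 ≤ W) : ∃ C : ℝ, 0 < C ∧ ∀ (N : ℕ) (y : ℝ), 1 ≤ y →
    ‖(zs 2).B W y - (zs 2).L 0 - ∑ k ∈ Finset.Ioc 0 N, ((dv k / k : ℝ) : ℂ) * (zs 2).kr W (k * y)‖ ≤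
      C * ((N : ℝ) + 1) ^ (-1 / 2 : ℝ) := by
  obtain ⟨C, hC, h⟩ := rw0_Ln (zs 2) hW
  refine ⟨C, hC, fun N y hy => ?_⟩
  have e := (zs 2).f1_split (A := 1) (W := W) (x := y) one_pos (by linarith) (by linarith) N
  rw [zs_chi0, zero_mul, sub_zero] at e
  simp only [zs_f2, conj_ofReal] at e
  simp only [ofReal_div, ofReal_natCast]
  rw [sub_right_comm, e, add_sub_cancel_left]
  exact h N y hy

theorem rw0_meas (F : Sel) {a α β : ℝ} (ha : 0 < a) (hα : a ≤ α) :
    AEStronglyMeasurable (fun x => F.E (x / a)) (volume.restrict (Ioc α β)) := by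
  refine AEStronglyMeasurable.sub ((measurable_from_top (f := fun N : ℕ =>
    ∑ n ∈ Finset.Icc 1 N, F.f n)).comp
      (Nat.measurable_floor.comp (measurable_id.div_const a))).aestronglyMeasurable ?_
  have h := F.triv_res_cont (h := fun s => s⁻¹) (continuousOn_id.inv₀ fun s hs =>
    (Sel.triv_sph hs le_rfl).1)
  have h2 : ContinuousOn (fun x : ℝ => F.res fun s => ((x / a : ℝ) : ℂ) ^ s * s⁻¹) (Ioc α β) :=
    h.comp (f := fun x : ℝ => x / a) (continuous_id.div_const a).continuousOn fun x hx =>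
      div_pos (ha.trans_le (hα.trans hx.1.le)) ha
  simpa only [div_eq_mul_inv] using h2.aestronglyMeasurable measurableSet_Ioc

theorem rw0_mem {a α β x : ℝ} (ha : 0 < a) (hα : a ≤ α) (hx : x ∈ Ioc α β) :
    x / a ∈ Icc 1 (β / a) :=
  ⟨(one_le_div ha).2 (hα.trans hx.1.le), div_le_div_of_nonneg_right hx.2 ha.le⟩

theorem E_dil_int (F : Sel) {φ : ℝ → ℂ} {a α β : ℝ} (ha : 0 < a) (hα : a ≤ α) (hβ : α ≤ β)
    (hφ : ContinuousOn φ (Icc α β)) : IntervalIntegrable (fun x => φ x * F.E (x / a)) volume α β := by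
  obtain ⟨K, hK⟩ := F.E_bdd (β / a)
  have h1 : IntervalIntegrable (fun x => F.E (x / a)) volume α β := by
    rw [intervalIntegrable_iff_integrableOn_Ioc_of_le hβ]
    refine IntegrableOn.of_bound measure_Ioc_lt_top (rw0_meas F ha hα) K ?_
    filter_upwards [ae_restrict_mem measurableSet_Ioc] with x hx using hK _ (rw0_mem ha hα hx)
  exact h1.continuousOn_mul (by rwa [uIcc_of_le hβ])

theorem rw0_dec (F : Sel) : ∃ C : ℝ, 0 < C ∧ ∀ W x : ℝ, 1 ≤ W → 1 ≤ x → ∃ S : ℂ,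
    HasSum (fun n : ℕ => F.f0 n * (((if 0 ≤ Real.log x - Real.log n then 1 else 0) -
      cdf W (Real.log x - Real.log n) : ℝ) : ℂ)) S ∧ ‖F.E x - F.B W x - S‖ ≤ C * x ^ 2 / W := by
  obtain ⟨C₂, h₂, H₂⟩ := F.res_le one_pos
  refine ⟨C₂ * (2 * Real.exp 4), by positivity, fun W x hW hx1 => ?_⟩
  have hx0 : 0 < x := by linarith
  have hW0 : 0 < W := by linarith
  refine ⟨_, by simpa only [ofReal_sub, mul_sub] using (F.vb2_E hx1).sub (F.B_ser hW0 hx0), ?_⟩
  have s2 := H₂ x (2 * Real.exp 4 / W) (fun s => (gW W s - 1) / s) hx1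
    (((differentiable_gW W).sub_const 1).differentiableOn.div differentiableOn_id fun s hs =>
      norm_pos_iff.1 (by linarith [(Sel.vb2_ball hs).2.1])) fun s hs => by
      obtain ⟨h3, h4, h5⟩ := Sel.vb2_ball hs
      have h6 : 0 < ‖s‖ := by linarith
      rw [norm_div, div_le_iff₀ h6]
      refine (gW_sub hW h3).trans ?_
      have h7 : ‖s‖ ^ 2 / W ^ 2 ≤ 2 / W * ‖s‖ := by
        rw [div_le_iff₀ (by positivity)]
        have e : 2 / W * ‖s‖ * W ^ 2 = 2 * W * ‖s‖ := by field_simp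
        rw [e]
        nlinarith
      refine (mul_le_mul_of_nonneg_left h7 (Real.exp_pos _).le).trans (le_of_eq ?_)
      ring
  have hne : ∀ s ∈ Metric.sphere (1 : ℂ) (1 / 2), s ≠ 0 := fun s hs => (Sel.triv_sph hs le_rfl).1
  have e1 : (F.res fun s => (x : ℂ) ^ s * ((gW W s - 1) / s)) =
      1 * (F.res fun s => (x : ℂ) ^ s * (gW W s / s)) + -1 * F.res fun s => (x : ℂ) ^ s / s := by
    refine (F.res_congr fun s _ => by ring).trans
      (F.res_add (h₁ := fun s => (x : ℂ) ^ s * (gW W s / s))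
      (h₂ := fun s => (x : ℂ) ^ s / s) 1 (-1) ((Sel.triv_cpow hx0).continuousOn.fun_mul
      ((differentiable_gW W).continuous.continuousOn.div continuousOn_id hne))
      ((Sel.triv_cpow hx0).continuousOn.div continuousOn_id hne))
  have e2 : F.E x - F.B W x - (∑ n ∈ Finset.Icc 1 ⌊x⌋₊, F.f n -
      (F.B W x + F.res fun s => (x : ℂ) ^ s * (gW W s / s))) =
      F.res fun s => (x : ℂ) ^ s * ((gW W s - 1) / s) := by
    rw [e1, Sel.E]
    ring
  rw [e2]
  refine s2.trans (le_of_eq ?_)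
  rw [one_add_one_eq_two, Real.rpow_two]
  ring

theorem rw0_bd (F : Sel) : ∃ C : ℝ, 0 < C ∧ ∀ W x : ℝ, 1 ≤ W → 1 ≤ x →
    ‖F.E x - F.B W x‖ ≤ C * x ^ 2 := by
  obtain ⟨C₁, h₁, H₁⟩ := F.vb2_sum one_pos
  obtain ⟨C₂, h₂, H₂⟩ := rw0_dec F
  refine ⟨C₂ + 2 * C₁, by positivity, fun W x hW hx => ?_⟩
  obtain ⟨S, h3, h4⟩ := H₂ W x hW hx
  have h5 := H₁ W x 1 _ S hW hx zero_le_one
    (fun n => by rw [one_mul]; exact cdf_le (by linarith) _) h3
  rw [Real.rpow_one, mul_one] at h5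
  have h6 : C₂ * x ^ 2 / W ≤ C₂ * x ^ 2 := div_le_self (by positivity) hW
  have h7 : x / W ≤ x := div_le_self (by positivity) hW
  have h8 : C₁ * x * (x / W + 1) ≤ C₁ * x * (2 * x) :=
    mul_le_mul_of_nonneg_left (by linarith) (by positivity)
  rw [← sub_add_cancel (F.E x - F.B W x) S]
  refine (norm_add_le_of_le (h4.trans h6) (h5.trans h8)).trans (le_of_eq ?_)
  ring

theorem rw0_exp {u : ℝ} (hu : u ≠ 0) :
    Filter.Tendsto (fun W : ℝ => Real.exp (-(W * u) ^ 2 / 4)) Filter.atTop (nhds 0) := by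
  refine Real.tendsto_exp_atBot.comp ?_
  have h := (Filter.tendsto_pow_atTop (α := ℝ) two_ne_zero).atTop_mul_const_of_neg
    (r := -u ^ 2 / 4) (by have := pow_pos (abs_pos.2 hu) 2; rw [sq_abs] at this; linarith)
  refine h.congr fun W => ?_
  ring

theorem rw0_pt (F : Sel) {x : ℝ} (hx : 1 ≤ x) (hn : ∀ n : ℕ, x ≠ n) :
    Filter.Tendsto (fun W : ℝ => F.B W x) Filter.atTop (nhds (F.E x)) := by
  obtain ⟨C₁, h₁, H₁⟩ := F.f0_le one_pos
  obtain ⟨C₂, h₂, H₂⟩ := rw0_dec F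
  obtain ⟨C₃, h₃, H₃⟩ := gs one_pos
  have hx0 : 0 < x := by linarith
  have t1 : Filter.Tendsto (fun W : ℝ => ∑' n : ℕ, F.f0 n *
      (((if 0 ≤ Real.log x - Real.log n then 1 else 0) -
        cdf W (Real.log x - Real.log n) : ℝ) : ℂ)) Filter.atTop (nhds (∑' _n : ℕ, (0 : ℂ))) := by
    refine tendsto_tsum_of_dominated_convergence ((H₃ 1 x le_rfl hx).1.mul_left C₁)
      (fun n => ?_) ?_
    · rcases eq_or_ne n 0 with rfl | h0
      · simp [Sel.f0]
      have hp : (0 : ℝ) < n := by positivity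
      have hu : Real.log x - Real.log n ≠ 0 := fun h =>
        hn n (Real.log_injOn_pos hx0 hp (sub_eq_zero.1 h))
      have h4 := (rw0_exp hu).const_mul ‖F.f0 n‖
      rw [mul_zero] at h4
      refine squeeze_zero_norm' ?_ h4
      filter_upwards [Filter.eventually_gt_atTop 0] with W hW
      rw [norm_mul, norm_real, Real.norm_eq_abs]
      exact mul_le_mul_of_nonneg_left (cdf_le hW _) (norm_nonneg _)
    · filter_upwards [Filter.eventually_ge_atTop 1] with W hW n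
      rw [norm_mul, norm_real, Real.norm_eq_abs, ← mul_assoc]
      refine mul_le_mul (H₁ n) ((cdf_le (by linarith) _).trans (Real.exp_le_exp.2 ?_))
        (abs_nonneg _) (by positivity)
      have h5 : 1 ≤ W ^ 2 := one_le_pow₀ hW
      rw [mul_pow, mul_pow]
      nlinarith [sq_nonneg (Real.log x - Real.log n)]
  rw [tsum_zero] at t1
  have t2 : Filter.Tendsto (fun W : ℝ => F.E x - F.B W x - ∑' n : ℕ, F.f0 n *
      (((if 0 ≤ Real.log x - Real.log n then 1 else 0) -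
        cdf W (Real.log x - Real.log n) : ℝ) : ℂ)) Filter.atTop (nhds 0) := by
    refine squeeze_zero_norm' ?_ (Filter.tendsto_id.const_div_atTop (C₂ * x ^ 2))
    filter_upwards [Filter.eventually_ge_atTop 1] with W hW
    obtain ⟨S, h3, h4⟩ := H₂ W x hW hx
    rw [h3.tsum_eq]
    exact h4
  have t3 := (t2.add t1).const_sub (F.E x)
  simpa only [sub_add_cancel, sub_sub_cancel, add_zero, sub_zero] using t3

/- As in `B_near`: `E y - B W y` is a series with terms at most `‖f0 n‖ * exp (-(W (log y - log n)) ^ 2 / 4)` plus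
a residue of size `1 / W`.  It tends to zero if `y` is not an integer
(`tendsto_tsum_of_dominated_convergence`, `gs` with `W = 1`) and it is bounded (`vb2_sum`). -/
theorem B_lim (F : Sel) {φ : ℝ → ℂ} {a α β : ℝ} (ha : 0 < a) (hα : a ≤ α) (hβ : α ≤ β)
    (hφ : ContinuousOn φ (Icc α β)) :
    Filter.Tendsto (fun W : ℝ => ∫ x in α..β, φ x * F.B W (x / a)) Filter.atTop
      (nhds (∫ x in α..β, φ x * F.E (x / a))) := by
  obtain ⟨K, hK⟩ := F.E_bdd (β / a)
  obtain ⟨M, hM⟩ := isCompact_Icc.exists_bound_of_continuousOn hφ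
  obtain ⟨C, hC, h⟩ := rw0_bd F
  refine intervalIntegral.tendsto_integral_filter_of_dominated_convergence
    (fun _ => M * (K + C * (β / a) ^ 2)) ?_ ?_ intervalIntegrable_const ?_
  · filter_upwards [Filter.eventually_gt_atTop 0] with W hW
    rw [uIoc_of_le hβ]
    refine ContinuousOn.aestronglyMeasurable ((hφ.mono Ioc_subset_Icc_self).mul ?_)
      measurableSet_Ioc
    exact (F.B_cont hW).comp (f := fun x : ℝ => x / a) (continuous_id.div_const a).continuousOn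
      fun x hx => one_pos.trans_le (rw0_mem ha hα hx).1
  · filter_upwards [Filter.eventually_ge_atTop 1] with W hW
    refine Filter.Eventually.of_forall fun x hx => ?_
    rw [uIoc_of_le hβ] at hx
    have h1 := rw0_mem ha hα hx
    have h2 := hM x (Ioc_subset_Icc_self hx)
    rw [norm_mul]
    refine mul_le_mul h2 ?_ (norm_nonneg _) ((norm_nonneg _).trans h2)
    rw [← sub_sub_cancel (F.E (x / a)) (F.B W (x / a))]
    refine (norm_sub_le _ _).trans (add_le_add (hK _ h1) ((h W _ hW h1.1).trans ?_))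
    exact mul_le_mul_of_nonneg_left (pow_le_pow_left₀ (by linarith [h1.1]) h1.2 2) hC.le
  · have h0 : ∀ᵐ x : ℝ, x ∉ range fun n : ℕ => (n : ℝ) * a :=
      (countable_range _).ae_notMem _
    filter_upwards [h0] with x h1 hx
    rw [uIoc_of_le hβ] at hx
    refine (rw0_pt F (rw0_mem ha hα hx).1 fun n h2 => h1 ⟨n, ?_⟩).const_mul _
    exact ((div_eq_iff ha.ne').1 h2).symm

end Pool.Agent.Lib.MP_2a1a00_nt
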