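import Pool.Agent.Lib.MP_2a1a00_nt.R.O2
import Pool.Agent.Lib.MP_2a1a00_nt.R.A1
import Pool.Agent.Lib.MP_2a1a00_nt.R.W0
import Pool.Agent.Lib.MP_2a1a00_nt.V.H4

/-! Tools for one block of frequencies. -/

namespace Pool.Agent.Lib.MP_2a1a00_nt

open Complex MeasureTheory Set

variable {P : Vo}

/- `H_mv`. -/
theorem HH_nm (hP : Good P) : ∃ C : ℝ, 0 < C ∧ ∀ (M : ℕ) (T : ℝ), 1 ≤ M → (M : ℝ) ≤ T →
    nm (HH P (M / 2) M) T ≤ C * T ^ (3 / 4 : ℝ) * (M : ℝ) ^ (-15 / 64 : ℝ) := by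
  have hk : 0 < P.ka := by
    rw [hP.ka]
    positivity
  obtain ⟨C, hC, h⟩ := (zs 2).H_mv hk zs_deg2.ge (ε := 1 / 32) (by norm_num)
  refine ⟨√(3 * C), Real.sqrt_pos.2 (by positivity), fun M T hM hT => ?_⟩
  have M1 : (1 : ℝ) ≤ M := by exact_mod_cast hM
  have M0 : (0 : ℝ) < M := by linarith
  have T1 : 1 ≤ T := M1.trans hT
  have T0 : 0 < T := by linarith
  have h1 := h (M / 2) M T T1
  rw [HH_eq, zs_deg2, show (2 - 1 / 2 : ℝ) = 3 / 2 by norm_num, show (2 - 2 / 2 : ℝ) = 1 by norm_num,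
    show (1 - 2 / 2 : ℝ) = 0 by norm_num, Real.rpow_one, Real.rpow_zero, mul_one] at h1
  refine nm_le_of_sq (by positivity) ?_
  have h2 : Sq (HH P (M / 2) M) T ≤ ∫ x in T / 2..4 * T, ‖HH P (M / 2) M x‖ ^ 2 := by
    refine intervalIntegral.integral_mono_interval (by linarith) (by linarith) (by linarith)
      (Filter.Eventually.of_forall fun x => sq_nonneg _) ?_
    have hc : ContinuousOn (HH P (M / 2) M) (Icc (T / 2) (4 * T)) :=
      (HH_cont P _ _).mono fun x hx => (half_pos T0).trans_le hx.1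
    exact (hc.norm.pow 2).intervalIntegrable_of_Icc (by linarith)
  have h3 : (((M / 2 : ℕ) : ℝ) + 1) ^ (-1 / 2 : ℝ) ≤ 2 * (M : ℝ) ^ (-1 / 2 : ℝ) := by
    have a1 : (M : ℝ) ≤ 4 * (((M / 2 : ℕ) : ℝ) + 1) := by
      exact_mod_cast (by omega : M ≤ 4 * (M / 2 + 1))
    have a2 : (4 : ℝ) ^ (-1 / 2 : ℝ) = 1 / 2 := by
      rw [show (4 : ℝ) = 2 ^ (2 : ℝ) by norm_num, ← Real.rpow_mul (by norm_num),
        show (2 * (-1 / 2) : ℝ) = -1 by norm_num, Real.rpow_neg_one]
      norm_num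
    have a3 := Real.rpow_le_rpow_of_nonpos M0 a1 (by norm_num : (-1 / 2 : ℝ) ≤ 0)
    rw [Real.mul_rpow (by norm_num) (by positivity), a2] at a3
    linarith
  have h4 : T ≤ T ^ (3 / 2 : ℝ) * (M : ℝ) ^ (-1 / 2 : ℝ) := by
    have a1 := Real.rpow_le_rpow_of_nonpos M0 hT (by norm_num : (-1 / 2 : ℝ) ≤ 0)
    refine le_trans (le_of_eq ?_) (mul_le_mul_of_nonneg_left a1 (by positivity))
    rw [← Real.rpow_add T0]
    norm_num
  have h5 := mul_le_mul_of_nonneg_left h3 (by positivity : 0 ≤ T ^ (3 / 2 : ℝ))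
  have h6 : T ^ (3 / 2 : ℝ) * (((M / 2 : ℕ) : ℝ) + 1) ^ (-1 / 2 : ℝ) + T ≤
      3 * (T ^ (3 / 2 : ℝ) * (M : ℝ) ^ (-1 / 2 : ℝ)) := by linarith
  refine (h2.trans h1).trans ((mul_le_mul_of_nonneg_left h6 (by positivity)).trans (le_of_eq ?_))
  have e1 : (T ^ (3 / 4 : ℝ)) ^ 2 = T ^ (3 / 2 : ℝ) := by
    rw [sq, ← Real.rpow_add T0]
    norm_num
  have e2 : ((M : ℝ) ^ (-15 / 64 : ℝ)) ^ 2 = (M : ℝ) ^ (1 / 32 : ℝ) * (M : ℝ) ^ (-1 / 2 : ℝ) := by
    rw [sq, ← Real.rpow_add M0, ← Real.rpow_add M0]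
    norm_num
  rw [mul_pow, mul_pow, Real.sq_sqrt (by positivity), e1, e2]
  ring

/- `J0_int`, `dv_block`. -/
theorem HH_prim (hP : Good P) : ∃ C : ℝ, 0 < C ∧ ∀ (M : ℕ) (T : ℝ), 1 ≤ M → 1 ≤ T →
    ∀ z ∈ Icc T (2 * T),
      ‖∫ x in T..z, HH P (M / 2) M x‖ ≤ C * T ^ (3 / 4 : ℝ) * (M : ℝ) ^ (-1 / 8 : ℝ) := by
  obtain ⟨C, hC, h⟩ := J0_int hP
  obtain ⟨D, hD, h'⟩ := dv_block (ε := 1 / 8) (by norm_num) (1 / 4) (by norm_num)
  refine ⟨C * D, by positivity, fun M T hM hT z hz => ?_⟩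
  have T0 : 0 < T := by linarith
  have hT2 : T ∈ Icc T (2 * T) := ⟨le_rfl, by linarith⟩
  have hm : ∀ m ∈ Finset.Ioc (M / 2) M, (1 : ℝ) ≤ m := fun m hm => by
    exact_mod_cast (Nat.zero_le _).trans_lt (Finset.mem_Ioc.1 hm).1
  have h1 := h' M hM
  rw [show (1 / 8 - 1 / 4 : ℝ) = -1 / 8 by norm_num] at h1
  have hi : ∀ m ∈ Finset.Ioc (M / 2) M,
      IntervalIntegrable (fun x : ℝ => ((dv m / m : ℝ) : ℂ) * J0 P 2 (m * x)) volume T z :=
    fun m hm' => by
      have a0 : (0 : ℝ) < m := one_pos.trans_le (hm m hm')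
      have hc : ContinuousOn (fun x : ℝ => J0 P 2 (m * x)) (Icc T z) :=
        (J0_cont P 2).comp (continuousOn_const.mul continuousOn_id)
          fun x hx => mul_pos a0 (T0.trans_le hx.1)
      exact (hc.intervalIntegrable_of_Icc hz.1).const_mul _
  unfold HH
  rw [intervalIntegral.integral_finsetSum hi]
  refine (norm_sum_le _ _).trans ?_
  calc ∑ m ∈ Finset.Ioc (M / 2) M, ‖∫ x in T..z, ((dv m / m : ℝ) : ℂ) * J0 P 2 (m * x)‖
      ≤ ∑ m ∈ Finset.Ioc (M / 2) M, C * T ^ (3 / 4 : ℝ) * (dv m ^ 2 / (m : ℝ) ^ (1 + 1 / 4 : ℝ)) := by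
        refine Finset.sum_le_sum fun m hm' => ?_
        have a0 : (0 : ℝ) < m := one_pos.trans_le (hm m hm')
        have a1 : dv m ≤ dv m ^ 2 := by
          unfold dv
          exact_mod_cast Nat.le_self_pow two_ne_zero _
        have a2 : 0 ≤ dv m / m := div_nonneg (dv_nonneg m) a0.le
        rw [intervalIntegral.integral_const_mul, norm_mul, norm_real, Real.norm_of_nonneg a2]
        refine (mul_le_mul (div_le_div_of_nonneg_right a1 a0.le) (h m T T z (hm m hm') hT hT2 hz)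
          (norm_nonneg _) (by positivity)).trans (le_of_eq ?_)
        rw [Real.rpow_add a0, Real.rpow_one, show (-1 / 4 : ℝ) = -(1 / 4) by norm_num,
          Real.rpow_neg a0.le]
        field_simp
    _ ≤ C * T ^ (3 / 4 : ℝ) * (D * (M : ℝ) ^ (-1 / 8 : ℝ)) := by
        rw [← Finset.mul_sum]
        exact mul_le_mul_of_nonneg_left h1 (by positivity)
    _ = _ := by ring

/- `intervalIntegral.integral_mul_deriv_eq_deriv_mul_of_hasDeriv_right`. -/
theorem Nice.parts' {f f' g : ℝ → ℂ} {T K K' Z : ℝ} (hT : 0 < T) (h : Nice f f' T)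
    (hg : ContinuousOn g (Ioi 0)) (hK : ∀ x ∈ Icc T (2 * T), ‖f x‖ ≤ K)
    (hK' : ∀ x ∈ Icc T (2 * T), ‖f' x‖ ≤ K') (hZ : ∀ z ∈ Icc T (2 * T), ‖∫ x in T..z, g x‖ ≤ Z)
    {y : ℝ} (hy : y ∈ Icc T (2 * T)) : ‖∫ x in T..y, g x * f x‖ ≤ (K + T * K') * Z := by
  have hs : Icc T y ⊆ Icc T (2 * T) := Icc_subset_Icc_right hy.2
  have hi : ∀ z, T ≤ z → IntervalIntegrable g volume T z := fun z hz =>
    (hg.mono fun x hx => hT.trans_le hx.1).intervalIntegrable_of_Icc hz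
  have h2 := intervalIntegral.integral_mul_deriv_eq_deriv_mul_of_hasDeriv_right (a := T) (b := y)
    (u := f) (v := fun z => ∫ x in T..z, g x) (u' := f') (v' := g)
    (by
      rw [uIcc_of_le hy.1]
      exact h.cont.mono hs)
    (intervalIntegral.continuousOn_primitive_interval' (hi y hy.1) left_mem_uIcc)
    (by
      rw [min_eq_left hy.1, max_eq_right hy.1]
      exact fun x hx => h.der x ⟨hx.1, hx.2.trans_le hy.2⟩)
    (by
      rw [min_eq_left hy.1, max_eq_right hy.1]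
      exact fun x hx => (intervalIntegral.integral_hasDerivAt_right (hi x hx.1.le)
        (hg.stronglyMeasurableAtFilter isOpen_Ioi x (hT.trans hx.1))
        (hg.continuousAt (Ioi_mem_nhds (hT.trans hx.1)))).hasDerivWithinAt)
    (h.bm.int hy) (hi y hy.1)
  have K0 : 0 ≤ K' := (norm_nonneg _).trans (hK' y hy)
  have Z0 : 0 ≤ Z := (norm_nonneg _).trans (hZ y hy)
  have h3 : ‖∫ x in T..y, f' x * ∫ t in T..x, g t‖ ≤ K' * Z * |y - T| :=
    intervalIntegral.norm_integral_le_of_norm_le_const fun x hx => by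
      have hx' : x ∈ Icc T (2 * T) := hs (Ioc_subset_Icc_self (by rwa [uIoc_of_le hy.1] at hx))
      exact (norm_mul_le _ _).trans (mul_le_mul (hK' x hx') (hZ x hx') (norm_nonneg _) K0)
  have h4 : ‖f y * ∫ x in T..y, g x‖ ≤ K * Z := (norm_mul_le _ _).trans
    (mul_le_mul (hK y hy) (hZ y hy) (norm_nonneg _) ((norm_nonneg _).trans (hK y hy)))
  rw [abs_of_nonneg (sub_nonneg.2 hy.1)] at h3
  have h5 : K' * Z * (y - T) ≤ K' * Z * T :=
    mul_le_mul_of_nonneg_left (by linarith [hy.2]) (mul_nonneg K0 Z0)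
  simp only [mul_comm (g _)]
  rw [h2, intervalIntegral.integral_same, mul_zero, sub_zero]
  refine (norm_sub_le _ _).trans ?_
  linarith

theorem rb1_cut {g : ℝ → ℂ} {T c y : ℝ} (hy : T ≤ y) (hc : c ≤ y)
    (hg : IntervalIntegrable g volume (max T c) y) :
    IntervalIntegrable (fun x => if c ≤ x then g x else 0) volume T y ∧
      ∫ x in T..y, (if c ≤ x then g x else 0) = ∫ x in max T c..y, g x := by
  have h1 : T ≤ max T c := le_max_left _ _
  have h2 : max T c ≤ y := max_le hy hc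
  have e1 : EqOn (fun _ => (0 : ℂ)) (fun x => if c ≤ x then g x else 0) (Ioo T (max T c)) :=
    fun x hx => by
      have : ¬c ≤ x := fun h => (max_le hx.1.le h).not_gt hx.2
      simp only [this, if_false]
  have e2 : EqOn g (fun x => if c ≤ x then g x else 0) (Ioo (max T c) y) := fun x hx => by
    have : c ≤ x := (le_max_right _ _).trans hx.1.le
    simp only [this, if_true]
  have i1 : IntervalIntegrable (fun x => if c ≤ x then g x else 0) volume T (max T c) :=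
    (intervalIntegrable_iff_integrableOn_Ioo_of_le h1).2
      (integrableOn_zero.congr_fun e1 measurableSet_Ioo)
  have i2 : IntervalIntegrable (fun x => if c ≤ x then g x else 0) volume (max T c) y :=
    (intervalIntegrable_iff_integrableOn_Ioo_of_le h2).2
      (((intervalIntegrable_iff_integrableOn_Ioo_of_le h2).1 hg).congr_fun e2 measurableSet_Ioo)
  refine ⟨i1.trans i2, ?_⟩
  rw [← intervalIntegral.integral_add_adjacent_intervals i1 i2, intervalIntegral.integral_of_le h1,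
    intervalIntegral.integral_of_le h2, intervalIntegral.integral_of_le h2,
    integral_Ioc_eq_integral_Ioo, integral_Ioc_eq_integral_Ioo, integral_Ioc_eq_integral_Ioo,
    ← setIntegral_congr_fun measurableSet_Ioo e1, ← setIntegral_congr_fun measurableSet_Ioo e2,
    integral_zero, zero_add]

/- On `[T, y]` the sum `GG N x` is the sum over `a ≤ y / N` of the indicator function of `a N ≤ x` times
`E (x / a)`. -/
theorem GG_int {φ : ℝ → ℂ} (hφ : ContinuousOn φ (Ioi 0)) {N : ℕ} (hN : 1 ≤ N) {T y : ℝ} (hT : 0 < T)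
    (hy : T ≤ y) : IntervalIntegrable (fun x => φ x * GG N x) volume T y ∧
      ∫ x in T..y, φ x * GG N x = ∑ a ∈ Finset.Icc 1 ⌊y / N⌋₊,
        ∫ x in max T (a * N)..y, φ x * (zs 2).E (x / a) := by
  have N1 : (1 : ℝ) ≤ N := by exact_mod_cast hN
  have N0 : (0 : ℝ) < N := by linarith
  have y0 : 0 < y := hT.trans_le hy
  have hc : ∀ a ∈ Finset.Icc 1 ⌊y / N⌋₊, IntervalIntegrable
      (fun x => if (a : ℝ) * N ≤ x then φ x * (zs 2).E (x / a) else 0) volume T y ∧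
      ∫ x in T..y, (if (a : ℝ) * N ≤ x then φ x * (zs 2).E (x / a) else 0) =
        ∫ x in max T (a * N)..y, φ x * (zs 2).E (x / a) := fun a ha => by
    obtain ⟨a1, a2⟩ := Finset.mem_Icc.1 ha
    have a3 : (0 : ℝ) < a := by exact_mod_cast a1
    have a4 : (a : ℝ) * N ≤ y := (le_div_iff₀ N0).1 ((Nat.le_floor_iff (by positivity)).1 a2)
    refine rb1_cut hy a4 (E_dil_int _ a3 (le_trans ?_ (le_max_right _ _)) (max_le hy a4)
      (hφ.mono fun x hx => (hT.trans_le (le_max_left _ _)).trans_le hx.1))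
    exact le_mul_of_one_le_right a3.le N1
  have e : EqOn (fun x => ∑ a ∈ Finset.Icc 1 ⌊y / N⌋₊,
      if (a : ℝ) * N ≤ x then φ x * (zs 2).E (x / a) else 0) (fun x => φ x * GG N x) (Icc T y) :=
    fun x hx => by
      have x0 : 0 < x := hT.trans_le hx.1
      have e1 : (Finset.Icc 1 ⌊y / N⌋₊).filter (fun a : ℕ => (a : ℝ) * N ≤ x) =
          Finset.Icc 1 ⌊x / N⌋₊ := by
        ext a
        rw [Finset.mem_filter, Finset.mem_Icc, Finset.mem_Icc, Nat.le_floor_iff (by positivity),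
          Nat.le_floor_iff (by positivity), le_div_iff₀ N0, le_div_iff₀ N0]
        exact ⟨fun h => ⟨h.1.1, h.2⟩, fun h => ⟨⟨h.1, h.2.trans hx.2⟩, h.2⟩⟩
      simp only
      rw [← Finset.sum_filter, e1, GG, Finset.mul_sum]
  have hi : IntervalIntegrable (fun x => ∑ a ∈ Finset.Icc 1 ⌊y / N⌋₊,
      if (a : ℝ) * N ≤ x then φ x * (zs 2).E (x / a) else 0) volume T y := by
    have := IntervalIntegrable.sum (Finset.Icc 1 ⌊y / N⌋₊) fun a ha => (hc a ha).1
    rwa [Finset.sum_fn] at this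
  refine ⟨(intervalIntegrable_iff_integrableOn_Icc_of_le hy).2
    (((intervalIntegrable_iff_integrableOn_Icc_of_le hy).1 hi).congr_fun e measurableSet_Icc), ?_⟩
  rw [← intervalIntegral.integral_congr (by rw [uIcc_of_le hy]; exact e),
    intervalIntegral.integral_finsetSum fun a ha => (hc a ha).1]
  exact Finset.sum_congr rfl fun a ha => (hc a ha).2

end Pool.Agent.Lib.MP_2a1a00_nt
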