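import Pool.Agent.Lib.MP_2a1a00_nt.R.S1
import Pool.Agent.Lib.MP_2a1a00_nt.R.A1

/-! The diagonal sums. -/

namespace Pool.Agent.Lib.MP_2a1a00_nt

open Complex MeasureTheory Set

theorem fa_nonneg (m : ℕ) (Z : ℝ) : 0 ≤ fa m Z := by
  exact Finset.sum_nonneg fun a _ => div_nonneg (dv_nonneg _) (Nat.cast_nonneg _)

theorem fa_le (m : ℕ) {Z : ℝ} (hZ : 1 ≤ Z) : fa m Z ≤ dv m * (1 + Real.log Z) ^ 2 := by
  have h1 : 1 ≤ ⌊Z⌋₊ := Nat.le_floor (by exact_mod_cast hZ)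
  have h2 : (1 : ℝ) ≤ ⌊Z⌋₊ := by exact_mod_cast h1
  have h3 : Real.log (⌊Z⌋₊ : ℝ) ≤ Real.log Z :=
    Real.log_le_log (by linarith) (Nat.floor_le (by linarith))
  have h4 : 0 ≤ Real.log (⌊Z⌋₊ : ℝ) := Real.log_nonneg h2
  calc fa m Z ≤ dv m * AA ⌊Z⌋₊ := by
        rw [fa, AA, Finset.mul_sum]
        refine Finset.sum_le_sum fun a _ => ?_
        rw [← mul_div_assoc, mul_comm (dv m)]
        exact div_le_div_of_nonneg_right (dv_mul a m) (Nat.cast_nonneg _)
    _ ≤ dv m * (1 + Real.log Z) ^ 2 := by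
        refine mul_le_mul_of_nonneg_left ((AA_le _).trans ?_) (dv_nonneg m)
        exact pow_le_pow_left₀ (by linarith) (by linarith) 2

/- `dv_mul`, `sum_dv_le`. -/
theorem fa_range (m : ℕ) {Z : ℝ} (hZ : 1 ≤ Z) :
    ∑ a ∈ Finset.Ioc ⌊Z⌋₊ ⌊2 * Z⌋₊, dv (a * m) / a ≤ 4 * dv m * (1 + Real.log Z) := by
  have hZ0 : 0 < Z := by linarith
  have h1 : 1 ≤ ⌊2 * Z⌋₊ := Nat.le_floor (by push_cast; linarith)
  have h2 : (1 : ℝ) ≤ ⌊2 * Z⌋₊ := by exact_mod_cast h1
  have h2' : (⌊2 * Z⌋₊ : ℝ) ≤ 2 * Z := Nat.floor_le (by linarith)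
  have h3 : Real.log (⌊2 * Z⌋₊ : ℝ) ≤ 1 + Real.log Z := by
    refine (Real.log_le_log (by linarith) h2').trans ?_
    rw [Real.log_mul (by norm_num) hZ0.ne']
    have := Real.log_two_lt_d9
    linarith
  have h4 : 0 ≤ Real.log (⌊2 * Z⌋₊ : ℝ) := Real.log_nonneg h2
  have h5 : 0 ≤ Real.log Z := Real.log_nonneg hZ
  have hm := dv_nonneg m
  calc ∑ a ∈ Finset.Ioc ⌊Z⌋₊ ⌊2 * Z⌋₊, dv (a * m) / a
      ≤ ∑ a ∈ Finset.Ioc ⌊Z⌋₊ ⌊2 * Z⌋₊, dv m / Z * dv a := by
        refine Finset.sum_le_sum fun a ha => ?_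
        have h6 : Z < a := Nat.lt_of_floor_lt (Finset.mem_Ioc.1 ha).1
        calc dv (a * m) / a ≤ dv a * dv m / a :=
              div_le_div_of_nonneg_right (dv_mul a m) (Nat.cast_nonneg _)
          _ ≤ dv a * dv m / Z :=
              div_le_div_of_nonneg_left (mul_nonneg (dv_nonneg _) hm) hZ0 h6.le
          _ = dv m / Z * dv a := by ring
    _ ≤ ∑ a ∈ Finset.Icc 1 ⌊2 * Z⌋₊, dv m / Z * dv a := by
        refine Finset.sum_le_sum_of_subset_of_nonneg (fun a ha => ?_)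
          fun a _ _ => mul_nonneg (div_nonneg hm hZ0.le) (dv_nonneg _)
        have := Finset.mem_Ioc.1 ha
        exact Finset.mem_Icc.2 ⟨by omega, this.2⟩
    _ ≤ dv m / Z * (2 * Z * (2 * (1 + Real.log Z))) := by
        rw [← Finset.mul_sum]
        refine mul_le_mul_of_nonneg_left ((sum_dv_le _).trans ?_) (div_nonneg hm hZ0.le)
        exact mul_le_mul h2' (by linarith) (by linarith) (by linarith)
    _ = 4 * dv m * (1 + Real.log Z) := by field_simp; ring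

theorem rd1_fac {p : ℕ} (hp : p.Prime) (v : ℕ) : (1 : ℝ) ≤ (v : ℝ) + 1 - (v : ℝ) / p := by
  have h1 : (1 : ℝ) ≤ p := by exact_mod_cast hp.one_le
  have h2 : (v : ℝ) / p ≤ v := div_le_self (Nat.cast_nonneg _) h1
  linarith

theorem gm_pos (m : ℕ) : 1 ≤ gm m := by
  calc (1 : ℝ) = ∏ _p ∈ m.primeFactors, (1 : ℝ) := by simp
    _ ≤ gm m := Finset.prod_le_prod (fun _ _ => zero_le_one)
        fun p hp => rd1_fac (Nat.prime_of_mem_primeFactors hp) _

theorem gm_le {m : ℕ} (hm : 1 ≤ m) : gm m ≤ dv m := by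
  rw [dv, Nat.card_divisors (by omega), gm]
  push_cast
  refine Finset.prod_le_prod (fun p hp => zero_le_one.trans
    (rd1_fac (Nat.prime_of_mem_primeFactors hp) _)) fun p _ => ?_
  have : (0 : ℝ) ≤ (m.factorization p : ℝ) / p := by positivity
  linarith

theorem rd1_one : ∃ K : ℝ, ∀ Z : ℝ, 1 ≤ Z →
    |fa 1 Z - Real.log Z ^ 2 / 2| ≤ K * (1 + Real.log Z) := by
  obtain ⟨c, C, hC, h1⟩ := harm_one
  obtain ⟨c', C', hC', h2⟩ := harm_two
  have hp : ∀ z : ℝ, 1 ≤ z → z ^ (-3 / 4 : ℝ) ≤ 1 := fun z hz =>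
    Real.rpow_le_one_of_one_le_of_nonpos hz (by norm_num)
  have a1 : ∀ z : ℝ, 1 ≤ z →
      |∑ a ∈ Finset.Icc 1 ⌊z⌋₊, (1 : ℝ) / a - Real.log z| ≤ |c| + C := fun z hz => by
    have b1 := h1 z hz
    have b2 := mul_le_mul_of_nonneg_left (hp z hz) hC.le
    have b3 := le_abs_self c
    have b4 := neg_abs_le c
    rw [abs_le] at b1 ⊢
    constructor <;> linarith [b1.1, b1.2]
  have a2 : ∀ z : ℝ, 1 ≤ z →
      |∑ a ∈ Finset.Icc 1 ⌊z⌋₊, Real.log a / a - Real.log z ^ 2 / 2| ≤ |c'| + C' := fun z hz => by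
    have b1 := h2 z hz
    have b2 := mul_le_mul_of_nonneg_left (hp z hz) hC'.le
    have b3 := le_abs_self c'
    have b4 := neg_abs_le c'
    rw [abs_le] at b1 ⊢
    constructor <;> linarith [b1.1, b1.2]
  generalize hA : |c| + C = A at a1
  generalize hB : |c'| + C' = B at a2
  have hA0 : 0 ≤ A := by rw [← hA]; positivity
  have hB0 : 0 ≤ B := by rw [← hB]; positivity
  refine ⟨2 * A + A * A + B, fun Z hZ => ?_⟩
  have hZ0 : 0 < Z := by linarith
  have hl : 0 ≤ Real.log Z := Real.log_nonneg hZ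
  have e1 : fa 1 Z = ∑ u ∈ Finset.Icc 1 ⌊Z⌋₊,
      (1 : ℝ) / u * ∑ v ∈ Finset.Icc 1 ⌊Z / u⌋₊, (1 : ℝ) / v := by
    have := sum_dv_mul ⌊Z⌋₊ fun n => (1 : ℝ) / n
    rw [fa]
    simp only [mul_one]
    calc _ = ∑ n ∈ Finset.Icc 1 ⌊Z⌋₊, dv n * ((1 : ℝ) / n) :=
          Finset.sum_congr rfl fun n _ => by ring
      _ = _ := by
          rw [this]
          refine Finset.sum_congr rfl fun u _ => ?_
          rw [Nat.floor_div_natCast, Finset.mul_sum]
          refine Finset.sum_congr rfl fun v _ => ?_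
          push_cast
          ring
  have e2 : |fa 1 Z - ∑ u ∈ Finset.Icc 1 ⌊Z⌋₊, (1 : ℝ) / u * (Real.log Z - Real.log u)| ≤
      A * ∑ u ∈ Finset.Icc 1 ⌊Z⌋₊, (1 : ℝ) / u := by
    rw [e1, ← Finset.sum_sub_distrib, Finset.mul_sum]
    refine (Finset.abs_sum_le_sum_abs _ _).trans (Finset.sum_le_sum fun u hu => ?_)
    obtain ⟨hu1, hu2⟩ := Finset.mem_Icc.1 hu
    have hu0 : (0 : ℝ) < u := by exact_mod_cast hu1
    have huZ : (u : ℝ) ≤ Z := (Nat.le_floor_iff hZ0.le).1 hu2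
    have := a1 (Z / u) ((one_le_div hu0).2 huZ)
    rw [Real.log_div hZ0.ne' hu0.ne'] at this
    rw [← mul_sub, abs_mul, abs_of_nonneg (by positivity), mul_comm]
    exact mul_le_mul_of_nonneg_right this (by positivity)
  have e3 : ∑ u ∈ Finset.Icc 1 ⌊Z⌋₊, (1 : ℝ) / u * (Real.log Z - Real.log u) =
      Real.log Z * ∑ u ∈ Finset.Icc 1 ⌊Z⌋₊, (1 : ℝ) / u -
        ∑ u ∈ Finset.Icc 1 ⌊Z⌋₊, Real.log u / u := by
    rw [Finset.mul_sum, ← Finset.sum_sub_distrib]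
    exact Finset.sum_congr rfl fun u _ => by ring
  rw [e3] at e2
  have b1 := a1 Z hZ
  have b2 := a2 Z hZ
  generalize ∑ u ∈ Finset.Icc 1 ⌊Z⌋₊, (1 : ℝ) / u = H at *
  generalize ∑ u ∈ Finset.Icc 1 ⌊Z⌋₊, Real.log u / u = G at *
  generalize Real.log Z = l at *
  rw [abs_le] at b1 b2 e2 ⊢
  have c1 : A * H ≤ A * (l + A) := mul_le_mul_of_nonneg_left (by linarith [b1.2]) hA0
  have c2 : l * H ≤ l * (l + A) := mul_le_mul_of_nonneg_left (by linarith [b1.2]) hl
  have c3 : l * (l - A) ≤ l * H := mul_le_mul_of_nonneg_left (by linarith [b1.1]) hl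
  have c4 : 0 ≤ A * A * l := by positivity
  have c5 : 0 ≤ B * l := by positivity
  constructor <;> nlinarith [b2.1, b2.2, e2.1, e2.2]

/- `sum_dv_mul`, `harm_one`, `harm_two`. -/
theorem fa_one : Filter.Tendsto (fun Z : ℝ => fa 1 Z / Real.log Z ^ 2) Filter.atTop (nhds (1 / 2)) := by
  obtain ⟨K, hK⟩ := rd1_one
  have h0 : Filter.Tendsto (fun Z : ℝ => (Real.log Z)⁻¹) Filter.atTop (nhds 0) :=
    Real.tendsto_log_atTop.inv_tendsto_atTop
  have h1 : Filter.Tendsto (fun Z : ℝ => K * ((Real.log Z)⁻¹ ^ 2 + (Real.log Z)⁻¹)) Filter.atTop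
      (nhds 0) := by
    simpa using ((h0.pow 2).add h0).const_mul K
  rw [tendsto_iff_norm_sub_tendsto_zero]
  refine squeeze_zero' (Filter.Eventually.of_forall fun _ => norm_nonneg _) ?_ h1
  filter_upwards [Filter.eventually_gt_atTop (1 : ℝ)] with Z hZ
  have hl : 0 < Real.log Z := Real.log_pos hZ
  have e1 : fa 1 Z / Real.log Z ^ 2 - 1 / 2 = (fa 1 Z - Real.log Z ^ 2 / 2) / Real.log Z ^ 2 := by
    field_simp
  rw [e1, Real.norm_eq_abs, abs_div, abs_of_pos (pow_pos hl 2), div_le_iff₀ (pow_pos hl 2)]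
  refine (hK Z hZ.le).trans (le_of_eq ?_)
  field_simp

theorem rd1_dv_pow {p n : ℕ} (hp : p.Prime) (hn : ¬ p ∣ n) (v : ℕ) :
    dv (p ^ v * n) = (v + 1) * dv n := by
  have hc : Nat.Coprime (p ^ v) n := Nat.Coprime.pow_left v ((Nat.Prime.coprime_iff_not_dvd hp).2 hn)
  rw [dv, dv, hc.card_divisors_mul, Nat.divisors_prime_pow hp]
  simp

theorem rd1_dv_two {p : ℕ} (hp : p.Prime) (n : ℕ) : dv (p * (p * n)) = 2 * dv (p * n) - dv n := by
  rcases Nat.eq_zero_or_pos n with rfl | hn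
  · simp [dv]
  obtain ⟨v, n', hn', rfl⟩ := Nat.exists_eq_pow_mul_and_not_dvd hn.ne' p hp.ne_one
  have e1 : p * (p * (p ^ v * n')) = p ^ (v + 2) * n' := by ring
  have e2 : p * (p ^ v * n') = p ^ (v + 1) * n' := by ring
  rw [e1, e2, rd1_dv_pow hp hn', rd1_dv_pow hp hn', rd1_dv_pow hp hn']
  push_cast
  ring

theorem rd1_fa_two {p : ℕ} (hp : p.Prime) (m : ℕ) (Z : ℝ) :
    fa (p * (p * m)) Z = 2 * fa (p * m) Z - fa m Z := by
  simp only [fa]
  rw [Finset.mul_sum, ← Finset.sum_sub_distrib]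
  refine Finset.sum_congr rfl fun a _ => ?_
  have e1 : a * (p * (p * m)) = p * (p * (a * m)) := by ring
  have e2 : a * (p * m) = p * (a * m) := by ring
  rw [e1, e2, rd1_dv_two hp]
  ring

theorem rd1_fa_one {p m : ℕ} (hp : p.Prime) (hm : ¬ p ∣ m) (Z : ℝ) :
    fa (p * m) Z = 2 * fa m Z - fa m (Z / p) / p := by
  have e0 : fa m (Z / p) / p =
      ∑ a ∈ Finset.Icc 1 ⌊Z⌋₊, if p ∣ a then dv (a / p * m) / a else 0 := by
    rw [← Finset.sum_filter, fa, Nat.floor_div_natCast, Finset.sum_div]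
    refine Finset.sum_bij (fun b _ => p * b) (fun b hb => ?_) (fun b _ b' _ h => ?_)
      (fun a ha => ?_) fun b _ => ?_
    · obtain ⟨h1, h2⟩ := Finset.mem_Icc.1 hb
      refine Finset.mem_filter.2 ⟨Finset.mem_Icc.2 ⟨Nat.mul_pos hp.pos h1, ?_⟩, Dvd.intro _ rfl⟩
      rw [mul_comm]
      exact (Nat.le_div_iff_mul_le hp.pos).1 h2
    · exact Nat.eq_of_mul_eq_mul_left hp.pos h
    · obtain ⟨h1, b, rfl⟩ := Finset.mem_filter.1 ha
      obtain ⟨h2, h3⟩ := Finset.mem_Icc.1 h1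
      refine ⟨b, Finset.mem_Icc.2 ⟨Nat.pos_of_mul_pos_left h2, ?_⟩, rfl⟩
      rw [mul_comm] at h3
      exact (Nat.le_div_iff_mul_le hp.pos).2 h3
    · rw [Nat.mul_div_cancel_left _ hp.pos]
      push_cast
      ring
  rw [e0]
  simp only [fa]
  rw [Finset.mul_sum, ← Finset.sum_sub_distrib]
  refine Finset.sum_congr rfl fun a _ => ?_
  split_ifs with ha
  · obtain ⟨b, rfl⟩ := ha
    have e1 : p * b * (p * m) = p * (p * (b * m)) := by ring
    have e2 : p * b * m = p * (b * m) := by ring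
    rw [Nat.mul_div_cancel_left _ hp.pos, e1, e2, rd1_dv_two hp]
    ring
  · have h : ¬ p ∣ a * m := fun h => ((Nat.Prime.dvd_mul hp).1 h).elim ha hm
    have e1 : a * (p * m) = p ^ 1 * (a * m) := by ring
    rw [e1, rd1_dv_pow hp h]
    push_cast
    ring

theorem rd1_gm {p m : ℕ} (hp : p.Prime) (hm : ¬ p ∣ m) (v : ℕ) :
    gm (p ^ v * m) = ((v : ℝ) + 1 - (v : ℝ) / p) * gm m := by
  have hm0 : m ≠ 0 := by
    rintro rfl
    exact hm (dvd_zero p)
  rcases Nat.eq_zero_or_pos v with rfl | hv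
  · simp
  have hpv : p ^ v ≠ 0 := pow_ne_zero _ hp.ne_zero
  have h1 : (p ^ v * m).primeFactors = insert p m.primeFactors := by
    rw [Nat.primeFactors_mul hpv hm0, Nat.primeFactors_prime_pow hv.ne' hp]
    rfl
  have h2 : p ∉ m.primeFactors := fun h => hm (Nat.dvd_of_mem_primeFactors h)
  have h3 : (p ^ v * m).factorization = Finsupp.single p v + m.factorization := by
    rw [Nat.factorization_mul hpv hm0, hp.factorization_pow]
  rw [gm, gm, h1, Finset.prod_insert h2, h3]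
  congr 1
  · simp [Nat.factorization_eq_zero_of_not_dvd hm]
  · refine Finset.prod_congr rfl fun q hq => ?_
    have h4 : p ≠ q := fun h => h2 (h ▸ hq)
    simp [h4]

theorem rd1_shift {f : ℝ → ℝ} {L c : ℝ} (hc : 0 < c)
    (h : Filter.Tendsto (fun Z : ℝ => f Z / Real.log Z ^ 2) Filter.atTop (nhds L)) :
    Filter.Tendsto (fun Z : ℝ => f (Z / c) / Real.log Z ^ 2) Filter.atTop (nhds L) := by
  have h0 : Filter.Tendsto (fun Z : ℝ => (Real.log Z)⁻¹) Filter.atTop (nhds 0) :=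
    Real.tendsto_log_atTop.inv_tendsto_atTop
  have h1 := h.comp (Filter.tendsto_id.atTop_div_const hc)
  have h2 : Filter.Tendsto (fun Z : ℝ => (1 - Real.log c * (Real.log Z)⁻¹) ^ 2) Filter.atTop
      (nhds 1) := by
    simpa using ((h0.const_mul (Real.log c)).const_sub 1).pow 2
  have h3 := h1.mul h2
  rw [mul_one] at h3
  refine h3.congr' ?_
  filter_upwards [Filter.eventually_gt_atTop (1 : ℝ), Filter.eventually_gt_atTop c] with Z hZ hZc
  have hl : 0 < Real.log Z := Real.log_pos hZ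
  have hl' : 0 < Real.log (Z / c) := Real.log_pos ((one_lt_div hc).2 hZc)
  have e : 1 - Real.log c * (Real.log Z)⁻¹ = Real.log (Z / c) / Real.log Z := by
    rw [Real.log_div (by linarith) hc.ne']
    field_simp
  simp only [Function.comp, id]
  rw [e]
  field_simp

/- `Nat.recOnPrimePow`; `dv (p n) = 2 dv n - dv (n / p)` if `p ∣ n` and `dv (p n) = 2 dv n` otherwise.  So
`fa (p m) Z = 2 fa m Z - fa m (Z / p) / p` if `p ∤ m`, and `fa (p p m) Z = 2 fa (p m) Z - fa m Z`. -/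
theorem fa_lim {m : ℕ} (hm : 1 ≤ m) :
    Filter.Tendsto (fun Z : ℝ => fa m Z / Real.log Z ^ 2) Filter.atTop (nhds (gm m / 2)) := by
  induction m using Nat.recOnPrimePow with
  | zero => omega
  | one => simpa [gm] using fa_one
  | prime_pow_mul a p n hp ha hn ih =>
    have ha0 : 1 ≤ a := Nat.pos_of_ne_zero fun h => ha (h ▸ dvd_zero p)
    have h0 := ih ha0
    have hp0 : (0 : ℝ) < p := by exact_mod_cast hp.pos
    have key : ∀ v : ℕ,
        Filter.Tendsto (fun Z : ℝ => fa (p ^ v * a) Z / Real.log Z ^ 2) Filter.atTop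
          (nhds (gm (p ^ v * a) / 2)) ∧
        Filter.Tendsto (fun Z : ℝ => fa (p ^ (v + 1) * a) Z / Real.log Z ^ 2) Filter.atTop
          (nhds (gm (p ^ (v + 1) * a) / 2)) := by
      intro v
      induction v with
      | zero =>
        refine ⟨by simpa using h0, ?_⟩
        have h1 := (h0.const_mul 2).sub ((rd1_shift hp0 h0).div_const p)
        have e : gm (p ^ (0 + 1) * a) / 2 = 2 * (gm a / 2) - gm a / 2 / p := by
          rw [rd1_gm hp ha]
          push_cast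
          ring
        rw [e]
        refine h1.congr fun Z => ?_
        rw [zero_add, pow_one, rd1_fa_one hp ha]
        ring
      | succ v ih2 =>
        refine ⟨ih2.2, ?_⟩
        have h1 := (ih2.2.const_mul 2).sub ih2.1
        have e : gm (p ^ (v + 1 + 1) * a) / 2 =
            2 * (gm (p ^ (v + 1) * a) / 2) - gm (p ^ v * a) / 2 := by
          rw [rd1_gm hp ha, rd1_gm hp ha, rd1_gm hp ha]
          push_cast
          ring
        rw [e]
        refine h1.congr fun Z => ?_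
        have e1 : p ^ (v + 1 + 1) * a = p * (p * (p ^ v * a)) := by ring
        have e2 : p ^ (v + 1) * a = p * (p ^ v * a) := by ring
        rw [e1, e2, rd1_fa_two hp]
        ring
    exact (key n).1

end Pool.Agent.Lib.MP_2a1a00_nt
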