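import Pool.Agent.Lib.MP_2a1a00_nt.R.Defs

/-! An integral of the majorant. -/

namespace Pool.Agent.Lib.MP_2a1a00_nt

open Complex MeasureTheory Set

theorem ro0_le {σ V u : ℝ} (hu : 0 < u) :
    u ^ (-1 - 2 * σ) * min (√u / V) (√V / u) ≤ u ^ (-1 / 2 - 2 * σ) / V ∧
      u ^ (-1 - 2 * σ) * min (√u / V) (√V / u) ≤ √V * u ^ (-(2 + 2 * σ)) := by
  have h := Real.rpow_pos_of_pos hu (-1 - 2 * σ)
  refine ⟨(mul_le_mul_of_nonneg_left (min_le_left _ _) h.le).trans (le_of_eq ?_),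
    (mul_le_mul_of_nonneg_left (min_le_right _ _) h.le).trans (le_of_eq ?_)⟩
  · rw [Real.sqrt_eq_rpow, ← mul_div_assoc, ← Real.rpow_add hu]
    congr 2
    ring
  · rw [show -(2 + 2 * σ) = -1 - 2 * σ - 1 by ring, Real.rpow_sub_one hu.ne' (-1 - 2 * σ)]
    ring

/- Split the integral at `jb t = V`; `integral_comp_abs`, `integral_rpow`, `integral_Ioi_rpow_of_lt`. -/
theorem mw_int : ∃ C : ℝ, 0 < C ∧ ∀ σ V : ℝ, |σ| ≤ 1 / 8 → 1 ≤ V →
    Integrable (fun t : ℝ => jb t ^ (-1 - 2 * σ) * mw V t) ∧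
      ∫ t : ℝ, jb t ^ (-1 - 2 * σ) * mw V t ≤ C * V ^ (-1 / 2 - 2 * σ) := by
  refine ⟨16, by norm_num, fun σ V hσ hV => ?_⟩
  obtain ⟨s1, s2⟩ := abs_le.1 hσ
  have hV0 : 0 < V := by linarith
  have hi : Integrable fun t : ℝ => jb t ^ (-1 - 2 * σ) * mw V t := by
    refine ((integrable_one_add_norm (E := ℝ) (μ := volume) (r := 2 + 2 * σ)
      (by simp; linarith)).const_mul √V).mono' ?_ (ae_of_all _ fun t => ?_)
    · unfold mw jb
      exact Measurable.aestronglyMeasurable (by fun_prop)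
    · have h0 := jb_pos t
      rw [Real.norm_of_nonneg (by unfold mw; positivity)]
      exact (ro0_le h0).2
  refine ⟨hi, ?_⟩
  have e := integral_comp_abs
    (f := fun x : ℝ => (1 + x) ^ (-1 - 2 * σ) * min (√(1 + x) / V) (√V / (1 + x)))
  have hj : IntegrableOn (fun x : ℝ => (1 + x) ^ (-1 - 2 * σ) *
      min (√(1 + x) / V) (√V / (1 + x))) (Ioi 0) :=
    hi.integrableOn.congr_fun (fun x hx => by simp only [mw, jb, abs_of_pos (mem_Ioi.1 hx)])
      measurableSet_Ioi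
  have h1 : ∫ x in Ioc 0 V, (1 + x) ^ (-1 - 2 * σ) * min (√(1 + x) / V) (√V / (1 + x)) ≤
      4 * V ^ (-1 / 2 - 2 * σ) := by
    have a1 : -1 < -1 / 2 - 2 * σ := by linarith
    refine (setIntegral_mono_on (hj.mono_set Ioc_subset_Ioi_self)
      ((intervalIntegral.intervalIntegrable_rpow' a1 (a := 0) (b := V)).1.div_const V)
      measurableSet_Ioc fun x hx => (ro0_le (by linarith [hx.1])).1.trans
        (div_le_div_of_nonneg_right (Real.rpow_le_rpow_of_nonpos hx.1 (by linarith)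
          (by linarith)) hV0.le)).trans ?_
    rw [integral_div, ← intervalIntegral.integral_of_le hV0.le, integral_rpow (Or.inl a1),
      Real.zero_rpow (by linarith), sub_zero, Real.rpow_add_one hV0.ne', div_right_comm,
      mul_div_cancel_right₀ _ hV0.ne', div_le_iff₀ (by linarith)]
    nlinarith [Real.rpow_pos_of_pos hV0 (-1 / 2 - 2 * σ)]
  have h2 : ∫ x in Ioi V, (1 + x) ^ (-1 - 2 * σ) * min (√(1 + x) / V) (√V / (1 + x)) ≤
      4 * V ^ (-1 / 2 - 2 * σ) := by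
    have a1 : -(2 + 2 * σ) < -1 := by linarith
    refine (setIntegral_mono_on (hj.mono_set (Ioi_subset_Ioi hV0.le))
      ((integrableOn_Ioi_rpow_of_lt a1 hV0).const_mul √V)
      measurableSet_Ioi fun x hx => (ro0_le (by linarith [mem_Ioi.1 hx])).2.trans
        (mul_le_mul_of_nonneg_left (Real.rpow_le_rpow_of_nonpos (hV0.trans hx) (by linarith)
          (by linarith)) (Real.sqrt_nonneg V))).trans ?_
    rw [integral_const_mul, integral_Ioi_rpow_of_lt a1 hV0, neg_div, ← div_neg, ← mul_div_assoc,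
      Real.sqrt_eq_rpow, ← Real.rpow_add hV0,
      show 1 / 2 + (-(2 + 2 * σ) + 1) = -1 / 2 - 2 * σ by ring, div_le_iff₀ (by linarith)]
    nlinarith [Real.rpow_pos_of_pos hV0 (-1 / 2 - 2 * σ)]
  rw [← Ioc_union_Ioi_eq_Ioi hV0.le, setIntegral_union Ioc_disjoint_Ioi_same measurableSet_Ioi
    (hj.mono_set Ioc_subset_Ioi_self) (hj.mono_set (Ioi_subset_Ioi hV0.le))] at e
  refine (le_of_eq e).trans ?_
  linarith

end Pool.Agent.Lib.MP_2a1a00_nt
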