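import Pool.Agent.Lib.MP_2a1a00_nt.R.Defs
import Pool.Agent.Lib.MP_2a1a00_nt.V.Osc
import Pool.Agent.Lib.MP_2a1a00_nt.X

/-! The Mellin transform of the kernel. -/

namespace Pool.Agent.Lib.MP_2a1a00_nt

open Complex MeasureTheory Set

theorem ro1_pos {c t a b V : ℝ} (hab : a ≤ b) (hV : 1 ≤ V)
    (h : ∀ u ∈ Icc a b, V ≤ c * Real.exp (u / 2) ∧ c * Real.exp (u / 2) ≤ 3 / 2 * V) :
    ‖∫ u in a..b, exp (I * (c * Real.exp (u / 2) + t * u : ℝ))‖ ≤ 60 * mw V t := by
  have d0 : ∀ u : ℝ, HasDerivAt (fun u : ℝ => c * Real.exp (u / 2))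
      (c * Real.exp (u / 2) / 2) u := fun u =>
    ((((hasDerivAt_id' u).div_const 2).exp).const_mul c).congr_deriv (by ring)
  have d1 : ∀ u ∈ Icc a b, HasDerivAt (fun u : ℝ => c * Real.exp (u / 2) + t * u)
      (c * Real.exp (u / 2) / 2 + t) u := fun u _ =>
    ((d0 u).add ((hasDerivAt_id' u).const_mul t)).congr_deriv (by ring)
  have d2 : ∀ u ∈ Icc a b, HasDerivAt (fun u : ℝ => c * Real.exp (u / 2) / 2 + t)
      (c * Real.exp (u / 2) / 2 / 2) u := fun u _ => ((d0 u).div_const 2).add_const t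
  have hc : ContinuousOn (fun u : ℝ => c * Real.exp (u / 2) / 2 / 2) (Icc a b) := by fun_prop
  have d3 : ∀ u ∈ Icc a b, 0 ≤ c * Real.exp (u / 2) / 2 / 2 := fun u hu => by linarith [(h u hu).1]
  have hs : 1 ≤ √V := Real.one_le_sqrt.2 hV
  have hs' : √V * √V = V := Real.mul_self_sqrt (by linarith)
  have hj : 1 ≤ √(jb t) := Real.one_le_sqrt.2 (one_le_jb t)
  have hj' : √(jb t) * √(jb t) = jb t := Real.mul_self_sqrt (jb_pos t).le
  have hb : jb t = 1 + |t| := rfl
  have h0 := jb_pos t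
  have hV0 : 0 < V := by linarith
  rw [mw, mul_min_of_nonneg _ _ (by norm_num : (0 : ℝ) ≤ 60), ← mul_div_assoc, ← mul_div_assoc]
  rcases le_total |t| (V / 4) with h1 | h1
  · refine (osc_one (η := V / 4) hab (by positivity) d1 d2 hc d3 fun u hu => ?_).trans
      (le_min ?_ ?_)
    · linarith [(h u hu).1, neg_abs_le t, le_abs_self (c * Real.exp (u / 2) / 2 + t)]
    · rw [div_le_div_iff₀ (by positivity) hV0]
      nlinarith
    · rw [div_le_div_iff₀ (by positivity) h0]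
      nlinarith
  rcases le_total |t| (2 * V) with h2 | h2
  · refine (osc_two (lam := V / 4) hab (by positivity) d1 d2 hc
      (.inl fun u hu => by linarith [(h u hu).1])).trans ?_
    have e : √(V / 4) = √V / 2 := by
      rw [Real.sqrt_div hV0.le, show (4 : ℝ) = 2 ^ 2 by norm_num, Real.sqrt_sq (by norm_num)]
    have h3 : √V / 2 ≤ √(jb t) := e ▸ Real.sqrt_le_sqrt (by linarith)
    rw [e]
    refine le_min ?_ ?_
    · rw [div_le_div_iff₀ (by positivity) hV0]
      nlinarith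
    · rw [div_le_div_iff₀ (by positivity) h0]
      nlinarith
  · have h3 : 0 < |t| := by linarith
    refine (osc_one (η := |t| / 2) hab (by positivity) d1 d2 hc d3 fun u hu => ?_).trans
      (le_min ?_ ?_)
    · have h4 := abs_sub (c * Real.exp (u / 2) / 2 + t) (c * Real.exp (u / 2) / 2)
      rw [add_sub_cancel_left, abs_of_nonneg (by linarith [d3 u hu] : 0 ≤ c * Real.exp (u / 2) / 2)]
        at h4
      linarith [(h u hu).2]
    · rw [div_le_div_iff₀ (by positivity) hV0]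
      nlinarith
    · rw [div_le_div_iff₀ (by positivity) h0]
      nlinarith

theorem ro1_abs {c t a b V : ℝ} (hab : a ≤ b) (hV : 1 ≤ V)
    (h : ∀ u ∈ Icc a b, V ≤ |c| * Real.exp (u / 2) ∧ |c| * Real.exp (u / 2) ≤ 3 / 2 * V) :
    ‖∫ u in a..b, exp (I * (c * Real.exp (u / 2) + t * u : ℝ))‖ ≤ 60 * mw V t := by
  rcases abs_choice c with e | e <;> rw [e] at h
  · exact ro1_pos hab hV h
  · have h4 := ro1_pos (t := -t) hab hV h
    rw [show mw V (-t) = mw V t by simp only [mw, jb, abs_neg]] at h4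
    rw [← norm_conj, ← intervalIntegral.intervalIntegral_conj]
    refine le_of_eq_of_le (congrArg _ (intervalIntegral.integral_congr fun u _ => ?_)) h4
    simp only [← exp_conj, map_mul, conj_I, conj_ofReal]
    congr 1
    push_cast
    ring

theorem ro1_sqrt {x : ℝ} (hx : 0 < x) : Real.exp (Real.log x / 2) = √x := by
  rw [Real.exp_half, Real.exp_log hx]

/- `x_sub`; the phase is `φ u = c * exp (u / 2) + t u`, with `|φ''| ≥ V / 4`; `osc_two` for
`V / 4 ≤ |t| ≤ 2 V`, `osc_one` otherwise (for `c < 0` apply it to `-φ` and conjugate). -/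
theorem osc_log : ∃ C : ℝ, 0 < C ∧ ∀ c t T z : ℝ, 1 ≤ T → z ∈ Icc T (2 * T) → 1 ≤ |c| * √T →
    ‖∫ x in T..z, x⁻¹ • exp (I * (c * √x + t * Real.log x : ℝ))‖ ≤ C * mw (|c| * √T) t := by
  refine ⟨60, by norm_num, fun c t T z hT hz hV => ?_⟩
  have hT0 : 0 < T := by linarith
  have hz0 : 0 < z := hT0.trans_le hz.1
  have e := x_sub (ψ := fun u : ℝ => exp (I * (c * Real.exp (u / 2) + t * u : ℝ))) (by fun_prop)
    hT0 hz.1
  rw [intervalIntegral.integral_congr (g := fun x => x⁻¹ •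
    exp (I * (c * Real.exp (Real.log x / 2) + t * Real.log x : ℝ))) fun x hx => by
      rw [uIcc_of_le hz.1] at hx
      simp only [ro1_sqrt (hT0.trans_le hx.1)], e]
  refine ro1_abs (Real.log_le_log hT0 hz.1) hV fun u hu => ?_
  have h1 : √T ≤ Real.exp (u / 2) := by
    rw [← ro1_sqrt hT0]
    exact Real.exp_le_exp.2 (by linarith [hu.1])
  have h2 : Real.exp (u / 2) ≤ √z := by
    rw [← ro1_sqrt hz0]
    exact Real.exp_le_exp.2 (by linarith [hu.2])
  have h3 : √z ≤ 3 / 2 * √T := Real.sqrt_le_iff.2 ⟨by positivity, by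
    rw [mul_pow, Real.sq_sqrt hT0.le]
    linarith [hz.2]⟩
  exact ⟨mul_le_mul_of_nonneg_left h1 (abs_nonneg c), by
    linarith [mul_le_mul_of_nonneg_left (h2.trans h3) (abs_nonneg c)]⟩

theorem mw_mono {V V' : ℝ} (hV : 0 < V) (h : V ≤ V') (h' : V' ≤ 16 * V) (t : ℝ) :
    mw V' t ≤ 4 * mw V t := by
  rw [mw, mw, mul_min_of_nonneg _ _ (by norm_num : (0 : ℝ) ≤ 4)]
  have h0 := jb_pos t
  refine min_le_min ?_ ?_
  · have h1 : √(jb t) / V' ≤ √(jb t) / V := by gcongr
    have h2 : 0 ≤ √(jb t) / V := by positivity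
    linarith
  · have h1 : √V' ≤ 4 * √V := Real.sqrt_le_iff.2 ⟨by positivity, by
      rw [mul_pow, Real.sq_sqrt hV.le]
      linarith⟩
    rw [← mul_div_assoc]
    gcongr

theorem ro1_eq {P : Vo} (hP : Good P) {m b x : ℝ} (σ t : ℝ) (hm : 0 < m) (hb : 0 < b)
    (hx : 0 < x) : J0 P 2 (m * x) * px (σ + t * I) (b * x) =
      px (1 / 4 : ℝ) m * px (σ + t * I) b * (px (5 / 4 + σ : ℝ) x *
        (P.ap * x⁻¹ • exp (I * (4 * Real.pi * √m * √x + t * Real.log x : ℝ)) +
          P.am * x⁻¹ • exp (I * (-(4 * Real.pi * √m) * √x + t * Real.log x : ℝ)))) := by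
  have e1 : P.ex 2 = (1 / 4 : ℝ) := by rw [Vo.ex, hP.th, al_two, ofReal_zero, zero_mul, add_zero]
  have e2 : (m * x) ^ (1 / 2 : ℝ) = √m * √x := by rw [← Real.sqrt_eq_rpow, Real.sqrt_mul hm.le]
  have e3 : px (5 / 4 + σ : ℝ) x = x * px (1 / 4 : ℝ) x * px σ x := by
    rw [show ((5 / 4 + σ : ℝ) : ℂ) = (1 : ℝ) + (1 / 4 : ℝ) + σ by push_cast; ring, px_add, px_add,
      px_real 1 hx, Real.rpow_one]
  have e4 : px (σ + t * I) x = px σ x * exp (I * (t * Real.log x : ℝ)) := by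
    rw [px_add]
    congr 1
    rw [px]
    congr 1
    push_cast
    ring
  have h0 : (x : ℂ) ≠ 0 := ofReal_ne_zero.2 hx.ne'
  rw [J0, e1, e2, hP.ka, px_mul _ hm hx, px_mul _ hb hx, e3, e4, real_smul, real_smul,
    ofReal_add, ofReal_add, mul_add I, mul_add I, exp_add, exp_add, ofReal_inv,
    ← mul_assoc (4 * Real.pi), ← mul_assoc (-(4 * Real.pi)), neg_mul (4 * Real.pi)]
  field_simp

/- The integral over `α..β` is a difference of two integrals from `T`; `parts_px` with the exponent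
`5 / 4 + σ`. -/
theorem phi_bd {P : Vo} (hP : Good P) : ∃ C : ℝ, 0 < C ∧ ∀ m b σ t T α β : ℝ, 1 ≤ m → 0 < b →
    |σ| ≤ 1 / 8 → 1 ≤ T → α ∈ Icc T (2 * T) → β ∈ Icc T (2 * T) →
    ‖∫ x in α..β, J0 P 2 (m * x) * px (σ + t * I) (b * x)‖ ≤
      C * (m ^ (1 / 4 : ℝ) * b ^ σ * T ^ (5 / 4 + σ)) * mw √(m * T) t := by
  obtain ⟨C, hC, h⟩ := osc_log
  refine ⟨96 * C * (‖P.ap‖ + ‖P.am‖ + 1), by positivity, fun m b σ t T α β hm hb hσ hT hα hβ => ?_⟩
  have hT0 : 0 < T := by linarith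
  have hm0 : 0 < m := by linarith
  have hσ' := abs_le.1 hσ
  have hV : 1 ≤ √(m * T) := Real.one_le_sqrt.2 (one_le_mul_of_one_le_of_one_le hm hT)
  have hw := mw_nonneg (zero_le_one.trans hV) t
  have hpos : ∀ x ∈ Icc T (2 * T), 0 < x := fun x hx => hT0.trans_le hx.1
  have hc : ∀ c : ℝ, ContinuousOn
      (fun x : ℝ => x⁻¹ • exp (I * (c * √x + t * Real.log x : ℝ))) (Icc T (2 * T)) := fun c => by
    have h1 : ContinuousOn Real.log (Icc T (2 * T)) :=
      Real.continuousOn_log.mono fun x hx => (hpos x hx).ne'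
    exact (continuousOn_id.inv₀ fun x hx => (hpos x hx).ne').smul (by fun_prop)
  have hi : ∀ {f : ℝ → ℂ}, ContinuousOn f (Icc T (2 * T)) → ∀ y ∈ Icc T (2 * T),
      IntervalIntegrable f volume T y := fun hf y hy =>
    (hf.mono (Icc_subset_Icc_right hy.2)).intervalIntegrable_of_Icc hy.1
  have h1 : ∀ c : ℝ, |c| = 4 * Real.pi * √m → ∀ y ∈ Icc T (2 * T),
      ‖∫ x in T..y, x⁻¹ • exp (I * (c * √x + t * Real.log x : ℝ))‖ ≤
        C * (4 * mw √(m * T) t) := fun c e y hy => by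
    have e' : |c| * √T = 4 * Real.pi * √(m * T) := by rw [e, Real.sqrt_mul hm0.le, mul_assoc]
    have k1 : √(m * T) ≤ |c| * √T := by
      rw [e']
      nlinarith [Real.pi_gt_three]
    refine (h c t T y hT hy (hV.trans k1)).trans (mul_le_mul_of_nonneg_left
      (mw_mono (by linarith) k1 ?_ t) hC.le)
    rw [e']
    nlinarith [Real.pi_le_four]
  have e0 : |4 * Real.pi * √m| = 4 * Real.pi * √m := abs_of_nonneg (by positivity)
  have g0 := (continuousOn_const (c := P.ap).mul (hc (4 * Real.pi * √m))).add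
    (continuousOn_const (c := P.am).mul (hc (-(4 * Real.pi * √m))))
  have h2 : ∀ y ∈ Icc T (2 * T), ‖∫ x in T..y, J0 P 2 (m * x) * px (σ + t * I) (b * x)‖ ≤
      48 * C * (‖P.ap‖ + ‖P.am‖ + 1) * (m ^ (1 / 4 : ℝ) * b ^ σ * T ^ (5 / 4 + σ)) *
        mw √(m * T) t := fun y hy => by
    have k := parts_px (β := (5 / 4 + σ : ℝ))
      (Z := (‖P.ap‖ + ‖P.am‖ + 1) * (C * (4 * mw √(m * T) t))) hT0 g0
      (by rw [ofReal_re]; linarith) (fun z hz => by
        simp only [Pi.add_apply, Pi.mul_apply]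
        rw [intervalIntegral.integral_add ((hi (hc _) z hz).const_mul _)
          ((hi (hc _) z hz).const_mul _), intervalIntegral.integral_const_mul,
          intervalIntegral.integral_const_mul]
        refine (norm_add_le _ _).trans ?_
        rw [norm_mul, norm_mul]
        have k1 := mul_le_mul_of_nonneg_left (h1 _ e0 z hz) (norm_nonneg P.ap)
        have k2 := mul_le_mul_of_nonneg_left (h1 _ ((abs_neg _).trans e0) z hz) (norm_nonneg P.am)
        have k3 : 0 ≤ C * (4 * mw √(m * T) t) := by positivity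
        linarith) hy
    rw [intervalIntegral.integral_congr fun x hx => ro1_eq hP σ t hm0 hb (by
      rw [uIcc_of_le hy.1] at hx
      exact hT0.trans_le hx.1), intervalIntegral.integral_const_mul, norm_mul, norm_mul,
      norm_px _ hm0, norm_px _ hb, ofReal_re, show ((σ : ℂ) + t * I).re = σ by simp]
    refine (mul_le_mul_of_nonneg_left k (by positivity)).trans ?_
    have k1 : 1 + ‖((5 / 4 + σ : ℝ) : ℂ)‖ ≤ 3 := by
      rw [norm_real, Real.norm_of_nonneg (by linarith)]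
      linarith
    have k2 : (2 * T) ^ (5 / 4 + σ) ≤ 4 * T ^ (5 / 4 + σ) := by
      rw [Real.mul_rpow (by norm_num) hT0.le]
      refine mul_le_mul_of_nonneg_right ?_ (by positivity)
      refine (Real.rpow_le_rpow_of_exponent_le (by norm_num) (show 5 / 4 + σ ≤ 2 by linarith)).trans ?_
      norm_num
    rw [ofReal_re]
    calc _ ≤ m ^ (1 / 4 : ℝ) * b ^ σ * (3 * (4 * T ^ (5 / 4 + σ)) *
          ((‖P.ap‖ + ‖P.am‖ + 1) * (C * (4 * mw √(m * T) t)))) := by gcongr
      _ = _ := by ring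
  have g1 : ContinuousOn (fun x => J0 P 2 (m * x) * px (σ + t * I) (b * x)) (Icc T (2 * T)) :=
    ((J0_cont P 2).comp (continuousOn_const.mul continuousOn_id)
      fun x hx => mul_pos hm0 (hpos x hx)).mul ((px_cont _).comp
        (continuousOn_const.mul continuousOn_id) fun x hx => mul_pos hb (hpos x hx))
  rw [← intervalIntegral.integral_interval_sub_left (hi g1 β hβ) (hi g1 α hα)]
  refine (norm_sub_le _ _).trans ?_
  linarith [h2 α hα, h2 β hβ]

end Pool.Agent.Lib.MP_2a1a00_nt
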