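import Pool.Agent.Lib.MP_2a1a00_nt.R.O2

/-! More on the correlation of two kernels. -/

namespace Pool.Agent.Lib.MP_2a1a00_nt

open Complex MeasureTheory Set

variable {P : Vo}

theorem ro3_root {y : ℝ} (hy : 0 < y) :
    0 < y ^ (1 / 4 : ℝ) ∧ (y ^ (1 / 4 : ℝ)) ^ 2 = √y ∧ (y ^ (1 / 4 : ℝ)) ^ 4 = y := by
  refine ⟨by positivity, ?_, ?_⟩
  · rw [← Real.rpow_natCast, ← Real.rpow_mul hy.le, Real.sqrt_eq_rpow]
    norm_num
  · rw [← Real.rpow_natCast, ← Real.rpow_mul hy.le]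
    norm_num

theorem ro3_far {p q : ℝ} (hp : 0 < p) (hq : 0 < q) (h : 2 * p ^ 4 ≤ q ^ 4) :
    p * q / |p ^ 2 - q ^ 2| ≤ 4 * (p / q) ∧ p / q ≤ 1 := by
  have h1 : 4 * p ^ 2 ≤ 3 * q ^ 2 := by
    refine le_of_sq_le_sq ?_ (by positivity)
    nlinarith [pow_pos hq 4]
  have h2 : 0 < q ^ 2 := by positivity
  constructor
  · rw [abs_of_neg (by linarith), div_le_iff₀ (by linarith)]
    have h3 : p * q = p / q * q ^ 2 := by field_simp
    have h4 : 0 < p / q := by positivity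
    rw [h3]
    nlinarith
  · rw [div_le_one hq]
    exact le_of_sq_le_sq (by nlinarith) hq.le

theorem ro3_near {p q : ℝ} (hp : 0 < p) (hq : 0 < q) (h : p ^ 4 ≤ 2 * q ^ 4) (hne : q ^ 4 ≠ p ^ 4) :
    p * q / |p ^ 2 - q ^ 2| ≤ 6 * (q ^ 4 / |q ^ 4 - p ^ 4|) := by
  have h1 : p ^ 2 ≤ 2 * q ^ 2 := by
    refine le_of_sq_le_sq ?_ (by positivity)
    nlinarith [pow_pos hq 4]
  have h2 : p ≤ 2 * q := le_of_sq_le_sq (by nlinarith [pow_pos hq 2]) (by positivity)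
  have h3 : |q ^ 4 - p ^ 4| = |p ^ 2 - q ^ 2| * (p ^ 2 + q ^ 2) := by
    rw [← abs_of_pos (show 0 < p ^ 2 + q ^ 2 by positivity), ← abs_mul, abs_sub_comm]
    congr 1
    ring
  have h4 : 0 < |q ^ 4 - p ^ 4| := abs_pos.2 (sub_ne_zero.2 hne)
  have h5 : 0 < |p ^ 2 - q ^ 2| := by
    rw [h3] at h4
    exact pos_of_mul_pos_left h4 (by positivity)
  rw [h3, ← mul_div_assoc, div_le_div_iff₀ h5 (by positivity), mul_comm |p ^ 2 - q ^ 2|, ← mul_assoc]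
  refine mul_le_mul_of_nonneg_right ?_ h5.le
  calc p * q * (p ^ 2 + q ^ 2) ≤ 2 * q * q * (2 * q ^ 2 + q ^ 2) := by gcongr
    _ = 6 * q ^ 4 := by ring

theorem ro3_triv (P : Vo) {m b T α β : ℝ} (hm : 0 < m) (hb : 0 < b) (hT : 1 ≤ T)
    (hα : α ∈ Icc T (2 * T)) (hβ : β ∈ Icc T (2 * T)) :
    ‖Lam P m α β b‖ ≤ (‖P.ap‖ + ‖P.am‖) ^ 2 * (m ^ (1 / 4 : ℝ) * b ^ (1 / 4 : ℝ)) * (2 * √T) * T := by
  have h := intervalIntegral.norm_integral_le_of_norm_le_const (a := α) (b := β)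
    (f := fun x => J0 P 2 (m * x) * J0 P 2 (b * x))
    (C := (‖P.ap‖ + ‖P.am‖) ^ 2 * (m ^ (1 / 4 : ℝ) * b ^ (1 / 4 : ℝ)) * (2 * √T)) fun x hx => by
      have h1 : T ≤ x := (le_min hα.1 hβ.1).trans hx.1.le
      have h2 : x ≤ 2 * T := hx.2.trans (max_le hα.2 hβ.2)
      have h3 : 0 < x := by linarith
      have h4 : √x ≤ 2 * √T := by
        refine le_of_sq_le_sq ?_ (by positivity)
        rw [mul_pow, Real.sq_sqrt h3.le, Real.sq_sqrt (by linarith)]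
        linarith
      have h5 := norm_J0_le P 2 (mul_pos hm h3)
      have h6 := norm_J0_le P 2 (mul_pos hb h3)
      rw [al_two, Real.mul_rpow (by positivity) h3.le] at h5 h6
      rw [norm_mul]
      refine (mul_le_mul h5 h6 (norm_nonneg _) (by positivity)).trans ?_
      refine le_trans (le_of_eq ?_) (mul_le_mul_of_nonneg_left h4 (by positivity))
      rw [← (ro3_root h3).2.1]
      ring
  refine h.trans (mul_le_mul_of_nonneg_left ?_ (by positivity))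
  exact abs_le.2 ⟨by linarith [hα.2, hβ.1], by linarith [hα.1, hβ.2]⟩

/- `lam_off` if `4 m ≤ b`, `norm_J0_le` otherwise. -/
theorem lam_unif (hP : Good P) : ∃ C : ℝ, 0 < C ∧ ∀ m b T α β : ℝ, 1 ≤ m → 0 < b → 1 ≤ T →
    α ∈ Icc T (2 * T) → β ∈ Icc T (2 * T) →
    ‖Lam P m α β b‖ ≤ C * (T ^ (3 / 2 : ℝ) * m) * b ^ (-1 / 4 : ℝ) := by
  obtain ⟨C, hC, H⟩ := lam_off hP
  refine ⟨4 * C + 4 * (‖P.ap‖ + ‖P.am‖) ^ 2, by positivity, fun m b T α β hm hb hT hα hβ => ?_⟩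
  have hm0 : 0 < m := by linarith
  have hT0 : 0 < T := by linarith
  have e1 : T ^ (3 / 2 : ℝ) = √T * T := by
    rw [Real.sqrt_eq_rpow, ← Real.rpow_add_one hT0.ne']
    norm_num
  have e2 : b ^ (-1 / 4 : ℝ) = (b ^ (1 / 4 : ℝ))⁻¹ := by
    rw [← Real.rpow_neg hb.le]
    norm_num
  have hS : 1 ≤ √T := Real.one_le_sqrt.2 hT
  have hp1 : 1 ≤ m ^ (1 / 4 : ℝ) := Real.one_le_rpow hm (by norm_num)
  have h1 := ro3_triv P hm0 hb hT hα hβ
  have h2 := fun hne => H m b T α β hm0 hb hne hT hα hβ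
  obtain ⟨hp, p2, p4⟩ := ro3_root hm0
  obtain ⟨hq, q2, q4⟩ := ro3_root hb
  rw [Real.mul_rpow hm0.le hb.le, ← p2, ← q2] at h2
  rw [e1, e2]
  have hK : 0 ≤ (‖P.ap‖ + ‖P.am‖) ^ 2 := by positivity
  generalize (‖P.ap‖ + ‖P.am‖) ^ 2 = K at h1 hK ⊢
  generalize m ^ (1 / 4 : ℝ) = p at h1 h2 hp p4 hp1 ⊢
  generalize b ^ (1 / 4 : ℝ) = q at h1 h2 hq q4 ⊢
  have hpm : p ≤ m := by
    rw [← p4]
    exact le_self_pow₀ hp1 (by norm_num)
  rcases le_total (2 * m) b with h | h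
  · have h3 := (ro3_far hp hq (by rw [p4, q4]; exact h)).1
    calc _ ≤ C * T * (p * q / |p ^ 2 - q ^ 2|) := h2 (by linarith)
      _ ≤ C * T * (4 * (p / q)) := by gcongr
      _ = (4 * C + 0) * (1 * T * p) * q⁻¹ := by ring
      _ ≤ _ := by gcongr; positivity
  · have h3 : q ^ 2 ≤ 2 * p ^ 2 := le_of_sq_le_sq (by nlinarith) (by positivity)
    have h4 : p ^ 3 ≤ m := by
      rw [← p4]
      exact pow_le_pow_right₀ hp1 (by norm_num)
    calc _ ≤ K * (p * q) * (2 * √T) * T := h1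
      _ = 2 * K * (√T * T * (p * q ^ 2)) * q⁻¹ := by field_simp
      _ ≤ 2 * K * (√T * T * (p * (2 * p ^ 2))) * q⁻¹ := by gcongr
      _ = (0 + 4 * K) * (√T * T * p ^ 3) * q⁻¹ := by ring
      _ ≤ _ := by gcongr; positivity

theorem lam_cont (P : Vo) {m α β b : ℝ} (hm : 0 < m) (hα : 0 < α) (hβ : 0 < β) (hb : 0 < b) :
    Continuous fun v : ℝ => Lam P m α β (b * Real.exp v) := by
  have hc : 0 < min α β := lt_min hα hβ
  have h1 : ∀ x : ℝ, 0 < max x (min α β) := fun x => hc.trans_le (le_max_right _ _)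
  have h : Continuous (Function.uncurry fun v x : ℝ =>
      J0 P 2 (m * max x (min α β)) * J0 P 2 (b * Real.exp v * max x (min α β))) :=
    ((J0_cont P 2).comp_continuous (f := fun z : ℝ × ℝ => m * max z.2 (min α β)) (by fun_prop)
      fun z => mul_pos hm (h1 _)).mul
    ((J0_cont P 2).comp_continuous
      (f := fun z : ℝ × ℝ => b * Real.exp z.1 * max z.2 (min α β)) (by fun_prop)
      fun z => mul_pos (mul_pos hb (Real.exp_pos _)) (h1 _))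
  refine (intervalIntegral.continuous_parametric_intervalIntegral_of_continuous' (μ := volume) h α β).congr
    fun v => intervalIntegral.integral_congr fun x hx => ?_
  simp only [max_eq_left hx.1]

/- With `n = a m` the bound of `lam_off` is `(k n) ^ (1 / 4) * (√n + √k) / |n - k|`; consider `2 k ≤ n`,
`2 n < k` and the remaining range. -/
theorem lam_sum (hP : Good P) : ∃ C : ℝ, 0 < C ∧ ∀ (m a k : ℕ) (T α β : ℝ), 1 ≤ m → 1 ≤ a → 1 ≤ k →
    k ≠ a * m → 1 ≤ T → α ∈ Icc T (2 * T) → β ∈ Icc T (2 * T) →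
    dv k / k * ‖Lam P m α β (k / a)‖ ≤ C * T * (dv k / k * min 1 ((((a * m : ℕ) : ℝ) / k) ^ (1 / 8 : ℝ)) +
      if k ≤ 2 * (a * m) then dv k / |(k : ℝ) - (a * m : ℕ)| else 0) := by
  obtain ⟨C, hC, H⟩ := lam_off hP
  refine ⟨6 * C, by positivity, fun m a k T α β hm ha hk hne hT hα hβ => ?_⟩
  have hm0 : (0 : ℝ) < m := by exact_mod_cast hm
  have ha0 : (0 : ℝ) < a := by exact_mod_cast ha
  have hk0 : (0 : ℝ) < k := by exact_mod_cast hk
  have hT0 : 0 < T := by linarith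
  have hn0 : (0 : ℝ) < (a * m : ℕ) := by
    push_cast
    positivity
  have hne' : (k : ℝ) ≠ (a * m : ℕ) := by exact_mod_cast hne
  have h1 := H m (k / a) T α β hm0 (by positivity) (fun h => hne' (by
    push_cast
    rw [← h]
    field_simp)) hT hα hβ
  obtain ⟨hp, p2, p4⟩ := ro3_root hn0
  obtain ⟨hq, q2, q4⟩ := ro3_root hk0
  obtain ⟨hr, r2, r4⟩ := ro3_root ha0
  have hd := dv_nonneg k
  have e1 : ((m : ℝ) * (k / a)) ^ (1 / 4 : ℝ) / |√m - √(k / a)| =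
      ((a * m : ℕ) : ℝ) ^ (1 / 4 : ℝ) * (k : ℝ) ^ (1 / 4 : ℝ) /
        |(((a * m : ℕ) : ℝ) ^ (1 / 4 : ℝ)) ^ 2 - ((k : ℝ) ^ (1 / 4 : ℝ)) ^ 2| := by
    have e2 : (m : ℝ) * (k / a) = (a * m : ℕ) / a * (k / a) := by
      push_cast
      field_simp
    have e3 : √(m : ℝ) = √(a * m : ℕ) / √a := by
      rw [← Real.sqrt_div hn0.le]
      congr 1
      push_cast
      field_simp
    rw [e2, e3, Real.mul_rpow (by positivity) (by positivity), Real.div_rpow hn0.le ha0.le,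
      Real.div_rpow hk0.le ha0.le, Real.sqrt_div hk0.le, ← sub_div, abs_div, p2, q2, ← r2,
      abs_of_pos (pow_pos hr 2), div_mul_div_comm, ← sq, div_div_div_cancel_right₀ (pow_pos hr 2).ne']
  rw [e1] at h1
  have e4 : (a * m : ℕ) ≤ (k : ℝ) → ((a * m : ℕ) : ℝ) ^ (1 / 4 : ℝ) / (k : ℝ) ^ (1 / 4 : ℝ) ≤
      (((a * m : ℕ) : ℝ) / k) ^ (1 / 8 : ℝ) := fun h => by
    rw [← Real.div_rpow hn0.le hk0.le]
    exact Real.rpow_le_rpow_of_exponent_ge (by positivity) ((div_le_one hk0).2 h) (by norm_num)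
  have e5 : (k : ℝ) ≤ (a * m : ℕ) → 1 ≤ (((a * m : ℕ) : ℝ) / k) ^ (1 / 8 : ℝ) := fun h =>
    Real.one_le_rpow ((one_le_div hk0).2 h) (by norm_num)
  have e6 : 0 ≤ min 1 ((((a * m : ℕ) : ℝ) / k) ^ (1 / 8 : ℝ)) := le_min zero_le_one (by positivity)
  have e7 : 0 ≤ if k ≤ 2 * (a * m) then dv k / |(k : ℝ) - (a * m : ℕ)| else 0 := by
    split_ifs <;> positivity
  refine (mul_le_mul_of_nonneg_left h1 (by positivity)).trans ?_
  rw [mul_left_comm, show 6 * C * T = C * T * 6 by ring, mul_assoc (C * T)]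
  refine mul_le_mul_of_nonneg_left ?_ (by positivity)
  generalize ((a * m : ℕ) : ℝ) ^ (1 / 4 : ℝ) = p at hp p4 e4 ⊢
  generalize (k : ℝ) ^ (1 / 4 : ℝ) = q at hq q4 e4 ⊢
  have key : ∀ M : ℝ, 0 ≤ M → p * q / |p ^ 2 - q ^ 2| ≤ 4 * M →
      M ≤ min 1 ((((a * m : ℕ) : ℝ) / k) ^ (1 / 8 : ℝ)) → dv k / k * (p * q / |p ^ 2 - q ^ 2|) ≤
      6 * (dv k / k * min 1 ((((a * m : ℕ) : ℝ) / k) ^ (1 / 8 : ℝ)) +
        if k ≤ 2 * (a * m) then dv k / |(k : ℝ) - (a * m : ℕ)| else 0) := fun M h0 h2 h3 =>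
    calc _ ≤ dv k / k * (4 * M) := by gcongr
      _ = 4 * (dv k / k * M + 0) := by ring
      _ ≤ _ := by gcongr; norm_num
  by_cases c1 : 2 * (k : ℝ) ≤ (a * m : ℕ)
  · obtain ⟨h2, h3⟩ := ro3_far hq hp (by rw [p4, q4]; exact c1)
    rw [mul_comm q, abs_sub_comm] at h2
    exact key 1 zero_le_one (by linarith) (le_min le_rfl (e5 (by linarith)))
  by_cases c2 : k ≤ 2 * (a * m)
  · have h2 := ro3_near hp hq (by rw [p4, q4]; linarith) (by rw [p4, q4]; exact hne')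
    rw [p4, q4] at h2
    rw [if_pos c2]
    calc _ ≤ dv k / k * (6 * (k / |(k : ℝ) - (a * m : ℕ)|)) := by gcongr
      _ = 6 * (0 + dv k / |(k : ℝ) - (a * m : ℕ)|) := by field_simp; ring
      _ ≤ _ := by gcongr; positivity
  · have c3 : 2 * ((a * m : ℕ) : ℝ) ≤ k := by exact_mod_cast (not_le.1 c2).le
    obtain ⟨h2, h3⟩ := ro3_far hp hq (by rw [p4, q4]; exact c3)
    exact key (p / q) (by positivity) h2 (le_min h3 (e4 (by linarith)))

end Pool.Agent.Lib.MP_2a1a00_nt
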