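import Pool.Agent.Lib.MP_2a1a00_nt.R.W1
import Pool.Agent.Lib.MP_2a1a00_nt.R.O0
import Pool.Agent.Lib.MP_2a1a00_nt.R.O1
import Pool.Agent.Lib.MP_2a1a00_nt.R.O3

/-! One term of the Voronoi formula. -/

namespace Pool.Agent.Lib.MP_2a1a00_nt

open Complex MeasureTheory Set

variable {P : Vo}

theorem rw2_J (P : Vo) {m α β : ℝ} (hm : 0 < m) (hα : 0 < α) :
    ContinuousOn (fun p : ℝ × ℝ => J0 P 2 (m * p.1)) (Icc α β ×ˢ univ) :=
  (J0_cont P 2).comp (by fun_prop) fun p hp => mul_pos hm (hα.trans_le hp.1.1)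

theorem rw2_gW {W σ : ℝ} (hW : 1 ≤ W) (hσ : |σ| ≤ 1 / 8) (t : ℝ) :
    ‖gW W (σ + t * I)‖ ≤ 3 * Real.exp (-(1 / W ^ 2) * t ^ 2) := by
  have hW0 : 0 < W := by linarith
  have h1 : σ ^ 2 / W ^ 2 ≤ 1 := by
    rw [div_le_one (by positivity), ← sq_abs σ]
    nlinarith [abs_nonneg σ]
  have e : (σ ^ 2 - t ^ 2) / W ^ 2 = σ ^ 2 / W ^ 2 + -(1 / W ^ 2) * t ^ 2 := by ring
  have e1 : (σ + t * I : ℂ).re = σ := by simp
  have e2 : (σ + t * I : ℂ).im = t := by simp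
  rw [norm_gW hW0, e1, e2, e, Real.exp_add]
  refine mul_le_mul_of_nonneg_right ?_ (Real.exp_pos _).le
  exact (Real.exp_le_exp.2 h1).trans (Real.exp_one_lt_d9.le.trans (by norm_num))

theorem rw2_one (P : Vo) {m b W α β : ℝ} (hm : 0 < m) (hb : 0 < b) (hW : 0 < W) (hα : 0 < α)
    (hβ : α ≤ β) :
    IntervalIntegrable (fun x => ∫ v : ℝ, (ph W v : ℂ) * (J0 P 2 (m * x) *
      J0 P 2 (b * Real.exp v * x))) volume α β ∧
    ∫ x in α..β, ∫ v : ℝ, (ph W v : ℂ) * (J0 P 2 (m * x) * J0 P 2 (b * Real.exp v * x)) =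
      ∫ v : ℝ, (ph W v : ℂ) * Lam P m α β (b * Real.exp v) := by
  have hβ0 : 0 < β := hα.trans_le hβ
  have h := fub_cont (f := fun x v => (ph W v : ℂ) * (J0 P 2 (m * x) *
    J0 P 2 (b * Real.exp v * x))) hβ ?_ (((ph_exp_re hW (1 / 4)).1).const_mul
      ((‖P.ap‖ + ‖P.am‖) * (m * β) ^ (1 / 4 : ℝ) * ((‖P.ap‖ + ‖P.am‖) * (b * β) ^ (1 / 4 : ℝ)))) ?_
  · refine ⟨h.1, h.2.trans ?_⟩
    simp only [intervalIntegral.integral_const_mul, Lam]
  · refine ContinuousOn.mul (f := fun p : ℝ × ℝ => (ph W p.2 : ℂ)) ?_ ((rw2_J P hm hα).mul ?_)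
    · exact (continuous_ofReal.comp ((continuous_ph W).comp continuous_snd)).continuousOn
    · exact (J0_cont P 2).comp (f := fun p : ℝ × ℝ => b * Real.exp p.2 * p.1) (by fun_prop)
        fun p hp => mul_pos (mul_pos hb (Real.exp_pos _)) (hα.trans_le hp.1.1)
  · intro x hx v
    have hx0 : 0 < x := hα.trans_le hx.1
    have h1 := norm_J0_le P 2 (mul_pos hm hx0)
    have h2 := norm_J0_le P 2 (mul_pos (mul_pos hb (Real.exp_pos v)) hx0)
    rw [al_two] at h1 h2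
    have h3 : (m * x) ^ (1 / 4 : ℝ) ≤ (m * β) ^ (1 / 4 : ℝ) := by gcongr; exact hx.2
    have h4 : (b * Real.exp v * x) ^ (1 / 4 : ℝ) ≤ (b * β) ^ (1 / 4 : ℝ) * Real.exp (1 / 4 * v) := by
      rw [mul_comm (1 / 4 : ℝ) v, Real.exp_mul, ← Real.mul_rpow (by positivity) (by positivity),
        mul_right_comm b β]
      gcongr
      exact hx.2
    have h5 := (ph_pos hW v).le
    rw [norm_mul, norm_mul, norm_real, Real.norm_of_nonneg h5]
    calc _ ≤ ph W v * (((‖P.ap‖ + ‖P.am‖) * (m * β) ^ (1 / 4 : ℝ)) *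
          ((‖P.ap‖ + ‖P.am‖) * ((b * β) ^ (1 / 4 : ℝ) * Real.exp (1 / 4 * v)))) := by
          gcongr
          · exact h1.trans (by gcongr)
          · exact h2.trans (by gcongr)
      _ = _ := by ring

theorem rw2_two (P : Vo) {m b W σ α β C : ℝ} {r : ℝ → ℂ} (hm : 0 < m) (hb : 0 < b) (hW : 1 ≤ W)
    (hσ : |σ| ≤ 1 / 8) (hα : 0 < α) (hβ : α ≤ β) (hr : Continuous r) (hC : ∀ t, ‖r t‖ ≤ C) :
    IntervalIntegrable (fun x => ∫ t : ℝ, r t * gW W (σ + t * I) * (J0 P 2 (m * x) *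
      px (σ + t * I) (b * x))) volume α β ∧
    ∫ x in α..β, ∫ t : ℝ, r t * gW W (σ + t * I) * (J0 P 2 (m * x) * px (σ + t * I) (b * x)) =
      ∫ t : ℝ, r t * gW W (σ + t * I) *
        ∫ x in α..β, J0 P 2 (m * x) * px (σ + t * I) (b * x) := by
  have hW0 : 0 < W := by linarith
  have hc : ContinuousOn (fun x => J0 P 2 (m * x) * px σ (b * x)) (Icc α β) :=
    ((J0_cont P 2).comp (by fun_prop) fun x hx => mul_pos hm (hα.trans_le hx.1)).mul
      ((px_cont σ).comp (by fun_prop) fun x hx => mul_pos hb (hα.trans_le hx.1))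
  obtain ⟨K, hK⟩ := isCompact_Icc.exists_bound_of_continuousOn hc
  have h := fub_cont (f := fun x t => r t * gW W (σ + t * I) * (J0 P 2 (m * x) *
    px (σ + t * I) (b * x))) hβ ?_
      ((integrable_exp_neg_mul_sq (b := 1 / W ^ 2) (by positivity)).const_mul (C * 3 * K)) ?_
  · refine ⟨h.1, h.2.trans ?_⟩
    simp only [intervalIntegral.integral_const_mul]
  · refine ContinuousOn.mul (f := fun p : ℝ × ℝ => r p.2 * gW W (σ + p.2 * I)) ?_
      ((rw2_J P hm hα).mul ?_)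
    · exact ((hr.comp continuous_snd).mul
        ((differentiable_gW W).continuous.comp (by fun_prop))).continuousOn
    · refine ContinuousOn.cexp (f := fun p : ℝ × ℝ => (σ + p.2 * I) * (Real.log (b * p.1) : ℝ)) ?_
      refine ContinuousOn.mul (by fun_prop) (continuous_ofReal.comp_continuousOn ?_)
      exact ContinuousOn.log (by fun_prop) fun p hp => (mul_pos hb (hα.trans_le hp.1.1)).ne'
  · intro x hx t
    have hx0 : 0 < b * x := mul_pos hb (hα.trans_le hx.1)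
    have h1 := hK x hx
    have h2 : ‖px (σ + t * I) (b * x)‖ = ‖px σ (b * x)‖ := by
      rw [norm_px _ hx0, norm_px _ hx0]
      simp
    have h3 := (norm_nonneg _).trans (hC t)
    rw [norm_mul, ← h2, ← norm_mul] at h1
    rw [norm_mul, norm_mul]
    calc _ ≤ C * (3 * Real.exp (-(1 / W ^ 2) * t ^ 2)) * K := by
          gcongr
          · exact hC t
          · exact rw2_gW hW hσ t
      _ = _ := by ring

theorem rw2_core (hP : Good P) {σ : ℝ} (hσ : σ = 1 / 8 ∨ σ = -1 / 8) : ∃ C : ℝ, 0 < C ∧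
    ∀ m b W T α β : ℝ, 1 ≤ m → 0 < b → 1 ≤ W → 1 ≤ T →
    α ∈ Icc T (2 * T) → β ∈ Icc T (2 * T) → α ≤ β →
    IntervalIntegrable (fun x => J0 P 2 (m * x) * (zs 2).kr W (b * x)) volume α β ∧
      ‖(∫ x in α..β, J0 P 2 (m * x) * (zs 2).kr W (b * x)) -
        ∫ v : ℝ, (ph W v : ℂ) * Lam P m α β (b * Real.exp v)‖ ≤ C * T * (b / m) ^ σ := by
  obtain ⟨r, C1, hC1, rc, rle, hk⟩ := hP.rho σ hσ
  obtain ⟨C2, hC2, h2⟩ := phi_bd hP
  obtain ⟨C3, hC3, h3⟩ := mw_int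
  have hs : |σ| ≤ 1 / 8 := by rcases hσ with rfl | rfl <;> norm_num [abs_le]
  refine ⟨C1 * 3 * C2 * C3, by positivity, fun m b W T α β hm hb hW hT hα hβ hαβ => ?_⟩
  have hm0 : 0 < m := by linarith
  have hT0 : 0 < T := by linarith
  have hW0 : 0 < W := by linarith
  have hα0 : 0 < α := hT0.trans_le hα.1
  have hr : ∀ t, ‖r t‖ ≤ C1 := fun t => (rle t).trans (mul_le_of_le_one_right hC1.le
    (Real.rpow_le_one_of_one_le_of_nonpos (one_le_jb t) (by linarith [(abs_le.1 hs).1])))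
  obtain ⟨i1, e1⟩ := rw2_one P hm0 hb hW0 hα0 hαβ
  obtain ⟨i2, e2⟩ := rw2_two P hm0 hb hW hs hα0 hαβ rc hr
  have e : EqOn (fun x => J0 P 2 (m * x) * (zs 2).kr W (b * x))
      (fun x => (∫ v : ℝ, (ph W v : ℂ) * (J0 P 2 (m * x) * J0 P 2 (b * Real.exp v * x))) +
        ∫ t : ℝ, r t * gW W (σ + t * I) * (J0 P 2 (m * x) * px (σ + t * I) (b * x)))
      (uIcc α β) := by
    intro x hx
    rw [uIcc_of_le hαβ] at hx
    simp only
    rw [hk W (b * x) hW0 (mul_pos hb (hα0.trans_le hx.1)), mul_add, ← integral_const_mul,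
      ← integral_const_mul]
    congr 2
    · funext v
      rw [mul_right_comm b x]
      ring
    · funext t
      ring
  refine ⟨(i1.add i2).congr fun x hx => (e (uIoc_subset_uIcc hx)).symm, ?_⟩
  rw [intervalIntegral.integral_congr e, intervalIntegral.integral_add i1 i2, e1, e2,
    add_sub_cancel_left]
  have hV : 1 ≤ √(m * T) := Real.one_le_sqrt.2 (one_le_mul_of_one_le_of_one_le hm hT)
  obtain ⟨i3, l3⟩ := h3 σ _ hs hV
  set A := m ^ (1 / 4 : ℝ) * b ^ σ * T ^ (5 / 4 + σ) with hA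
  have hA0 : 0 < A := by positivity
  refine (norm_integral_le_of_norm_le (i3.const_mul (C1 * 3 * C2 * A))
    (Filter.Eventually.of_forall fun t => ?_)).trans ?_
  · have g1 : ‖gW W (σ + t * I)‖ ≤ 3 := (rw2_gW hW hs t).trans (mul_le_of_le_one_right (by norm_num)
      (Real.exp_le_one_iff.2 (by rw [neg_mul, neg_nonpos]; positivity)))
    have g2 := jb_pos t
    rw [norm_mul, norm_mul]
    calc _ ≤ C1 * jb t ^ (-1 - 2 * σ) * 3 * (C2 * A * mw √(m * T) t) := by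
          gcongr
          · exact rle t
          · exact h2 m b σ t T α β hm hb hs hT hα hβ
      _ = _ := by ring
  · rw [integral_const_mul]
    refine (mul_le_mul_of_nonneg_left l3 (by positivity)).trans (le_of_eq ?_)
    have f1 : √(m * T) ^ (-1 / 2 - 2 * σ) = m ^ (-1 / 4 - σ) * T ^ (-1 / 4 - σ) := by
      rw [Real.sqrt_eq_rpow, ← Real.rpow_mul (by positivity), Real.mul_rpow hm0.le hT0.le]
      congr 2 <;> ring
    have f2 : m ^ (1 / 4 : ℝ) * m ^ (-1 / 4 - σ) = (m ^ σ)⁻¹ := by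
      rw [← Real.rpow_add hm0, ← Real.rpow_neg hm0.le]
      congr 1
      ring
    have f3 : T ^ (5 / 4 + σ) * T ^ (-1 / 4 - σ) = T := by
      rw [← Real.rpow_add hT0, show 5 / 4 + σ + (-1 / 4 - σ) = 1 by ring, Real.rpow_one]
    rw [f1, Real.div_rpow hb.le hm0.le, div_eq_mul_inv (b ^ σ), ← f2, hA]
    conv_rhs => rw [← f3]
    ring

/- `Good.rho` with `σ = 1 / 8` if `b ≤ m` and `σ = -1 / 8` otherwise, `fub_cont` twice, `phi_bd`, `mw_int`,
`‖gW W s‖ ≤ 2`. -/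
theorem w2_term (hP : Good P) : ∃ C : ℝ, 0 < C ∧ ∀ m b W T α β : ℝ, 1 ≤ m → 0 < b → 1 ≤ W → 1 ≤ T →
    α ∈ Icc T (2 * T) → β ∈ Icc T (2 * T) → α ≤ β →
    IntervalIntegrable (fun x => J0 P 2 (m * x) * (zs 2).kr W (b * x)) volume α β ∧
      ‖(∫ x in α..β, J0 P 2 (m * x) * (zs 2).kr W (b * x)) -
        ∫ v : ℝ, (ph W v : ℂ) * Lam P m α β (b * Real.exp v)‖ ≤
        C * T * min 1 ((m / b) ^ (1 / 8 : ℝ)) := by
  obtain ⟨C1, hC1, h1⟩ := rw2_core hP (Or.inl rfl)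
  obtain ⟨C2, hC2, h2⟩ := rw2_core hP (Or.inr rfl)
  refine ⟨C1 + C2, by positivity, fun m b W T α β hm hb hW hT hα hβ hαβ => ?_⟩
  have hm0 : 0 < m := by linarith
  have hT0 : 0 < T := by linarith
  refine ⟨(h1 m b W T α β hm hb hW hT hα hβ hαβ).1, ?_⟩
  rcases le_total b m with h | h
  · rw [min_eq_left (Real.one_le_rpow ((one_le_div hb).2 h) (by norm_num))]
    refine (h1 m b W T α β hm hb hW hT hα hβ hαβ).2.trans ?_
    gcongr
    · linarith
    · exact Real.rpow_le_one (by positivity) ((div_le_one hm0).2 h) (by norm_num)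
  · rw [min_eq_right (Real.rpow_le_one (by positivity) ((div_le_one hb).2 h) (by norm_num))]
    refine (h2 m b W T α β hm hb hW hT hα hβ hαβ).2.trans ?_
    rw [neg_div, Real.rpow_neg (by positivity), ← Real.inv_rpow (by positivity), inv_div]
    gcongr
    linarith

end Pool.Agent.Lib.MP_2a1a00_nt
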