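import Pool.Agent.Lib.MP_2a1a00_nt.R.W0
import Pool.Agent.Lib.MP_2a1a00_nt.R.W2
import Pool.Agent.Lib.MP_2a1a00_nt.R.A1

/-! The Voronoi formula in a weak form. -/

namespace Pool.Agent.Lib.MP_2a1a00_nt

open Complex MeasureTheory Set

variable {P : Vo}

theorem rw3_lim {x y D θ : ℝ} (hθ : 0 < θ) (K : ℕ)
    (h : ∀ N : ℕ, K ≤ N → x ≤ y + D * ((N : ℝ) + 1) ^ (-θ)) : x ≤ y := by
  have h1 : Filter.Tendsto (fun N : ℕ => ((N : ℝ) + 1) ^ (-θ)) Filter.atTop (nhds 0) :=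
    (tendsto_rpow_neg_atTop hθ).comp
      (Filter.tendsto_atTop_add_const_right _ 1 tendsto_natCast_atTop_atTop)
  have h2 := (h1.const_mul D).const_add y
  rw [mul_zero, add_zero] at h2
  exact ge_of_tendsto h2 (Filter.eventually_atTop.2 ⟨K, h⟩)

theorem rw3_phi (P : Vo) {m α β : ℝ} (hm : 0 < m) (hα : 0 < α) :
    ContinuousOn (fun x => J0 P 2 (m * x)) (Icc α β) :=
  (J0_cont P 2).comp (continuousOn_const.mul continuousOn_id) fun _ hx => mul_pos hm (hα.trans_le hx.1)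

theorem rw3_c (k : ℕ) : 0 ≤ dv k / k := div_nonneg (dv_nonneg k) (Nat.cast_nonneg k)

theorem rw3_norm (k : ℕ) (z : ℂ) : ‖((dv k / k : ℝ) : ℂ) * z‖ = dv k / k * ‖z‖ := by
  rw [norm_mul, norm_real, Real.norm_of_nonneg (rw3_c k)]

theorem rw3_unif (hP : Good P) : ∃ C : ℝ, 0 < C ∧ ∀ m b T α β v : ℝ, 1 ≤ m → 0 < b → 1 ≤ T →
    α ∈ Icc T (2 * T) → β ∈ Icc T (2 * T) → ‖Lam P m α β (b * Real.exp v)‖ ≤
      C * (T ^ (3 / 2 : ℝ) * m) * b ^ (-1 / 4 : ℝ) * Real.exp (-1 / 4 * v) := by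
  obtain ⟨C, hC, h⟩ := lam_unif hP
  refine ⟨C, hC, fun m b T α β v hm hb hT hα hβ => ?_⟩
  refine (h m _ T α β hm (mul_pos hb (Real.exp_pos v)) hT hα hβ).trans (le_of_eq ?_)
  rw [Real.mul_rpow hb.le (Real.exp_pos v).le, ← Real.exp_mul, mul_comm v]
  ring

/- The truncation of the series for a fixed smoothing. -/
theorem rw3_one (hP : Good P) {W : ℝ} (hW : 1 ≤ W) {m a T α β : ℝ} (hm : 1 ≤ m) (ha : 0 < a)
    (hT : 1 ≤ T) (haα : a ≤ α) (hα : α ∈ Icc T (2 * T)) (hβ : β ∈ Icc T (2 * T)) (hαβ : α ≤ β) :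
    ∃ D : ℝ, ∀ N : ℕ, ‖(∫ x in α..β, J0 P 2 (m * x) * (zs 2).B W (x / a)) -
      (zs 2).L 0 * (∫ x in α..β, J0 P 2 (m * x)) - ∑ k ∈ Finset.Ioc 0 N, ((dv k / k : ℝ) : ℂ) *
        ∫ x in α..β, J0 P 2 (m * x) * (zs 2).kr W (k / a * x)‖ ≤ D * ((N : ℝ) + 1) ^ (-(1 / 2) : ℝ) := by
  obtain ⟨C, hC, h⟩ := w1_tail hW
  obtain ⟨C', -, h'⟩ := w2_term hP
  have hα0 : 0 < α := ha.trans_le haα
  have hφ := rw3_phi (β := β) P (one_pos.trans_le hm) hα0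
  obtain ⟨Φ, hΦ⟩ := isCompact_Icc.exists_bound_of_continuousOn hφ
  have hΦ0 : 0 ≤ Φ := (norm_nonneg _).trans (hΦ α ⟨le_rfl, hαβ⟩)
  refine ⟨Φ * C * |β - α|, fun N => ?_⟩
  have i1 : IntervalIntegrable (fun x => J0 P 2 (m * x) * (zs 2).B W (x / a)) volume α β :=
    (hφ.mul (((zs 2).B_cont (one_pos.trans_le hW)).comp (continuousOn_id.div_const a) fun x hx =>
      div_pos (hα0.trans_le hx.1) ha)).intervalIntegrable_of_Icc hαβ
  have i2 : IntervalIntegrable (fun x => (zs 2).L 0 * J0 P 2 (m * x)) volume α β :=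
    (hφ.intervalIntegrable_of_Icc hαβ).const_mul _
  have i3 : ∀ k ∈ Finset.Ioc 0 N, IntervalIntegrable (fun x => ((dv k / k : ℝ) : ℂ) *
      (J0 P 2 (m * x) * (zs 2).kr W (k / a * x))) volume α β := fun k hk =>
    (h' m (k / a) W T α β hm (div_pos (Nat.cast_pos.2 (Finset.mem_Ioc.1 hk).1) ha) hW hT hα hβ
      hαβ).1.const_mul _
  have i4 : IntervalIntegrable (fun x => ∑ k ∈ Finset.Ioc 0 N, ((dv k / k : ℝ) : ℂ) *
      (J0 P 2 (m * x) * (zs 2).kr W (k / a * x))) volume α β := by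
    have := IntervalIntegrable.sum (Finset.Ioc 0 N) i3
    rwa [Finset.sum_fn] at this
  simp only [← intervalIntegral.integral_const_mul]
  rw [← intervalIntegral.integral_finsetSum i3, ← intervalIntegral.integral_sub i1 i2,
    ← intervalIntegral.integral_sub (i1.sub i2) i4]
  refine (intervalIntegral.norm_integral_le_of_norm_le_const
    (C := Φ * (C * ((N : ℝ) + 1) ^ (-1 / 2 : ℝ))) fun x hx => ?_).trans (le_of_eq ?_)
  · rw [uIoc_of_le hαβ] at hx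
    have h1 := h N (x / a) ((one_le_div ha).2 (haα.trans hx.1.le))
    have e : J0 P 2 (m * x) * (zs 2).B W (x / a) - (zs 2).L 0 * J0 P 2 (m * x) -
        ∑ k ∈ Finset.Ioc 0 N, ((dv k / k : ℝ) : ℂ) * (J0 P 2 (m * x) * (zs 2).kr W (k / a * x)) =
        J0 P 2 (m * x) * ((zs 2).B W (x / a) - (zs 2).L 0 -
          ∑ k ∈ Finset.Ioc 0 N, ((dv k / k : ℝ) : ℂ) * (zs 2).kr W (k * (x / a))) := by
      rw [mul_sub, mul_sub, Finset.mul_sum, mul_comm ((zs 2).L 0)]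
      congr 1
      refine Finset.sum_congr rfl fun k _ => ?_
      rw [show (k : ℝ) / a * x = k * (x / a) by ring]
      ring
    rw [e, norm_mul]
    exact mul_le_mul (hΦ x (Ioc_subset_Icc_self hx)) h1 (norm_nonneg _) hΦ0
  · rw [show (-1 / 2 : ℝ) = -(1 / 2) by ring]
    ring

/- The formula for a fixed smoothing. -/
theorem rw3_two (hP : Good P) : ∃ C : ℝ, 0 < C ∧ ∀ (m a : ℕ) (T α β : ℝ), 1 ≤ m → 1 ≤ a → 1 ≤ T →
    (a : ℝ) ≤ α → α ∈ Icc T (2 * T) → β ∈ Icc T (2 * T) → α ≤ β → ∃ D : ℝ, ∀ (W : ℝ) (K : ℕ), 1 ≤ W →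
    ‖(∫ x in α..β, J0 P 2 (m * x) * (zs 2).B W (x / a)) - (zs 2).L 0 * (∫ x in α..β, J0 P 2 (m * x)) -
      ∑ k ∈ Finset.Ioc 0 K, ((dv k / k : ℝ) : ℂ) *
        ∫ v : ℝ, (ph W v : ℂ) * Lam P m α β (k / a * Real.exp v)‖ ≤
      C * T * (1 + Real.log (a * m : ℕ)) ^ 2 + D * ((K : ℝ) + 1) ^ (-(1 / 8) : ℝ) := by
  obtain ⟨C₁, hC₁, h₁⟩ := w2_term hP
  obtain ⟨C₂, hC₂, h₂⟩ := tau_sum
  obtain ⟨C₃, hC₃, h₃⟩ := rw3_unif hP
  obtain ⟨C₄, hC₄, h₄⟩ := dv_tail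
  refine ⟨C₁ * C₂, by positivity, fun m a T α β hm ha hT haα hα hβ hαβ => ?_⟩
  have hm' : (1 : ℝ) ≤ m := Nat.one_le_cast.2 hm
  have ha' : (0 : ℝ) < a := Nat.cast_pos.2 ha
  have hT0 : 0 < T := one_pos.trans_le hT
  refine ⟨3 * (C₃ * (T ^ (3 / 2 : ℝ) * m)) * (a : ℝ) ^ (1 / 4 : ℝ) * C₄, fun W K hW => ?_⟩
  obtain ⟨D, hD⟩ := rw3_one hP hW hm' ha' hT haα hα hβ hαβ
  refine rw3_lim (D := D) one_half_pos K fun N hN => ?_
  have hb : ∀ {k : ℕ}, 0 < k → (0 : ℝ) < k / a := fun hk => div_pos (Nat.cast_pos.2 hk) ha'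
  have e1 : ‖∑ k ∈ Finset.Ioc 0 N, ((dv k / k : ℝ) : ℂ) *
      ((∫ x in α..β, J0 P 2 (m * x) * (zs 2).kr W (k / a * x)) -
        ∫ v : ℝ, (ph W v : ℂ) * Lam P m α β (k / a * Real.exp v))‖ ≤
      C₁ * C₂ * T * (1 + Real.log (a * m : ℕ)) ^ 2 := by
    refine (norm_sum_le_of_le _ (n := fun k => C₁ * T * (dv k / k *
      min 1 ((((a * m : ℕ) : ℝ) / k) ^ (1 / 8 : ℝ)))) fun k hk => ?_).trans ?_
    · have h5 := (h₁ m (k / a) W T α β hm' (hb (Finset.mem_Ioc.1 hk).1) hW hT hα hβ hαβ).2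
      rw [show (m : ℝ) / (k / a) = ((a * m : ℕ) : ℝ) / k by push_cast; field_simp] at h5
      rw [rw3_norm]
      exact (mul_le_mul_of_nonneg_left h5 (rw3_c k)).trans (le_of_eq (by ring))
    · rw [← Finset.mul_sum]
      refine (mul_le_mul_of_nonneg_left (h₂ (a * m) N (Nat.mul_pos ha hm)) (by positivity)).trans
        (le_of_eq (by ring))
  have e2 : ‖∑ k ∈ Finset.Ioc K N, ((dv k / k : ℝ) : ℂ) *
      ∫ v : ℝ, (ph W v : ℂ) * Lam P m α β (k / a * Real.exp v)‖ ≤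
      3 * (C₃ * (T ^ (3 / 2 : ℝ) * m)) * (a : ℝ) ^ (1 / 4 : ℝ) * C₄ * ((K : ℝ) + 1) ^ (-(1 / 8) : ℝ) := by
    refine (norm_sum_le_of_le _ (n := fun k => 3 * (C₃ * (T ^ (3 / 2 : ℝ) * m)) *
      (a : ℝ) ^ (1 / 4 : ℝ) * (dv k / k * (k : ℝ) ^ (-1 / 4 : ℝ))) fun k hk => ?_).trans ?_
    · have hk0 : 0 < k := (Nat.zero_le K).trans_lt (Finset.mem_Ioc.1 hk).1
      have hk1 := hb hk0
      have h5 := ph_le (β := -1 / 4) hW (by rw [abs_le]; constructor <;> norm_num) (by positivity)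
        fun v => h₃ m (k / a) T α β v hm' hk1 hT hα hβ
      rw [rw3_norm]
      refine (mul_le_mul_of_nonneg_left h5 (rw3_c k)).trans (le_of_eq ?_)
      rw [Real.div_rpow (Nat.cast_nonneg k) ha'.le, show (-1 / 4 : ℝ) = -(1 / 4) by ring,
        Real.rpow_neg ha'.le, div_inv_eq_mul]
      ring
    · rw [← Finset.mul_sum]
      refine (mul_le_mul_of_nonneg_left (h₄ K N) (by positivity)).trans (le_of_eq ?_)
      rw [show (-1 / 8 : ℝ) = -(1 / 8) by ring]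
      ring
  have e3 := hD N
  simp only [mul_sub, Finset.sum_sub_distrib] at e1
  rw [← Finset.sum_Ioc_consecutive (fun k : ℕ => ((dv k / k : ℝ) : ℂ) *
    ∫ v : ℝ, (ph W v : ℂ) * Lam P m α β (k / a * Real.exp v)) (Nat.zero_le K) hN] at e1
  have key : ∀ X Y Z U : ℂ, ‖X - Z‖ ≤ ‖Y - (Z + U)‖ + ‖U‖ + ‖X - Y‖ := fun X Y Z U => by
    rw [show X - Z = Y - (Z + U) + U + (X - Y) by ring]
    exact norm_add₃_le
  exact (key _ _ _ _).trans (add_le_add (add_le_add e1 e2) e3)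

/- The smoothing is removed. -/
theorem rw3_three (hP : Good P) : ∃ C : ℝ, 0 < C ∧ ∀ (m a : ℕ) (T α β : ℝ), 1 ≤ m → 1 ≤ a → 1 ≤ T →
    (a : ℝ) ≤ α → α ∈ Icc T (2 * T) → β ∈ Icc T (2 * T) → α ≤ β → ∃ D : ℝ, ∀ K : ℕ,
    ‖(∫ x in α..β, J0 P 2 (m * x) * (zs 2).E (x / a)) - (zs 2).L 0 * (∫ x in α..β, J0 P 2 (m * x)) -
      ∑ k ∈ Finset.Ioc 0 K, ((dv k / k : ℝ) : ℂ) * Lam P m α β (k / a)‖ ≤
      C * T * (1 + Real.log (a * m : ℕ)) ^ 2 + D * ((K : ℝ) + 1) ^ (-(1 / 8) : ℝ) := by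
  obtain ⟨C, hC, h⟩ := rw3_two hP
  obtain ⟨C₃, hC₃, h₃⟩ := rw3_unif hP
  refine ⟨C, hC, fun m a T α β hm ha hT haα hα hβ hαβ => ?_⟩
  obtain ⟨D, hD⟩ := h m a T α β hm ha hT haα hα hβ hαβ
  have hm' : (1 : ℝ) ≤ m := Nat.one_le_cast.2 hm
  have ha' : (0 : ℝ) < a := Nat.cast_pos.2 ha
  have hT0 : 0 < T := one_pos.trans_le hT
  have hα0 : 0 < α := hT0.trans_le hα.1
  refine ⟨D, fun K => ?_⟩
  have t1 := B_lim (zs 2) ha' haα hαβ (rw3_phi (β := β) P (one_pos.trans_le hm') hα0)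
  have t2 : Filter.Tendsto (fun W : ℝ => ∑ k ∈ Finset.Ioc 0 K, ((dv k / k : ℝ) : ℂ) *
      ∫ v : ℝ, (ph W v : ℂ) * Lam P m α β (k / a * Real.exp v)) Filter.atTop
      (nhds (∑ k ∈ Finset.Ioc 0 K, ((dv k / k : ℝ) : ℂ) * Lam P m α β (k / a))) := by
    refine tendsto_finsetSum _ fun k hk => Filter.Tendsto.const_mul _ ?_
    have hb : (0 : ℝ) < k / a := div_pos (Nat.cast_pos.2 (Finset.mem_Ioc.1 hk).1) ha'
    have t3 := ph_lim (lam_cont P (one_pos.trans_le hm') hα0 (hT0.trans_le hβ.1) hb)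
      (C := C₃ * (T ^ (3 / 2 : ℝ) * m) * (k / a : ℝ) ^ (-1 / 4 : ℝ)) fun v =>
      (h₃ m (k / a) T α β v hm' hb hT hα hβ).trans (mul_le_mul_of_nonneg_left
        (Real.exp_le_exp.2 (by linarith [neg_abs_le v, abs_nonneg v])) (by positivity))
    simpa only [Real.exp_zero, mul_one] using t3
  exact le_of_tendsto ((t1.sub_const _).sub t2).norm
    (Filter.eventually_atTop.2 ⟨1, fun W hW => hD W K hW⟩)

/- The terms off the diagonal. -/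
theorem rw3_off (hP : Good P) : ∃ C : ℝ, 0 < C ∧ ∀ (m a K : ℕ) (T α β : ℝ), 1 ≤ m → 1 ≤ a → 1 ≤ T →
    α ∈ Icc T (2 * T) → β ∈ Icc T (2 * T) →
    ‖∑ k ∈ (Finset.Ioc 0 K).erase (a * m), ((dv k / k : ℝ) : ℂ) * Lam P m α β (k / a)‖ ≤
      C * T * ((1 + Real.log (a * m : ℕ)) ^ 2 + od (a * m)) := by
  obtain ⟨C₁, hC₁, h₁⟩ := lam_sum hP
  obtain ⟨C₂, hC₂, h₂⟩ := tau_sum
  refine ⟨C₁ * (C₂ + 1), by positivity, fun m a K T α β hm ha hT hα hβ => ?_⟩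
  have hT0 : 0 < T := one_pos.trans_le hT
  have n1 : ∀ k : ℕ, 0 ≤ dv k / |(k : ℝ) - (a * m : ℕ)| := fun k =>
    div_nonneg (dv_nonneg k) (abs_nonneg _)
  have s1 : ∑ k ∈ (Finset.Ioc 0 K).erase (a * m), dv k / k *
      min 1 ((((a * m : ℕ) : ℝ) / k) ^ (1 / 8 : ℝ)) ≤ C₂ * (1 + Real.log (a * m : ℕ)) ^ 2 :=
    (Finset.sum_le_sum_of_subset_of_nonneg (Finset.erase_subset _ _) fun k _ _ =>
      mul_nonneg (rw3_c k) (le_min zero_le_one (by positivity))).trans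
      (h₂ (a * m) K (Nat.mul_pos ha hm))
  have s2 : ∑ k ∈ (Finset.Ioc 0 K).erase (a * m),
      (if k ≤ 2 * (a * m) then dv k / |(k : ℝ) - (a * m : ℕ)| else 0) ≤ od (a * m) := by
    rw [← Finset.sum_filter]
    refine Finset.sum_le_sum_of_subset_of_nonneg (fun k hk => ?_) fun k _ _ => n1 k
    simp only [Finset.mem_filter, Finset.mem_erase, Finset.mem_Ioc, Finset.mem_Icc] at hk ⊢
    omega
  have s3 : 0 ≤ od (a * m) := Finset.sum_nonneg fun k _ => n1 k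
  refine (norm_sum_le_of_le _ fun k hk => (rw3_norm k _).trans_le (h₁ m a k T α β hm ha
    (Finset.mem_Ioc.1 (Finset.mem_erase.1 hk).2).1 (Finset.mem_erase.1 hk).1 hT hα hβ)).trans ?_
  rw [← Finset.mul_sum, Finset.sum_add_distrib]
  refine (mul_le_mul_of_nonneg_left (add_le_add s1 s2) (by positivity)).trans ?_
  have := sq_nonneg (1 + Real.log (a * m : ℕ))
  calc C₁ * T * (C₂ * (1 + Real.log (a * m : ℕ)) ^ 2 + od (a * m))
      ≤ C₁ * T * ((C₂ + 1) * ((1 + Real.log (a * m : ℕ)) ^ 2 + od (a * m))) := by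
        refine mul_le_mul_of_nonneg_left ?_ (by positivity)
        nlinarith [mul_nonneg hC₂.le s3]
    _ = _ := by ring

/- Fix `K ≥ a m`.  For `N ≥ K` use `w1_tail`, `w2_term`, `tau_sum`, and `lam_unif`, `ph_le`, `dv_tail` for the
terms `K < k ≤ N`; let `N`, then `W` tend to infinity (`B_lim`, `ph_lim`); bound the finite sum with `lam_sum`,
`lam_diag`, `J0_int`; let `K` tend to infinity. -/
theorem wv (hP : Good P) : ∃ C : ℝ, 0 < C ∧ ∀ (m a : ℕ) (T α β : ℝ), 1 ≤ m → 1 ≤ a → 1 ≤ T →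
    (a : ℝ) ≤ α → α ∈ Icc T (2 * T) → β ∈ Icc T (2 * T) → α ≤ β →
    ‖(∫ x in α..β, J0 P 2 (m * x) * (zs 2).E (x / a)) - ((dv (a * m) / (a * m : ℕ) *
      (1 / (6 * Real.pi ^ 2) * √m * (β ^ (3 / 2 : ℝ) - α ^ (3 / 2 : ℝ))) : ℝ) : ℂ)‖ ≤
      C * T * ((1 + Real.log (a * m : ℕ)) ^ 2 + od (a * m)) := by
  obtain ⟨C₁, hC₁, h₁⟩ := rw3_three hP
  obtain ⟨C₂, hC₂, h₂⟩ := rw3_off hP
  obtain ⟨C₃, hC₃, h₃⟩ := lam_diag hP
  obtain ⟨C₄, hC₄, h₄⟩ := J0_int hP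
  refine ⟨C₁ + C₂ + C₃ + ‖(zs 2).L 0‖ * C₄, by positivity, fun m a T α β hm ha hT haα hα hβ hαβ => ?_⟩
  obtain ⟨D, hD⟩ := h₁ m a T α β hm ha hT haα hα hβ hαβ
  have hm' : (1 : ℝ) ≤ m := Nat.one_le_cast.2 hm
  have ha' : (0 : ℝ) < a := Nat.cast_pos.2 ha
  have hT0 : 0 < T := one_pos.trans_le hT
  have hn : 0 < a * m := Nat.mul_pos ha hm
  have hn' : (0 : ℝ) < (a * m : ℕ) := Nat.cast_pos.2 hn
  refine rw3_lim (D := D) (θ := 1 / 8) (by norm_num) (a * m) fun K hK => ?_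
  have e1 := hD K
  have e2 := h₂ m a K T α β hm ha hT hα hβ
  have e3 : ‖((dv (a * m) / (a * m : ℕ) : ℝ) : ℂ) * (Lam P m α β m -
      ((1 / (6 * Real.pi ^ 2) * √m * (β ^ (3 / 2 : ℝ) - α ^ (3 / 2 : ℝ)) : ℝ) : ℂ))‖ ≤ C₃ * T := by
    rw [rw3_norm]
    exact (mul_le_mul ((div_le_one hn').2 (dv_le_self _)) (h₃ m T α β (one_pos.trans_le hm') hT hα hβ)
      (norm_nonneg _) zero_le_one).trans (one_mul _).le
  have e4 : ‖(zs 2).L 0 * ∫ x in α..β, J0 P 2 (m * x)‖ ≤ ‖(zs 2).L 0‖ * C₄ * T := by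
    rw [norm_mul, mul_assoc]
    refine mul_le_mul_of_nonneg_left ((h₄ m T α β hm' hT hα hβ).trans ?_) (norm_nonneg _)
    have a1 : T ^ (3 / 4 : ℝ) ≤ T := by
      simpa using Real.rpow_le_rpow_of_exponent_le hT (show (3 / 4 : ℝ) ≤ 1 by norm_num)
    have a2 : (m : ℝ) ^ (-1 / 4 : ℝ) ≤ 1 := Real.rpow_le_one_of_one_le_of_nonpos hm' (by norm_num)
    exact (mul_le_mul (mul_le_mul_of_nonneg_left a1 hC₄.le) a2 (by positivity) (by positivity)).trans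
      (mul_one _).le
  rw [← Finset.add_sum_erase _ _ (Finset.mem_Ioc.2 ⟨hn, hK⟩),
    show ((a * m : ℕ) : ℝ) / a = m by push_cast; field_simp] at e1
  have key : ∀ X Y c Λ S Q : ℂ, ‖X - c * Q‖ ≤ ‖X - Y - (c * Λ + S)‖ + ‖S‖ + ‖c * (Λ - Q)‖ + ‖Y‖ :=
    fun X Y c Λ S Q => by
      rw [show X - c * Q = X - Y - (c * Λ + S) + S + c * (Λ - Q) + Y by ring]
      exact norm_add₄_le
  rw [ofReal_mul]
  refine (key _ _ _ _ _ _).trans ((add_le_add (add_le_add (add_le_add e1 e2) e3) e4).trans ?_)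
  have l1 : 0 ≤ Real.log (a * m : ℕ) := Real.log_natCast_nonneg _
  have l2 : 1 ≤ (1 + Real.log (a * m : ℕ)) ^ 2 := one_le_pow₀ (by linarith)
  have s3 : 0 ≤ od (a * m) := Finset.sum_nonneg fun k _ => div_nonneg (dv_nonneg k) (abs_nonneg _)
  generalize (1 + Real.log (a * m : ℕ)) ^ 2 = u at l2
  generalize od (a * m) = w at s3
  have b1 := mul_nonneg (mul_nonneg hC₁.le hT0.le) s3
  have b2 : C₃ * T * 1 ≤ C₃ * T * (u + w) := mul_le_mul_of_nonneg_left (by linarith) (by positivity)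
  have b3 : ‖(zs 2).L 0‖ * C₄ * T * 1 ≤ ‖(zs 2).L 0‖ * C₄ * T * (u + w) :=
    mul_le_mul_of_nonneg_left (by linarith) (by positivity)
  linarith

end Pool.Agent.Lib.MP_2a1a00_nt
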