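import Pool.Agent.Lib.MP_2a1a00_nt.R.B1
import Pool.Agent.Lib.MP_2a1a00_nt.R.W3
import Pool.Agent.Lib.MP_2a1a00_nt.R.A2
import Pool.Agent.Lib.MP_2a1a00_nt.R.D1

/-! The resonance in one block of frequencies. -/

namespace Pool.Agent.Lib.MP_2a1a00_nt

open Complex MeasureTheory Set

variable {P : Vo}

theorem rb2_int (P : Vo) (M M' : ℕ) {N : ℕ} (hN : 1 ≤ N) {T y : ℝ} (hT : 0 < T) (hy : T ≤ y) :
    ∫ x in T..y, HH P M M' x * GG N x = ∑ m ∈ Finset.Ioc M M', ∑ a ∈ Finset.Icc 1 ⌊y / N⌋₊,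
      ((dv m / m : ℝ) : ℂ) * ∫ x in max T (a * N)..y, J0 P 2 (m * x) * (zs 2).E (x / a) := by
  have hN' : (1 : ℝ) ≤ N := by exact_mod_cast hN
  rw [(GG_int (HH_cont P M M') hN hT hy).2, Finset.sum_comm]
  refine Finset.sum_congr rfl fun a ha => ?_
  obtain ⟨h1, h2⟩ := Finset.mem_Icc.1 ha
  have ha0 : (0 : ℝ) < a := by exact_mod_cast h1
  have h3 : (a : ℝ) * N ≤ y :=
    (le_div_iff₀ (by linarith)).1 ((Nat.le_floor_iff (div_nonneg (by linarith) (by linarith))).1 h2)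
  simp only [HH, Finset.sum_mul, mul_assoc]
  rw [intervalIntegral.integral_finsetSum]
  · exact Finset.sum_congr rfl fun m _ => intervalIntegral.integral_const_mul _ _
  · intro m hm
    have h : (0 : ℝ) < m := by exact_mod_cast (Nat.zero_le M).trans_lt (Finset.mem_Ioc.1 hm).1
    refine (E_dil_int (zs 2) ha0 (le_max_of_le_right (by nlinarith)) (max_le hy h3) ?_).const_mul _
    exact (J0_cont P 2).comp (continuousOn_const.mul continuousOn_id) fun x hx =>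
      mul_pos h (hT.trans_le ((le_max_left _ _).trans hx.1))

theorem rb2_w {m a : ℕ} (hm : 1 ≤ m) (ha : 1 ≤ a) (c w : ℝ) :
    dv m / m * (dv (a * m) / (a * m : ℕ) * (c * √m * w)) =
      c * w * (dv m / (m : ℝ) ^ (3 / 2 : ℝ) * (dv (a * m) / a)) := by
  have hm0 : (0 : ℝ) < m := by exact_mod_cast hm
  have ha0 : (0 : ℝ) < a := by exact_mod_cast ha
  have h1 : (m : ℝ) ^ (3 / 2 : ℝ) = m * √m := by
    rw [Real.sqrt_eq_rpow, ← Real.rpow_one_add' hm0.le (by norm_num)]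
    norm_num
  have h2 : (0 : ℝ) < √m := Real.sqrt_pos.2 hm0
  have h3 : (m : ℝ) = √m * √m := (Real.mul_self_sqrt hm0.le).symm
  rw [h1]
  push_cast
  generalize √(m : ℝ) = r at h2 h3
  rw [h3]
  field_simp

theorem rb2_one {m : ℕ} (hm : 1 ≤ m) : 1 ≤ dv m := by
  unfold dv
  exact_mod_cast Finset.card_pos.2 ⟨1, Nat.one_mem_divisors.2 (by omega)⟩

theorem rb2_log {T u : ℝ} (hT : 3 ≤ T) (hu : 1 ≤ u) (h : u ≤ 2 * T * T) :
    (1 + Real.log u) ^ 2 ≤ 16 * Real.log T ^ 2 := by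
  have h1 : 1 ≤ Real.log T := by
    rw [Real.le_log_iff_exp_le (by linarith)]
    linarith [Real.exp_one_lt_d9]
  have h2 : Real.log u ≤ 3 * Real.log T := by
    have := Real.log_le_log (by linarith) (h.trans (show 2 * T * T ≤ T ^ 3 by nlinarith))
    rwa [Real.log_pow, Nat.cast_ofNat] at this
  have h3 := Real.log_nonneg hu
  nlinarith

/-- the error terms of one frequency -/
theorem rb2_err : ∃ C : ℝ, 0 < C ∧ ∀ (m A : ℕ) (T Z : ℝ), 3 ≤ T → 1 ≤ m → (m : ℝ) ≤ Z → Z ≤ T →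
    (A : ℝ) ≤ 2 * Z → ∑ a ∈ Finset.Icc 1 A, ((1 + Real.log (a * m : ℕ)) ^ 2 + od (a * m)) ≤
      C * Z * dv m * Real.log T ^ 2 := by
  obtain ⟨C, hC, h⟩ := od_sum
  refine ⟨32 + 32 * C, by positivity, fun m A T Z hT hm hmZ hZ hA => ?_⟩
  have hm' : (1 : ℝ) ≤ m := by exact_mod_cast hm
  have hd := rb2_one hm
  have hY : (⌊2 * Z⌋₊ : ℝ) ≤ 2 * Z := Nat.floor_le (by linarith)
  have hmY : m ≤ ⌊2 * Z⌋₊ := Nat.le_floor (by linarith)
  have hY1 : (1 : ℝ) ≤ ⌊2 * Z⌋₊ := by exact_mod_cast hm.trans hmY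
  have h1 : ∑ a ∈ Finset.Icc 1 A, (1 + Real.log (a * m : ℕ)) ^ 2 ≤ A * (16 * Real.log T ^ 2) := by
    refine (Finset.sum_le_card_nsmul _ _ (16 * Real.log T ^ 2) fun a ha => ?_).trans (by simp)
    obtain ⟨a1, a2⟩ := Finset.mem_Icc.1 ha
    have a3 : (1 : ℝ) ≤ a := by exact_mod_cast a1
    have a4 : (a : ℝ) ≤ A := by exact_mod_cast a2
    push_cast
    exact rb2_log hT (by nlinarith) (mul_le_mul (by linarith) (by linarith) (by linarith)
      (by linarith))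
  have h2 : ∑ a ∈ Finset.Icc 1 A, od (a * m) ≤ ∑ a ∈ Finset.Icc 1 ⌊2 * Z⌋₊, od (a * m) :=
    Finset.sum_le_sum_of_subset_of_nonneg (Finset.Icc_subset_Icc_right (Nat.le_floor hA))
      fun a _ _ => Finset.sum_nonneg fun k _ => div_nonneg (dv_nonneg k) (abs_nonneg _)
  have h3 := h m _ hm hmY
  have h4 := rb2_log hT hY1 (by nlinarith)
  have h5 : C * ⌊2 * Z⌋₊ * dv m * (1 + Real.log ⌊2 * Z⌋₊) ^ 2 ≤
      C * (2 * Z) * dv m * (16 * Real.log T ^ 2) := by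
    have : 0 ≤ Z := by linarith
    have := dv_nonneg m
    gcongr
  have h6 : (A : ℝ) * (16 * Real.log T ^ 2) ≤ (2 * Z * dv m) * (16 * Real.log T ^ 2) := by
    gcongr
    nlinarith
  rw [Finset.sum_add_distrib]
  nlinarith

/- `GG_int`, `wv`, `od_sum`, `fa_range`, `dv_block`. -/
theorem block_G (hP : Good P) : ∃ C : ℝ, 0 < C ∧ ∀ (j N : ℕ) (T y : ℝ), 3 ≤ T →
    (2 ^ j : ℝ) ≤ T ^ (2 / 5 : ℝ) → 1 ≤ N → (N : ℝ) ≤ T ^ (3 / 5 : ℝ) → y ∈ Icc T (2 * T) →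
    ‖(∫ x in T..y, HH P (2 ^ j / 2) (2 ^ j) x * GG N x) - ((1 / (6 * Real.pi ^ 2) *
      (y ^ (3 / 2 : ℝ) - T ^ (3 / 2 : ℝ)) * dB j (T / N) : ℝ) : ℂ)‖ ≤
      C * (T * (T / N) * (2 ^ j : ℝ) ^ (1 / 16 : ℝ) * Real.log T ^ 2 +
        T ^ (3 / 2 : ℝ) * (2 ^ j : ℝ) ^ (-1 / 4 : ℝ) * Real.log T) := by
  obtain ⟨C1, hC1, h1⟩ := wv hP
  obtain ⟨C2, hC2, h2⟩ := rb2_err
  obtain ⟨C3, hC3, h3⟩ := dv_block (ε := 1 / 16) (by norm_num) 0 le_rfl
  obtain ⟨C4, hC4, h4⟩ := dv_block (ε := 1 / 4) (by norm_num) (1 / 2) (by norm_num)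
  refine ⟨C1 * C2 * C3 + 24 * C4, by positivity, fun j N T y hT hj hN hNT hy => ?_⟩
  have hT0 : 0 < T := by linarith
  have hN' : (1 : ℝ) ≤ N := by exact_mod_cast hN
  have hL : 1 ≤ Real.log T := by
    rw [Real.le_log_iff_exp_le hT0]
    linarith [Real.exp_one_lt_d9]
  have hM : 1 ≤ 2 ^ j := Nat.one_le_two_pow
  have h3' := h3 _ hM
  have h4' := h4 _ hM
  simp only [Nat.cast_pow, Nat.cast_ofNat, add_zero, sub_zero, Real.rpow_one] at h3' h4'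
  rw [show (1 + 1 / 2 : ℝ) = 3 / 2 by norm_num, show (1 / 4 - 1 / 2 : ℝ) = -1 / 4 by norm_num] at h4'
  have hZT : T / N ≤ T := div_le_self hT0.le hN'
  have hMZ : (2 ^ j : ℝ) ≤ T / N := by
    rw [le_div_iff₀ (by linarith)]
    calc (2 ^ j : ℝ) * N ≤ T ^ (2 / 5 : ℝ) * T ^ (3 / 5 : ℝ) := by gcongr
      _ = T := by rw [← Real.rpow_add hT0]; norm_num
  have hZ1 : 1 ≤ T / N := (one_le_pow₀ one_le_two).trans hMZ
  have hyZ : y / N ≤ 2 * (T / N) := by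
    rw [← mul_div_assoc]
    gcongr
    exact hy.2
  have hy0 : 0 ≤ y / N := div_nonneg (hT0.le.trans hy.1) (by linarith)
  have hA : ⌊T / N⌋₊ ≤ ⌊y / N⌋₊ := Nat.floor_le_floor (by gcongr; exact hy.1)
  have hS : ∀ m ∈ Finset.Ioc (2 ^ j / 2 : ℕ) (2 ^ j), 1 ≤ m ∧ (m : ℝ) ≤ T / N := fun m hm => by
    obtain ⟨m1, m2⟩ := Finset.mem_Ioc.1 hm
    exact ⟨by omega, le_trans (by exact_mod_cast m2) hMZ⟩
  have hc : (0 : ℝ) < 1 / (6 * Real.pi ^ 2) := by positivity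
  have hc1 : 1 / (6 * Real.pi ^ 2) ≤ (1 : ℝ) := by
    rw [div_le_one (by positivity)]
    nlinarith [Real.pi_gt_three]
  rw [rb2_int P _ _ hN hT0 hy.1]
  generalize 1 / (6 * Real.pi ^ 2) = c at h1 hc hc1 ⊢
  set S := Finset.Ioc (2 ^ j / 2 : ℕ) (2 ^ j) with hSdef
  set D : ℕ → ℕ → ℝ := fun m a => dv (a * m) / (a * m : ℕ) *
    (c * √m * (y ^ (3 / 2 : ℝ) - (max T (a * N)) ^ (3 / 2 : ℝ))) with hD
  have e1 : ∑ m ∈ S, ∑ a ∈ Finset.Icc 1 ⌊y / N⌋₊, dv m / m * D m a =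
      c * (y ^ (3 / 2 : ℝ) - T ^ (3 / 2 : ℝ)) * dB j (T / N) +
        ∑ m ∈ S, ∑ a ∈ Finset.Ioc ⌊T / N⌋₊ ⌊y / N⌋₊, dv m / m * D m a := by
    rw [dB, Finset.mul_sum, ← Finset.sum_add_distrib]
    refine Finset.sum_congr rfl fun m hm => ?_
    have e2 : ∀ n : ℕ, Finset.Icc 1 n = Finset.Ioc 0 n := fun n => by
      ext a
      simp only [Finset.mem_Icc, Finset.mem_Ioc]
      omega
    rw [e2, ← Finset.sum_Ioc_consecutive _ (Nat.zero_le _) hA, fa, ← e2, Finset.mul_sum,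
      Finset.mul_sum]
    congr 1
    refine Finset.sum_congr rfl fun a ha => ?_
    obtain ⟨a1, a2⟩ := Finset.mem_Icc.1 ha
    have a3 : (a : ℝ) * N ≤ T :=
      (le_div_iff₀ (by linarith)).1 ((Nat.le_floor_iff (by linarith)).1 a2)
    simp only [hD, max_eq_left a3]
    exact rb2_w (hS m hm).1 a1 _ _
  have b1 : ‖∑ m ∈ S, ∑ a ∈ Finset.Icc 1 ⌊y / N⌋₊, ((dv m / m : ℝ) : ℂ) *
      (∫ x in max T (a * N)..y, J0 P 2 (m * x) * (zs 2).E (x / a)) -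
      ((∑ m ∈ S, ∑ a ∈ Finset.Icc 1 ⌊y / N⌋₊, dv m / m * D m a : ℝ) : ℂ)‖ ≤
      C1 * C2 * C3 * (T * (T / N) * (2 ^ j : ℝ) ^ (1 / 16 : ℝ) * Real.log T ^ 2) := by
    rw [ofReal_sum, ← Finset.sum_sub_distrib]
    refine (norm_sum_le _ _).trans ((Finset.sum_le_sum (g := fun m =>
      C1 * T * C2 * (T / N) * Real.log T ^ 2 * (dv m ^ 2 / m)) fun m hm => ?_).trans ?_)
    · obtain ⟨m1, m2⟩ := hS m hm
      have hw : 0 ≤ dv m / m := div_nonneg (dv_nonneg m) (Nat.cast_nonneg m)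
      rw [ofReal_sum, ← Finset.sum_sub_distrib]
      refine (norm_sum_le _ _).trans ((Finset.sum_le_sum (g := fun a => dv m / m * (C1 * T) *
        ((1 + Real.log (a * m : ℕ)) ^ 2 + od (a * m))) fun a ha => ?_).trans ?_)
      · obtain ⟨a1, a2⟩ := Finset.mem_Icc.1 ha
        have a0 : (0 : ℝ) ≤ a := Nat.cast_nonneg a
        have a3 : (a : ℝ) * N ≤ y :=
          (le_div_iff₀ (by linarith)).1 ((Nat.le_floor_iff hy0).1 a2)
        have a4 : max T (a * N) ≤ y := max_le hy.1 a3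
        rw [ofReal_mul, ← mul_sub, norm_mul, norm_real, Real.norm_of_nonneg hw, mul_assoc]
        exact mul_le_mul_of_nonneg_left (h1 m a T _ y m1 a1 (by linarith)
          (le_max_of_le_right (by nlinarith)) ⟨le_max_left _ _, a4.trans hy.2⟩ hy a4) hw
      · rw [← Finset.mul_sum]
        refine (mul_le_mul_of_nonneg_left (h2 m _ T _ hT m1 m2 hZT
          ((Nat.floor_le hy0).trans hyZ)) (by positivity)).trans_eq ?_
        ring
    · rw [← Finset.mul_sum]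
      refine (mul_le_mul_of_nonneg_left h3' (by positivity)).trans_eq ?_
      ring
  have b2 : |∑ m ∈ S, ∑ a ∈ Finset.Ioc ⌊T / N⌋₊ ⌊y / N⌋₊, dv m / m * D m a| ≤
      24 * C4 * (T ^ (3 / 2 : ℝ) * (2 ^ j : ℝ) ^ (-1 / 4 : ℝ) * Real.log T) := by
    have hy3 : y ^ (3 / 2 : ℝ) ≤ 3 * T ^ (3 / 2 : ℝ) := by
      have a1 : (2 : ℝ) ^ (3 / 2 : ℝ) ≤ 3 := by
        refine (abs_le_of_sq_le_sq' ?_ (by norm_num)).2
        rw [← Real.rpow_natCast, ← Real.rpow_mul (by norm_num)]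
        norm_num
      calc y ^ (3 / 2 : ℝ) ≤ (2 * T) ^ (3 / 2 : ℝ) :=
            Real.rpow_le_rpow (hT0.le.trans hy.1) hy.2 (by norm_num)
        _ = 2 ^ (3 / 2 : ℝ) * T ^ (3 / 2 : ℝ) := Real.mul_rpow (by norm_num) hT0.le
        _ ≤ _ := by gcongr
    refine (Finset.abs_sum_le_sum_abs _ _).trans ((Finset.sum_le_sum (g := fun m =>
      24 * T ^ (3 / 2 : ℝ) * Real.log T * (dv m ^ 2 / (m : ℝ) ^ (3 / 2 : ℝ))) fun m hm => ?_).trans ?_)
    · obtain ⟨m1, m2⟩ := hS m hm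
      have hw : 0 ≤ dv m / (m : ℝ) ^ (3 / 2 : ℝ) := div_nonneg (dv_nonneg m) (by positivity)
      have hv : ∀ a : ℕ, 0 ≤ dv (a * m) / a := fun a => div_nonneg (dv_nonneg _) (Nat.cast_nonneg a)
      refine (Finset.abs_sum_le_sum_abs _ _).trans ((Finset.sum_le_sum (g := fun a =>
        3 * T ^ (3 / 2 : ℝ) * (dv m / (m : ℝ) ^ (3 / 2 : ℝ)) * (dv (a * m) / a))
        fun a ha => ?_).trans ?_)
      · obtain ⟨a1, a2⟩ := Finset.mem_Ioc.1 ha
        have a3 : (a : ℝ) * N ≤ y :=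
          (le_div_iff₀ (by linarith)).1 ((Nat.le_floor_iff hy0).1 a2)
        have a4 : (max T (a * N)) ^ (3 / 2 : ℝ) ≤ y ^ (3 / 2 : ℝ) :=
          Real.rpow_le_rpow (hT0.le.trans (le_max_left _ _)) (max_le hy.1 a3) (by norm_num)
        have a5 : 0 ≤ (max T (a * N)) ^ (3 / 2 : ℝ) :=
          Real.rpow_nonneg (hT0.le.trans (le_max_left _ _)) _
        have a6 := mul_nonneg hw (hv a)
        simp only [hD]
        rw [rb2_w m1 (by omega), abs_of_nonneg (mul_nonneg (mul_nonneg hc.le (by linarith)) a6),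
          mul_assoc (3 * T ^ (3 / 2 : ℝ))]
        exact mul_le_mul_of_nonneg_right (by nlinarith) a6
      · have a1 : ∑ a ∈ Finset.Ioc ⌊T / N⌋₊ ⌊y / N⌋₊, dv (a * m) / a ≤
            4 * dv m * (1 + Real.log (T / N)) :=
          (Finset.sum_le_sum_of_subset_of_nonneg (Finset.Ioc_subset_Ioc_right
            (Nat.floor_le_floor hyZ)) fun a _ _ => hv a).trans (fa_range m hZ1)
        have a2 : 4 * dv m * (1 + Real.log (T / N)) ≤ 4 * dv m * (2 * Real.log T) :=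
          mul_le_mul_of_nonneg_left (by linarith [Real.log_le_log (by linarith) hZT])
            (by linarith [dv_nonneg m])
        rw [← Finset.mul_sum]
        refine (mul_le_mul_of_nonneg_left (a1.trans a2) (by positivity)).trans_eq ?_
        ring
    · rw [← Finset.mul_sum]
      refine (mul_le_mul_of_nonneg_left h4' (by positivity)).trans_eq ?_
      ring
  rw [e1, ofReal_add, ← sub_sub] at b1
  have b3 := norm_add_le_of_le b1 ((norm_real _).le.trans b2)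
  rw [sub_add_cancel] at b3
  refine b3.trans ?_
  have p1 : 0 ≤ T * (T / N) * (2 ^ j : ℝ) ^ (1 / 16 : ℝ) * Real.log T ^ 2 := by positivity
  have p2 : 0 ≤ T ^ (3 / 2 : ℝ) * (2 ^ j : ℝ) ^ (-1 / 4 : ℝ) * Real.log T := by positivity
  have p3 : 0 < C1 * C2 * C3 := by positivity
  nlinarith [mul_nonneg p3.le p2, mul_nonneg hC4.le p1]

end Pool.Agent.Lib.MP_2a1a00_nt
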