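import Pool.Agent.Lib.MP_2a1a00_nt.R.L1
import Pool.Agent.Lib.MP_2a1a00_nt.R.A3

/-! The mean square of a sum of sawtooth functions. -/

namespace Pool.Agent.Lib.MP_2a1a00_nt

open Complex MeasureTheory Set

/- The lemma of Fatou (`lintegral_liminf_le'`). -/
theorem sq_lim {g : ℕ → ℝ → ℂ} {f : ℝ → ℂ} {T B : ℝ} (hT : 0 ≤ T) (hg : ∀ k, Bm (g k) T) (hf : Bm f T)
    (h : ∀ x ∈ Icc T (2 * T), Filter.Tendsto (fun k => g k x) Filter.atTop (nhds (f x)))
    (hB : ∀ k, Sq (g k) T ≤ B) : Sq f T ≤ B := by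
  have hT2 : T ≤ 2 * T := by linarith
  have key : ∀ {u : ℝ → ℂ}, Bm u T → ENNReal.ofReal (Sq u T) =
      ∫⁻ x in Ioc T (2 * T), ENNReal.ofReal (‖u x‖ ^ 2) := fun {u} hu => by
    rw [Sq, intervalIntegral.integral_of_le hT2]
    exact ofReal_integral_eq_lintegral_ofReal (hu.int_sq hT).1
      (Filter.Eventually.of_forall fun x => by positivity)
  have hB0 : 0 ≤ B := (nm_sq0 hT).trans (hB 0)
  rw [← ENNReal.ofReal_le_ofReal_iff hB0, key hf]
  have h1 : ∫⁻ x in Ioc T (2 * T), ENNReal.ofReal (‖f x‖ ^ 2) =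
      ∫⁻ x in Ioc T (2 * T),
        Filter.liminf (fun k => ENNReal.ofReal (‖g k x‖ ^ 2)) Filter.atTop := by
    refine setLIntegral_congr_fun measurableSet_Ioc fun x hx => ?_
    exact (ENNReal.tendsto_ofReal ((h x (Ioc_subset_Icc_self hx)).norm.pow 2)).liminf_eq.symm
  rw [h1]
  refine (lintegral_liminf_le' fun k => ?_).trans ?_
  · exact ENNReal.measurable_ofReal.comp_aemeasurable ((hg k).meas.norm.aemeasurable.pow_const 2)
  · refine Filter.liminf_le_of_frequently_le' (Filter.Frequently.of_forall fun k => ?_)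
    rw [← key (hg k)]
    exact ENNReal.ofReal_le_ofReal (hB k)

theorem rl2_has (u : ℝ) : HasSum (fun j : ℕ => 1 / (j : ℝ) ^ 2 * Real.cos (2 * Real.pi * j * u))
    (Real.pi ^ 2 * (Int.fract u ^ 2 - Int.fract u + 6⁻¹)) := by
  have h := hasSum_one_div_nat_pow_mul_cos (k := 1) one_ne_zero
    (x := Int.fract u) ⟨Int.fract_nonneg u, (Int.fract_lt_one u).le⟩
  have h2 := bernoulliFun_two (Int.fract u)
  unfold bernoulliFun at h2
  simp only [mul_one] at h
  rw [h2] at h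
  have h3 : ∀ j : ℕ, Real.cos (2 * Real.pi * j * Int.fract u) = Real.cos (2 * Real.pi * j * u) := by
    intro j
    have : 2 * Real.pi * j * Int.fract u = 2 * Real.pi * j * u - ((j * ⌊u⌋ : ℤ) : ℝ) * (2 * Real.pi) := by
      rw [Int.fract]
      push_cast
      ring
    rw [this, Real.cos_sub_int_mul_two_pi]
  simp only [h3] at h
  convert h using 1
  simp only [Nat.factorial]
  push_cast
  ring

/-- The difference quotient of the periodic Bernoulli function. -/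
noncomputable def rl2_q (η u : ℝ) : ℝ :=
  (Int.fract (u + η) ^ 2 - Int.fract (u + η) - (Int.fract u ^ 2 - Int.fract u)) / (2 * η)

/-- The terms of its Fourier series. -/
noncomputable def rl2_t (η u : ℝ) (j : ℕ) : ℝ :=
  (Real.cos (2 * Real.pi * j * (u + η)) - Real.cos (2 * Real.pi * j * u)) /
    (2 * η * Real.pi ^ 2 * j ^ 2)

theorem rl2_lim1 {η : ℝ} (hη : 0 < η) (u : ℝ) :
    Filter.Tendsto (fun J : ℕ => ∑ j ∈ Finset.Icc 1 J, rl2_t η u j) Filter.atTop
      (nhds (rl2_q η u)) := by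
  have hp := Real.pi_pos
  have h : HasSum (rl2_t η u) (rl2_q η u) := by
    have h := ((rl2_has (u + η)).sub (rl2_has u)).div_const (2 * η * Real.pi ^ 2)
    convert! h using 1
    · funext j
      unfold rl2_t
      rcases Nat.eq_zero_or_pos j with rfl | hj
      · simp
      · have : (0 : ℝ) < j := by exact_mod_cast hj
        field_simp
    · unfold rl2_q
      field_simp
      ring
  have h2 := h.tendsto_sum_nat.comp (Filter.tendsto_add_atTop_nat 1)
  refine h2.congr fun J => ?_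
  simp only [Function.comp]
  rw [Finset.range_eq_Ico, Finset.sum_eq_sum_Ico_succ_bot (Nat.succ_pos J)]
  have h0 : rl2_t η u 0 = 0 := by simp [rl2_t]
  rw [h0, zero_add]
  rfl

theorem rl2_lim2 (u : ℝ) :
    Filter.Tendsto (fun k : ℕ => rl2_q (1 / ((k : ℝ) + 1)) u) Filter.atTop (nhds (saw u)) := by
  have h0 : Filter.Tendsto (fun k : ℕ => 1 / ((k : ℝ) + 1)) Filter.atTop (nhds 0) :=
    tendsto_one_div_add_atTop_nhds_zero_nat
  have h1 : Filter.Tendsto (fun k : ℕ => saw u + 1 / ((k : ℝ) + 1) / 2) Filter.atTop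
      (nhds (saw u + 0 / 2)) := tendsto_const_nhds.add (h0.div_const 2)
  rw [zero_div, add_zero] at h1
  refine h1.congr' ?_
  have h2 : (0 : ℝ) < 1 - Int.fract u := by linarith [Int.fract_lt_one u]
  filter_upwards [h0.eventually (gt_mem_nhds h2)] with k hk
  have hη : (0 : ℝ) < 1 / ((k : ℝ) + 1) := by positivity
  generalize 1 / ((k : ℝ) + 1) = η at hk hη
  have h3 : Int.fract (u + η) = Int.fract u + η := by
    rw [Int.fract_eq_iff]
    refine ⟨by linarith [Int.fract_nonneg u], by linarith, ⌊u⌋, ?_⟩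
    rw [Int.fract]
    ring
  unfold rl2_q saw
  rw [h3]
  field_simp
  ring

theorem rl2_bm (η : ℝ) (N : ℕ) (T : ℝ) (hη : 0 < η) :
    Bm (fun x => ((∑ n ∈ Finset.Icc 1 N, dv n * rl2_q η (x / n) : ℝ) : ℂ)) T := by
  refine ⟨(measurable_ofReal.comp (Finset.measurable_sum _ fun (n : ℕ) _ =>
    Measurable.const_mul ?_ (dv n))).aestronglyMeasurable,
    ∑ n ∈ Finset.Icc 1 N, dv n * (2 / (2 * η)), fun x _ => ?_⟩
  · have h1 : Measurable fun x : ℝ => Int.fract (x / n + η) :=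
      measurable_fract.comp ((measurable_id.div_const _).add_const _)
    have h2 : Measurable fun x : ℝ => Int.fract (x / n) :=
      measurable_fract.comp (measurable_id.div_const _)
    exact (((h1.pow_const 2).sub h1).sub ((h2.pow_const 2).sub h2)).div_const _
  · rw [norm_real]
    refine (Finset.abs_sum_le_sum_abs _ _).trans (Finset.sum_le_sum fun n _ => ?_)
    rw [abs_mul, abs_of_nonneg (dv_nonneg n)]
    refine mul_le_mul_of_nonneg_left ?_ (dv_nonneg n)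
    unfold rl2_q
    rw [abs_div, abs_of_pos (by positivity : 0 < 2 * η)]
    refine div_le_div_of_nonneg_right (abs_le.2 ⟨?_, ?_⟩) (by positivity)
    · nlinarith [Int.fract_nonneg (x / n + η), Int.fract_lt_one (x / n + η), Int.fract_nonneg (x / n),
        Int.fract_lt_one (x / n)]
    · nlinarith [Int.fract_nonneg (x / n + η), Int.fract_lt_one (x / n + η), Int.fract_nonneg (x / n),
        Int.fract_lt_one (x / n)]

/-- The coefficients. -/
noncomputable def rl2_c (η : ℝ) (p : ℕ × ℕ) : ℂ :=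
  ((dv p.1 / (2 * η * Real.pi ^ 2 * p.2 ^ 2) : ℝ) : ℂ) *
    (exp (I * (2 * Real.pi * p.2 * η : ℝ)) - 1)

/-- The frequencies. -/
noncomputable def rl2_th (p : ℕ × ℕ) : ℝ := 2 * Real.pi * p.2 / p.1

theorem rl2_c_le {η : ℝ} (hη : 0 < η) {p : ℕ × ℕ} (hp : 1 ≤ p.2) : ‖rl2_c η p‖ ≤ dv p.1 / p.2 := by
  have h1 : (0 : ℝ) < p.2 := by exact_mod_cast hp
  have h2 := Real.pi_pos
  have h3 := dv_nonneg p.1
  rw [rl2_c, norm_mul, norm_real, Real.norm_of_nonneg (by positivity)]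
  refine (mul_le_mul_of_nonneg_left Real.norm_exp_I_mul_ofReal_sub_one_le (by positivity)).trans ?_
  rw [Real.norm_of_nonneg (by positivity)]
  have h4 : dv p.1 / (2 * η * Real.pi ^ 2 * p.2 ^ 2) * (2 * Real.pi * p.2 * η) =
      dv p.1 / p.2 / Real.pi := by
    field_simp
  rw [h4]
  exact div_le_self (by positivity) (by linarith [Real.pi_gt_three])

theorem rl2_re (η x : ℝ) (p : ℕ × ℕ) :
    (rl2_c η p * exp (I * (rl2_th p * x : ℝ))).re = dv p.1 * rl2_t η (x / p.1) p.2 := by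
  have h : ∀ a : ℝ, (exp (I * a)).re = Real.cos a := fun a => by
    rw [mul_comm, exp_ofReal_mul_I_re]
  rw [rl2_c, mul_assoc, re_ofReal_mul, sub_mul, one_mul, ← Complex.exp_add, ← mul_add, ← ofReal_add,
    sub_re, h, h, rl2_t, rl2_th]
  have e1 : 2 * Real.pi * p.2 * η + 2 * Real.pi * p.2 / p.1 * x =
      2 * Real.pi * p.2 * (x / p.1 + η) := by ring
  have e2 : 2 * Real.pi * p.2 / p.1 * x = 2 * Real.pi * p.2 * (x / p.1) := by ring
  rw [e1, e2]
  ring

theorem rl2_th_eq {p q : ℕ × ℕ} (hp : 1 ≤ p.1) (hq : 1 ≤ q.1) :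
    rl2_th p = rl2_th q ↔ p.2 * q.1 = q.2 * p.1 := by
  have h1 : (0 : ℝ) < p.1 := by exact_mod_cast hp
  have h2 : (0 : ℝ) < q.1 := by exact_mod_cast hq
  have h3 := Real.pi_pos
  unfold rl2_th
  rw [div_eq_div_iff h1.ne' h2.ne', mul_assoc, mul_assoc (2 * Real.pi),
    mul_right_inj' (by positivity)]
  exact_mod_cast Iff.rfl

theorem rl2_th_sep {N : ℕ} {p q : ℕ × ℕ} (hp : 1 ≤ p.1) (hq : 1 ≤ q.1) (hp' : p.1 ≤ N)
    (hq' : q.1 ≤ N) (h : rl2_th p ≠ rl2_th q) : 1 / (N : ℝ) ^ 2 ≤ |rl2_th p - rl2_th q| := by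
  have h1 : (0 : ℝ) < p.1 := by exact_mod_cast hp
  have h2 : (0 : ℝ) < q.1 := by exact_mod_cast hq
  have h1' : (p.1 : ℝ) ≤ N := by exact_mod_cast hp'
  have h2' : (q.1 : ℝ) ≤ N := by exact_mod_cast hq'
  have h3 := Real.pi_gt_three
  have h4 : ((p.2 * q.1 : ℤ) - q.2 * p.1 : ℤ) ≠ 0 := fun e => h ((rl2_th_eq hp hq).2 (by
    have := sub_eq_zero.1 e
    exact_mod_cast this))
  have h5 : (1 : ℝ) ≤ |(p.2 : ℝ) * q.1 - q.2 * p.1| := by
    have := Int.one_le_abs h4
    exact_mod_cast this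
  have h6 : rl2_th p - rl2_th q = 2 * Real.pi * ((p.2 : ℝ) * q.1 - q.2 * p.1) / (p.1 * q.1) := by
    unfold rl2_th
    field_simp
  rw [h6, abs_div, abs_mul, abs_of_pos (by positivity : 0 < 2 * Real.pi),
    abs_of_pos (by positivity : (0 : ℝ) < p.1 * q.1)]
  refine div_le_div₀ (by positivity) (by nlinarith) (by positivity) ?_
  rw [sq]
  exact mul_le_mul h1' h2' h2.le (h1.le.trans h1')

/- With `b u = fract u ^ 2 - fract u + 1 / 6 = π⁻¹ ^ 2 * ∑ cos (2 π j u) / j ^ 2`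
(`hasSum_one_div_nat_pow_mul_cos`), the quotient `(b (u + η) - b u) / (2 η)` tends to `saw u` as `η` decreases
to zero, and it is the real part of `∑ c j * exp (2 π i j u)` with `‖c j‖ ≤ 1 / j`.  Apply `ls` with the
frequencies `2 π j / n`, `δ = 1 / N ^ 2`, `gcd_sum`, and `sq_lim` twice. -/
theorem sawS_sq : ∃ C : ℝ, 0 < C ∧ ∀ (N : ℕ) (T : ℝ), 1 ≤ N → 0 < T →
    Sq (sawS N) T ≤ C * (T + N ^ 2) * (N * (1 + Real.log N) ^ 3) := by
  obtain ⟨C₁, hC₁, h₁⟩ := ls
  obtain ⟨C₂, hC₂, h₂⟩ := gcd_sum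
  refine ⟨C₁ * C₂, mul_pos hC₁ hC₂, fun N T hN hT => ?_⟩
  have hN' : (0 : ℝ) < N := by exact_mod_cast hN
  have hT2 : T ≤ 2 * T := by linarith
  refine sq_lim (g := fun (k : ℕ) x =>
      ((∑ n ∈ Finset.Icc 1 N, dv n * rl2_q (1 / ((k : ℝ) + 1)) (x / n) : ℝ) : ℂ)) hT.le
    (fun k => rl2_bm _ N T (by positivity)) (bm_sawS N T) (fun x _ => ?_) fun k => ?_
  · exact (continuous_ofReal.tendsto _).comp
      (tendsto_finsetSum _ fun n _ => (rl2_lim2 (x / n)).const_mul (dv n))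
  have hη : (0 : ℝ) < 1 / ((k : ℝ) + 1) := by positivity
  generalize 1 / ((k : ℝ) + 1) = η at hη
  have hF : ∀ J : ℕ, Continuous fun x : ℝ => ∑ p ∈ Finset.Icc 1 N ×ˢ Finset.Icc 1 J,
      rl2_c η p * exp (I * (rl2_th p * x : ℝ)) := fun J => by fun_prop
  refine sq_lim (g := fun (J : ℕ) x => (((∑ p ∈ Finset.Icc 1 N ×ˢ Finset.Icc 1 J,
      rl2_c η p * exp (I * (rl2_th p * x : ℝ))).re : ℝ) : ℂ)) hT.le
    (fun J => Bm.of_cont (continuous_ofReal.comp (continuous_re.comp (hF J))).continuousOn)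
    (rl2_bm η N T hη) (fun x _ => ?_) fun J => ?_
  · refine (continuous_ofReal.tendsto _).comp ?_
    refine (tendsto_finsetSum _ fun (n : ℕ) _ =>
      (rl2_lim1 hη (x / n)).const_mul (dv n)).congr fun J => ?_
    rw [re_sum, Finset.sum_product]
    refine Finset.sum_congr rfl fun n _ => ?_
    rw [Finset.mul_sum]
    exact Finset.sum_congr rfl fun j _ => (rl2_re η x (n, j)).symm
  have h3 := h₁ (Finset.Icc 1 N ×ˢ Finset.Icc 1 J) (rl2_c η) rl2_th (1 / (N : ℝ) ^ 2) T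
    (by positivity) hT fun p hp q hq h => by
      have hp1 := Finset.mem_Icc.1 (Finset.mem_product.1 hp).1
      have hq1 := Finset.mem_Icc.1 (Finset.mem_product.1 hq).1
      exact rl2_th_sep hp1.1 hq1.1 hp1.2 hq1.2 h
  rw [one_div_one_div] at h3
  have h4 : ∑ p ∈ Finset.Icc 1 N ×ˢ Finset.Icc 1 J, ∑ q ∈ Finset.Icc 1 N ×ˢ Finset.Icc 1 J,
      (if rl2_th p = rl2_th q then ‖rl2_c η p‖ * ‖rl2_c η q‖ else 0) ≤
      C₂ * N * (1 + Real.log N) ^ 3 := by
    refine le_trans (Finset.sum_le_sum fun p hp => Finset.sum_le_sum fun q hq => ?_) (h₂ N J)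
    have hp1 := Finset.mem_Icc.1 (Finset.mem_product.1 hp).1
    have hq1 := Finset.mem_Icc.1 (Finset.mem_product.1 hq).1
    have hp2 := Finset.mem_Icc.1 (Finset.mem_product.1 hp).2
    have hq2 := Finset.mem_Icc.1 (Finset.mem_product.1 hq).2
    simp only [rl2_th_eq hp1.1 hq1.1]
    split_ifs
    · exact mul_le_mul (rl2_c_le hη hp2.1) (rl2_c_le hη hq2.1) (norm_nonneg _)
        (div_nonneg (dv_nonneg _) (Nat.cast_nonneg _))
    · exact le_rfl
  have h5 : Sq (fun x => (((∑ p ∈ Finset.Icc 1 N ×ˢ Finset.Icc 1 J,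
      rl2_c η p * exp (I * (rl2_th p * x : ℝ))).re : ℝ) : ℂ)) T ≤
      ∫ x in T..2 * T, ‖∑ p ∈ Finset.Icc 1 N ×ˢ Finset.Icc 1 J,
        rl2_c η p * exp (I * (rl2_th p * x : ℝ))‖ ^ 2 := by
    refine intervalIntegral.integral_mono_on hT2
      (((continuous_ofReal.comp (continuous_re.comp (hF J))).norm.pow 2).intervalIntegrable _ _)
      (((hF J).norm.pow 2).intervalIntegrable _ _) fun x _ => ?_
    rw [norm_real]
    exact pow_le_pow_left₀ (norm_nonneg _) (abs_re_le_norm _) 2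
  refine h5.trans (h3.trans ((mul_le_mul_of_nonneg_left h4 (by positivity)).trans (le_of_eq ?_)))
  ring

end Pool.Agent.Lib.MP_2a1a00_nt
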