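import Pool.Agent.Lib.MP_2a1a00_nt.R.S0
import Pool.Agent.Lib.MP_2a1a00_nt.R.A1
import Pool.Agent.Lib.MP_2a1a00_nt.V.C1
import Pool.Agent.Lib.MP_2a1a00_nt.V.F2

/-! The hyperbola method. -/

namespace Pool.Agent.Lib.MP_2a1a00_nt

open Complex MeasureTheory Set

/- `E_sup` with `vor`. -/
theorem E2_le : ∃ C : ℝ, 0 < C ∧ ∀ y : ℝ, 1 ≤ y → ‖(zs 2).E y‖ ≤ C * √y := by
  obtain ⟨P, hP⟩ := (zs 2).vor (by rw [zs_deg2])
  obtain ⟨C, hC, h⟩ := (zs 2).E_sup (by rw [zs_deg2]) (by rw [zs_deg2]; norm_num) hP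
    (ε := 1 / 6) (by norm_num)
  refine ⟨C, by linarith, fun y hy => (h y hy y ⟨le_rfl, by linarith⟩).trans (le_of_eq ?_)⟩
  rw [zs_deg2, mul_assoc, ← Real.rpow_add (by linarith), Real.sqrt_eq_rpow]
  norm_num

theorem E3_le : ∃ C : ℝ, 0 < C ∧ ∀ y : ℝ, 1 ≤ y → ‖(zs 3).E y‖ ≤ C * y ^ (3 / 5 : ℝ) := by
  obtain ⟨P, hP⟩ := (zs 3).vor (by rw [zs_deg3]; norm_num)
  obtain ⟨C, hC, h⟩ := (zs 3).E_sup (by rw [zs_deg3]; norm_num) (by rw [zs_deg3]) hP
    (ε := 1 / 10) (by norm_num)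
  refine ⟨C, by linarith, fun y hy => (h y hy y ⟨le_rfl, by linarith⟩).trans (le_of_eq ?_)⟩
  rw [zs_deg3, mul_assoc, ← Real.rpow_add (by linarith)]
  norm_num

theorem rs2_floor {u : ℝ} (hu : 0 ≤ u) : ((⌊u⌋₊ : ℕ) : ℝ) = u - 1 / 2 - saw u := by
  have h1 : ((⌊u⌋₊ : ℕ) : ℝ) = (⌊u⌋ : ℤ) := by
    rw [← Int.natCast_floor_eq_floor hu, Int.cast_natCast]
  have h2 := Int.floor_add_fract u
  unfold saw
  linarith

theorem rs2_hyp {N X : ℕ} (hN : 1 ≤ N) (hX : N ≤ X) :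
    ∑ a ∈ Finset.Icc 1 X, ∑ n ∈ Finset.Icc 1 (X / a), dv n =
      ∑ n ∈ Finset.Icc 1 N, dv n * ((X / n : ℕ) : ℝ) +
        ∑ a ∈ Finset.Icc 1 (X / N),
          (∑ n ∈ Finset.Icc 1 (X / a), dv n - ∑ n ∈ Finset.Icc 1 N, dv n) := by
  have hs : Finset.Icc 1 (X / N) = (Finset.Icc 1 X).filter fun a => a * N ≤ X := by
    ext a
    simp only [Finset.mem_Icc, Finset.mem_filter, Nat.le_div_iff_mul_le hN]
    constructor
    · rintro ⟨h1, h2⟩
      exact ⟨⟨h1, (Nat.le_mul_of_pos_right a hN).trans h2⟩, h2⟩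
    · rintro ⟨⟨h1, -⟩, h2⟩
      exact ⟨h1, h2⟩
  have h1 : ∑ n ∈ Finset.Icc 1 N, dv n * ((X / n : ℕ) : ℝ) =
      ∑ a ∈ Finset.Icc 1 X, ∑ n ∈ Finset.Icc 1 N, if a * n ≤ X then dv n else 0 := by
    rw [Finset.sum_comm]
    refine Finset.sum_congr rfl fun n hn => ?_
    have hn1 := (Finset.mem_Icc.1 hn).1
    have e : (Finset.Icc 1 X).filter (fun a => a * n ≤ X) = Finset.Icc 1 (X / n) := by
      ext a
      simp only [Finset.mem_Icc, Finset.mem_filter, Nat.le_div_iff_mul_le hn1]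
      constructor
      · rintro ⟨⟨h1, -⟩, h2⟩
        exact ⟨h1, h2⟩
      · rintro ⟨h1, h2⟩
        exact ⟨⟨h1, (Nat.le_mul_of_pos_right a hn1).trans h2⟩, h2⟩
    rw [← Finset.sum_filter, e, Finset.sum_const, Nat.card_Icc, Nat.add_sub_cancel, nsmul_eq_mul,
      mul_comm]
  rw [h1, hs, Finset.sum_filter, ← Finset.sum_add_distrib]
  refine Finset.sum_congr rfl fun a ha => ?_
  have ha1 := (Finset.mem_Icc.1 ha).1
  rw [← Finset.sum_filter]
  split_ifs with h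
  · have e : (Finset.Icc 1 N).filter (fun n => a * n ≤ X) = Finset.Icc 1 N :=
      Finset.filter_true_of_mem fun n hn =>
        (Nat.mul_le_mul_left a (Finset.mem_Icc.1 hn).2).trans h
    rw [e]; ring
  · have e : (Finset.Icc 1 N).filter (fun n => a * n ≤ X) = Finset.Icc 1 (X / a) := by
      ext n
      simp only [Finset.mem_Icc, Finset.mem_filter, Nat.le_div_iff_mul_le ha1, mul_comm n a]
      constructor
      · rintro ⟨⟨h1, -⟩, h2⟩
        exact ⟨h1, h2⟩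
      · rintro ⟨h1, h2⟩
        refine ⟨⟨h1, ?_⟩, h2⟩
        by_contra h3
        exact h ((Nat.mul_le_mul_left a (not_le.1 h3).le).trans h2)
    rw [e, add_zero]

/- `zs_f3`, `sum_dv_eq`; the pairs `(a, n)` with `a n ≤ x` are split according to `n ≤ N`;
`⌊u⌋₊ = u - 1 / 2 - saw u`. -/
theorem hyp {N : ℕ} (hN : 1 ≤ N) {x : ℝ} (hx : (N : ℝ) ≤ x) :
    (zs 3).E x = GG N x - sawS N x + SS N x + (zs 2).E N * (saw (x / N) : ℝ) := by
  have hN0 : (0 : ℝ) < N := by exact_mod_cast hN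
  have hx0 : 0 ≤ x := hN0.le.trans hx
  have hX : N ≤ ⌊x⌋₊ := Nat.le_floor hx
  have hE : ∀ y : ℝ, (zs 2).E y = ((∑ n ∈ Finset.Icc 1 ⌊y⌋₊, dv n : ℝ) : ℂ) - Mk 2 y := by
    intro y
    rw [E_eq, ofReal_sum]
    simp only [zs_f2]
  have h3 : ∑ n ∈ Finset.Icc 1 ⌊x⌋₊, (zs 3).f n =
      ((∑ a ∈ Finset.Icc 1 ⌊x⌋₊, ∑ n ∈ Finset.Icc 1 (⌊x⌋₊ / a), dv n : ℝ) : ℂ) := by
    rw [← sum_dv_eq ⌊x⌋₊ fun _ v => dv v, ofReal_sum]
    simp only [zs_f3]
  have hfl : ∀ n : ℕ, ((⌊x⌋₊ / n : ℕ) : ℝ) = x / n - 1 / 2 - saw (x / n) := by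
    intro n
    rw [← Nat.floor_div_natCast, rs2_floor (by positivity)]
  have h1 : ∑ n ∈ Finset.Icc 1 N, dv n * ((⌊x⌋₊ / n : ℕ) : ℝ) =
      x * AA N - (∑ n ∈ Finset.Icc 1 N, dv n) / 2 - ∑ n ∈ Finset.Icc 1 N, dv n * saw (x / n) := by
    rw [AA, Finset.mul_sum, Finset.sum_div, ← Finset.sum_sub_distrib, ← Finset.sum_sub_distrib]
    refine Finset.sum_congr rfl fun n _ => ?_
    rw [hfl]; ring
  have hK : ((⌊x / N⌋₊ : ℕ) : ℂ) = x / N - 1 / 2 - (saw (x / N) : ℝ) := by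
    have h := rs2_floor (u := x / N) (by positivity)
    have h' : ((⌊x / N⌋₊ : ℕ) : ℂ) = (((⌊x / N⌋₊ : ℕ) : ℝ) : ℂ) := by simp
    rw [h', h]
    push_cast
    ring
  rw [E_eq, h3, rs2_hyp hN hX, h1, ← Nat.floor_div_natCast]
  simp only [GG, SS, sawS, hE, Nat.floor_natCast, Nat.floor_div_natCast (a := x),
    Finset.sum_sub_distrib, Finset.sum_const, Nat.card_Icc, Nat.add_sub_cancel, nsmul_eq_mul]
  rw [Nat.floor_div_natCast] at hK
  push_cast
  rw [hK]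
  ring

theorem rs2_sqrt (K : ℕ) : ∑ a ∈ Finset.Icc 1 K, 1 / √(a : ℝ) ≤ 2 * √(K : ℝ) := by
  induction K with
  | zero => simp
  | succ K ih =>
    rw [Finset.sum_Icc_succ_top (by omega)]
    have h0 : (0 : ℝ) ≤ K := Nat.cast_nonneg _
    have h1 : 0 < √((K + 1 : ℕ) : ℝ) := Real.sqrt_pos.2 (by positivity)
    have h2 := Real.mul_self_sqrt h0
    have h3 : √((K + 1 : ℕ) : ℝ) * √((K + 1 : ℕ) : ℝ) = K + 1 := by
      rw [Real.mul_self_sqrt (by positivity)]; push_cast; ring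
    have h4 : 1 / √((K + 1 : ℕ) : ℝ) ≤ 2 * √((K + 1 : ℕ) : ℝ) - 2 * √(K : ℝ) := by
      rw [div_le_iff₀ h1]
      nlinarith [sq_nonneg (√((K + 1 : ℕ) : ℝ) - √(K : ℝ))]
    linarith

theorem SS_sup : ∃ C : ℝ, 0 < C ∧ ∀ (N : ℕ) (T : ℝ), 1 ≤ T → √T ≤ N → (N : ℝ) ≤ T ^ (3 / 5 : ℝ) →
    ∀ x ∈ Icc T (2 * T), ‖SS N x‖ ≤ C * T ^ (3 / 4 : ℝ) := by
  obtain ⟨C2, hC2, h2⟩ := E2_le
  obtain ⟨C3, hC3, h3⟩ := E3_le
  refine ⟨2 * C3 + 4 * C2 + 5 + C2, by positivity, fun N T hT hN1 hN2 x hx => ?_⟩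
  have hT0 : 0 < T := by linarith
  have hN : (1 : ℝ) ≤ N := (Real.one_le_sqrt.2 hT).trans hN1
  have hN0 : (0 : ℝ) < N := by linarith
  have hp : T ^ (3 / 5 : ℝ) ≤ T ^ (3 / 4 : ℝ) := Real.rpow_le_rpow_of_exponent_le hT (by norm_num)
  have hpT : T ^ (3 / 5 : ℝ) ≤ T := by
    have := Real.rpow_le_rpow_of_exponent_le hT (show (3 / 5 : ℝ) ≤ 1 by norm_num)
    rwa [Real.rpow_one] at this
  have hNx : (N : ℝ) ≤ x := hN2.trans (hpT.trans hx.1)
  have hx0 : 0 < x := by linarith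
  have e : SS N x = (zs 3).E x - GG N x + sawS N x - (zs 2).E N * (saw (x / N) : ℝ) := by
    rw [hyp (by exact_mod_cast hN) hNx]; ring
  have b1 : ‖(zs 3).E x‖ ≤ 2 * C3 * T ^ (3 / 4 : ℝ) := by
    refine (h3 x (hT.trans hx.1)).trans ?_
    have h4 : x ^ (3 / 5 : ℝ) ≤ (2 * T) ^ (3 / 5 : ℝ) :=
      Real.rpow_le_rpow hx0.le hx.2 (by norm_num)
    rw [Real.mul_rpow (by norm_num) hT0.le] at h4
    have h5 : (2 : ℝ) ^ (3 / 5 : ℝ) ≤ 2 := by
      have := Real.rpow_le_rpow_of_exponent_le (show (1 : ℝ) ≤ 2 by norm_num)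
        (show (3 / 5 : ℝ) ≤ 1 by norm_num)
      rwa [Real.rpow_one] at this
    have h6 : x ^ (3 / 5 : ℝ) ≤ 2 * T ^ (3 / 4 : ℝ) :=
      h4.trans (mul_le_mul h5 hp (by positivity) (by norm_num))
    calc C3 * x ^ (3 / 5 : ℝ) ≤ C3 * (2 * T ^ (3 / 4 : ℝ)) := by gcongr
      _ = _ := by ring
  have b2 : ‖GG N x‖ ≤ 4 * C2 * T ^ (3 / 4 : ℝ) := by
    have h4 : ‖GG N x‖ ≤ ∑ a ∈ Finset.Icc 1 ⌊x / N⌋₊, C2 * √x * (1 / √(a : ℝ)) := by
      refine (norm_sum_le _ _).trans (Finset.sum_le_sum fun a ha => ?_)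
      obtain ⟨ha1, ha2⟩ := Finset.mem_Icc.1 ha
      have ha0 : (0 : ℝ) < a := by exact_mod_cast ha1
      have ha3 : (a : ℝ) ≤ x / N := (Nat.le_floor_iff (by positivity)).1 ha2
      have ha4 : 1 ≤ x / a := by
        rw [le_div_iff₀ hN0] at ha3
        rw [le_div_iff₀ ha0]
        nlinarith
      refine (h2 _ ha4).trans (le_of_eq ?_)
      rw [Real.sqrt_div hx0.le]; ring
    rw [← Finset.mul_sum] at h4
    have h5 : √((⌊x / N⌋₊ : ℕ) : ℝ) ≤ √(x / N) := Real.sqrt_le_sqrt (Nat.floor_le (by positivity))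
    have h6 : √x * √(x / N) = x / √(N : ℝ) := by
      rw [Real.sqrt_div hx0.le, ← mul_div_assoc, Real.mul_self_sqrt hx0.le]
    have h7 : T ^ (1 / 4 : ℝ) ≤ √(N : ℝ) := by
      refine le_trans (le_of_eq ?_) (Real.sqrt_le_sqrt hN1)
      rw [Real.sqrt_eq_rpow, Real.sqrt_eq_rpow, ← Real.rpow_mul hT0.le]
      norm_num
    have h8 : x / √(N : ℝ) ≤ 2 * T ^ (3 / 4 : ℝ) := by
      have h9 : T ^ (3 / 4 : ℝ) * T ^ (1 / 4 : ℝ) = T := by
        rw [← Real.rpow_add hT0]; norm_num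
      rw [div_le_iff₀ (Real.sqrt_pos.2 hN0)]
      calc x ≤ 2 * (T ^ (3 / 4 : ℝ) * T ^ (1 / 4 : ℝ)) := by rw [h9]; exact hx.2
        _ ≤ 2 * (T ^ (3 / 4 : ℝ) * √(N : ℝ)) := by gcongr
        _ = _ := by ring
    calc ‖GG N x‖ ≤ C2 * √x * (2 * √(x / N)) := by
          refine h4.trans (mul_le_mul_of_nonneg_left ((rs2_sqrt _).trans ?_) (by positivity))
          linarith
      _ = 2 * C2 * (√x * √(x / N)) := by ring
      _ ≤ 2 * C2 * (2 * T ^ (3 / 4 : ℝ)) := by rw [h6]; gcongr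
      _ = _ := by ring
  have b3 : ‖sawS N x‖ ≤ 5 * T ^ (3 / 4 : ℝ) := by
    refine (sawS_le N x).trans ((sum_dv_le N).trans ?_)
    have h4 := Real.log_le_rpow_div hN0.le (show (0 : ℝ) < 1 / 4 by norm_num)
    have h5 : 1 ≤ (N : ℝ) ^ (1 / 4 : ℝ) := Real.one_le_rpow hN (by norm_num)
    have h6 : (N : ℝ) ^ (1 / 4 : ℝ) ≤ T ^ (3 / 20 : ℝ) := by
      refine (Real.rpow_le_rpow hN0.le hN2 (by norm_num)).trans (le_of_eq ?_)
      rw [← Real.rpow_mul hT0.le]; norm_num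
    have h7 : T ^ (3 / 5 : ℝ) * T ^ (3 / 20 : ℝ) = T ^ (3 / 4 : ℝ) := by
      rw [← Real.rpow_add hT0]; norm_num
    have h8 : 1 + Real.log N ≤ 5 * T ^ (3 / 20 : ℝ) := by linarith
    have h9 : 0 ≤ 1 + Real.log N := by have := Real.log_nonneg hN; linarith
    calc (N : ℝ) * (1 + Real.log N) ≤ T ^ (3 / 5 : ℝ) * (5 * T ^ (3 / 20 : ℝ)) :=
          mul_le_mul hN2 h8 h9 (by positivity)
      _ = _ := by rw [← h7]; ring
  have b4 : ‖(zs 2).E N * (saw (x / N) : ℝ)‖ ≤ C2 * T ^ (3 / 4 : ℝ) := by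
    rw [norm_mul, norm_real]
    have h4 : √(N : ℝ) ≤ T ^ (3 / 4 : ℝ) := by
      refine le_trans ?_ (hN2.trans hp)
      rw [Real.sqrt_le_left hN0.le]
      nlinarith
    have h5 : ‖saw (x / N)‖ ≤ 1 := (saw_le _).trans (by norm_num)
    calc _ ≤ C2 * √(N : ℝ) * 1 := mul_le_mul (h2 _ hN) h5 (norm_nonneg _) (by positivity)
      _ ≤ _ := by rw [mul_one]; gcongr
  rw [e]
  have t1 := norm_sub_le ((zs 3).E x - GG N x + sawS N x) ((zs 2).E N * (saw (x / N) : ℝ))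
  have t2 := norm_add_le ((zs 3).E x - GG N x) (sawS N x)
  have t3 := norm_sub_le ((zs 3).E x) (GG N x)
  linarith

theorem rs2_bm_sum {T : ℝ} {f : ℕ → ℝ → ℂ} (S : Finset ℕ) (h : ∀ a ∈ S, Bm (f a) T) :
    Bm (fun x => ∑ a ∈ S, f a x) T := by
  induction S using Finset.induction_on with
  | empty => simpa using Bm.of_cont (f := fun _ => 0) continuousOn_const
  | insert a S ha ih =>
    simp only [Finset.sum_insert ha]
    exact (h a (Finset.mem_insert_self _ _)).add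
      (ih fun b hb => h b (Finset.mem_insert_of_mem hb))

/- On `[T, 2 T]` the sum is `∑ a ∈ Icc 1 ⌊2 T / N⌋₊, (Mk 2 (max (x / a) N) - Mk 2 N)`; the floor is constant
to the right of `x`. -/
theorem SS_nice {N : ℕ} (hN : 1 ≤ N) {T : ℝ} (hT : 0 < T) : Nice (SS N) (SD N) T := by
  have hN0 : (0 : ℝ) < N := by exact_mod_cast hN
  have hMk : ∀ k, ContinuousOn (Mk k) (Ioi 0) := fun k x hx =>
    (Mk_der k hx).continuousAt.continuousWithinAt
  have hs : Icc T (2 * T) ⊆ Ioi 0 := fun x hx => hT.trans_le hx.1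
  have hsub : ∀ x ∈ Icc T (2 * T), Finset.Icc 1 ⌊x / N⌋₊ =
      (Finset.Icc 1 ⌊2 * T / N⌋₊).filter fun a : ℕ => (a : ℝ) * N ≤ x := by
    intro x hx
    have hx0 : 0 < x := hs hx
    ext a
    simp only [Finset.mem_Icc, Finset.mem_filter]
    rw [Nat.le_floor_iff (by positivity), Nat.le_floor_iff (by positivity), le_div_iff₀ hN0,
      le_div_iff₀ hN0]
    constructor
    · rintro ⟨h1, h2⟩
      exact ⟨⟨h1, h2.trans hx.2⟩, h2⟩
    · rintro ⟨⟨h1, -⟩, h2⟩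
      exact ⟨h1, h2⟩
  refine ⟨?_, fun x hx => ?_, ?_⟩
  · refine ContinuousOn.congr (f := fun x : ℝ => x * (AA N - (zs 2).E N / N) - Mk 2 N / 2 +
      ∑ a ∈ Finset.Icc 1 ⌊2 * T / N⌋₊, (Mk 2 (max (x / a) N) - Mk 2 N) - Mk 3 x) ?_ fun x hx => ?_
    · refine (((continuous_ofReal.continuousOn.mul continuousOn_const).sub continuousOn_const).add
        (continuousOn_finsetSum _ fun a _ => ContinuousOn.sub ?_ continuousOn_const)).sub
        ((hMk 3).mono hs)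
      exact (hMk 2).comp ((continuous_id.div_const _).max continuous_const).continuousOn
        fun x _ => hN0.trans_le (le_max_right _ _)
    · simp only [SS]
      rw [hsub x hx, Finset.sum_filter]
      congr 2
      refine Finset.sum_congr rfl fun a ha => ?_
      have ha0 : (0 : ℝ) < a := by exact_mod_cast (Finset.mem_Icc.1 ha).1
      split_ifs with h
      · rw [max_eq_left (by rw [le_div_iff₀ ha0]; linarith)]
      · rw [max_eq_right (by rw [div_le_iff₀ ha0]; linarith), sub_self]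
  · have hx0 : 0 < x := hT.trans hx.1
    have hd : HasDerivAt (fun y : ℝ => y * (AA N - (zs 2).E N / N) - Mk 2 N / 2 +
        ∑ a ∈ Finset.Icc 1 ⌊x / N⌋₊, (Mk 2 (y / a) - Mk 2 N) - Mk 3 y) (SD N x) x := by
      have h1 : HasDerivAt (fun y : ℝ => (y : ℂ) * (AA N - (zs 2).E N / N))
          (AA N - (zs 2).E N / N) x := by
        simpa using (ofRealCLM.hasDerivAt (x := x)).mul_const ((AA N : ℂ) - (zs 2).E N / N)
      have h2 : HasDerivAt (fun y : ℝ => ∑ a ∈ Finset.Icc 1 ⌊x / N⌋₊, (Mk 2 (y / a) - Mk 2 N))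
          (∑ a ∈ Finset.Icc 1 ⌊x / N⌋₊, Md 2 (x / a) / a) x := by
        refine HasDerivAt.fun_sum fun a ha => HasDerivAt.sub_const _ ?_
        have ha0 : (0 : ℝ) < a := by exact_mod_cast (Finset.mem_Icc.1 ha).1
        have h3 := (Mk_der 2 (div_pos hx0 ha0)).scomp x ((hasDerivAt_id x).div_const (a : ℝ))
        have e : (1 / (a : ℝ)) • Md 2 (x / a) = Md 2 (x / a) / a := by
          rw [real_smul]
          push_cast
          ring
        rw [e] at h3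
        exact h3
      exact ((h1.sub_const _).add h2).sub (Mk_der 3 hx0)
    refine hd.hasDerivWithinAt.congr_of_eventuallyEq ?_ rfl
    have hlt : x < ((⌊x / N⌋₊ : ℕ) + 1 : ℝ) * N := by
      rw [← div_lt_iff₀ hN0]; exact Nat.lt_floor_add_one _
    filter_upwards [Ioo_mem_nhdsGT hlt] with y hy
    have e : ⌊y / N⌋₊ = ⌊x / N⌋₊ := by
      rw [Nat.floor_eq_iff (div_pos (hx0.trans hy.1) hN0).le]
      exact ⟨(Nat.floor_le (by positivity)).trans (div_le_div_of_nonneg_right hy.1.le hN0.le),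
        (div_lt_iff₀ hN0).2 hy.2⟩
    simp only [SS, e]
  · have hlog : ContinuousOn (fun x : ℝ => ((Real.log x : ℝ) : ℂ)) (Ioi 0) :=
      continuous_ofReal.comp_continuousOn (Real.continuousOn_log.mono fun _ hx => ne_of_gt hx)
    have hd2 : ContinuousOn (Md 2) (Ioi 0) := by
      obtain ⟨a, b, h⟩ := Md_two
      exact ((continuousOn_const.mul hlog).add continuousOn_const).congr fun x hx => h x hx
    have hd3 : ContinuousOn (Md 3) (Ioi 0) := by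
      obtain ⟨a, b, c, h⟩ := Md_three
      exact (((continuousOn_const.mul (hlog.pow 2)).add (continuousOn_const.mul hlog)).add
        continuousOn_const).congr fun x hx => h x hx
    have hB : Bm (fun x : ℝ => (AA N - (zs 2).E N / N : ℂ) + ∑ a ∈ Finset.Icc 1 ⌊2 * T / N⌋₊,
        (if (a : ℝ) * N ≤ x then (1 : ℂ) else 0) * (Md 2 (x / a) / a) - Md 3 x) T := by
      refine ((Bm.of_cont continuousOn_const).add (rs2_bm_sum _ fun a ha => Bm.mul ?_ ?_)).sub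
        (bm_pos hT hd3)
      · refine ⟨(Measurable.ite (measurableSet_le measurable_const measurable_id) measurable_const
          measurable_const).aestronglyMeasurable, 1, fun x _ => ?_⟩
        split_ifs <;> simp
      · have ha0 : (0 : ℝ) < a := by exact_mod_cast (Finset.mem_Icc.1 ha).1
        exact bm_pos hT ((hd2.comp (continuous_id.div_const _).continuousOn
          fun x hx => div_pos hx ha0).div_const _)
    have he : ∀ x ∈ Icc T (2 * T), SD N x = (AA N - (zs 2).E N / N : ℂ) +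
        ∑ a ∈ Finset.Icc 1 ⌊2 * T / N⌋₊,
          (if (a : ℝ) * N ≤ x then (1 : ℂ) else 0) * (Md 2 (x / a) / a) - Md 3 x := by
      intro x hx
      simp only [SD]
      rw [hsub x hx, Finset.sum_filter]
      simp only [ite_mul, one_mul, zero_mul]
    obtain ⟨K, hK⟩ := hB.bdd
    refine ⟨hB.meas.congr ?_, K, fun x hx => by rw [he x hx]; exact hK x hx⟩
    filter_upwards [ae_restrict_mem measurableSet_Ioc] with x hx
    exact (he x (Ioc_subset_Icc_self hx)).symm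

end Pool.Agent.Lib.MP_2a1a00_nt
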