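import Pool.Agent.Lib.MP_2a1a00_nt.R.S1
import Pool.Agent.Lib.MP_2a1a00_nt.R.S2

/-! The smooth remainder. -/

namespace Pool.Agent.Lib.MP_2a1a00_nt

open Complex MeasureTheory Set

theorem rs3_log {y : ℝ} (hy : 0 < y) :
    HasDerivAt (fun y : ℝ => ((Real.log y : ℝ) : ℂ)) (y : ℂ)⁻¹ y := by
  simpa using (Real.hasDerivAt_log hy.ne').ofReal_comp

theorem rs3_id (y : ℝ) : HasDerivAt (fun y : ℝ => (y : ℂ)) 1 y := by
  simpa using (hasDerivAt_id y).ofReal_comp

/- The difference of two consecutive terms is the integral of `-E u / u ^ 2`, up to sign, over `n..n + 1`;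
`E2_le`, `rate`. -/
theorem AA_asym {a b : ℂ} (h : ∀ x : ℝ, 0 < x → Md 2 x = a * (Real.log x : ℝ) + b) :
    ∃ (c : ℂ) (C : ℝ), 0 < C ∧ ∀ N : ℕ, 1 ≤ N → ‖AA N - (zs 2).E N / N -
      (a * (Real.log N : ℝ) ^ 2 / 2 + b * (Real.log N : ℝ) + c)‖ ≤ C * (N : ℝ) ^ (-1 / 2 : ℝ) := by
  obtain ⟨C, hC, hE⟩ := E2_le
  obtain ⟨c, C', hC', hr⟩ := rate (θ := 1 / 2) (by norm_num) (C := C)
    (u := fun N => AA N - (zs 2).E N / N - (a * (Real.log N : ℝ) ^ 2 / 2 + b * (Real.log N : ℝ)))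
    fun n hn => by
      have hn1 : (1 : ℝ) ≤ n := by exact_mod_cast hn
      have hd : ∀ y : ℝ, (n : ℝ) ≤ y → HasDerivAt (fun y : ℝ =>
          -((∑ m ∈ Finset.Icc 1 n, (zs 2).f m - Mk 2 y) / y) -
            (a * (Real.log y : ℝ) ^ 2 / 2 + b * (Real.log y : ℝ)))
          ((∑ m ∈ Finset.Icc 1 n, (zs 2).f m - Mk 2 y) / (y : ℂ) ^ 2) y := fun y hy => by
        have h0 : 0 < y := by linarith
        have h1 : (y : ℂ) ≠ 0 := ofReal_ne_zero.2 h0.ne'
        refine ((((Mk_der 2 h0).const_sub _).div (rs3_id y) h1).neg.sub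
          (((((rs3_log h0).pow 2).const_mul a).div_const 2).add
            ((rs3_log h0).const_mul b))).congr_deriv ?_
        rw [h y h0]
        field_simp
        ring
      have h2 := norm_image_sub_le_of_norm_deriv_right_le_segment (a := (n : ℝ)) (b := n + 1)
        (C := C * (n : ℝ) ^ (-1 - 1 / 2 : ℝ))
        (fun y hy => (hd y hy.1).continuousAt.continuousWithinAt)
        (fun y hy => (hd y hy.1).hasDerivWithinAt) (fun y hy => by
          have h0 : 0 < y := by linarith [hy.1]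
          have h3 : ⌊y⌋₊ = n := (Nat.floor_eq_iff h0.le).2 hy
          have h4 := hE y (hn1.trans hy.1)
          rw [E_eq, h3] at h4
          have h5 : √y / y ^ 2 = y ^ (-1 - 1 / 2 : ℝ) := by
            rw [Real.sqrt_eq_rpow, ← Real.rpow_two, ← Real.rpow_sub h0]
            norm_num
          rw [norm_div, norm_pow, norm_real, Real.norm_of_nonneg h0.le]
          refine (div_le_div_of_nonneg_right h4 (by positivity)).trans ?_
          rw [mul_div_assoc, h5]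
          exact mul_le_mul_of_nonneg_left
            (Real.rpow_le_rpow_of_nonpos (by linarith) hy.1 (by norm_num)) hC.le)
        (n + 1) ⟨by linarith, le_rfl⟩
      rw [add_sub_cancel_left, mul_one] at h2
      refine le_of_eq_of_le (congrArg norm ?_) h2
      have h3 : ((n : ℂ) + 1) ≠ 0 := by exact_mod_cast Nat.succ_ne_zero n
      simp only [E_eq, Nat.floor_natCast, AA, Finset.sum_Icc_succ_top (Nat.le_add_left 1 n), zs_f2]
      push_cast
      ring
  refine ⟨c, C', hC', fun N hN => ?_⟩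
  have h1 := hr N hN
  rw [← neg_div] at h1
  refine le_of_eq_of_le (congrArg norm ?_) h1
  ring

/- `AA_asym`, `harm_one`, `harm_two` with `z = x / N`, `log x = log N + log z`. -/
theorem SD_poly : ∃ (a b c : ℂ) (C : ℝ), 0 < C ∧ ∀ (N : ℕ) (x : ℝ), 1 ≤ N → (N : ℝ) ≤ x →
    ‖SD N x - (a * (Real.log x : ℝ) ^ 2 + b * (Real.log x : ℝ) + c)‖ ≤
      C * ((N : ℝ) ^ (-1 / 2 : ℝ) + (1 + Real.log x) * (x / N) ^ (-3 / 4 : ℝ)) := by
  obtain ⟨α, β, h2⟩ := Md_two
  obtain ⟨a, b, c, h3⟩ := Md_three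
  obtain ⟨c0, C0, hC0, k0⟩ := AA_asym h2
  obtain ⟨c1, C1, hC1, k1⟩ := harm_one
  obtain ⟨c2, C2, hC2, k2⟩ := harm_two
  refine ⟨α / 2 - a, α * c1 + β - b, c0 + β * c1 - α * c2 - c,
    C0 + (‖α‖ + ‖β‖) * C1 + ‖α‖ * C2, by positivity, fun N x hN hx => ?_⟩
  have hN1 : (1 : ℝ) ≤ N := by exact_mod_cast hN
  have hx0 : 0 < x := by linarith
  have hz : 1 ≤ x / N := (one_le_div (by linarith)).2 hx
  have hl : 0 ≤ Real.log x := Real.log_nonneg (hN1.trans hx)
  have e0 := k0 N hN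
  have e1 := k1 _ hz
  have e2 := k2 _ hz
  rw [Real.log_div hx0.ne' (by linarith)] at e1 e2
  have hs : ∑ m ∈ Finset.Icc 1 ⌊x / N⌋₊, Md 2 (x / m) / m =
      (α * (Real.log x : ℝ) + β) * (∑ m ∈ Finset.Icc 1 ⌊x / N⌋₊, (1 : ℝ) / m : ℝ) -
        α * (∑ m ∈ Finset.Icc 1 ⌊x / N⌋₊, Real.log m / m : ℝ) := by
    rw [ofReal_sum, ofReal_sum, Finset.mul_sum, Finset.mul_sum, ← Finset.sum_sub_distrib]
    refine Finset.sum_congr rfl fun m hm => ?_
    have hm0 : (0 : ℝ) < m := by exact_mod_cast (Finset.mem_Icc.1 hm).1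
    rw [h2 _ (div_pos hx0 hm0), Real.log_div hx0.ne' hm0.ne', ofReal_sub, ofReal_div, ofReal_div,
      ofReal_natCast, ofReal_one]
    ring
  rw [SD, hs, h3 x hx0]
  generalize (∑ m ∈ Finset.Icc 1 ⌊x / N⌋₊, (1 : ℝ) / m : ℝ) = H1 at e1
  generalize (∑ m ∈ Finset.Icc 1 ⌊x / N⌋₊, Real.log m / m : ℝ) = H2 at e2
  generalize (AA N : ℂ) - (zs 2).E N / N = A at e0
  generalize Real.log x = l at e1 e2 hl
  generalize Real.log N = n at e0 e1 e2
  have hp : 0 ≤ (N : ℝ) ^ (-1 / 2 : ℝ) := by positivity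
  have hq : 0 ≤ (x / N) ^ (-3 / 4 : ℝ) := by positivity
  generalize (N : ℝ) ^ (-1 / 2 : ℝ) = p at e0 hp
  generalize (x / N) ^ (-3 / 4 : ℝ) = q at e1 e2 hq
  have e : A + ((α * l + β) * H1 - α * H2) - (a * l ^ 2 + b * l + c) -
      ((α / 2 - a) * l ^ 2 + (α * c1 + β - b) * l + (c0 + β * c1 - α * c2 - c)) =
      (A - (α * n ^ 2 / 2 + β * n + c0)) + ((α * l + β) * (H1 - (l - n) - c1 : ℝ) -
        α * (H2 - (l - n) ^ 2 / 2 - c2 : ℝ)) := by
    push_cast
    ring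
  have f1 : ‖α * l + β‖ ≤ (‖α‖ + ‖β‖) * (1 + l) := by
    refine (norm_add_le _ _).trans ?_
    rw [norm_mul, norm_real, Real.norm_of_nonneg hl]
    nlinarith [norm_nonneg α, mul_nonneg (norm_nonneg β) hl]
  have f2 := mul_le_mul f1 e1 (abs_nonneg _) (by positivity)
  have f3 := mul_le_mul_of_nonneg_left e2 (norm_nonneg α)
  rw [e]
  refine (norm_add_le _ _).trans ((add_le_add e0 (norm_sub_le _ _)).trans ?_)
  rw [norm_mul, norm_mul α, norm_real, norm_real, Real.norm_eq_abs, Real.norm_eq_abs]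
  have g1 : 0 ≤ C0 * ((1 + l) * q) := by positivity
  have g2 : 0 ≤ (‖α‖ + ‖β‖) * C1 * p := by positivity
  have g3 : 0 ≤ ‖α‖ * C2 * p := by positivity
  have g4 : 0 ≤ ‖α‖ * C2 * (l * q) := by positivity
  nlinarith

theorem rs3_zero {A B C : ℂ}
    (h : Filter.Tendsto (fun l : ℝ => A * l ^ 2 + B * l + C) Filter.atTop (nhds 0)) :
    A = 0 ∧ B = 0 ∧ C = 0 := by
  have h1 := h.comp (Filter.tendsto_atTop_add_const_right _ (1 : ℝ) Filter.tendsto_id)
  have h2 := h.comp (Filter.tendsto_atTop_add_const_right _ (2 : ℝ) Filter.tendsto_id)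
  have hA : 2 * A = 0 - 2 * 0 + 0 :=
    tendsto_nhds_unique tendsto_const_nhds (((h2.sub (h1.const_mul 2)).add h).congr fun l => by
      simp only [Function.comp_apply, id]
      push_cast
      ring)
  have hA' : A = 0 := by linear_combination hA / 2
  have hB : B = 0 - 0 :=
    tendsto_nhds_unique tendsto_const_nhds ((h1.sub h).congr fun l => by
      simp only [Function.comp_apply, id, hA']
      push_cast
      ring)
  rw [sub_zero] at hB
  exact ⟨hA', hB, tendsto_nhds_unique tendsto_const_nhds (h.congr fun l => by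
    rw [hA', hB]
    ring)⟩

theorem rs3_near : ∃ (a b c : ℂ) (C : ℝ), 0 < C ∧ ∀ (N : ℕ) (T : ℝ), 1 ≤ T → √T ≤ N →
    (N : ℝ) ≤ T ^ (3 / 5 : ℝ) → ∀ x ∈ Icc T (2 * T),
      ‖SD N x - (a * (Real.log x : ℝ) ^ 2 + b * (Real.log x : ℝ) + c)‖ ≤
        C * T ^ (-1 / 4 : ℝ) * (1 + Real.log T) := by
  obtain ⟨a, b, c, C, hC, h⟩ := SD_poly
  refine ⟨a, b, c, C * 3, by positivity, fun N T hT h1 h2 x hx => ?_⟩
  have hT0 : 0 < T := by linarith
  have hs : 1 ≤ √T := Real.one_le_sqrt.2 hT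
  have hN : (1 : ℝ) ≤ N := hs.trans h1
  have h3 : T ^ (3 / 5 : ℝ) ≤ T := Real.rpow_le_self_of_one_le hT (by norm_num)
  have h4 : (N : ℝ) ^ (-1 / 2 : ℝ) ≤ T ^ (-1 / 4 : ℝ) := by
    refine (Real.rpow_le_rpow_of_nonpos (by linarith) h1 (by norm_num)).trans_eq ?_
    rw [Real.sqrt_eq_rpow, ← Real.rpow_mul hT0.le]
    norm_num
  have h5 : T ^ (2 / 5 : ℝ) ≤ x / N := by
    rw [le_div_iff₀ (by linarith)]
    refine (mul_le_mul_of_nonneg_left h2 (by positivity)).trans ?_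
    rw [← Real.rpow_add hT0]
    norm_num
    exact hx.1
  have h6 : (x / N) ^ (-3 / 4 : ℝ) ≤ T ^ (-1 / 4 : ℝ) := by
    refine (Real.rpow_le_rpow_of_nonpos (by positivity) h5 (by norm_num)).trans ?_
    rw [← Real.rpow_mul hT0.le]
    exact Real.rpow_le_rpow_of_exponent_le hT (by norm_num)
  have hl := Real.log_nonneg hT
  have h7 : 1 + Real.log x ≤ 2 * (1 + Real.log T) := by
    have := Real.log_le_log (hT0.trans_le hx.1) hx.2
    rw [Real.log_mul two_ne_zero hT0.ne'] at this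
    linarith [Real.log_two_lt_d9]
  have hx0 : 0 < x := hT0.trans_le hx.1
  have h8 := mul_le_mul h7 h6 (by positivity) (by positivity)
  have h9 : 0 ≤ T ^ (-1 / 4 : ℝ) * Real.log T := by positivity
  refine (h N x (by exact_mod_cast hN) (by linarith [hx.1])).trans ?_
  rw [mul_assoc, mul_assoc]
  exact mul_le_mul_of_nonneg_left (by linarith) hC.le

/- The polynomial of `SD_poly` vanishes: take `N = ⌈√T⌉₊`, a primitive `Q x = x (a log x ^ 2 + b' log x + c')`,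
`norm_image_sub_le_of_norm_deriv_right_le_segment` for `SS N - Q` and `SS_sup`; so `(Q (2 T) - Q T) / T` tends
to zero. -/
theorem SD_le : ∃ C : ℝ, 0 < C ∧ ∀ (N : ℕ) (T : ℝ), 1 ≤ T → √T ≤ N → (N : ℝ) ≤ T ^ (3 / 5 : ℝ) →
    ∀ x ∈ Icc T (2 * T), ‖SD N x‖ ≤ C * T ^ (-1 / 4 : ℝ) * (1 + Real.log T) := by
  obtain ⟨a, b, c, C, hC, h⟩ := rs3_near
  obtain ⟨C', hC', hS⟩ := SS_sup
  obtain ⟨K, hK, hlog⟩ := log_le_rpow (ε := 1 / 8) (by norm_num)
  have hQ : ∀ y : ℝ, 0 < y → HasDerivAt (fun y : ℝ => (y : ℂ) * (a * (Real.log y : ℝ) ^ 2 +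
      (b - 2 * a) * (Real.log y : ℝ) + (c - b + 2 * a)))
      (a * (Real.log y : ℝ) ^ 2 + b * (Real.log y : ℝ) + c) y := fun y h0 => by
    have h1 : (y : ℂ) ≠ 0 := ofReal_ne_zero.2 h0.ne'
    refine ((rs3_id y).mul ((((((rs3_log h0).pow 2).const_mul a)).add
      ((rs3_log h0).const_mul (b - 2 * a))).add_const (c - b + 2 * a))).congr_deriv ?_
    simp only [Pi.add_apply, Pi.pow_apply]
    field_simp
    ring
  have key : Filter.Tendsto (fun T : ℝ => a / 2 * (Real.log T : ℝ) ^ 2 +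
      ((b - 2 * a) / 2 + a * (4 * (Real.log 2 : ℝ) - 3 * (Real.log (3 / 2) : ℝ))) *
        (Real.log T : ℝ) + ((c - b + 2 * a) / 2 +
        (b - 2 * a) * (2 * (Real.log 2 : ℝ) - 3 / 2 * (Real.log (3 / 2) : ℝ)) +
        a * (2 * (Real.log 2 : ℝ) ^ 2 - 3 / 2 * (Real.log (3 / 2) : ℝ) ^ 2))) Filter.atTop
      (nhds 0) := by
    have h0 := (tendsto_rpow_neg_atTop (y := 1 / 8) (by norm_num)).const_mul (2 * C' + C * K)
    rw [mul_zero] at h0
    refine squeeze_zero_norm' ?_ h0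
    filter_upwards [Filter.eventually_ge_atTop (1 : ℝ),
      (tendsto_rpow_atTop (y := 1 / 10) (by norm_num)).eventually_ge_atTop 2] with T hT h2
    have hT0 : 0 < T := by linarith
    have hs : 1 ≤ √T := Real.one_le_sqrt.2 hT
    have n1 : √T ≤ (⌈√T⌉₊ : ℕ) := Nat.le_ceil _
    have n2 : ((⌈√T⌉₊ : ℕ) : ℝ) ≤ T ^ (3 / 5 : ℝ) := by
      have e : T ^ (3 / 5 : ℝ) = T ^ (1 / 10 : ℝ) * √T := by
        rw [Real.sqrt_eq_rpow, ← Real.rpow_add hT0]
        norm_num
      have := Nat.ceil_lt_add_one (zero_le_one.trans hs)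
      rw [e]
      nlinarith
    generalize ⌈√T⌉₊ = N at n1 n2
    have hN := SS_nice (N := N) (by exact_mod_cast hs.trans n1) hT0
    have sub : Icc (3 / 2 * T) (2 * T) ⊆ Icc T (2 * T) := Icc_subset_Icc_left (by linarith)
    have m := norm_image_sub_le_of_norm_deriv_right_le_segment (a := 3 / 2 * T) (b := 2 * T)
      ((hN.cont.mono sub).sub fun y hy =>
        (hQ y (by linarith [hy.1])).continuousAt.continuousWithinAt)
      (fun y hy => (hN.der y ⟨by linarith [hy.1], hy.2⟩).Ici_of_Ioi.sub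
        (hQ y (by linarith [hy.1])).hasDerivWithinAt)
      (fun y hy => h N T hT n1 n2 y (sub (Ico_subset_Icc_self hy))) (2 * T) ⟨by linarith, le_rfl⟩
    have s1 := hS N T hT n1 n2 (2 * T) ⟨by linarith, le_rfl⟩
    have s2 := hS N T hT n1 n2 (3 / 2 * T) ⟨by linarith, by linarith⟩
    simp only [Pi.sub_apply, Real.log_mul two_ne_zero hT0.ne',
      Real.log_mul (by norm_num : (3 / 2 : ℝ) ≠ 0) hT0.ne'] at m
    have t1 : T ^ (3 / 4 : ℝ) ≤ T ^ (-(1 / 8) : ℝ) * T := by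
      rw [← Real.rpow_add_one hT0.ne']
      exact Real.rpow_le_rpow_of_exponent_le hT (by norm_num)
    have t2 : T ^ (-1 / 4 : ℝ) * (1 + Real.log T) ≤ K * T ^ (-(1 / 8) : ℝ) := by
      refine (mul_le_mul_of_nonneg_left (hlog T hT) (by positivity)).trans_eq ?_
      rw [mul_left_comm, ← Real.rpow_add hT0]
      norm_num
    refine le_of_mul_le_mul_right ?_ hT0
    have t3 := mul_le_mul_of_nonneg_left t1 hC'.le
    have t4 := mul_le_mul_of_nonneg_left t2 (mul_pos hC hT0).le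
    have t5 : 0 ≤ C * T * (K * T ^ (-(1 / 8) : ℝ)) := by positivity
    have t6 := (norm_sub_le _ _).trans (add_le_add ((norm_sub_le _ _).trans (add_le_add s1 s2)) m)
    refine le_trans (le_of_eq ?_) (t6.trans (by nlinarith))
    have t7 : ∀ w : ℂ, ‖w‖ * T = ‖w * T‖ := fun w => by
      rw [norm_mul, norm_real, Real.norm_of_nonneg hT0.le]
    rw [t7]
    congr 1
    simp only [ofReal_add, ofReal_mul, ofReal_div, ofReal_ofNat]
    ring
  obtain ⟨z1, z2, z3⟩ := rs3_zero ((key.comp Real.tendsto_exp_atTop).congr fun l => by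
    simp only [Function.comp_apply, Real.log_exp]
    rfl)
  have ha : a = 0 := by linear_combination 2 * z1
  rw [ha] at z2 z3
  have hb : b = 0 := by linear_combination 2 * z2
  rw [hb] at z3
  have hc : c = 0 := by linear_combination 2 * z3
  refine ⟨C, hC, fun N T hT h1 h2 x hx => ?_⟩
  simpa only [ha, hb, hc, zero_mul, add_zero, sub_zero] using h N T hT h1 h2 x hx

end Pool.Agent.Lib.MP_2a1a00_nt
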