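import Pool.Agent.Lib.MP_2a1a00_nt.R.B2
import Pool.Agent.Lib.MP_2a1a00_nt.R.S3
import Pool.Agent.Lib.MP_2a1a00_nt.R.L2

/-! One block of frequencies. -/

namespace Pool.Agent.Lib.MP_2a1a00_nt

open Complex MeasureTheory Set

variable {P : Vo}

theorem rb3_pow {x : ℝ} (hx : 0 ≤ x) (d : ℝ) (n : ℕ) {c : ℝ} (h : c = d * n) :
    x ^ c = (x ^ d) ^ n := by
  rw [h, Real.rpow_mul_natCast hx]

theorem rb3_u {a β l L : ℝ} (_ha : 0 ≤ a) (hβ : 0 ≤ β) (hβ1 : β ≤ 1) (hl : 1 ≤ l) (hL : 1 ≤ L)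
    {n i k : ℕ} (hn : 1 ≤ n) (hi : i ≤ 2) (hk : k ≤ 3) :
    a ^ 6 * β ^ n * (L ^ i * l ^ k) ≤ a ^ 6 * β * (L ^ 2 * l ^ 3) := by
  have h1 : β ^ n ≤ β := pow_le_of_le_one hβ hβ1 (by omega)
  have h2 : L ^ i ≤ L ^ 2 := pow_le_pow_right₀ hL hi
  have h3 : l ^ k ≤ l ^ 3 := pow_le_pow_right₀ hl hk
  have : 0 ≤ L := by linarith
  have : 0 ≤ l := by linarith
  gcongr

theorem rb3_one {a b β l L N : ℝ} (ha : 0 < a) (hb : 0 < b) (hβ : 0 ≤ β) (hβ1 : β ≤ 1)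
    (hbβ : b * β = 1) (hL : 0 < L) (hN : L * a ^ 2 * b ^ 8 ≤ N) :
    a ^ 4 * (a ^ 4 / N) * b ^ 4 * (l ^ 2) ^ 2 ≤ a ^ 6 * β * ((l ^ 2) ^ 2 / L) := by
  have h1 : a ^ 4 / N ≤ a ^ 4 / (L * a ^ 2 * b ^ 8) :=
    div_le_div_of_nonneg_left (by positivity) (by positivity) hN
  have h2 : β ^ 4 ≤ β := pow_le_of_le_one hβ hβ1 (by omega)
  have h3 : β = b⁻¹ := eq_inv_of_mul_eq_one_right hbβ
  calc a ^ 4 * (a ^ 4 / N) * b ^ 4 * (l ^ 2) ^ 2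
      ≤ a ^ 4 * (a ^ 4 / (L * a ^ 2 * b ^ 8)) * b ^ 4 * (l ^ 2) ^ 2 := by gcongr
    _ = a ^ 6 * β ^ 4 * ((l ^ 2) ^ 2 / L) := by rw [h3]; field_simp
    _ ≤ _ := by gcongr

theorem rb3_saw {a b l L N C g : ℝ} (ha : 0 < a) (hb : 1 ≤ b) (hL : 1 ≤ L) (hl : 1 ≤ l) (hC : 0 < C)
    (hN : L * a ^ 2 * b ^ 8 ≤ N) (hN' : N ≤ 2 * (L * a ^ 2 * b ^ 8)) (hg0 : 0 ≤ g) (hg : g ≤ l ^ 2) :
    C * (a ^ 4 + N ^ 2) * (N * (1 + g) ^ 3) ≤ (12 * (C + 1) * (L ^ 2 * a ^ 3 * b ^ 12 * l ^ 3)) ^ 2 := by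
  have hb0 : 0 < b := by linarith
  have hL0 : 0 < L := by linarith
  have h1 : a ^ 2 ≤ N := by
    refine le_trans ?_ hN
    calc a ^ 2 = 1 * a ^ 2 * 1 := by ring
      _ ≤ L * a ^ 2 * b ^ 8 := by gcongr; exact one_le_pow₀ hb
  have hN0 : 0 < N := lt_of_lt_of_le (by positivity) h1
  have h2 : a ^ 4 + N ^ 2 ≤ 2 * N ^ 2 := by
    have := pow_le_pow_left₀ (by positivity) h1 2
    linarith [show (a ^ 2) ^ 2 = a ^ 4 by ring]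
  have h3 : 1 + g ≤ 2 * l ^ 2 := by linarith [one_le_pow₀ (n := 2) hl]
  have h4 : 128 * C ≤ 144 * (C + 1) ^ 2 := by nlinarith
  have h5 : L ^ 3 ≤ L ^ 4 := pow_le_pow_right₀ hL (by norm_num)
  calc C * (a ^ 4 + N ^ 2) * (N * (1 + g) ^ 3)
      ≤ C * (2 * N ^ 2) * (N * (2 * l ^ 2) ^ 3) := by gcongr
    _ ≤ C * (2 * (2 * (L * a ^ 2 * b ^ 8)) ^ 2) * (2 * (L * a ^ 2 * b ^ 8) * (2 * l ^ 2) ^ 3) := by
      gcongr
    _ = 128 * C * (L ^ 3 * (a ^ 6 * b ^ 24 * l ^ 6)) := by ring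
    _ ≤ 144 * (C + 1) ^ 2 * (L ^ 4 * (a ^ 6 * b ^ 24 * l ^ 6)) := by gcongr
    _ = _ := by ring

theorem rb3_split {H : ℝ → ℂ} (hH : ContinuousOn H (Ioi 0)) {N : ℕ} (hN : 1 ≤ N) {T y : ℝ}
    (hT : 0 < T) (hNT : (N : ℝ) ≤ T) (hy : y ∈ Icc T (2 * T)) (z : ℂ) :
    ‖(∫ x in T..y, H x * (zs 3).E x) - z‖ ≤ ‖(∫ x in T..y, H x * GG N x) - z‖ +
      nm H T * nm (sawS N) T + ‖∫ x in T..y, H x * SS N x‖ +
      nm H T * (‖(zs 2).E N‖ * (1 / 2) * √T) := by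
  have hb := bm_pos hT hH
  have hc : Bm (fun x => (zs 2).E N * ((saw (x / N) : ℝ) : ℂ)) T :=
    (Bm.of_cont continuousOn_const).mul (bm_saw N T)
  have i1 := (GG_int hH hN hT hy.1).1
  have i2 := (hb.mul (bm_sawS N T)).int hy
  have i3 := (hb.mul (SS_nice hN hT).bm0).int hy
  have i4 := (hb.mul hc).int hy
  have h1 : ∫ x in T..y, H x * (zs 3).E x = ∫ x in T..y, (H x * GG N x - H x * sawS N x +
      H x * SS N x + H x * ((zs 2).E N * ((saw (x / N) : ℝ) : ℂ))) := by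
    refine intervalIntegral.integral_congr fun x hx => ?_
    rw [uIcc_of_le hy.1] at hx
    simp only [hyp hN (hNT.trans hx.1)]
    ring
  rw [h1, intervalIntegral.integral_add ((i1.sub i2).add i3) i4,
    intervalIntegral.integral_add (i1.sub i2) i3, intervalIntegral.integral_sub i1 i2]
  have h2 := cs hT.le hb (bm_sawS N T) hy
  have h3 := cs hT.le hb hc hy
  have h4 := mul_le_mul_of_nonneg_left (nm_sup hT.le hc (K := ‖(zs 2).E N‖ * (1 / 2)) fun x _ => by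
    rw [norm_mul, norm_real]
    exact mul_le_mul_of_nonneg_left (saw_le _) (norm_nonneg _)) (nm_nonneg H T)
  rw [show ∀ a b c d : ℂ, a - b + c + d - z = a - z - b + c + d from fun _ _ _ _ => by ring]
  refine (norm_add_le _ _).trans (add_le_add ((norm_add_le _ _).trans
    (add_le_add ((norm_sub_le _ _).trans (add_le_add le_rfl h2)) le_rfl)) (h3.trans h4))

/- `hyp`, `block_G`, `cs`, `HH_nm`, `sawS_sq`, `Nice.parts'`, `HH_prim`, `SS_sup`, `SD_le`, `E2_le`. -/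
theorem block (hP : Good P) : ∃ C : ℝ, 0 < C ∧ ∀ (j N : ℕ) (L T y : ℝ), 1 ≤ L → 3 ≤ T →
    (2 ^ j : ℝ) ≤ T ^ (2 / 5 : ℝ) → L * √T * (2 ^ j : ℝ) ^ (1 / 8 : ℝ) ≤ N →
    (N : ℝ) ≤ 2 * (L * √T * (2 ^ j : ℝ) ^ (1 / 8 : ℝ)) → (N : ℝ) ≤ T ^ (3 / 5 : ℝ) →
    y ∈ Icc T (2 * T) →
    ‖(∫ x in T..y, HH P (2 ^ j / 2) (2 ^ j) x * (zs 3).E x) - ((1 / (6 * Real.pi ^ 2) *
      (y ^ (3 / 2 : ℝ) - T ^ (3 / 2 : ℝ)) * dB j (T / N) : ℝ) : ℂ)‖ ≤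
      C * T ^ (3 / 2 : ℝ) * (2 ^ j : ℝ) ^ (-1 / 64 : ℝ) *
        (Real.log T ^ 2 / L + L ^ 2 * Real.log T ^ (3 / 2 : ℝ)) := by
  obtain ⟨C1, hC1, h1⟩ := block_G hP
  obtain ⟨C2, hC2, h2⟩ := HH_nm hP
  obtain ⟨C3, hC3, h3⟩ := sawS_sq
  obtain ⟨C4, hC4, h4⟩ := HH_prim hP
  obtain ⟨C5, hC5, h5⟩ := SS_sup
  obtain ⟨C6, hC6, h6⟩ := SD_le
  obtain ⟨C7, hC7, h7⟩ := E2_le
  refine ⟨C1 + 12 * C2 * (C3 + 1) + (C5 + 2 * C6) * C4 + C2 * C7, by positivity,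
    fun j N L T y hL hT hj hN hN' hNT hy => ?_⟩
  have hT1 : 1 ≤ T := by linarith
  have hT0 : 0 < T := by linarith
  have hL0 : 0 < L := by linarith
  have hm1 : (1 : ℝ) ≤ 2 ^ j := one_le_pow₀ one_le_two
  have hm0 : (0 : ℝ) < 2 ^ j := by positivity
  have hle : ∀ c : ℝ, c ≤ 1 → T ^ c ≤ T := fun c hc =>
    (Real.rpow_le_rpow_of_exponent_le hT1 hc).trans_eq (Real.rpow_one T)
  have hNT' : (N : ℝ) ≤ T := hNT.trans (hle _ (by norm_num))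
  have hsN : √T ≤ N := by
    refine le_trans ?_ hN
    calc √T = 1 * √T * 1 := by ring
      _ ≤ L * √T * (2 ^ j : ℝ) ^ (1 / 8 : ℝ) := by
        gcongr
        exact Real.one_le_rpow hm1 (by norm_num)
  have hN1' : (1 : ℝ) ≤ N := (Real.one_le_sqrt.2 hT1).trans hsN
  have hN1 : 1 ≤ N := by exact_mod_cast hN1'
  have hM1 : 1 ≤ 2 ^ j := Nat.one_le_two_pow
  have hMc : ((2 ^ j : ℕ) : ℝ) = 2 ^ j := by push_cast; rfl
  have hlog : 1 ≤ Real.log T := by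
    rw [Real.le_log_iff_exp_le hT0]
    exact Real.exp_one_lt_three.le.trans hT
  have k0 := rb3_split (HH_cont P (2 ^ j / 2) (2 ^ j)) hN1 hT0 hNT' hy ((1 / (6 * Real.pi ^ 2) *
      (y ^ (3 / 2 : ℝ) - T ^ (3 / 2 : ℝ)) * dB j (T / N) : ℝ) : ℂ)
  have k1 := h1 j N T y hT hj hN1 hNT hy
  have k2 := h2 (2 ^ j) T hM1 (by rw [hMc]; exact hj.trans (hle _ (by norm_num)))
  have k3 := h3 N T hN1 hT0
  have k4 := (SS_nice hN1 hT0).parts' hT0 (HH_cont P (2 ^ j / 2) (2 ^ j)) (h5 N T hT1 hsN hNT)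
    (h6 N T hT1 hsN hNT) (h4 (2 ^ j) T hM1 hT1) hy
  have k7 := h7 N hN1'
  have klog : Real.log N ≤ Real.log T := Real.log_le_log (by linarith) hNT'
  have klog0 : 0 ≤ Real.log N := Real.log_nonneg hN1'
  rw [hMc] at k2 k4
  generalize ‖(∫ x in T..y, HH P (2 ^ j / 2) (2 ^ j) x * (zs 3).E x) - _‖ = X0 at k0 ⊢
  generalize ‖(∫ x in T..y, HH P (2 ^ j / 2) (2 ^ j) x * GG N x) - _‖ = X1 at k0 k1
  generalize ‖∫ x in T..y, HH P (2 ^ j / 2) (2 ^ j) x * SS N x‖ = X4 at k0 k4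
  generalize (2 ^ j : ℝ) = m at *
  obtain ⟨a, ha⟩ : ∃ a, a = T ^ (1 / 4 : ℝ) := ⟨_, rfl⟩
  obtain ⟨b, hb⟩ : ∃ b, b = m ^ (1 / 64 : ℝ) := ⟨_, rfl⟩
  obtain ⟨β, hβ⟩ : ∃ β, β = m ^ (-1 / 64 : ℝ) := ⟨_, rfl⟩
  obtain ⟨l, hl⟩ : ∃ l, l = Real.log T ^ (1 / 2 : ℝ) := ⟨_, rfl⟩
  have ha0 : 0 < a := by rw [ha]; positivity
  have hb1 : 1 ≤ b := by rw [hb]; exact Real.one_le_rpow hm1 (by norm_num)
  have hβ0 : 0 ≤ β := by rw [hβ]; positivity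
  have hβ1 : β ≤ 1 := by rw [hβ]; exact Real.rpow_le_one_of_one_le_of_nonpos hm1 (by norm_num)
  have hbβ : b * β = 1 := by rw [hb, hβ, ← Real.rpow_add hm0]; norm_num
  have hl1 : 1 ≤ l := by rw [hl]; exact Real.one_le_rpow hlog (by norm_num)
  have eT : ∀ (n : ℕ) {c : ℝ}, c = 1 / 4 * n → T ^ c = a ^ n := fun n c h => by
    rw [ha]; exact rb3_pow hT0.le _ n h
  have eb : ∀ (n : ℕ) {c : ℝ}, c = 1 / 64 * n → m ^ c = b ^ n := fun n c h => by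
    rw [hb]; exact rb3_pow hm0.le _ n h
  have eβ : ∀ (n : ℕ) {c : ℝ}, c = -1 / 64 * n → m ^ c = β ^ n := fun n c h => by
    rw [hβ]; exact rb3_pow hm0.le _ n h
  have el : ∀ (n : ℕ) {c : ℝ}, c = 1 / 2 * n → Real.log T ^ c = l ^ n := fun n c h => by
    rw [hl]; exact rb3_pow (by linarith) _ n h
  have e1 : T = a ^ 4 := by rw [← eT 4 (c := 1) (by norm_num), Real.rpow_one]
  have e2 : √T = a ^ 2 := by rw [Real.sqrt_eq_rpow, eT 2 (by norm_num)]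
  have e3 : T ^ (3 / 4 : ℝ) = a ^ 3 := eT 3 (by norm_num)
  have e4 : T ^ (3 / 2 : ℝ) = a ^ 6 := eT 6 (by norm_num)
  have e5 : T ^ (-1 / 4 : ℝ) = a⁻¹ := by rw [ha, ← Real.rpow_neg hT0.le]; norm_num
  have e6 : Real.log T = l ^ 2 := by rw [← el 2 (c := 1) (by norm_num), Real.rpow_one]
  have e7 : Real.log T ^ (3 / 2 : ℝ) = l ^ 3 := el 3 (by norm_num)
  rw [e2, eb 8 (by norm_num)] at hN hN'
  rw [e4, e6, eb 4 (by norm_num), eβ 16 (c := -1 / 4) (by norm_num)] at k1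
  rw [e3, eβ 15 (by norm_num)] at k2
  rw [e3, e5, e6, eβ 8 (by norm_num)] at k4
  rw [e2] at k0
  rw [e4, e7, e6, ← hβ]
  rw [e6] at klog
  have hb0 : 0 < b := by linarith
  have hl0 : 0 < l := by linarith
  have m1 := rb3_one (l := l) ha0 hb0 hβ0 hβ1 hbβ hL0 hN
  have m2 := rb3_u ha0.le hβ0 hβ1 hl1 hL (n := 16) (i := 0) (k := 2) (by omega) (by omega) (by omega)
  have m3 := rb3_u ha0.le hβ0 hβ1 hl1 hL (n := 3) (i := 2) (k := 3) (by omega) (by omega) (by omega)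
  have m4 := rb3_u ha0.le hβ0 hβ1 hl1 hL (n := 8) (i := 0) (k := 2) (by omega) (by omega) (by omega)
  have m5 := rb3_u ha0.le hβ0 hβ1 hl1 hL (n := 11) (i := 1) (k := 0) (by omega) (by omega) (by omega)
  have hW : 0 ≤ a ^ 6 * β * ((l ^ 2) ^ 2 / L) := by positivity
  have t1 : X1 ≤ C1 * (a ^ 6 * β * ((l ^ 2) ^ 2 / L) + a ^ 6 * β * (L ^ 2 * l ^ 3)) := by
    refine k1.trans (mul_le_mul_of_nonneg_left (add_le_add ?_ ?_) hC1.le)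
    · rw [e1]; exact m1
    · exact le_trans (le_of_eq (by ring)) m2
  have t2 : nm (HH P (2 ^ j / 2) (2 ^ j)) T * nm (sawS N) T ≤
      12 * C2 * (C3 + 1) * (a ^ 6 * β * (L ^ 2 * l ^ 3)) := by
    have s1 := rb3_saw ha0 hb1 hL hl1 hC3 hN hN' klog0 klog
    rw [← e1] at s1
    refine (mul_le_mul k2 (nm_le_of_sq (by positivity) (k3.trans s1)) (nm_nonneg _ _)
      (by positivity)).trans ?_
    refine le_trans (le_of_eq ?_) (mul_le_mul_of_nonneg_left m3 (by positivity))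
    calc _ = 12 * C2 * (C3 + 1) * (a ^ 6 * β ^ 3 * (L ^ 2 * l ^ 3)) * (b * β) ^ 12 := by ring
      _ = _ := by rw [hbβ, one_pow, mul_one]
  have t4 : X4 ≤ (C5 + 2 * C6) * C4 * (a ^ 6 * β * (L ^ 2 * l ^ 3)) := by
    refine k4.trans (le_trans ?_ (mul_le_mul_of_nonneg_left m4 (by positivity)))
    have s1 : T * (C6 * a⁻¹ * (1 + l ^ 2)) = C6 * a ^ 3 * (1 + l ^ 2) := by
      rw [e1]; field_simp
    have s2 : 1 ≤ l ^ 2 := one_le_pow₀ hl1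
    rw [s1]
    calc (C5 * a ^ 3 + C6 * a ^ 3 * (1 + l ^ 2)) * (C4 * a ^ 3 * β ^ 8)
        = (C5 * 1 + C6 * (1 + l ^ 2)) * (C4 * a ^ 6 * β ^ 8) := by ring
      _ ≤ (C5 * l ^ 2 + C6 * (l ^ 2 + l ^ 2)) * (C4 * a ^ 6 * β ^ 8) := by gcongr
      _ = _ := by ring
  have t5 : nm (HH P (2 ^ j / 2) (2 ^ j)) T * (‖(zs 2).E N‖ * (1 / 2) * a ^ 2) ≤
      C2 * C7 * (a ^ 6 * β * (L ^ 2 * l ^ 3)) := by
    have s1 : √(N : ℝ) ≤ 2 * (L * a * b ^ 4) := by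
      refine Real.sqrt_le_iff.2 ⟨by positivity, hN'.trans ?_⟩
      calc 2 * (L * a ^ 2 * b ^ 8) = 2 * 1 * (L * a ^ 2 * b ^ 8) := by ring
        _ ≤ 4 * L * (L * a ^ 2 * b ^ 8) := by gcongr; norm_num
        _ = _ := by ring
    have s2 := k7.trans (mul_le_mul_of_nonneg_left s1 hC7.le)
    refine le_trans ?_ (mul_le_mul_of_nonneg_left m5 (by positivity))
    calc _ ≤ C2 * a ^ 3 * β ^ 15 * (C7 * (2 * (L * a * b ^ 4)) * (1 / 2) * a ^ 2) := by gcongr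
      _ = C2 * C7 * (a ^ 6 * β ^ 11 * (L ^ 1 * l ^ 0)) * (b * β) ^ 4 := by ring
      _ = _ := by rw [hbβ, one_pow, mul_one]
  have t6 : 0 ≤ (12 * C2 * (C3 + 1) + (C5 + 2 * C6) * C4 + C2 * C7) *
      (a ^ 6 * β * ((l ^ 2) ^ 2 / L)) := by positivity
  linarith only [k0, t1, t2, t4, t5, t6]

end Pool.Agent.Lib.MP_2a1a00_nt
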