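import Pool.Agent.Lib.MP_2a1a00_nt.R.D1

/-! The sum of the diagonal terms. -/

namespace Pool.Agent.Lib.MP_2a1a00_nt

open Complex MeasureTheory Set

theorem rd2_nonneg (m : ℕ) : 0 ≤ dv m * gm m / (m : ℝ) ^ (3 / 2 : ℝ) := by
  have h1 := dv_nonneg m
  have h2 := gm_pos m
  positivity

theorem rd2_dv_zero : dv 0 = 0 := by simp [dv]

theorem cc_summable : Summable fun m : ℕ => dv m * gm m / (m : ℝ) ^ (3 / 2 : ℝ) := by
  obtain ⟨C, hC, h⟩ := dv_le (ε := 1 / 8) (by norm_num)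
  have hs : Summable fun m : ℕ => C ^ 2 * (m : ℝ) ^ (-5 / 4 : ℝ) :=
    (Real.summable_nat_rpow.2 (by norm_num)).mul_left _
  refine Summable.of_nonneg_of_le rd2_nonneg (fun m => ?_) hs
  rcases Nat.eq_zero_or_pos m with rfl | hm
  · rw [rd2_dv_zero, zero_mul, zero_div]
    positivity
  · have hm0 : (0 : ℝ) < m := by exact_mod_cast hm
    have h1 : dv m * gm m ≤ (C * (m : ℝ) ^ (1 / 8 : ℝ)) * (C * (m : ℝ) ^ (1 / 8 : ℝ)) :=
      mul_le_mul (h m) ((gm_le hm).trans (h m)) (zero_le_one.trans (gm_pos m)) (by positivity)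
    rw [div_le_iff₀ (by positivity)]
    refine h1.trans (le_of_eq ?_)
    have h2 : (m : ℝ) ^ (-5 / 4 : ℝ) * (m : ℝ) ^ (3 / 2 : ℝ) =
        (m : ℝ) ^ (1 / 8 : ℝ) * (m : ℝ) ^ (1 / 8 : ℝ) := by
      rw [← Real.rpow_add hm0, ← Real.rpow_add hm0]; norm_num
    rw [mul_assoc (C ^ 2), h2]; ring

theorem cc_pos : 0 < cc := by
  have h : 0 < ∑' m : ℕ, dv m * gm m / (m : ℝ) ^ (3 / 2 : ℝ) := by
    refine cc_summable.tsum_pos rd2_nonneg 1 ?_
    have h1 : dv 1 = 1 := by simp [dv]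
    have h2 := gm_pos 1
    rw [h1]
    positivity
  have hp := Real.pi_pos
  exact mul_pos (by positivity) h

theorem rd2_one_le (j : ℕ) : (1 : ℝ) ≤ (2 ^ j : ℝ) ^ (1 / 8 : ℝ) :=
  Real.one_le_rpow (one_le_pow₀ (by norm_num)) (by norm_num)

theorem NN_le {L T : ℝ} (hL : 1 ≤ L) (hT : 1 ≤ T) (j : ℕ) :
    L * √T * (2 ^ j : ℝ) ^ (1 / 8 : ℝ) ≤ NN L T j ∧
      (NN L T j : ℝ) ≤ 2 * (L * √T * (2 ^ j : ℝ) ^ (1 / 8 : ℝ)) := by
  have h1 : 1 ≤ √T := Real.one_le_sqrt.2 hT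
  have h2 : 1 ≤ L * √T * (2 ^ j : ℝ) ^ (1 / 8 : ℝ) :=
    one_le_mul_of_one_le_of_one_le (one_le_mul_of_one_le_of_one_le hL h1) (rd2_one_le j)
  refine ⟨Nat.le_ceil _, ?_⟩
  have h3 := Nat.ceil_lt_add_one (zero_le_one.trans h2)
  unfold NN
  linarith

theorem JJ_le {T : ℝ} (hT : 1 ≤ T) :
    (∀ j ≤ JJ T, (2 ^ j : ℝ) ≤ T ^ (2 / 5 : ℝ)) ∧ T ^ (2 / 5 : ℝ) ≤ 2 * 2 ^ JJ T := by
  have h1 : (1 : ℝ) ≤ T ^ (2 / 5 : ℝ) := Real.one_le_rpow hT (by norm_num)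
  have h2 : ⌊T ^ (2 / 5 : ℝ)⌋₊ ≠ 0 := by
    have := Nat.floor_pos.2 h1
    omega
  constructor
  · intro j hj
    have h3 : 2 ^ j ≤ ⌊T ^ (2 / 5 : ℝ)⌋₊ :=
      (Nat.pow_le_pow_right (by norm_num) hj).trans (Nat.pow_log_le_self 2 h2)
    have h4 : ((2 ^ j : ℕ) : ℝ) ≤ T ^ (2 / 5 : ℝ) :=
      (Nat.cast_le.2 h3).trans (Nat.floor_le (zero_le_one.trans h1))
    exact_mod_cast h4
  · have h3 : ⌊T ^ (2 / 5 : ℝ)⌋₊ + 1 ≤ 2 ^ (JJ T + 1) :=
      Nat.lt_pow_succ_log_self (by norm_num) _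
    have h4 : ((⌊T ^ (2 / 5 : ℝ)⌋₊ + 1 : ℕ) : ℝ) ≤ ((2 ^ (JJ T + 1) : ℕ) : ℝ) := Nat.cast_le.2 h3
    push_cast at h4
    have h5 := Nat.lt_floor_add_one (T ^ (2 / 5 : ℝ))
    rw [pow_succ] at h4
    linarith

theorem NN_small {L : ℝ} (hL : 1 ≤ L) : ∀ᶠ T : ℝ in Filter.atTop, ∀ j ≤ JJ T,
    (NN L T j : ℝ) ≤ T ^ (3 / 5 : ℝ) := by
  filter_upwards [Filter.eventually_ge_atTop 1,
    (tendsto_rpow_atTop (show (0 : ℝ) < 1 / 20 by norm_num)).eventually_ge_atTop (2 * L)]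
    with T hT h2 j hj
  have hT0 : 0 < T := zero_lt_one.trans_le hT
  have h3 : (2 ^ j : ℝ) ^ (1 / 8 : ℝ) ≤ T ^ (1 / 20 : ℝ) := by
    refine (Real.rpow_le_rpow (by positivity) ((JJ_le hT).1 j hj) (by norm_num)).trans (le_of_eq ?_)
    rw [← Real.rpow_mul hT0.le]; norm_num
  have h4 : T ^ (3 / 5 : ℝ) = T ^ (1 / 20 : ℝ) * √T * T ^ (1 / 20 : ℝ) := by
    rw [Real.sqrt_eq_rpow, ← Real.rpow_add hT0, ← Real.rpow_add hT0]; norm_num
  refine (NN_le hL hT j).2.trans ?_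
  rw [h4, ← mul_assoc, ← mul_assoc]
  gcongr

theorem rd2_JJ (j : ℕ) : ∀ᶠ T : ℝ in Filter.atTop, j ≤ JJ T := by
  filter_upwards [Filter.eventually_ge_atTop 1,
    (tendsto_rpow_atTop (show (0 : ℝ) < 2 / 5 by norm_num)).eventually_ge_atTop (2 * 2 ^ j)]
    with T hT h2
  have h3 : (2 : ℝ) ^ j ≤ 2 ^ JJ T := by linarith [(JJ_le hT).2]
  exact (pow_le_pow_iff_right₀ (by norm_num)).1 h3

theorem rd2_log {L : ℝ} (hL : 1 ≤ L) (j : ℕ) {T : ℝ} (hT : 1 ≤ T) :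
    |Real.log (T / NN L T j) - Real.log T / 2| ≤ Real.log (2 * (L * (2 ^ j : ℝ) ^ (1 / 8 : ℝ))) := by
  obtain ⟨h1, h2⟩ := NN_le hL hT j
  have hT0 : 0 < T := zero_lt_one.trans_le hT
  have hs : 0 < √T := Real.sqrt_pos.2 hT0
  set c := L * (2 ^ j : ℝ) ^ (1 / 8 : ℝ) with hc
  have hc1 : 1 ≤ c := one_le_mul_of_one_le_of_one_le hL (rd2_one_le j)
  have e1 : L * √T * (2 ^ j : ℝ) ^ (1 / 8 : ℝ) = c * √T := by rw [hc]; ring
  rw [e1] at h1 h2
  have hN : (0 : ℝ) < NN L T j := lt_of_lt_of_le (by positivity) h1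
  have h3 : Real.log (√T) ≤ Real.log (NN L T j) :=
    Real.log_le_log hs ((le_mul_of_one_le_left hs.le hc1).trans h1)
  have h4 : Real.log (NN L T j) ≤ Real.log (2 * c) + Real.log (√T) := by
    rw [← Real.log_mul (by positivity) hs.ne', mul_assoc]
    exact Real.log_le_log hN h2
  have h5 : 0 ≤ Real.log (2 * c) := Real.log_nonneg (by linarith)
  rw [Real.log_sqrt hT0.le] at h3 h4
  rw [Real.log_div hT0.ne' hN.ne', abs_le]
  constructor <;> linarith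

theorem rd2_ratio {L : ℝ} (hL : 1 ≤ L) (j : ℕ) : Filter.Tendsto
    (fun T : ℝ => Real.log (T / NN L T j) / Real.log T) Filter.atTop (nhds (1 / 2)) := by
  set K := Real.log (2 * (L * (2 ^ j : ℝ) ^ (1 / 8 : ℝ)))
  have h0 : Filter.Tendsto (fun T : ℝ => K / Real.log T) Filter.atTop (nhds 0) :=
    Real.tendsto_log_atTop.const_div_atTop K
  rw [tendsto_iff_norm_sub_tendsto_zero]
  refine squeeze_zero' (Filter.Eventually.of_forall fun _ => norm_nonneg _) ?_ h0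
  filter_upwards [Filter.eventually_gt_atTop 1] with T hT
  have hl : 0 < Real.log T := Real.log_pos hT
  have e : Real.log (T / NN L T j) / Real.log T - 1 / 2 =
      (Real.log (T / NN L T j) - Real.log T / 2) / Real.log T := by
    field_simp
  rw [e, Real.norm_eq_abs, abs_div, abs_of_pos hl]
  exact div_le_div_of_nonneg_right (rd2_log hL j hT.le) hl.le

theorem rd2_top {L : ℝ} (hL : 1 ≤ L) (j : ℕ) :
    Filter.Tendsto (fun T : ℝ => T / NN L T j) Filter.atTop Filter.atTop := by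
  refine Filter.tendsto_atTop_mono' _ ?_
    (tendsto_rpow_atTop (show (0 : ℝ) < 2 / 5 by norm_num))
  filter_upwards [Filter.eventually_ge_atTop 1, NN_small hL, rd2_JJ j] with T hT h1 h2
  have hT0 : 0 < T := zero_lt_one.trans_le hT
  have hN : (0 : ℝ) < NN L T j := by
    refine lt_of_lt_of_le ?_ (NN_le hL hT j).1
    have := Real.sqrt_pos.2 hT0
    positivity
  rw [le_div_iff₀ hN]
  refine (mul_le_mul_of_nonneg_left (h1 j h2) (by positivity)).trans (le_of_eq ?_)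
  rw [← Real.rpow_add hT0]; norm_num

theorem rd2_fa {L : ℝ} (hL : 1 ≤ L) (j : ℕ) {m : ℕ} (hm : 1 ≤ m) : Filter.Tendsto
    (fun T : ℝ => fa m (T / NN L T j) / Real.log T ^ 2) Filter.atTop (nhds (gm m / 8)) := by
  have h1 := ((fa_lim hm).comp (rd2_top hL j)).mul ((rd2_ratio hL j).pow 2)
  have e : gm m / 2 * (1 / 2 : ℝ) ^ 2 = gm m / 8 := by ring
  rw [e] at h1
  refine h1.congr' ?_
  filter_upwards [(rd2_top hL j).eventually_gt_atTop 1] with T hT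
  have hl : Real.log (T / NN L T j) ≠ 0 := (Real.log_pos hT).ne'
  simp only [Function.comp]
  field_simp

/-- The limit of the diagonal terms of a block. -/
noncomputable def rd2_g (j : ℕ) : ℝ :=
  ∑ m ∈ Finset.Ioc (2 ^ j / 2) (2 ^ j), dv m * gm m / (m : ℝ) ^ (3 / 2 : ℝ) / 8

theorem rd2_dB {L : ℝ} (hL : 1 ≤ L) (j : ℕ) : Filter.Tendsto
    (fun T : ℝ => dB j (T / NN L T j) / Real.log T ^ 2) Filter.atTop (nhds (rd2_g j)) := by
  simp only [dB, rd2_g, Finset.sum_div]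
  refine tendsto_finsetSum _ fun m hm => ?_
  have hm1 : 1 ≤ m := (Nat.zero_le _).trans_lt (Finset.mem_Ioc.1 hm).1
  have h := (rd2_fa hL j hm1).const_mul (dv m / (m : ℝ) ^ (3 / 2 : ℝ))
  have e : dv m / (m : ℝ) ^ (3 / 2 : ℝ) * (gm m / 8) = dv m * gm m / (m : ℝ) ^ (3 / 2 : ℝ) / 8 := by
    ring
  rw [e] at h
  simpa only [mul_div_assoc] using h

theorem rd2_blocks (t : ℕ → ℝ) (h0 : t 0 = 0) (J : ℕ) :
    ∑ j ∈ Finset.range (J + 1), ∑ m ∈ Finset.Ioc (2 ^ j / 2) (2 ^ j), t m =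
      ∑ m ∈ Finset.range (2 ^ J + 1), t m := by
  induction J with
  | zero =>
    have e : Finset.Ioc 0 1 = ({1} : Finset ℕ) := by decide
    simp [Finset.sum_range_succ, h0, e]
  | succ J ih =>
    rw [Finset.sum_range_succ, ih]
    have e : 2 ^ (J + 1) / 2 = 2 ^ J := by rw [pow_succ]; omega
    have e2 : Finset.Ioc (2 ^ J) (2 ^ (J + 1)) = Finset.Ico (2 ^ J + 1) (2 ^ (J + 1) + 1) := by
      ext m
      simp only [Finset.mem_Ioc, Finset.mem_Ico]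
      omega
    rw [e, e2, Finset.sum_range_add_sum_Ico]
    have : 2 ^ J ≤ 2 ^ (J + 1) := Nat.pow_le_pow_right (by norm_num) (Nat.le_succ _)
    omega

theorem rd2_hasSum : HasSum rd2_g ((∑' m : ℕ, dv m * gm m / (m : ℝ) ^ (3 / 2 : ℝ)) / 8) := by
  have h1 := (cc_summable.hasSum.div_const 8).tendsto_sum_nat
  have h2 : Filter.Tendsto (fun J : ℕ => 2 ^ J + 1) Filter.atTop Filter.atTop :=
    Filter.tendsto_atTop_mono (fun J => (Nat.lt_two_pow_self (n := J)).le.trans (Nat.le_succ _))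
      Filter.tendsto_id
  refine (hasSum_iff_tendsto_nat_of_nonneg (fun j => Finset.sum_nonneg fun m _ =>
    div_nonneg (rd2_nonneg m) (by norm_num)) _).2 ?_
  rw [← Filter.tendsto_add_atTop_iff_nat 1]
  refine (h1.comp h2).congr fun J => ?_
  exact (rd2_blocks (fun m => dv m * gm m / (m : ℝ) ^ (3 / 2 : ℝ) / 8)
    (by simp only [rd2_dv_zero, zero_mul, zero_div]) J).symm

theorem rd2_bound : ∃ C : ℝ, 0 < C ∧ ∀ (j : ℕ) (Z T : ℝ), 3 ≤ T → 1 ≤ Z → Z ≤ T →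
    |dB j Z / Real.log T ^ 2| ≤ C * ((2 : ℝ) ^ (-1 / 4 : ℝ)) ^ j := by
  obtain ⟨C, hC, h⟩ := dv_block (ε := 1 / 4) (by norm_num) (1 / 2) (by norm_num)
  refine ⟨4 * C, by positivity, fun j Z T hT h1 h2 => ?_⟩
  have hl : 1 ≤ Real.log T := by
    rw [Real.le_log_iff_exp_le (by linarith)]
    linarith [Real.exp_one_lt_d9]
  have h3 : Real.log Z ≤ Real.log T := Real.log_le_log (by linarith) h2
  have h4 : 0 ≤ Real.log Z := Real.log_nonneg h1
  have h5 : (1 + Real.log Z) ^ 2 ≤ 4 * Real.log T ^ 2 := by nlinarith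
  have h6 := h (2 ^ j) Nat.one_le_two_pow
  have e1 : (((2 ^ j : ℕ) : ℝ)) ^ ((1 / 4 : ℝ) - 1 / 2) = ((2 : ℝ) ^ (-1 / 4 : ℝ)) ^ j := by
    push_cast
    rw [← Real.rpow_natCast, ← Real.rpow_mul (by norm_num), ← Real.rpow_natCast,
      ← Real.rpow_mul (by norm_num)]
    congr 1
    ring
  have e2 : (1 : ℝ) + 1 / 2 = 3 / 2 := by norm_num
  rw [e1, e2] at h6
  have h7 : 0 ≤ dB j Z := Finset.sum_nonneg fun m _ =>
    mul_nonneg (div_nonneg (dv_nonneg m) (by positivity)) (fa_nonneg m Z)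
  have h8 : dB j Z ≤ (∑ m ∈ Finset.Ioc (2 ^ j / 2) (2 ^ j), dv m ^ 2 / (m : ℝ) ^ (3 / 2 : ℝ)) *
      (4 * Real.log T ^ 2) := by
    rw [dB, Finset.sum_mul]
    refine Finset.sum_le_sum fun m _ => ?_
    have a1 : fa m Z ≤ dv m * (4 * Real.log T ^ 2) :=
      (fa_le m h1).trans (mul_le_mul_of_nonneg_left h5 (dv_nonneg m))
    refine (mul_le_mul_of_nonneg_left a1 (div_nonneg (dv_nonneg m) (by positivity))).trans
      (le_of_eq ?_)
    ring
  rw [abs_of_nonneg (div_nonneg h7 (by positivity)), div_le_iff₀ (by positivity)]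
  refine h8.trans ((mul_le_mul_of_nonneg_right h6 (by positivity)).trans (le_of_eq ?_))
  ring

/- `tendsto_tsum_of_dominated_convergence` for the sum over `j`, with the bound `C * (2 ^ j) ^ (-1 / 4)`
(`fa_le`, `dv_block`); `log (T / NN L T j) / log T` tends to `1 / 2`; the finite sums of the series along the
blocks. -/
theorem diag_lim {L : ℝ} (hL : 1 ≤ L) : Filter.Tendsto (fun T : ℝ => 1 / (6 * Real.pi ^ 2) *
    (∑ j ∈ Finset.range (JJ T + 1), dB j (T / NN L T j)) / Real.log T ^ 2) Filter.atTop (nhds cc) := by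
  obtain ⟨C, hC, hb⟩ := rd2_bound
  have hr0 : (0 : ℝ) ≤ (2 : ℝ) ^ (-1 / 4 : ℝ) := by positivity
  have hr1 : (2 : ℝ) ^ (-1 / 4 : ℝ) < 1 := Real.rpow_lt_one_of_one_lt_of_neg (by norm_num) (by norm_num)
  have hs : Summable fun j : ℕ => C * ((2 : ℝ) ^ (-1 / 4 : ℝ)) ^ j :=
    (summable_geometric_of_lt_one hr0 hr1).mul_left C
  have h1 : Filter.Tendsto (fun T : ℝ => ∑' j : ℕ,
      if j ≤ JJ T then dB j (T / NN L T j) / Real.log T ^ 2 else 0) Filter.atTop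
      (nhds (∑' j, rd2_g j)) := by
    refine tendsto_tsum_of_dominated_convergence hs (fun j => ?_) ?_
    · refine (rd2_dB hL j).congr' ?_
      filter_upwards [rd2_JJ j] with T hT
      rw [if_pos hT]
    · filter_upwards [Filter.eventually_ge_atTop 3, NN_small hL] with T hT h2 j
      split_ifs with hj
      · have hT1 : (1 : ℝ) ≤ T := by linarith
        have hN : (1 : ℝ) ≤ NN L T j := by
          refine le_trans ?_ (NN_le hL hT1 j).1
          exact one_le_mul_of_one_le_of_one_le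
            (one_le_mul_of_one_le_of_one_le hL (Real.one_le_sqrt.2 hT1)) (rd2_one_le j)
        have h3 : (NN L T j : ℝ) ≤ T :=
          (h2 j hj).trans (Real.rpow_le_self_of_one_le hT1 (by norm_num))
        rw [Real.norm_eq_abs]
        refine hb j _ T hT ((one_le_div (by linarith)).2 h3) (div_le_self (by linarith) hN)
      · rw [norm_zero]
        positivity
  rw [rd2_hasSum.tsum_eq] at h1
  have h2 := h1.const_mul (1 / (6 * Real.pi ^ 2))
  have e : 1 / (6 * Real.pi ^ 2) * ((∑' m : ℕ, dv m * gm m / (m : ℝ) ^ (3 / 2 : ℝ)) / 8) = cc := by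
    have hp := Real.pi_pos
    unfold cc dv
    field_simp
    ring
  rw [e] at h2
  refine h2.congr fun T => ?_
  rw [tsum_eq_sum (s := Finset.range (JJ T + 1)) (fun j hj => if_neg fun h =>
    hj (Finset.mem_range.2 (Nat.lt_succ_of_le h))), mul_div_assoc, Finset.sum_div]
  congr 1
  exact Finset.sum_congr rfl fun j hj => if_pos (Nat.le_of_lt_succ (Finset.mem_range.1 hj))

end Pool.Agent.Lib.MP_2a1a00_nt
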