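import Pool.Agent.Lib.MP_2a1a00_nt.R.Defs

/-! Summation over dyadic intervals. -/

namespace Pool.Agent.Lib.MP_2a1a00_nt

open Complex MeasureTheory Set

theorem ry_core {g : ℝ → ℂ} {w : ℝ → ℝ} (hw : Filter.Tendsto w Filter.atTop Filter.atTop)
    (h0 : ∀ T, 2 ≤ T → 0 < w T) (h2 : ∀ T, 2 ≤ T → 2 * w T ≤ w (2 * T))
    (hb : ∀ T, 2 ≤ T → ∃ K, ∀ X ∈ Icc T (2 * T), ‖g X‖ ≤ K)
    (h : Filter.Tendsto (fun T => (g (2 * T) - g T) / (w T : ℂ)) Filter.atTop (nhds 0)) :
    Filter.Tendsto (fun T => g T / (w T : ℂ)) Filter.atTop (nhds 0) := by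
  rw [NormedAddGroup.tendsto_nhds_zero] at h ⊢
  intro ε hε
  obtain ⟨T1, h1⟩ := Filter.eventually_atTop.1 (h (ε / 2) (by positivity))
  obtain ⟨T0, hT, hT1⟩ : ∃ T0 : ℝ, 2 ≤ T0 ∧ T1 ≤ T0 := ⟨max 2 T1, le_max_left _ _, le_max_right _ _⟩
  obtain ⟨K, hK⟩ := hb T0 hT
  have key : ∀ (n : ℕ) (X : ℝ), T0 ≤ X → X ≤ 2 ^ n * T0 → ‖g X‖ ≤ K + ε / 2 * w X := by
    intro n
    induction n with
    | zero =>
      intro X a b
      have := hK X ⟨a, by linarith⟩
      have := h0 X (hT.trans a)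
      nlinarith
    | succ n ih =>
      intro X a b
      by_cases c : X ≤ 2 * T0
      · have := hK X ⟨a, c⟩
        have := h0 X (hT.trans a)
        nlinarith
      · have a' : T0 ≤ X / 2 := by linarith
        have e1 := ih (X / 2) a' (by rw [pow_succ] at b; linarith)
        have e2 := h1 (X / 2) (hT1.trans a')
        have e3 := h2 (X / 2) (hT.trans a')
        have e4 := h0 (X / 2) (hT.trans a')
        rw [show 2 * (X / 2) = X by ring] at e2 e3
        rw [norm_div, norm_real, Real.norm_of_nonneg e4.le, div_lt_iff₀ e4] at e2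
        have e5 := norm_le_norm_add_norm_sub' (g X) (g (X / 2))
        nlinarith
  filter_upwards [Filter.eventually_ge_atTop T0, hw.eventually_gt_atTop (K / (ε / 2))] with X a b
  have e0 := h0 X (hT.trans a)
  obtain ⟨n, hn⟩ := pow_unbounded_of_one_lt (X / T0) (one_lt_two (α := ℝ))
  have e1 := key n X a ((div_lt_iff₀ (by linarith)).1 hn).le
  rw [div_lt_iff₀ (by positivity)] at b
  rw [norm_div, norm_real, Real.norm_of_nonneg e0.le, div_lt_iff₀ e0]
  linarith

theorem ry_ratio (r : ℕ) : Filter.Tendsto (fun T : ℝ =>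
    ((2 * T) ^ (3 / 2 : ℝ) * Real.log (2 * T) ^ r) / (T ^ (3 / 2 : ℝ) * Real.log T ^ r))
    Filter.atTop (nhds (2 ^ (3 / 2 : ℝ))) := by
  have h1 : Filter.Tendsto (fun T : ℝ => (2 : ℝ) ^ (3 / 2 : ℝ) * (Real.log 2 / Real.log T + 1) ^ r)
      Filter.atTop (nhds (2 ^ (3 / 2 : ℝ) * (0 + 1) ^ r)) :=
    (((Real.tendsto_log_atTop.const_div_atTop _).add_const 1).pow r).const_mul _
  rw [zero_add, one_pow, mul_one] at h1
  refine h1.congr' ?_
  filter_upwards [Filter.eventually_gt_atTop 1] with T hT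
  have a : 0 < Real.log T := Real.log_pos hT
  have b : 0 < T ^ (3 / 2 : ℝ) := by positivity
  rw [Real.mul_rpow (by norm_num) (by linarith), Real.log_mul (by norm_num) (by linarith),
    div_add_one a.ne', div_pow]
  field_simp

/- Put `g X = ∫ f - c X ^ (3 / 2) log X ^ r`; then `(g (2 T) - g T) / (T ^ (3 / 2) log T ^ r)` tends to zero,
and `‖g X‖ ≤ K + ε X ^ (3 / 2) log X ^ r` for `X ≥ T₀` by induction on `n` with `X ≤ 2 ^ n T₀`. -/
theorem dy_lim {f : ℝ → ℂ} (hf : ∀ a b : ℝ, 1 ≤ a → 1 ≤ b → IntervalIntegrable f volume a b) (r : ℕ)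
    {c : ℝ} (h : Filter.Tendsto (fun T : ℝ => (∫ x in T..2 * T, f x) /
      ((T ^ (3 / 2 : ℝ) * Real.log T ^ r : ℝ) : ℂ)) Filter.atTop
      (nhds ((c * (2 ^ (3 / 2 : ℝ) - 1) : ℝ) : ℂ))) :
    Filter.Tendsto (fun T : ℝ => (∫ x in (1 : ℝ)..T, f x) /
      ((T ^ (3 / 2 : ℝ) * Real.log T ^ r : ℝ) : ℂ)) Filter.atTop (nhds (c : ℂ)) := by
  set w : ℝ → ℝ := fun T => T ^ (3 / 2 : ℝ) * Real.log T ^ r with hwd
  have h0 : ∀ T : ℝ, 1 < T → 0 < w T := fun T hT =>
    mul_pos (by positivity) (pow_pos (Real.log_pos hT) r)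
  have hw : Filter.Tendsto w Filter.atTop Filter.atTop := by
    refine Filter.tendsto_atTop_mono' _ ?_ (tendsto_rpow_atTop (y := 3 / 2) (by norm_num))
    filter_upwards [Real.tendsto_log_atTop.eventually_ge_atTop 1, Filter.eventually_ge_atTop 0]
      with T a b
    exact le_mul_of_one_le_right (by positivity) (one_le_pow₀ a)
  have h2 : ∀ T : ℝ, 2 ≤ T → 2 * w T ≤ w (2 * T) := by
    intro T hT
    have a : 0 ≤ Real.log T := Real.log_nonneg (by linarith)
    have b : (2 : ℝ) ≤ 2 ^ (3 / 2 : ℝ) := Real.self_le_rpow_of_one_le (by norm_num) (by norm_num)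
    simp only [hwd]
    rw [Real.mul_rpow (by norm_num) (by linarith), ← mul_assoc]
    gcongr
    linarith
  have hc := ry_core (g := fun X => (∫ x in (1 : ℝ)..X, f x) - c * (w X : ℂ)) hw
    (fun T hT => h0 T (by linarith)) h2 ?_ ?_
  · have h3 := hc.add_const (c : ℂ)
    rw [zero_add] at h3
    refine h3.congr' ?_
    filter_upwards [Filter.eventually_gt_atTop 1] with T hT
    have a : (w T : ℂ) ≠ 0 := ofReal_ne_zero.2 (h0 T hT).ne'
    change _ = _ / (w T : ℂ)
    field_simp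
    ring
  · intro T hT
    have a : ContinuousOn (fun X => ∫ x in (1 : ℝ)..X, f x) (Icc T (2 * T)) := by
      refine (intervalIntegral.continuousOn_primitive_interval' (hf 1 (2 * T) le_rfl (by linarith))
        left_mem_uIcc).mono ?_
      rw [uIcc_of_le (by linarith)]
      exact Icc_subset_Icc_left (by linarith)
    have b : ContinuousOn w (Icc T (2 * T)) :=
      (continuousOn_id.rpow_const fun _ _ => Or.inr (by norm_num)).mul
        ((Real.continuousOn_log.mono fun x hx => (show 0 < x by linarith [hx.1]).ne').pow r)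
    exact isCompact_Icc.exists_bound_of_continuousOn
      (a.sub (continuousOn_const.mul (continuous_ofReal.comp_continuousOn b)))
  · have h3 := h.sub ((((continuous_ofReal.tendsto _).comp (ry_ratio r)).sub_const 1).const_mul (c : ℂ))
    rw [show ((c * (2 ^ (3 / 2 : ℝ) - 1) : ℝ) : ℂ) - c * (((2 ^ (3 / 2 : ℝ) : ℝ) : ℂ) - 1) = 0 by
      rw [ofReal_mul, ofReal_sub, ofReal_one, sub_self]] at h3
    refine h3.congr' ?_
    filter_upwards [Filter.eventually_gt_atTop 1] with T hT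
    have a : (w T : ℂ) ≠ 0 := ofReal_ne_zero.2 (h0 T hT).ne'
    have b := intervalIntegral.integral_add_adjacent_intervals (hf 1 T le_rfl hT.le)
      (hf T (2 * T) hT.le (by linarith))
    change _ / (w T : ℂ) - c * (((w (2 * T) / w T : ℝ) : ℂ) - 1) = _
    rw [← b, ofReal_div]
    field_simp
    ring

end Pool.Agent.Lib.MP_2a1a00_nt
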