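import Pool.Agent.Lib.MP_2a1a00_nt.R.T3
import Pool.Agent.Lib.MP_2a1a00_nt.R.Y
import Pool.Agent.Lib.MP_2a1a00_nt.Triv

/-! The main theorem. -/

namespace Pool.Agent.Lib.MP_2a1a00_nt

open Complex MeasureTheory Set

theorem hz3_eq (L : Sel) : hz3 L = hyb (zs 2) (zs 3) L := by
  funext x
  rw [hz3, hyb, Del_eq, Del_eq]

theorem main_res (L : Sel) (P : Polynomial ℝ) (hL : L.deg ≤ 1) {η C : ℝ} (hη : 0 < η)
    (h : ∀ T, 1 ≤ T → |(∫ t in (1 : ℝ)..T, ‖L.L (1 / 2 + t * I)‖ ^ 2) - T * P.eval (Real.log T)| ≤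
      C * T ^ (1 - η)) :
    (∀ T : ℝ, 1 ≤ T → IntervalIntegrable (hz3 L) volume 1 T) ∧
      Filter.Tendsto (fun T : ℝ => (∫ x in (1 : ℝ)..T, hz3 L x) /
        ((T ^ (3 / 2 : ℝ) * Real.log T ^ (2 + P.natDegree) : ℝ) : ℂ)) Filter.atTop
        (nhds ((cc * P.leadingCoeff : ℝ) : ℂ)) := by
  have hi : ∀ a b : ℝ, 1 ≤ a → 1 ≤ b → IntervalIntegrable (hz3 L) volume a b := fun a b ha hb => by
    rw [hz3_eq]
    exact hyb_int _ _ _ ha hb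
  exact ⟨fun T hT => hi 1 T le_rfl hT, dy_lim hi _ (tw_asym hL hη h)⟩

end Pool.Agent.Lib.MP_2a1a00_nt
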