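import Pool.Agent.Lib.MP_2a1a00_nt.R.F

/-! The case without the twist. -/

namespace Pool.Agent.Lib.MP_2a1a00_nt

open Complex MeasureTheory Set

theorem zs_zero_w (t : ℝ) : ‖(zs 0).L (1 / 2 + t * I)‖ ^ 2 = 1 := by
  rw [zs_L 0 fun h => by have := congrArg re h; norm_num at this, pow_zero, norm_one, one_pow]

/-- The asymptotic formula for the integral of `Δ₂ * Δ₃`. -/
theorem untw_res : Filter.Tendsto (fun T : ℝ => (∫ x in (1 : ℝ)..T, Del 2 x * Del 3 x) /
    ((T ^ (3 / 2 : ℝ) * Real.log T ^ 2 : ℝ) : ℂ)) Filter.atTop (nhds (cc : ℂ)) := by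
  have h := (main_res (zs 0) 1 (by rw [zs_deg]; norm_num) (η := 1) (C := 1) one_pos fun T hT => by
    simp only [zs_zero_w]
    simp).2
  simpa only [hz3, zs_zero_w, ofReal_one, mul_one, Polynomial.natDegree_one, add_zero,
    Polynomial.leadingCoeff_one] using h

/-- The integral of `Δ₂ * Δ₃` is not `O (T ^ θ)` for any `θ ≤ 3 / 2`. -/
theorem untw_not {θ : ℝ} (hθ : θ ≤ 3 / 2) : ¬∃ C : ℝ, ∀ T : ℝ, 2 ≤ T →
    ‖∫ x in (1 : ℝ)..T, Del 2 x * Del 3 x‖ ≤ C * T ^ θ := by
  rintro ⟨C, hC⟩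
  have h1 : Filter.Tendsto (fun T : ℝ => |C| * (Real.log T ^ 2)⁻¹) Filter.atTop (nhds (|C| * 0)) :=
    (tendsto_inv_atTop_zero.comp ((Filter.tendsto_pow_atTop two_ne_zero).comp
      Real.tendsto_log_atTop)).const_mul _
  have h2 := le_of_tendsto_of_tendsto untw_res.norm h1 (Filter.eventually_atTop.2 ⟨2, fun T hT => by
    have hT0 : 0 < T := by linarith
    have hl : 0 < Real.log T := Real.log_pos (by linarith)
    have h3 : T ^ θ ≤ T ^ (3 / 2 : ℝ) := Real.rpow_le_rpow_of_exponent_le (by linarith) hθ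
    have h4 := (hC T hT).trans (mul_le_mul (le_abs_self C) h3 (by positivity) (abs_nonneg C))
    beta_reduce
    rw [norm_div, norm_real, Real.norm_of_nonneg (by positivity), div_le_iff₀ (by positivity)]
    refine h4.trans (le_of_eq ?_)
    field_simp⟩)
  rw [mul_zero, norm_real, Real.norm_of_nonneg cc_pos.le] at h2
  exact absurd cc_pos (not_lt.2 h2)

end Pool.Agent.Lib.MP_2a1a00_nt
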