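import Pool.Agent.Lib.MP_2a1a00_nt.R.Defs
import Pool.Agent.Lib.MP_2a1a00_nt.V.Wd

/-! A mean value theorem for well spaced frequencies. -/

namespace Pool.Agent.Lib.MP_2a1a00_nt

open Complex MeasureTheory Set

theorem rl1_ker {T : ℝ} (hT : 0 < T) (θ x : ℝ) : ‖tri T (fun t => exp (I * (θ * t : ℝ))) x‖ ≤
    if θ = 0 then T else T * min 1 ((2 / (T * θ)) ^ 2) := by
  have hn : ∀ y : ℝ, ‖exp (I * y)‖ = 1 := fun y => by rw [mul_comm, norm_exp_ofReal_mul_I]
  have h1 := tri_le (x := x) (Z := 1) hT (D := fun t => exp (I * (θ * t : ℝ))) fun v _ => (hn _).le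
  split_ifs with h
  · simpa using h1
  rw [mul_min_of_nonneg _ _ hT.le]
  refine le_min h1 ?_
  rw [tri_exp hT h, norm_div, norm_real, Real.norm_of_nonneg (by positivity),
    div_le_iff₀ (by positivity), show T * (2 / (T * θ)) ^ 2 * (T * θ ^ 2) = 2 + 1 + 1 by
      field_simp; ring]
  refine (norm_sub_le _ _).trans (add_le_add ((norm_sub_le _ _).trans (add_le_add ?_ (hn _).le))
    (hn _).le)
  rw [norm_mul, hn]
  simp

theorem rl1_sp : ∃ C : ℝ, 0 < C ∧ ∀ (A : Finset ℝ) (f : ℝ → ℝ) (δ T : ℝ), 0 < δ → 0 < T →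
    (∀ a ∈ A, δ ≤ f a) → (∀ a ∈ A, ∀ b ∈ A, a ≠ b → δ ≤ |f a - f b|) →
    ∑ a ∈ A, T * min 1 ((2 / (T * f a)) ^ 2) ≤ C / δ := by
  obtain ⟨C, hC, h⟩ := wc_min (β := 0) (by norm_num) (by norm_num)
  refine ⟨2 * C, by positivity, fun A f δ T hδ hT h1 h2 => ?_⟩
  have h3 := h (2 / (T * δ)) (A.sup fun a => ⌊f a / δ⌋₊) (by positivity)
  simp only [Real.rpow_zero, mul_one, zero_add, Real.rpow_one] at h3
  have h4 : ∀ a ∈ A, 1 ≤ ⌊f a / δ⌋₊ := fun a ha =>
    Nat.le_floor (by simpa [le_div_iff₀ hδ] using h1 a ha)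
  have h5 : Set.InjOn (fun a => ⌊f a / δ⌋₊) A := fun a ha b hb e => by
    by_contra hne
    have k := h2 a ha b hb hne
    have k1 := Nat.floor_le (div_nonneg (hδ.le.trans (h1 a ha)) hδ.le)
    have k2 := Nat.floor_le (div_nonneg (hδ.le.trans (h1 b hb)) hδ.le)
    have k3 := Nat.lt_floor_add_one (f a / δ)
    have k4 := Nat.lt_floor_add_one (f b / δ)
    simp only at e
    rw [e] at k1 k3
    rw [le_div_iff₀ hδ] at k1 k2
    rw [div_lt_iff₀ hδ] at k3 k4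
    exact absurd k (not_le.2 (abs_lt.2 ⟨by linarith, by linarith⟩))
  rw [← Finset.mul_sum, show 2 * C / δ = T * (C * (2 / (T * δ))) by field_simp]
  refine mul_le_mul_of_nonneg_left (le_trans ?_ h3) hT.le
  calc _ ≤ ∑ a ∈ A, min 1 ((2 / (T * δ) / ⌊f a / δ⌋₊) ^ 2) := by
        refine Finset.sum_le_sum fun a ha => min_le_min_left _ ?_
        have k1 := Nat.floor_le (div_nonneg (hδ.le.trans (h1 a ha)) hδ.le)
        have k2 : (0 : ℝ) < ⌊f a / δ⌋₊ := by exact_mod_cast h4 a ha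
        have k3 := hδ.trans_le (h1 a ha)
        rw [le_div_iff₀ hδ] at k1
        rw [div_div, mul_assoc]
        gcongr
        linarith
    _ = ∑ n ∈ A.image fun a => ⌊f a / δ⌋₊, min 1 ((2 / (T * δ) / n) ^ 2) :=
        (Finset.sum_image (f := fun n : ℕ => min (1 : ℝ) ((2 / (T * δ) / n) ^ 2)) h5).symm
    _ ≤ _ := by
        refine Finset.sum_le_sum_of_subset_of_nonneg (fun n hn => ?_) fun n _ _ => by positivity
        obtain ⟨a, ha, rfl⟩ := Finset.mem_image.1 hn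
        exact Finset.mem_Icc.2 ⟨h4 a ha, Finset.le_sup (f := fun a => ⌊f a / δ⌋₊) ha⟩

/-- A large sieve type mean value theorem. -/
theorem ls : ∃ C : ℝ, 0 < C ∧ ∀ (S : Finset (ℕ × ℕ)) (c : ℕ × ℕ → ℂ) (θ : ℕ × ℕ → ℝ) (δ T : ℝ),
    0 < δ → 0 < T → (∀ p ∈ S, ∀ q ∈ S, θ p ≠ θ q → δ ≤ |θ p - θ q|) →
    ∫ x in T..2 * T, ‖∑ p ∈ S, c p * exp (I * (θ p * x : ℝ))‖ ^ 2 ≤
      C * (T + 1 / δ) * ∑ p ∈ S, ∑ q ∈ S, if θ p = θ q then ‖c p‖ * ‖c q‖ else 0 := by
  obtain ⟨C, hC, h⟩ := rl1_sp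
  refine ⟨2 * (1 + 2 * C), by positivity, fun S c θ δ T hδ hT hs => ?_⟩
  let κ : ℝ → ℝ := fun t => if t = 0 then T else T * min 1 ((2 / (T * t)) ^ 2)
  have κ0 : ∀ t, 0 ≤ κ t := fun t => by simp only [κ]; split_ifs <;> positivity
  have κn : ∀ a b, κ (a - b) = κ (b - a) := fun a b => by
    simp only [κ, sub_eq_zero, eq_comm (a := a), div_pow, mul_pow, sub_sq_comm a b]
  let R := S.image θ
  let W : ℝ → ℝ := fun r => ∑ p ∈ S with θ p = r, ‖c p‖
  have hR : ∀ a ∈ R, ∀ b ∈ R, a ≠ b → δ ≤ |a - b| := by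
    intro a ha b hb
    obtain ⟨p, hp, rfl⟩ := Finset.mem_image.1 ha
    obtain ⟨q, hq, rfl⟩ := Finset.mem_image.1 hb
    exact hs p hp q hq
  have h1 : ∀ g : ℝ → ℝ, ∑ p ∈ S, ‖c p‖ * g (θ p) = ∑ r ∈ R, W r * g r := fun g => by
    rw [← Finset.sum_fiberwise_of_maps_to (t := R) (g := θ) fun p hp => Finset.mem_image_of_mem _ hp]
    refine Finset.sum_congr rfl fun r _ => ?_
    rw [Finset.sum_mul]
    exact Finset.sum_congr rfl fun p hp => by rw [(Finset.mem_filter.1 hp).2]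
  have h2 : ∀ K : ℝ → ℝ → ℝ, ∑ p ∈ S, ∑ q ∈ S, ‖c p‖ * (‖c q‖ * K (θ p) (θ q)) =
      ∑ r ∈ R, ∑ r' ∈ R, W r * (W r' * K r r') := fun K => by
    simp only [← Finset.mul_sum]
    rw [← h1 fun r => ∑ r' ∈ R, W r' * K r r']
    exact Finset.sum_congr rfl fun p _ => by rw [h1 (K (θ p))]
  have h3 : ∀ r ∈ R, ∑ r' ∈ R, κ (r - r') ≤ (1 + 2 * C) * (T + 1 / δ) := fun r hr => by
    have k1 := h (R.filter (· < r)) (fun a => r - a) δ T hδ hT (fun a ha => by
      obtain ⟨l1, l2⟩ := Finset.mem_filter.1 ha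
      simpa [abs_of_pos (sub_pos.2 l2)] using hR r hr a l1 l2.ne') fun a ha b hb hab => by
      simpa [abs_sub_comm] using hR a (Finset.mem_filter.1 ha).1 b (Finset.mem_filter.1 hb).1 hab
    have k2 := h (R.filter (r < ·)) (fun a => a - r) δ T hδ hT (fun a ha => by
      obtain ⟨l1, l2⟩ := Finset.mem_filter.1 ha
      simpa [abs_of_pos (sub_pos.2 l2)] using hR a l1 r hr l2.ne') fun a ha b hb hab => by
      simpa using hR a (Finset.mem_filter.1 ha).1 b (Finset.mem_filter.1 hb).1 hab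
    have k3 : ∑ r' ∈ R, κ (r - r') = ∑ r' ∈ R, ((if r = r' then T else 0) +
        (if r' < r then T * min 1 ((2 / (T * (r - r'))) ^ 2) else 0) +
        if r < r' then T * min 1 ((2 / (T * (r' - r))) ^ 2) else 0) :=
      Finset.sum_congr rfl fun r' _ => by
        rcases lt_trichotomy r r' with l | rfl | l
        · rw [κn]; simp [κ, l, l.ne, l.not_gt, sub_eq_zero, l.ne']
        · simp [κ]
        · simp [κ, l, l.ne', l.not_gt, sub_eq_zero]
    rw [Finset.sum_filter] at k1 k2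
    rw [k3, Finset.sum_add_distrib, Finset.sum_add_distrib, Finset.sum_ite_eq, if_pos hr]
    have k4 : C / δ = C * (1 / δ) := by ring
    have k5 : 0 < 1 / δ := by positivity
    nlinarith [mul_pos hC hT]
  have h4 := vwd_low (w := fun x => ‖∑ p ∈ S, c p * exp (I * (θ p * x : ℝ))‖ ^ 2) (by fun_prop)
    (fun x => by positivity) hT T
  have h5 : (fun x : ℝ => ((‖∑ p ∈ S, c p * exp (I * (θ p * x : ℝ))‖ ^ 2 : ℝ) : ℂ)) = fun x : ℝ =>
      ∑ z ∈ S ×ˢ S, c z.1 * (starRingEnd ℂ) (c z.2) * exp (I * ((θ z.1 - θ z.2) * x : ℝ)) := by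
    funext x
    rw [ofReal_pow, ← mul_conj', map_sum, Finset.sum_mul_sum, Finset.sum_product]
    refine Finset.sum_congr rfl fun p _ => Finset.sum_congr rfl fun q _ => ?_
    rw [map_mul, ← exp_conj, map_mul, conj_I, conj_ofReal, mul_mul_mul_comm, ← exp_add]
    congr 2
    push_cast
    ring
  rw [h5, tri_sum _ _ (fun z : (ℕ × ℕ) × ℕ × ℕ => fun x : ℝ => exp (I * ((θ z.1 - θ z.2) * x : ℝ)))
    (fun _ _ => by fun_prop), ← two_mul] at h4
  have h6 : ∑ p ∈ S, ∑ q ∈ S, (if θ p = θ q then ‖c p‖ * ‖c q‖ else 0) = ∑ r ∈ R, W r ^ 2 := by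
    have := h2 fun a b => if a = b then 1 else 0
    simp only [mul_ite, mul_one, mul_zero, Finset.sum_ite_eq] at this
    rw [this]
    exact Finset.sum_congr rfl fun r hr => by rw [if_pos hr, sq]
  rw [h6, mul_assoc, mul_assoc]
  refine h4.trans (mul_le_mul_of_nonneg_left ((norm_sum_le _ _).trans ?_) zero_le_two)
  calc _ ≤ ∑ p ∈ S, ∑ q ∈ S, ‖c p‖ * (‖c q‖ * κ (θ p - θ q)) := by
        rw [← Finset.sum_product']
        refine Finset.sum_le_sum fun z _ => ?_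
        rw [norm_mul, norm_mul, norm_conj, mul_assoc]
        gcongr
        exact rl1_ker hT _ _
    _ ≤ ∑ r ∈ R, ∑ r' ∈ R, (W r ^ 2 / 2 * κ (r - r') + W r' ^ 2 / 2 * κ (r' - r)) := by
        rw [h2 fun a b => κ (a - b)]
        refine Finset.sum_le_sum fun r _ => Finset.sum_le_sum fun r' _ => ?_
        rw [κn r' r]
        nlinarith [mul_nonneg (κ0 (r - r')) (sq_nonneg (W r - W r'))]
    _ = ∑ r ∈ R, W r ^ 2 * ∑ r' ∈ R, κ (r - r') := by
        simp only [Finset.sum_add_distrib]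
        rw [Finset.sum_comm (f := fun r r' => W r' ^ 2 / 2 * κ (r' - r)), ← Finset.sum_add_distrib]
        refine Finset.sum_congr rfl fun r _ => ?_
        rw [← Finset.mul_sum]
        ring
    _ ≤ _ := by
        rw [← mul_assoc, Finset.mul_sum]
        exact Finset.sum_le_sum fun r hr => by
          rw [mul_comm]; exact mul_le_mul_of_nonneg_right (h3 r hr) (sq_nonneg _)

end Pool.Agent.Lib.MP_2a1a00_nt
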