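import Pool.Agent.Lib.MP_2a1a00_nt.R.Defs
import Pool.Agent.Lib.MP_2a1a00_nt.V.Osc

/-! The correlation of two kernels. -/

namespace Pool.Agent.Lib.MP_2a1a00_nt

open Complex MeasureTheory Set

variable {P : Vo}

theorem ro2_cont (γ : ℂ) (A : ℝ) :
    ContinuousOn (fun x : ℝ => px γ x * exp (I * (A * √x : ℝ))) (Ioi 0) :=
  (px_cont γ).mul (Continuous.continuousOn (by fun_prop))

theorem ro2_sub {T α β : ℝ} (hT : 0 < T) (hα : α ∈ Icc T (2 * T)) (hβ : β ∈ Icc T (2 * T)) :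
    uIcc α β ⊆ Ioi 0 := fun _ hx => hT.trans_le ((le_min hα.1 hβ.1).trans hx.1)

theorem ro2_ii (γ : ℂ) (A : ℝ) {T α β : ℝ} (hT : 0 < T) (hα : α ∈ Icc T (2 * T))
    (hβ : β ∈ Icc T (2 * T)) :
    IntervalIntegrable (fun x : ℝ => px γ x * exp (I * (A * √x : ℝ))) volume α β :=
  ((ro2_cont γ A).mono (ro2_sub hT hα hβ)).intervalIntegrable

theorem ro2_prim {A T y : ℝ} (hA : A ≠ 0) (hT : 0 < T) (hy : y ∈ Icc T (2 * T)) :
    ‖∫ x in T..y, px (-1 / 2 : ℝ) x * exp (I * (A * √x : ℝ))‖ ≤ 4 / |A| := by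
  have hT' : T ∈ Icc T (2 * T) := ⟨le_rfl, by linarith⟩
  have hA' : (A : ℂ) ≠ 0 := ofReal_ne_zero.2 hA
  rw [intervalIntegral.integral_eq_sub_of_hasDerivAt
    (f := fun x => 2 / (I * A) * exp (I * (A * √x : ℝ))) (fun x hx => ?_) (ro2_ii _ A hT hT' hy)]
  · refine (norm_sub_le _ _).trans (le_of_eq ?_)
    rw [norm_mul, norm_mul, norm_ei, norm_ei, norm_div, norm_mul, norm_I, norm_real,
      Real.norm_eq_abs, Complex.norm_two]
    ring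
  · have h0 : 0 < x := ro2_sub hT hT' hy hx
    have h1 : (√x : ℂ) ≠ 0 := ofReal_ne_zero.2 (Real.sqrt_pos.2 h0).ne'
    refine (((((Real.hasDerivAt_sqrt h0.ne').const_mul A).ofReal_comp).const_mul I).cexp.const_mul
      (2 / (I * A))).congr_deriv ?_
    rw [px_real _ h0, neg_div, Real.rpow_neg h0.le, ← Real.sqrt_eq_rpow]
    push_cast
    field_simp

/- A primitive of `x ^ (-1 / 2) * exp (i A √x)` is `2 / (i A) * exp (i A √x)`; `parts_px`. -/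
theorem osc_sqrt {A T γ : ℝ} (hA : A ≠ 0) (hT : 1 ≤ T) (h0 : -1 / 2 ≤ γ) (h1 : γ ≤ 1 / 2) {α β : ℝ}
    (hα : α ∈ Icc T (2 * T)) (hβ : β ∈ Icc T (2 * T)) :
    ‖∫ x in α..β, px γ x * exp (I * (A * √x : ℝ))‖ ≤ 32 * T ^ (γ + 1 / 2) / |A| := by
  have hT0 : 0 < T := one_pos.trans_le hT
  have hT' : T ∈ Icc T (2 * T) := ⟨le_rfl, by linarith⟩
  have hA' := abs_pos.2 hA
  have key : ∀ y ∈ Icc T (2 * T),
      ‖∫ x in T..y, px γ x * exp (I * (A * √x : ℝ))‖ ≤ 16 * T ^ (γ + 1 / 2) / |A| := by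
    intro y hy
    have h := parts_px (β := (γ + 1 / 2 : ℝ)) hT0
      ((ro2_cont (-1 / 2 : ℝ) A).mono fun x hx => hT0.trans_le hx.1)
      (by rw [ofReal_re]; linarith) (fun z hz => ro2_prim hA hT0 hz) hy
    simp only [← mul_assoc, ← px_add, ← ofReal_add] at h
    rw [show γ + 1 / 2 + -1 / 2 = γ by ring, ofReal_re, norm_real,
      Real.norm_of_nonneg (by linarith), Real.mul_rpow (by norm_num) hT0.le] at h
    refine h.trans ?_
    have h2 : (2 : ℝ) ^ (γ + 1 / 2) ≤ 2 := by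
      simpa using Real.rpow_le_rpow_of_exponent_le one_le_two (show γ + 1 / 2 ≤ 1 by linarith)
    have h3 := Real.rpow_pos_of_pos hT0 (γ + 1 / 2)
    calc _ ≤ 2 * (2 * T ^ (γ + 1 / 2)) * (4 / |A|) := by gcongr; linarith
      _ = _ := by ring
  rw [← intervalIntegral.integral_interval_sub_left (ro2_ii γ A hT0 hT' hβ) (ro2_ii γ A hT0 hT' hα)]
  refine (norm_sub_le _ _).trans ((add_le_add (key β hβ) (key α hα)).trans (le_of_eq ?_))
  ring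

theorem ro2_J0 (hP : Good P) {m x : ℝ} (hm : 0 < m) (hx : 0 < x) :
    J0 P 2 (m * x) = (m ^ (1 / 4 : ℝ) : ℝ) * px (1 / 4 : ℝ) x *
      (P.ap * exp (I * (4 * Real.pi * √m * √x : ℝ)) +
        P.am * exp (I * (-(4 * Real.pi * √m) * √x : ℝ))) := by
  have h : P.ex 2 = (1 / 4 : ℝ) := by rw [Vo.ex, hP.th, al_two, ofReal_zero, zero_mul, add_zero]
  rw [J0, h, px_mul _ hm hx, px_real _ hm, hP.ka, ← Real.sqrt_eq_rpow, Real.sqrt_mul hm.le,
    ← mul_assoc, ← mul_assoc, neg_mul (4 * Real.pi)]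

theorem ro2_lam (hP : Good P) {m b T α β : ℝ} (hm : 0 < m) (hb : 0 < b) (hT : 0 < T)
    (hα : α ∈ Icc T (2 * T)) (hβ : β ∈ Icc T (2 * T)) :
    Lam P m α β b = ((m * b) ^ (1 / 4 : ℝ) : ℝ) *
      ((P.ap ^ 2 * (∫ x in α..β, px (1 / 2 : ℝ) x *
          exp (I * (4 * Real.pi * (√m + √b) * √x : ℝ))) +
        P.am ^ 2 * ∫ x in α..β, px (1 / 2 : ℝ) x *
          exp (I * (-(4 * Real.pi * (√m + √b)) * √x : ℝ))) +
      (P.ap * P.am * (∫ x in α..β, px (1 / 2 : ℝ) x *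
          exp (I * (4 * Real.pi * (√m - √b) * √x : ℝ))) +
        P.ap * P.am * ∫ x in α..β, px (1 / 2 : ℝ) x *
          exp (I * (-(4 * Real.pi * (√m - √b)) * √x : ℝ)))) := by
  have ii := fun (c : ℂ) (A : ℝ) => (ro2_ii (1 / 2 : ℝ) A hT hα hβ).const_mul c
  simp only [← intervalIntegral.integral_const_mul]
  rw [← intervalIntegral.integral_add (ii _ _) (ii _ _),
    ← intervalIntegral.integral_add (ii _ _) (ii _ _),
    ← intervalIntegral.integral_add ((ii _ _).add (ii _ _)) ((ii _ _).add (ii _ _)),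
    ← intervalIntegral.integral_const_mul]
  refine intervalIntegral.integral_congr fun x hx => ?_
  have h0 : 0 < x := ro2_sub hT hα hβ hx
  have e : ∀ A B C : ℝ, A + B = C → exp (I * (C * √x : ℝ)) =
      exp (I * (A * √x : ℝ)) * exp (I * (B * √x : ℝ)) := fun A B C h => by
    rw [← exp_add, ← mul_add, ← ofReal_add, ← add_mul, h]
  have e2 : px (1 / 2 : ℝ) x = px (1 / 4 : ℝ) x * px (1 / 4 : ℝ) x := by
    rw [← px_add, ← ofReal_add]
    norm_num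
  rw [ro2_J0 hP hm h0, ro2_J0 hP hb h0, Real.mul_rpow hm.le hb.le,
    ofReal_mul (m ^ (1 / 4 : ℝ)), e2,
    e (4 * Real.pi * √m) (4 * Real.pi * √b) (4 * Real.pi * (√m + √b)) (by ring),
    e (-(4 * Real.pi * √m)) (-(4 * Real.pi * √b)) (-(4 * Real.pi * (√m + √b))) (by ring),
    e (4 * Real.pi * √m) (-(4 * Real.pi * √b)) (4 * Real.pi * (√m - √b)) (by ring),
    e (-(4 * Real.pi * √m)) (4 * Real.pi * √b) (-(4 * Real.pi * (√m - √b))) (by ring)]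
  ring

theorem ro2_pair {c c' : ℂ} {γ D T α β : ℝ} (hD : D ≠ 0) (hT : 1 ≤ T) (h0 : -1 / 2 ≤ γ)
    (h1 : γ ≤ 1 / 2) (hα : α ∈ Icc T (2 * T)) (hβ : β ∈ Icc T (2 * T)) :
    ‖c * (∫ x in α..β, px γ x * exp (I * (4 * Real.pi * D * √x : ℝ))) +
      c' * ∫ x in α..β, px γ x * exp (I * (-(4 * Real.pi * D) * √x : ℝ))‖ ≤
      (‖c‖ + ‖c'‖) * (8 * T ^ (γ + 1 / 2) / |D|) := by
  have hA : 4 * Real.pi * D ≠ 0 := mul_ne_zero (by positivity) hD
  have a1 := osc_sqrt hA hT h0 h1 hα hβ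
  have a2 := osc_sqrt (neg_ne_zero.2 hA) hT h0 h1 hα hβ
  rw [abs_neg] at a2
  have hD' := abs_pos.2 hD
  have a3 : 32 * T ^ (γ + 1 / 2) / |4 * Real.pi * D| ≤ 8 * T ^ (γ + 1 / 2) / |D| := by
    have h3 := Real.rpow_pos_of_pos (one_pos.trans_le hT) (γ + 1 / 2)
    rw [abs_mul, abs_of_pos (by positivity : 0 < 4 * Real.pi),
      div_le_div_iff₀ (by positivity) hD']
    nlinarith [mul_pos h3 hD', Real.pi_gt_three]
  refine (norm_add_le _ _).trans ?_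
  rw [norm_mul, norm_mul, add_mul]
  exact add_le_add (mul_le_mul_of_nonneg_left (a1.trans a3) (norm_nonneg _))
    (mul_le_mul_of_nonneg_left (a2.trans a3) (norm_nonneg _))

theorem J0_int (hP : Good P) : ∃ C : ℝ, 0 < C ∧ ∀ m T α β : ℝ, 1 ≤ m → 1 ≤ T →
    α ∈ Icc T (2 * T) → β ∈ Icc T (2 * T) →
    ‖∫ x in α..β, J0 P 2 (m * x)‖ ≤ C * T ^ (3 / 4 : ℝ) * m ^ (-1 / 4 : ℝ) := by
  refine ⟨8 * (‖P.ap‖ + ‖P.am‖ + 1), by positivity, fun m T α β hm hT hα hβ => ?_⟩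
  have hm0 : 0 < m := one_pos.trans_le hm
  have hT0 : 0 < T := one_pos.trans_le hT
  have hs := Real.sqrt_pos.2 hm0
  have ii := fun (c : ℂ) (A : ℝ) => (ro2_ii (1 / 4 : ℝ) A hT0 hα hβ).const_mul c
  have h := ro2_pair (c := P.ap) (c' := P.am) (γ := 1 / 4) hs.ne' hT (by norm_num) (by norm_num)
    hα hβ
  simp only [← intervalIntegral.integral_const_mul] at h
  rw [← intervalIntegral.integral_add (ii _ _) (ii _ _)] at h
  rw [intervalIntegral.integral_congr (g := fun x => ((m ^ (1 / 4 : ℝ) : ℝ) : ℂ) *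
    (P.ap * (px (1 / 4 : ℝ) x * exp (I * (4 * Real.pi * √m * √x : ℝ))) +
      P.am * (px (1 / 4 : ℝ) x * exp (I * (-(4 * Real.pi * √m) * √x : ℝ))))) fun x hx => by
    simp only
    rw [ro2_J0 hP hm0 (ro2_sub hT0 hα hβ hx)]
    ring, intervalIntegral.integral_const_mul, norm_mul, norm_real,
    Real.norm_of_nonneg (by positivity)]
  refine (mul_le_mul_of_nonneg_left h (by positivity)).trans ?_
  have e : m ^ (-1 / 4 : ℝ) = m ^ (1 / 4 : ℝ) / √m := by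
    rw [Real.sqrt_eq_rpow, ← Real.rpow_sub hm0]
    norm_num
  rw [e, abs_of_pos hs, show (1 / 4 + 1 / 2 : ℝ) = 3 / 4 by norm_num]
  calc _ = 8 * (‖P.ap‖ + ‖P.am‖) * T ^ (3 / 4 : ℝ) * (m ^ (1 / 4 : ℝ) / √m) := by ring
    _ ≤ _ := by gcongr 8 * ?_ * _ * _; linarith

theorem lam_off (hP : Good P) : ∃ C : ℝ, 0 < C ∧ ∀ m b T α β : ℝ, 0 < m → 0 < b → b ≠ m → 1 ≤ T →
    α ∈ Icc T (2 * T) → β ∈ Icc T (2 * T) →
    ‖Lam P m α β b‖ ≤ C * T * ((m * b) ^ (1 / 4 : ℝ) / |√m - √b|) := by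
  refine ⟨8 * (‖P.ap ^ 2‖ + ‖P.am ^ 2‖ + (‖P.ap * P.am‖ + ‖P.ap * P.am‖) + 1), by positivity,
    fun m b T α β hm hb hne hT hα hβ => ?_⟩
  have hT0 : 0 < T := one_pos.trans_le hT
  have h1 := Real.sqrt_pos.2 hm
  have h2 := Real.sqrt_pos.2 hb
  have hD : √m - √b ≠ 0 := fun h => hne ((Real.sqrt_inj hm.le hb.le).1 (sub_eq_zero.1 h)).symm
  have hD' := abs_pos.2 hD
  have a1 := ro2_pair (c := P.ap ^ 2) (c' := P.am ^ 2) (γ := 1 / 2) (add_pos h1 h2).ne' hT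
    (by norm_num) le_rfl hα hβ
  have a2 := ro2_pair (c := P.ap * P.am) (c' := P.ap * P.am) (γ := 1 / 2) hD hT
    (by norm_num) le_rfl hα hβ
  rw [add_halves, Real.rpow_one] at a1 a2
  have a3 : 8 * T / |√m + √b| ≤ 8 * T / |√m - √b| := by
    refine div_le_div_of_nonneg_left (by positivity) hD' ?_
    rw [abs_of_pos (add_pos h1 h2)]
    exact abs_le.2 ⟨by linarith, by linarith⟩
  rw [ro2_lam hP hm hb hT0 hα hβ, norm_mul, norm_real, Real.norm_of_nonneg (by positivity)]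
  refine (mul_le_mul_of_nonneg_left ((norm_add_le _ _).trans (add_le_add
    (a1.trans (mul_le_mul_of_nonneg_left a3 (by positivity))) a2)) (by positivity)).trans ?_
  calc _ = 8 * (‖P.ap ^ 2‖ + ‖P.am ^ 2‖ + (‖P.ap * P.am‖ + ‖P.ap * P.am‖)) * T *
        ((m * b) ^ (1 / 4 : ℝ) / |√m - √b|) := by ring
    _ ≤ _ := by gcongr 8 * ?_ * _ * _; linarith

theorem lam_diag (hP : Good P) : ∃ C : ℝ, 0 < C ∧ ∀ m T α β : ℝ, 0 < m → 1 ≤ T →
    α ∈ Icc T (2 * T) → β ∈ Icc T (2 * T) →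
    ‖Lam P m α β m - ((1 / (6 * Real.pi ^ 2) * √m * (β ^ (3 / 2 : ℝ) - α ^ (3 / 2 : ℝ)) : ℝ) : ℂ)‖ ≤
      C * T := by
  refine ⟨4 * (‖P.ap ^ 2‖ + ‖P.am ^ 2‖ + 1), by positivity, fun m T α β hm hT hα hβ => ?_⟩
  have hT0 : 0 < T := one_pos.trans_le hT
  have h1 := Real.sqrt_pos.2 hm
  have a1 := ro2_pair (c := P.ap ^ 2) (c' := P.am ^ 2) (γ := 1 / 2) (add_pos h1 h1).ne' hT
    (by norm_num) le_rfl hα hβ
  rw [add_halves, Real.rpow_one, abs_of_pos (add_pos h1 h1)] at a1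
  have e1 : (m * m) ^ (1 / 4 : ℝ) = √m := by
    rw [Real.mul_rpow hm.le hm.le, ← Real.rpow_add hm, Real.sqrt_eq_rpow]
    norm_num
  have e2 : ∫ x in α..β, px (1 / 2 : ℝ) x =
      (((β ^ (3 / 2 : ℝ) - α ^ (3 / 2 : ℝ)) / (3 / 2) : ℝ) : ℂ) := by
    rw [intervalIntegral.integral_congr (g := fun x => ((x ^ (1 / 2 : ℝ) : ℝ) : ℂ))
      fun x hx => px_real _ (ro2_sub hT0 hα hβ hx), intervalIntegral.integral_ofReal,
      integral_rpow (Or.inl (by norm_num))]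
    norm_num
  rw [ro2_lam hP hm hm hT0 hα hβ, e1]
  simp only [sub_self, mul_zero, neg_zero, zero_mul, ofReal_zero, exp_zero, mul_one]
  rw [e2, hP.am, mul_add, add_sub_assoc]
  have e3 : ∀ u : ℝ, ((√m : ℝ) : ℂ) * (((1 / (8 * Real.pi ^ 2) : ℝ) : ℂ) * ((u / (3 / 2) : ℝ) : ℂ) +
      ((1 / (8 * Real.pi ^ 2) : ℝ) : ℂ) * ((u / (3 / 2) : ℝ) : ℂ)) -
      ((1 / (6 * Real.pi ^ 2) * √m * u : ℝ) : ℂ) = 0 := fun u => by
    push_cast
    ring
  rw [e3, add_zero, norm_mul, norm_real, Real.norm_of_nonneg h1.le]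
  refine (mul_le_mul_of_nonneg_left a1 h1.le).trans ?_
  calc _ = 4 * (‖P.ap ^ 2‖ + ‖P.am ^ 2‖) * T := by field_simp; ring
    _ ≤ _ := by gcongr 4 * ?_ * _; linarith

end Pool.Agent.Lib.MP_2a1a00_nt
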