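import Pool.Agent.Lib.MP_2a1a00_nt.R.Defs
import Pool.Agent.Lib.MP_2a1a00_nt.Triv
import Pool.Agent.Lib.MP_2a1a00_nt.Res

/-! The main terms. -/

namespace Pool.Agent.Lib.MP_2a1a00_nt

open Complex MeasureTheory Set

/- `res_deriv`, `res_congr`. -/
theorem Mk_der (k : ℕ) {x : ℝ} (hx : 0 < x) : HasDerivAt (Mk k) (Md k x) x := by
  have h0 : ∀ s ∈ Metric.sphere (1 : ℂ) (1 / 2), s ≠ 0 := by
    rintro s hs rfl
    norm_num at hs
  have h := (zs k).res_deriv (h := fun s => s⁻¹) (continuousOn_id.inv₀ h0) hx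
  have e : ((zs k).res fun s => (x : ℂ) ^ s * (s * s⁻¹)) = (zs k).res fun s => (x : ℂ) ^ s :=
    (zs k).res_congr fun s hs => by rw [mul_inv_cancel₀ (h0 s hs), mul_one]
  rw [e] at h
  exact h

theorem rs0_step {f : ℂ → ℂ} (hf : Differentiable ℂ f) : ∃ g : ℂ → ℂ, Differentiable ℂ g ∧
    ∀ (F : Sel) (n : ℕ) (l : ℂ), (F.res fun s => (s - 1) ^ n * f ((s - 1) * l)) =
      f 0 * (F.res fun s => (s - 1) ^ n) +
        l * F.res fun s => (s - 1) ^ (n + 1) * g ((s - 1) * l) := by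
  have hg : Differentiable ℂ (dslope f 0) :=
    differentiableOn_univ.1 ((differentiableOn_dslope Filter.univ_mem).2 hf.differentiableOn)
  refine ⟨dslope f 0, hg, fun F n l => ?_⟩
  have hc := hg.continuous
  rw [← F.res_add (f 0) l (by fun_prop) (by fun_prop)]
  refine F.res_congr fun s _ => ?_
  have h := sub_smul_dslope f 0 ((s - 1) * l)
  rw [smul_eq_mul, sub_zero] at h
  linear_combination -(s - 1) ^ n * h

theorem rs0_zero {g : ℂ → ℂ} (hg : Differentiable ℂ g) (F : Sel) (l : ℂ) :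
    (F.res fun s => (s - 1) ^ F.m * g ((s - 1) * l)) = 0 := by
  have hG := F.ent
  have e : (∮ s in C(1, 1 / 2), F.L s * ((s - 1) ^ F.m * g ((s - 1) * l))) =
      ∮ s in C(1, 1 / 2), F.G s * g ((s - 1) * l) := by
    refine circleIntegral.integral_congr (by norm_num) fun s hs => ?_
    have h : (s - 1) ^ F.m ≠ 0 := pow_ne_zero _ (sub_ne_zero.2 (res_ne (by norm_num) hs))
    simp only [Sel.L]
    field_simp
  unfold Sel.res
  rw [e, res_zero (by norm_num) (by fun_prop), mul_zero]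

theorem rs0_Md (k : ℕ) {x : ℝ} (hx : 0 < x) :
    Md k x = (zs k).res fun s => (s - 1) ^ 0 * exp ((s - 1) * (Real.log x : ℝ)) := by
  have h0 : (x : ℂ) ≠ 0 := ofReal_ne_zero.2 hx.ne'
  have h := (zs k).res_add (h₁ := fun s => (s - 1) ^ 0 * exp ((s - 1) * (Real.log x : ℝ)))
    (h₂ := fun _ => 0) x 0 (by fun_prop) (by fun_prop)
  simp only [zero_mul, add_zero] at h
  rw [Md, div_eq_iff h0, mul_comm, ← h]
  refine (zs k).res_congr fun s _ => ?_
  have e : exp ((Real.log x : ℝ) : ℂ) = x := by rw [← ofReal_exp, Real.exp_log hx]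
  rw [cpow_def_of_ne_zero h0, ← ofReal_log hx.le, pow_zero, one_mul]
  calc exp ((Real.log x : ℝ) * s) = exp ((Real.log x : ℝ) + (s - 1) * (Real.log x : ℝ)) := by
        congr 1
        ring
    _ = _ := by rw [exp_add, e]

/- The formula of Cauchy for the derivatives of `zG s ^ k * exp (s * log x)` at `s = 1`. -/
theorem Md_two : ∃ a b : ℂ, ∀ x : ℝ, 0 < x → Md 2 x = a * (Real.log x : ℝ) + b := by
  obtain ⟨g1, hg1, e1⟩ := rs0_step differentiable_exp
  obtain ⟨g2, hg2, e2⟩ := rs0_step hg1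
  refine ⟨g1 0 * (zs 2).res fun s => (s - 1) ^ (0 + 1), exp 0 * (zs 2).res fun s => (s - 1) ^ 0,
    fun x hx => ?_⟩
  have z : ((zs 2).res fun s => (s - 1) ^ (0 + 1 + 1) * g2 ((s - 1) * (Real.log x : ℝ))) = 0 :=
    rs0_zero hg2 (zs 2) _
  rw [rs0_Md 2 hx, e1, e2, z]
  ring

theorem Md_three : ∃ a b c : ℂ, ∀ x : ℝ, 0 < x →
    Md 3 x = a * (Real.log x : ℝ) ^ 2 + b * (Real.log x : ℝ) + c := by
  obtain ⟨g1, hg1, e1⟩ := rs0_step differentiable_exp
  obtain ⟨g2, hg2, e2⟩ := rs0_step hg1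
  obtain ⟨g3, hg3, e3⟩ := rs0_step hg2
  refine ⟨g2 0 * (zs 3).res fun s => (s - 1) ^ (0 + 1 + 1),
    g1 0 * (zs 3).res fun s => (s - 1) ^ (0 + 1), exp 0 * (zs 3).res fun s => (s - 1) ^ 0,
    fun x hx => ?_⟩
  have z : ((zs 3).res fun s =>
      (s - 1) ^ (0 + 1 + 1 + 1) * g3 ((s - 1) * (Real.log x : ℝ))) = 0 :=
    rs0_zero hg3 (zs 3) _
  rw [rs0_Md 3 hx, e1, e2, e3, z]
  ring

end Pool.Agent.Lib.MP_2a1a00_nt
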