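import Pool.Agent.Lib.MP_2a1a00_nt.R.Defs

/-! Some elementary sums. -/

namespace Pool.Agent.Lib.MP_2a1a00_nt

open Complex MeasureTheory Set

/- A Cauchy sequence; `sum_rpow_tail`. -/
theorem rate {θ : ℝ} (hθ : 0 < θ) {u : ℕ → ℂ} {C : ℝ}
    (h : ∀ n : ℕ, 1 ≤ n → ‖u (n + 1) - u n‖ ≤ C * (n : ℝ) ^ (-1 - θ)) :
    ∃ (c : ℂ) (C' : ℝ), 0 < C' ∧ ∀ n : ℕ, 1 ≤ n → ‖u n - c‖ ≤ C' * (n : ℝ) ^ (-θ) := by
  obtain ⟨D, hD, h2⟩ := sum_rpow_tail hθ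
  have h3 : ∀ N X : ℕ, N ≤ X → ‖u (N + 1) - u (X + 1)‖ ≤
      (|C| + 1) * ∑ n ∈ Finset.Ioc N X, (n : ℝ) ^ (-1 - θ) := by
    intro N X hX
    induction X, hX using Nat.le_induction with
    | base => simp
    | succ X hX ih =>
      have a1 := h (X + 1) (by omega)
      have a2 := norm_sub_le_norm_sub_add_norm_sub (u (N + 1)) (u (X + 1)) (u (X + 1 + 1))
      have a3 := mul_le_mul_of_nonneg_right ((le_abs_self C).trans (lt_add_one _).le)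
        (Real.rpow_nonneg (Nat.cast_nonneg (α := ℝ) (X + 1)) (-1 - θ))
      rw [norm_sub_rev] at a1
      rw [Finset.sum_Ioc_succ_top hX, mul_add]
      linarith
  have h4 : ∀ N X : ℕ, N ≤ X → ‖u (N + 1) - u (X + 1)‖ ≤ (|C| + 1) * D * ((N : ℝ) + 1) ^ (-θ) :=
    fun N X hX => (h3 N X hX).trans (by
      rw [mul_assoc]
      exact mul_le_mul_of_nonneg_left (h2 N X) (by positivity))
  have h5 : Filter.Tendsto (fun N : ℕ => (|C| + 1) * D * ((N : ℝ) + 1) ^ (-θ)) Filter.atTop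
      (nhds 0) := by
    have := ((tendsto_rpow_neg_atTop hθ).comp
      (Filter.tendsto_atTop_add_const_right _ (1 : ℝ) tendsto_natCast_atTop_atTop)).const_mul
      ((|C| + 1) * D)
    simpa using this
  obtain ⟨c, hc⟩ := cauchySeq_tendsto_of_complete (cauchySeq_of_le_tendsto_0'
    (s := fun N => u (N + 1)) _ (fun N X hX => by simpa [dist_eq_norm] using h4 N X hX) h5)
  refine ⟨c, (|C| + 1) * D, by positivity, fun n hn => ?_⟩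
  obtain ⟨N, rfl⟩ : ∃ N, n = N + 1 := ⟨n - 1, by omega⟩
  push_cast
  exact le_of_tendsto (hc.const_sub (u (N + 1))).norm
    (Filter.eventually_atTop.2 ⟨N, fun X hX => h4 N X hX⟩)

theorem rs1_floor {z : ℝ} (hz : 1 ≤ z) :
    1 ≤ ⌊z⌋₊ ∧ (⌊z⌋₊ : ℝ) ≤ z ∧ z ≤ ⌊z⌋₊ + 1 ∧ z ≤ 2 * ⌊z⌋₊ := by
  have h1 : 1 ≤ ⌊z⌋₊ := Nat.le_floor (by simpa using hz)
  have h2 : (1 : ℝ) ≤ ⌊z⌋₊ := by exact_mod_cast h1
  have h3 := (Nat.lt_floor_add_one z).le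
  exact ⟨h1, Nat.floor_le (by linarith), h3, by linarith⟩

theorem rs1_gen {f : ℕ → ℝ} {g : ℝ → ℝ} {C : ℝ} (hC : 0 ≤ C)
    (h1 : ∀ n : ℕ, 1 ≤ n → |f (n + 1) - (g (n + 1) - g n)| ≤ C * (n : ℝ) ^ (-1 - 3 / 4 : ℝ))
    (h2 : ∀ z : ℝ, 1 ≤ z → |g z - g ⌊z⌋₊| ≤ C * z ^ (-3 / 4 : ℝ)) :
    ∃ c C : ℝ, 0 < C ∧ ∀ z : ℝ, 1 ≤ z →
      |∑ a ∈ Finset.Icc 1 ⌊z⌋₊, f a - g z - c| ≤ C * z ^ (-3 / 4 : ℝ) := by
  obtain ⟨c, D, hD, h3⟩ := rate (θ := 3 / 4) (by norm_num)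
    (u := fun n => ((∑ a ∈ Finset.Icc 1 n, f a - g n : ℝ) : ℂ)) (C := C) (fun n hn => by
      rw [← ofReal_sub, norm_real, Real.norm_eq_abs, Finset.sum_Icc_succ_top (by omega)]
      convert h1 n hn using 2
      push_cast
      ring)
  refine ⟨c.re, 2 * D + C, by positivity, fun z hz => ?_⟩
  obtain ⟨a1, a2, -, a3⟩ := rs1_floor hz
  have a4 := (abs_re_le_norm _).trans (h3 _ a1)
  have a5 : (⌊z⌋₊ : ℝ) ^ (-(3 / 4) : ℝ) ≤ 2 * z ^ (-3 / 4 : ℝ) := by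
    have b1 : (⌊z⌋₊ : ℝ) ^ (-(3 / 4) : ℝ) ≤ (z / 2) ^ (-(3 / 4) : ℝ) :=
      Real.rpow_le_rpow_of_nonpos (by linarith) (by linarith) (by norm_num)
    have b2 : (2 : ℝ) ^ (-1 : ℝ) ≤ (2 : ℝ) ^ (-(3 / 4) : ℝ) :=
      Real.rpow_le_rpow_of_exponent_le (by norm_num) (by norm_num)
    have b3 := Real.rpow_nonneg (show 0 ≤ z by linarith) (-(3 / 4) : ℝ)
    rw [Real.rpow_neg_one] at b2
    rw [Real.div_rpow (by linarith) (by norm_num)] at b1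
    rw [neg_div]
    refine b1.trans ((div_le_iff₀ (by positivity)).2 ?_)
    nlinarith
  have a6 := h2 z hz
  have a7 := mul_le_mul_of_nonneg_left a5 hD.le
  rw [sub_re, ofReal_re] at a4
  rw [abs_le] at a4 a6 ⊢
  constructor <;> linarith [a4.1, a4.2, a6.1, a6.2]

theorem rs1_log {x y : ℝ} (hx : 0 < x) (hy : 0 < y) :
    (y - x) / y ≤ Real.log y - Real.log x ∧ Real.log y - Real.log x ≤ (y - x) / x := by
  have h1 := Real.log_le_sub_one_of_pos (div_pos hx hy)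
  have h2 := Real.log_le_sub_one_of_pos (div_pos hy hx)
  rw [Real.log_div hx.ne' hy.ne'] at h1
  rw [Real.log_div hy.ne' hx.ne'] at h2
  rw [sub_div, sub_div, div_self hx.ne', div_self hy.ne']
  constructor <;> linarith

theorem rs1_step {x : ℝ} (hx : 1 ≤ x) : 0 ≤ Real.log (x + 1) - Real.log x ∧
    Real.log (x + 1) - Real.log x ≤ 1 / x ∧
    |1 / (x + 1) - (Real.log (x + 1) - Real.log x)| ≤ 1 / x ^ 2 := by
  obtain ⟨h1, h2⟩ := rs1_log (show 0 < x by linarith) (show 0 < x + 1 by linarith)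
  rw [add_sub_cancel_left] at h1 h2
  have h3 : 0 ≤ 1 / (x + 1) := by positivity
  have h4 : 1 / x - 1 / (x + 1) ≤ 1 / x ^ 2 := by
    rw [div_sub_div _ _ (by linarith) (by linarith), div_le_div_iff₀ (by positivity) (by positivity)]
    nlinarith
  have h5 : 0 ≤ 1 / x ^ 2 := by positivity
  exact ⟨by linarith, h2, abs_le.2 ⟨by linarith, by linarith⟩⟩

theorem rs1_fl {z : ℝ} (hz : 1 ≤ z) :
    0 ≤ Real.log z - Real.log ⌊z⌋₊ ∧ Real.log z - Real.log ⌊z⌋₊ ≤ 2 / z := by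
  obtain ⟨a1, a2, a3, a4⟩ := rs1_floor hz
  have a5 : (0 : ℝ) < ⌊z⌋₊ := by linarith
  refine ⟨sub_nonneg.2 (Real.log_le_log a5 a2), (rs1_log a5 (by linarith)).2.trans ?_⟩
  rw [div_le_div_iff₀ a5 (by linarith)]
  nlinarith

theorem rs1_pow {x : ℝ} (hx : 1 ≤ x) (k : ℕ) : 1 ≤ x ^ (1 / 4 : ℝ) ∧ Real.log x ≤ 4 * x ^ (1 / 4 : ℝ) ∧
    x ^ (1 / 4 - k : ℝ) = x ^ (1 / 4 : ℝ) * (1 / x ^ k) := by
  refine ⟨Real.one_le_rpow hx (by norm_num), ?_, ?_⟩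
  · linarith [Real.log_le_rpow_div (show 0 ≤ x by linarith) (show (0 : ℝ) < 1 / 4 by norm_num)]
  · rw [Real.rpow_sub_natCast (by linarith), mul_one_div]

theorem harm_one : ∃ c C : ℝ, 0 < C ∧ ∀ z : ℝ, 1 ≤ z →
    |∑ a ∈ Finset.Icc 1 ⌊z⌋₊, (1 : ℝ) / a - Real.log z - c| ≤ C * z ^ (-3 / 4 : ℝ) := by
  refine rs1_gen (f := fun a => (1 : ℝ) / a) (C := 2) (by norm_num) (fun n hn => ?_) fun z hz => ?_
  · have a1 : (1 : ℝ) ≤ n := by exact_mod_cast hn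
    obtain ⟨a2, -, a3⟩ := rs1_pow a1 2
    have a4 : 0 ≤ 1 / (n : ℝ) ^ 2 := by positivity
    rw [show (-1 - 3 / 4 : ℝ) = 1 / 4 - (2 : ℕ) by norm_num, a3]
    push_cast
    nlinarith [(rs1_step a1).2.2]
  · obtain ⟨a2, -, a3⟩ := rs1_pow hz 1
    obtain ⟨a4, a5⟩ := rs1_fl hz
    have a6 : 2 / z = 2 * (1 / z ^ 1) := by ring
    have a7 : 0 ≤ 1 / z ^ 1 := by positivity
    rw [show (-3 / 4 : ℝ) = 1 / 4 - (1 : ℕ) by norm_num, a3, abs_of_nonneg a4]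
    nlinarith

theorem harm_two : ∃ c C : ℝ, 0 < C ∧ ∀ z : ℝ, 1 ≤ z →
    |∑ a ∈ Finset.Icc 1 ⌊z⌋₊, Real.log a / a - Real.log z ^ 2 / 2 - c| ≤ C * z ^ (-3 / 4 : ℝ) := by
  refine rs1_gen (f := fun a => Real.log a / a) (g := fun z => Real.log z ^ 2 / 2) (C := 8)
    (by norm_num) (fun n hn => ?_) fun z hz => ?_
  · have a1 : (1 : ℝ) ≤ n := by exact_mod_cast hn
    obtain ⟨a2, a3, a4⟩ := rs1_pow a1 2
    obtain ⟨a5, a6, a7⟩ := rs1_step a1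
    have a8 := Real.log_natCast_nonneg n
    have a9 : 0 ≤ 1 / (n : ℝ) ^ 2 := by positivity
    have b1 : 1 / (n : ℝ) ≤ 1 := by
      rw [div_le_one (by linarith)]
      exact a1
    have b2 : (Real.log (n + 1) - Real.log n) ^ 2 ≤ 1 / (n : ℝ) ^ 2 := by
      rw [← one_div_pow]
      exact pow_le_pow_left₀ a5 a6 2
    rw [show (-1 - 3 / 4 : ℝ) = 1 / 4 - (2 : ℕ) by norm_num, a4]
    push_cast
    have b3 : Real.log (n + 1) / (n + 1) - (Real.log (n + 1) ^ 2 / 2 - Real.log n ^ 2 / 2) =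
        Real.log (n + 1) * (1 / (n + 1) - (Real.log (n + 1) - Real.log n)) +
          (Real.log (n + 1) - Real.log n) ^ 2 / 2 := by ring
    have b4 : Real.log (n + 1) ≤ 5 * (n : ℝ) ^ (1 / 4 : ℝ) := by linarith
    have b5 := mul_le_mul b4 a7 (abs_nonneg _) (by positivity)
    rw [b3]
    refine (abs_add_le _ _).trans ?_
    rw [abs_mul, abs_of_nonneg (show 0 ≤ Real.log (n + 1) by linarith),
      abs_of_nonneg (show 0 ≤ (Real.log (n + 1) - Real.log n) ^ 2 / 2 by positivity)]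
    nlinarith
  · obtain ⟨a2, a3, a4⟩ := rs1_pow hz 1
    obtain ⟨a5, a6⟩ := rs1_fl hz
    have a7 := Real.log_natCast_nonneg ⌊z⌋₊
    have b3 : Real.log z ^ 2 / 2 - Real.log ⌊z⌋₊ ^ 2 / 2 =
        (Real.log z - Real.log ⌊z⌋₊) * ((Real.log z + Real.log ⌊z⌋₊) / 2) := by ring
    have b4 : (Real.log z + Real.log ⌊z⌋₊) / 2 ≤ 4 * z ^ (1 / 4 : ℝ) := by linarith
    have b5 : 0 ≤ (Real.log z + Real.log ⌊z⌋₊) / 2 := by linarith
    have b6 := mul_le_mul a6 b4 b5 (by positivity)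
    rw [show (-3 / 4 : ℝ) = 1 / 4 - (1 : ℕ) by norm_num, a4, b3, abs_of_nonneg (mul_nonneg a5 b5)]
    exact b6.trans (le_of_eq (by ring))

end Pool.Agent.Lib.MP_2a1a00_nt
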