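import Pool.Agent.Lib.MP_2a1a00_nt.Stmt

/-! The definitions used in the statement on the mixed moment of two divisor problems. -/

namespace Pool.Agent.Lib.MP_2a1a00_nt

open Complex

/-- The error term `∑ n ≤ x, d_k n - Res (ζ s ^ k * x ^ s / s)` of the divisor problem of order `k`,
the residue at `s = 1` being the integral over the circle `|s - 1| = 1 / 2`. -/
noncomputable def Del (k : ℕ) (x : ℝ) : ℂ :=
  ∑ n ∈ Finset.Icc 1 ⌊x⌋₊, (((ArithmeticFunction.zeta ^ k) n : ℕ) : ℂ) -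
    (2 * Real.pi * I)⁻¹ * ∮ s in C(1, 1 / 2), riemannZeta s ^ k * ((x : ℂ) ^ s / s)

/-- The multiplicative function with the value `v + 1 - v / p` at `p ^ v`. -/
noncomputable def gm (m : ℕ) : ℝ :=
  ∏ p ∈ m.primeFactors, ((m.factorization p : ℝ) + 1 - (m.factorization p : ℝ) / p)

/-- The constant `(48 π ^ 2)⁻¹ * ∑ d m * gm m / m ^ (3 / 2)`. -/
noncomputable def cc : ℝ :=
  1 / (48 * Real.pi ^ 2) * ∑' m : ℕ, (m.divisors.card : ℝ) * gm m / (m : ℝ) ^ (3 / 2 : ℝ)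

/-- The integrand `Δ₂ x * Δ₃ x * |L (1 / 2 + i x)| ^ 2`. -/
noncomputable def hz3 (L : Sel) (x : ℝ) : ℂ :=
  Del 2 x * Del 3 x * ((‖L.L (1 / 2 + x * I)‖ ^ 2 : ℝ) : ℂ)

end Pool.Agent.Lib.MP_2a1a00_nt
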