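import Pool.Agent.Lib.MP_2a1a00_nt.R.Defs
import Pool.Agent.Lib.MP_2a1a00_nt.Tw
import Pool.Agent.Lib.MP_2a1a00_nt.V.Gb

/-! The diagonal part of the square of the modulus. -/

namespace Pool.Agent.Lib.MP_2a1a00_nt

open Complex MeasureTheory Set

theorem rt0_dec {η : ℝ} (h0 : 0 < η) (u : ℝ) :
    Dec (fun s => exp (s * u) / s * gW 1 s) η 2 := by
  have hne : ∀ s ∈ St η 2, s ≠ 0 := fun s hs h => by
    have := hs.1
    rw [h, zero_re] at this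
    linarith
  refine dec_gW (C := Real.exp (2 * |u|) / η) (K := 0) one_pos
    (DifferentiableOn.div (by fun_prop) differentiableOn_id hne) fun s hs => ?_
  rw [Real.rpow_zero, mul_one, norm_div, Complex.norm_exp, Complex.re_mul_ofReal]
  have h1 := hs.1
  have h2 := hs.2
  refine div_le_div₀ (Real.exp_pos _).le (Real.exp_le_exp.2 ?_) h0 (h1.trans (re_le_norm s))
  have h3 : s.re * u ≤ s.re * |u| := mul_le_mul_of_nonneg_left (le_abs_self u) (by linarith)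
  have h4 : s.re * |u| ≤ 2 * |u| := mul_le_mul_of_nonneg_right h2 (abs_nonneg u)
  linarith

theorem rt0_ln {η : ℝ} (h0 : 0 < η) (h1 : η ≤ 2) (u : ℝ) :
    Ln (fun s => exp (s * u) / s * gW 1 s) η = (cdf 1 u : ℝ) := by
  rw [(rt0_dec h0 u).shift h1, ← Ln_cdf one_pos u]
  exact Ln_congr fun v => by ring

theorem rt0_eq (F : Sel) {η : ℝ} (h0 : 0 < η) (h1 : η ≤ 2) (Y : ℕ) (x : ℝ) :
    Ln (fun z => dg (F.co z) Y * F.wt x z) η =
      ((∑ p ∈ (Pr Y).filter fun p => p.1 = p.2, ‖F.f p.1‖ ^ 2 / p.1 *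
        cdf 1 (Real.log F.q + F.deg * Real.log x - 2 * Real.log p.1) : ℝ) : ℂ) := by
  have e : ∀ z : ℂ, dg (F.co z) Y * F.wt x z = ∑ p ∈ (Pr Y).filter fun p => p.1 = p.2,
      ((‖F.f p.1‖ ^ 2 / p.1 : ℝ) : ℂ) *
        (exp (z * (Real.log F.q + F.deg * Real.log x - 2 * Real.log p.1 : ℝ)) / z * gW 1 z) := by
    intro z
    rw [dg, Finset.sum_mul]
    refine Finset.sum_congr rfl fun p hp => ?_
    obtain ⟨hp1, hp2⟩ := Finset.mem_filter.1 hp
    have ha : (0 : ℝ) < p.1 := by exact_mod_cast (mem_Pr.1 hp1).1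
    have e1 : ((p.1 * p.1 : ℕ) : ℂ) ^ (-(1 / 2) - z) =
        ((p.1 : ℝ) : ℂ)⁻¹ * exp (-(2 * z * (Real.log p.1 : ℝ))) := by
      have e2 : ((p.1 * p.1 : ℕ) : ℂ) = (((p.1 : ℝ) * p.1 : ℝ) : ℂ) := by push_cast; rfl
      have e3 : ((p.1 : ℝ) : ℂ)⁻¹ = exp (-(Real.log p.1 : ℝ)) := by
        rw [exp_neg, ← ofReal_exp, Real.exp_log ha]
      rw [e2, px_cpow _ (mul_pos ha ha), px, Real.log_mul ha.ne' ha.ne', e3, ← exp_add]
      congr 1
      push_cast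
      ring
    have e4 : exp (-(2 * z * (Real.log p.1 : ℝ))) *
        exp (z * (Real.log F.q + F.deg * Real.log x : ℝ) + z ^ 2) =
        exp (z * (Real.log F.q + F.deg * Real.log x - 2 * Real.log p.1 : ℝ)) * gW 1 z := by
      rw [gW, ← exp_add, ← exp_add]
      congr 1
      generalize Real.log (p.1 : ℝ) = l
      push_cast
      ring
    rw [Sel.co, Sel.wt, ← hp2, e1, mul_conj', ofReal_div, ofReal_pow]
    linear_combination ((‖F.f p.1‖ : ℝ) : ℂ) ^ 2 * ((p.1 : ℝ) : ℂ)⁻¹ / z * e4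
  simp only [e]
  rw [Ln, integral_finsetSum _ fun p _ =>
    ((rt0_dec h0 _).integrable le_rfl h1).const_mul _, Finset.mul_sum, ofReal_sum]
  refine Finset.sum_congr rfl fun p _ => ?_
  rw [ofReal_mul, ← rt0_ln h0 h1, ← Ln_const_mul, Ln]

/- Copy the second part of the proof of `tw`.  There `M T x = 2 * Ln (fun z => dg (co z) Y * wt x z) η` with
`Y = ⌊T ^ (deg + η)⌋₊`; it equals `2 * ∑ p ∈ (Pr Y).filter (p.1 = p.2), ‖f p.1‖ ^ 2 / p.1 *
cdf 1 (log q + deg * log x - 2 * log p.1)` by `Ln_cdf` and `Dec.shift` from `η` to `2`.  `cdf_deriv`, `ph_pos`,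
`vgb_nonneg`. -/
theorem tw_mono (F : Sel) {ε : ℝ} (hε : 0 < ε) : ∃ (C : ℝ) (M M' : ℝ → ℝ → ℝ), 0 < C ∧
    (∀ T x, 0 ≤ M T x) ∧ (∀ T x, 0 < x → HasDerivAt (M T) (M' T x) x ∧ 0 ≤ M' T x) ∧
    (∀ T, ContinuousOn (M' T) (Ioi 0)) ∧ (∀ T T' x, 1 ≤ T → T ≤ T' → M T x ≤ M T' x) ∧
    ∀ T : ℝ, 1 ≤ T → ∀ (G G' : ℝ → ℂ) (lam B₁ B₂ B₃ : ℝ), Nice G G' T → 1 / T ≤ lam → lam ≤ 1 →
      (∀ x ∈ Icc T (2 * T), ‖G x‖ ≤ B₁) → nm G T ≤ B₂ → nm G' T ≤ B₃ →
      ‖∫ x in T..2 * T, G x * (F.L2 x - (M T x : ℝ))‖ ≤ C * T ^ ε * (T ^ (F.deg / 2) * B₁ +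
        √((T + T ^ F.deg) * lam) * B₂ + √((T + T ^ F.deg) / lam) * B₃) := by
  have hd := F.deg_nonneg
  obtain ⟨η, h0, h1, h2⟩ : ∃ η : ℝ, 0 < η ∧ η ≤ 1 / 2 ∧ η * (2 * F.deg + 2) ≤ ε :=
    ⟨min (1 / 2) (ε / (2 * F.deg + 2)), by positivity, min_le_left _ _,
      (le_div_iff₀ (by positivity)).1 (min_le_right _ _)⟩
  obtain ⟨Cf, hCf, Hf⟩ := F.fub h0
  obtain ⟨K, hK, HK⟩ := F.co_le h0
  obtain ⟨Cd, hCd, Hd⟩ := dg_le h0
  obtain ⟨Ct, hCt, Ht⟩ := tw_z h0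
  obtain ⟨Ca, hCa, Ha⟩ := F.afe h0 h1
  refine ⟨Ca + 2 * Cf * ((Cd + Ct) * K * (1 + F.deg) * 2 ^ F.deg),
    fun T x => 2 * ∑ p ∈ (Pr ⌊T ^ (F.deg + η)⌋₊).filter fun p => p.1 = p.2, ‖F.f p.1‖ ^ 2 / p.1 *
      cdf 1 (Real.log F.q + F.deg * Real.log x - 2 * Real.log p.1),
    fun T x => 2 * ∑ p ∈ (Pr ⌊T ^ (F.deg + η)⌋₊).filter fun p => p.1 = p.2, ‖F.f p.1‖ ^ 2 / p.1 *
      (ph 1 (Real.log F.q + F.deg * Real.log x - 2 * Real.log p.1) * (F.deg * x⁻¹)),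
    by positivity, fun T x => ?_, fun T x hx => ⟨?_, ?_⟩, fun T => ?_, fun T T' x hT hTT => ?_,
    fun T hT G G' lam B₁ B₂ B₃ hG hl0 hl1 hB1 hB2 hB3 => ?_⟩
  · exact mul_nonneg zero_le_two (Finset.sum_nonneg fun p _ =>
      mul_nonneg (by positivity) (vgb_nonneg one_pos _))
  · refine HasDerivAt.const_mul _ (HasDerivAt.fun_sum fun p _ => HasDerivAt.const_mul _ ?_)
    exact (cdf_deriv one_pos _).comp x
      ((((Real.hasDerivAt_log hx.ne').const_mul F.deg).const_add _).sub_const _)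
  · exact mul_nonneg zero_le_two (Finset.sum_nonneg fun p _ =>
      mul_nonneg (by positivity) (mul_nonneg (ph_pos one_pos _).le (by positivity)))
  · have hl : ContinuousOn Real.log (Ioi 0) :=
      Real.continuousOn_log.mono fun x hx => ne_of_gt hx
    refine continuousOn_const.mul (continuousOn_finsetSum _ fun p _ => continuousOn_const.mul ?_)
    exact ((continuous_ph 1).comp_continuousOn
      ((continuousOn_const.add (continuousOn_const.mul hl)).sub continuousOn_const)).mul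
      (continuousOn_const.mul (continuousOn_inv₀.mono fun x hx => ne_of_gt hx))
  · have hm : ⌊T ^ (F.deg + η)⌋₊ ≤ ⌊T' ^ (F.deg + η)⌋₊ :=
      Nat.floor_mono (Real.rpow_le_rpow (by linarith) hTT (by positivity))
    refine mul_le_mul_of_nonneg_left (Finset.sum_le_sum_of_subset_of_nonneg
      (Finset.filter_subset_filter _ fun p hp => ?_) fun p _ _ =>
        mul_nonneg (by positivity) (vgb_nonneg one_pos _)) zero_le_two
    obtain ⟨a1, a2, a3⟩ := mem_Pr.1 hp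
    exact mem_Pr.2 ⟨a1, a2, a3.trans hm⟩
  have hT0 : 0 < T := one_pos.trans_le hT
  have hTT : T ≤ 2 * T := by linarith
  have hTm : T ∈ Icc T (2 * T) := ⟨le_rfl, hTT⟩
  have hE : 1 ≤ T ^ η := Real.one_le_rpow hT h0.le
  obtain ⟨Y, hYe⟩ : ∃ Y : ℕ, Y = ⌊T ^ (F.deg + η)⌋₊ := ⟨_, rfl⟩
  have hY1 : 1 ≤ Y := hYe ▸ (Nat.one_le_floor_iff _).2 (Real.one_le_rpow hT (by positivity))
  have hY : (Y : ℝ) ≤ T ^ (F.deg + η) := hYe ▸ Nat.floor_le (by positivity)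
  have hpow := Sel.Tw_pow hd h0 h1 h2 hT (Nat.cast_nonneg Y) hY
  obtain ⟨hs1, hs2⟩ := Sel.Tw_sqrt h0 hT hY
  have hco : ∀ v : ℝ, ∀ p ∈ Pr Y, ‖F.co (η + v * I) p‖ ≤ K * w0 p := fun v =>
    HK Y _ (by simp)
  have hdg : ∀ v : ℝ, ‖dg (F.co (η + v * I)) Y‖ ≤ Cd * K * (Y : ℝ) ^ η := fun v =>
    Hd Y _ K hY1 hK.le (hco v)
  obtain ⟨c1, i1, b1⟩ := Hf T _ (fun z _ => dg (F.co z) Y) hT
    ((F.Tw_dg Y η).comp continuous_fst) fun v _ => hdg v
  obtain ⟨c2, i2, b2⟩ := Hf T (∑ p ∈ Pr Y, K * w0 p + Cd * K * (Y : ℝ) ^ η)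
    (fun z x => PP (F.co z) (Pr Y) x - dg (F.co z) Y) hT
    ((F.Tw_PP Y η).sub ((F.Tw_dg Y η).comp continuous_fst)) fun v x => by
      refine (norm_sub_le _ _).trans (add_le_add ?_ (hdg v))
      refine (norm_sum_le _ _).trans (Finset.sum_le_sum fun p hp => ?_)
      rw [norm_mul, norm_osc, mul_one]
      exact hco v p hp
  simp only [← hYe, ofReal_mul, ofReal_ofNat, ← rt0_eq F h0 (by linarith : η ≤ 2)]
  have hl : 0 < lam := (one_div_pos.2 hT0).trans_le hl0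
  have p1 : 0 ≤ B₁ := (norm_nonneg _).trans (hB1 T hTm)
  have p2 : 0 ≤ B₂ := (nm_nonneg _ _).trans hB2
  have p3 : 0 ≤ B₃ := (nm_nonneg _ _).trans hB3
  obtain ⟨R, hR⟩ : ∃ R : ℝ, R = T ^ (F.deg / 2) * B₁ + √((T + T ^ F.deg) * lam) * B₂ +
    √((T + T ^ F.deg) / lam) * B₃ := ⟨_, rfl⟩
  have hR0 : 0 ≤ R := by rw [hR]; positivity
  have hR1 : T ^ (F.deg / 2) * B₁ ≤ R := by
    rw [hR, add_assoc]
    exact le_add_of_nonneg_right (by positivity)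
  have hR2 : √Y * B₁ + √((T + Y) * lam) * B₂ + √((T + Y) / lam) * B₃ ≤ T ^ η * R := by
    have q2 := hs2 lam hl.le
    have q3 := hs2 lam⁻¹ (inv_nonneg.2 hl.le)
    simp only [← div_eq_mul_inv] at q3
    rw [hR, mul_add, mul_add, ← mul_assoc, ← mul_assoc, ← mul_assoc]
    gcongr
  rw [← hR]
  have h3 := b2 G (Ct * K * (Y : ℝ) ^ η * (1 + F.deg) * (2 * T) ^ (η * F.deg) * (T ^ η * R))
    hG.cont fun v => by
      obtain ⟨w1, w2⟩ := F.Tw_w h0 h1 v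
      have h4 := Ht Y _ K T lam B₁ B₂ B₃ ((η + v * I) * F.deg) G G' hY1 hK.le (hco v) hT
        (by rw [w1]; positivity) hG hl0 hl1 hB1 hB2 hB3
      rw [w1] at h4
      refine h4.trans ?_
      calc _ ≤ Ct * K * (Y : ℝ) ^ η * ((1 + |v|) * (1 + F.deg)) * (2 * T) ^ (η * F.deg) *
            (T ^ η * R) := by gcongr
        _ = _ := by ring
  have hL : Continuous F.L2 :=
    Complex.continuous_ofReal.comp (F.continuous_L_half.norm.pow 2)
  have e1 : ∀ x ∈ Icc T (2 * T), Ln (fun z => PP (F.co z) (Pr Y) x * F.wt x z) η =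
      Ln (fun z => (PP (F.co z) (Pr Y) x - dg (F.co z) Y) * F.wt x z) η +
        Ln (fun z => dg (F.co z) Y * F.wt x z) η := fun x hx => by
    rw [← Ln_add (i2 x hx) (i1 x hx)]
    exact Ln_congr fun v => by ring
  have c3 : ContinuousOn (fun x => G x * (F.L2 x - 2 * Ln (fun z => dg (F.co z) Y * F.wt x z) η -
      2 * Ln (fun z => (PP (F.co z) (Pr Y) x - dg (F.co z) Y) * F.wt x z) η)) (Icc T (2 * T)) :=
    hG.cont.mul ((hL.continuousOn.sub (continuousOn_const.mul c1)).sub (continuousOn_const.mul c2))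
  have c4 : ContinuousOn (fun x => 2 * (G x *
      Ln (fun z => (PP (F.co z) (Pr Y) x - dg (F.co z) Y) * F.wt x z) η)) (Icc T (2 * T)) :=
    continuousOn_const.mul (hG.cont.mul c2)
  have e2 : ∫ x in T..2 * T, G x * (F.L2 x - 2 * Ln (fun z => dg (F.co z) Y * F.wt x z) η) =
      (∫ x in T..2 * T, G x * (F.L2 x - 2 * Ln (fun z => dg (F.co z) Y * F.wt x z) η -
        2 * Ln (fun z => (PP (F.co z) (Pr Y) x - dg (F.co z) Y) * F.wt x z) η)) +
      2 * ∫ x in T..2 * T, G x *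
        Ln (fun z => (PP (F.co z) (Pr Y) x - dg (F.co z) Y) * F.wt x z) η := by
    rw [← intervalIntegral.integral_const_mul, ← intervalIntegral.integral_add
      (c3.intervalIntegrable_of_Icc hTT) (c4.intervalIntegrable_of_Icc hTT)]
    exact intervalIntegral.integral_congr fun x _ => by ring
  have h6 : ‖∫ x in T..2 * T, G x * (F.L2 x - 2 * Ln (fun z => dg (F.co z) Y * F.wt x z) η -
      2 * Ln (fun z => (PP (F.co z) (Pr Y) x - dg (F.co z) Y) * F.wt x z) η)‖ ≤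
      B₁ * (Ca * T ^ (F.deg * (1 / 2 + η) - 1)) * |2 * T - T| := by
    refine intervalIntegral.norm_integral_le_of_norm_le_const fun x hx => ?_
    rw [uIoc_of_le hTT] at hx
    have hx' : x ∈ Icc T (2 * T) := Ioc_subset_Icc_self hx
    have h7 := Ha T x hT hx'
    rw [← hYe, e1 x hx', mul_add, add_comm, ← sub_sub] at h7
    rw [norm_mul]
    exact mul_le_mul (hB1 x hx') h7 (norm_nonneg _) p1
  have h8 : T ^ (F.deg * (1 / 2 + η) - 1) * T ≤ T ^ ε * T ^ (F.deg / 2) := by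
    rw [← Real.rpow_add_one hT0.ne', ← Real.rpow_add hT0]
    exact Real.rpow_le_rpow_of_exponent_le hT (by nlinarith)
  rw [show 2 * T - T = T by ring, abs_of_pos hT0] at h6
  rw [e2]
  refine (norm_add_le _ _).trans ?_
  rw [norm_mul, Complex.norm_ofNat, add_mul, add_mul]
  refine add_le_add (h6.trans ?_) ?_
  · calc B₁ * (Ca * T ^ (F.deg * (1 / 2 + η) - 1)) * T
        = Ca * (T ^ (F.deg * (1 / 2 + η) - 1) * T) * B₁ := by ring
      _ ≤ Ca * (T ^ ε * T ^ (F.deg / 2)) * B₁ := by gcongr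
      _ = Ca * T ^ ε * (T ^ (F.deg / 2) * B₁) := by ring
      _ ≤ _ := by gcongr
  · calc _ ≤ 2 * (Cf * (Ct * K * (Y : ℝ) ^ η * (1 + F.deg) * (2 * T) ^ (η * F.deg) *
          (T ^ η * R))) := by gcongr
      _ = 2 * Cf * (Ct * K * (1 + F.deg)) * ((Y : ℝ) ^ η * (2 * T) ^ (η * F.deg) * T ^ η) * R := by
          ring
      _ ≤ 2 * Cf * ((Cd + Ct) * K * (1 + F.deg)) * (2 ^ F.deg * T ^ ε) * R := by
          gcongr
          linarith
      _ = _ := by ring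

end Pool.Agent.Lib.MP_2a1a00_nt
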