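import Pool.Agent.Lib.MP_2a1a00_nt.R.Defs

/-! Monotone weights. -/

namespace Pool.Agent.Lib.MP_2a1a00_nt

open Complex MeasureTheory Set

/- Integrate by parts. -/
theorem mono_parts {g : ℝ → ℂ} {w w' : ℝ → ℝ} {T Z : ℝ} (hT : 0 < T)
    (hg : ContinuousOn g (Icc T (2 * T))) (hw : ∀ x, 0 < x → HasDerivAt w (w' x) x ∧ 0 ≤ w' x)
    (hw' : ContinuousOn w' (Ioi 0)) (hZ : ∀ z ∈ Icc T (2 * T), ‖∫ x in T..z, g x‖ ≤ Z) :
    ‖(∫ x in T..2 * T, g x * (w x : ℝ)) - (w T : ℝ) * ∫ x in T..2 * T, g x‖ ≤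
      2 * Z * (w (2 * T) - w T) := by
  have h2 : T ≤ 2 * T := by linarith
  have hI : uIcc T (2 * T) = Icc T (2 * T) := uIcc_of_le h2
  have hpos : ∀ x ∈ uIcc T (2 * T), 0 < x := fun x hx => hT.trans_le (hI ▸ hx).1
  have gi : IntervalIntegrable g volume T (2 * T) := (hI ▸ hg).intervalIntegrable
  have wc : ContinuousOn w' (uIcc T (2 * T)) := hw'.mono hpos
  have Gc : ContinuousOn (fun z => ∫ x in T..z, g x) (uIcc T (2 * T)) :=
    intervalIntegral.continuousOn_primitive_interval' gi left_mem_uIcc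
  have hd : ∀ x ∈ uIcc T (2 * T), HasDerivAt (fun x => ((w x : ℝ) : ℂ)) ((w' x : ℝ) : ℂ) x :=
    fun x hx => (hw x (hpos x hx)).1.ofReal_comp
  have wc' : ContinuousOn (fun x => ((w' x : ℝ) : ℂ)) (uIcc T (2 * T)) :=
    continuous_ofReal.comp_continuousOn wc
  have key := intervalIntegral.integral_mul_deriv_eq_deriv_mul_of_hasDerivAt
    (u := fun x => ((w x : ℝ) : ℂ)) (v := fun z => ∫ x in T..z, g x)
    (u' := fun x => ((w' x : ℝ) : ℂ)) (v' := g) (a := T) (b := 2 * T)
    (fun x hx => (hd x hx).continuousAt.continuousWithinAt) Gc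
    (fun x hx => hd x (Ioo_subset_Icc_self hx)) (fun x hx => by
      rw [min_eq_left h2, max_eq_right h2] at hx
      refine intervalIntegral.integral_hasDerivAt_right (gi.mono_set ?_)
        ((hg.mono Ioo_subset_Icc_self).stronglyMeasurableAtFilter isOpen_Ioo x hx)
        (hg.continuousAt (Icc_mem_nhds hx.1 hx.2))
      rw [hI, uIcc_of_le hx.1.le]
      exact Icc_subset_Icc_right hx.2.le) wc'.intervalIntegrable gi
  have e1 : ∫ x in T..2 * T, w' x = w (2 * T) - w T :=
    intervalIntegral.integral_eq_sub_of_hasDerivAt (fun x hx => (hw x (hpos x hx)).1)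
      wc.intervalIntegrable
  have e0 : 0 ≤ w (2 * T) - w T := by
    rw [← e1]
    exact intervalIntegral.integral_nonneg h2 fun x hx => (hw x (hT.trans_le hx.1)).2
  have b1 : ‖∫ x in T..2 * T, ((w' x : ℝ) : ℂ) * ∫ y in T..x, g y‖ ≤ (w (2 * T) - w T) * Z := by
    rw [← e1, ← intervalIntegral.integral_mul_const]
    refine intervalIntegral.norm_integral_le_of_norm_le h2 (Filter.Eventually.of_forall
      fun x hx => ?_) (wc.intervalIntegrable.mul_const Z)
    have k := (hw x (hT.trans hx.1)).2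
    rw [norm_mul, norm_real, Real.norm_of_nonneg k]
    exact mul_le_mul_of_nonneg_left (hZ x ⟨hx.1.le, hx.2⟩) k
  have b2 : ‖((w (2 * T) - w T : ℝ) : ℂ) * ∫ y in T..2 * T, g y‖ ≤ (w (2 * T) - w T) * Z := by
    rw [norm_mul, norm_real, Real.norm_of_nonneg e0]
    exact mul_le_mul_of_nonneg_left (hZ _ ⟨h2, le_rfl⟩) e0
  have e2 : (∫ x in T..2 * T, g x * (w x : ℝ)) - (w T : ℝ) * ∫ x in T..2 * T, g x =
      ((w (2 * T) - w T : ℝ) : ℂ) * (∫ y in T..2 * T, g y) -
        ∫ x in T..2 * T, ((w' x : ℝ) : ℂ) * ∫ y in T..x, g y := by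
    simp only [mul_comm (g _), key, intervalIntegral.integral_same]
    push_cast
    ring
  rw [e2]
  linarith [norm_sub_le (((w (2 * T) - w T : ℝ) : ℂ) * ∫ y in T..2 * T, g y)
    (∫ x in T..2 * T, ((w' x : ℝ) : ℂ) * ∫ y in T..x, g y)]

/- `Polynomial.isEquivalent_atTop_lead`, or induction. -/
theorem poly_lim (P : Polynomial ℝ) (c : ℝ) : Filter.Tendsto
    (fun T : ℝ => P.eval (Real.log T + c) / Real.log T ^ P.natDegree) Filter.atTop
      (nhds P.leadingCoeff) := by
  by_cases hP : P = 0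
  · simp [hP]
  have h := (Polynomial.div_tendsto_atTop_leadingCoeff_div_of_degree_eq (Polynomial.taylor c P)
    (Polynomial.X ^ P.natDegree) (by
      rw [Polynomial.degree_taylor, Polynomial.degree_X_pow, Polynomial.degree_eq_natDegree hP])).comp
    Real.tendsto_log_atTop
  simpa [Function.comp_def, Polynomial.taylor_eval] using h

theorem rt1_avg {w : ℝ → ℝ} (hw : Continuous w) {M M' : ℝ → ℝ → ℝ} {P : Polynomial ℝ} {η C C' : ℝ}
    (hη : 0 < η) (h1 : ∀ T x, 0 < x → HasDerivAt (M T) (M' T x) x ∧ 0 ≤ M' T x)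
    (h3 : ∀ T, 1 ≤ T → |∫ x in T..2 * T, (w x - M T x)| ≤ C * T ^ (3 / 4 : ℝ))
    (h4 : ∀ T, 1 ≤ T → |(∫ x in (1 : ℝ)..T, w x) - T * P.eval (Real.log T)| ≤ C' * T ^ (1 - η))
    {κ : ℝ} (hκ : 0 < κ) :
    Filter.Tendsto (fun T => (∫ x in κ * T..2 * (κ * T), M (κ * T) x) / (κ * T) /
      Real.log T ^ P.natDegree) Filter.atTop (nhds P.leadingCoeff) := by
  let r : ℝ → ℝ := fun S => (∫ x in S..2 * S, M S x) / S -
    (2 * P.eval (Real.log (2 * S)) - P.eval (Real.log S))
  have hr : Filter.Tendsto r Filter.atTop (nhds 0) := by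
    have a1 := (tendsto_rpow_neg_atTop (y := 1 / 4) (by norm_num)).const_mul C
    have a2 := (tendsto_rpow_neg_atTop hη).const_mul (C' * (2 ^ (1 - η) + 1))
    refine squeeze_zero_norm' ?_ (by simpa only [mul_zero, add_zero] using a1.add a2)
    filter_upwards [Filter.eventually_ge_atTop (1 : ℝ)] with S hS
    have S0 : 0 < S := by linarith
    have Mi : IntervalIntegrable (M S) volume S (2 * S) := by
      refine ContinuousOn.intervalIntegrable fun x hx => ?_
      rw [uIcc_of_le (by linarith)] at hx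
      exact (h1 S x (S0.trans_le hx.1)).1.continuousAt.continuousWithinAt
    have k3 := h3 S hS
    have k4 := h4 S hS
    have k5 := h4 (2 * S) (by linarith)
    rw [intervalIntegral.integral_sub (hw.intervalIntegrable _ _) Mi,
      ← intervalIntegral.integral_interval_sub_left (hw.intervalIntegrable 1 _)
        (hw.intervalIntegrable 1 _)] at k3
    rw [Real.mul_rpow (by norm_num) S0.le] at k5
    have e1 : S ^ (3 / 4 : ℝ) = S ^ (-(1 / 4) : ℝ) * S := by
      rw [← Real.rpow_add_one S0.ne']; norm_num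
    have e2 : S ^ (1 - η) = S ^ (-η) * S := by
      rw [← Real.rpow_add_one S0.ne']; ring_nf
    have e3 : r S = ((∫ x in S..2 * S, M S x) -
        (2 * S * P.eval (Real.log (2 * S)) - S * P.eval (Real.log S))) / S := by
      simp only [r]; field_simp
    rw [e3, Real.norm_eq_abs, abs_div, abs_of_pos S0, div_le_iff₀ S0, abs_le]
    rw [e1, abs_le] at k3
    rw [e2, abs_le] at k4 k5
    constructor <;> nlinarith [k3.1, k3.2, k4.1, k4.2, k5.1, k5.2]
  have hr2 : Filter.Tendsto (fun T => r (κ * T) / Real.log T ^ P.natDegree) Filter.atTop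
      (nhds 0) := by
    refine squeeze_zero_norm' ?_ (by
      simpa only [norm_zero] using (hr.comp (Filter.tendsto_id.const_mul_atTop hκ)).norm)
    filter_upwards [Real.tendsto_log_atTop.eventually_ge_atTop 1] with T hT
    have := one_le_pow₀ hT (n := P.natDegree)
    rw [norm_div, Real.norm_of_nonneg (by linarith : 0 ≤ Real.log T ^ P.natDegree)]
    exact div_le_self (norm_nonneg _) this
  have h := hr2.add (((poly_lim P (Real.log (2 * κ))).const_mul 2).sub (poly_lim P (Real.log κ)))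
  rw [show 0 + (2 * P.leadingCoeff - P.leadingCoeff) = P.leadingCoeff by ring] at h
  refine h.congr' ?_
  filter_upwards [Filter.eventually_gt_atTop (0 : ℝ)] with T hT
  simp only [r]
  rw [← Real.log_mul hT.ne' (by positivity), ← Real.log_mul hT.ne' hκ.ne', mul_comm T κ,
    show T * (2 * κ) = 2 * (κ * T) by ring]
  ring

/- The last property with `G = 1`, `lam = 1 / T` compares the integrals of `M T` and of `w` over `T..2 T`.  By
monotonicity `M T T ≥ M (T / 2) T ≥ (2 / T) ∫ M (T / 2)` and `M T (2 T) ≤ M (2 T) (2 T) ≤ (1 / (2 T)) ∫ M (2 T)`. -/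
theorem M_lim {w : ℝ → ℝ} (hw : Continuous w) {M M' : ℝ → ℝ → ℝ} {P : Polynomial ℝ} {η C C' : ℝ}
    (hη : 0 < η) (h1 : ∀ T x, 0 < x → HasDerivAt (M T) (M' T x) x ∧ 0 ≤ M' T x)
    (h2 : ∀ T T' x, 1 ≤ T → T ≤ T' → M T x ≤ M T' x)
    (h3 : ∀ T, 1 ≤ T → |∫ x in T..2 * T, (w x - M T x)| ≤ C * T ^ (3 / 4 : ℝ))
    (h4 : ∀ T, 1 ≤ T → |(∫ x in (1 : ℝ)..T, w x) - T * P.eval (Real.log T)| ≤ C' * T ^ (1 - η)) :
    Filter.Tendsto (fun T => M T T / Real.log T ^ P.natDegree) Filter.atTop (nhds P.leadingCoeff) ∧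
      Filter.Tendsto (fun T => M T (2 * T) / Real.log T ^ P.natDegree) Filter.atTop
        (nhds P.leadingCoeff) := by
  have mo : ∀ T, MonotoneOn (M T) (Ioi 0) := fun T =>
    monotoneOn_of_deriv_nonneg (convex_Ioi 0)
      (fun x hx => (h1 T x hx).1.continuousAt.continuousWithinAt)
      (fun x hx => (h1 T x (interior_subset hx)).1.differentiableAt.differentiableWithinAt)
      fun x hx => by
        rw [(h1 T x (interior_subset hx)).1.deriv]
        exact (h1 T x (interior_subset hx)).2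
  have av : ∀ S, 0 < S → M S S ≤ (∫ x in S..2 * S, M S x) / S ∧
      (∫ x in S..2 * S, M S x) / S ≤ M S (2 * S) := fun S S0 => by
    have h2 : S ≤ 2 * S := by linarith
    have Mi : IntervalIntegrable (M S) volume S (2 * S) := by
      refine ContinuousOn.intervalIntegrable fun x hx => ?_
      rw [uIcc_of_le h2] at hx
      exact (h1 S x (S0.trans_le hx.1)).1.continuousAt.continuousWithinAt
    have a := intervalIntegral.integral_mono_on h2 (intervalIntegrable_const (c := M S S)) Mi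
      fun x hx => mo S S0 (S0.trans_le hx.1) hx.1
    have b := intervalIntegral.integral_mono_on h2 Mi (intervalIntegrable_const (c := M S (2 * S)))
      fun x hx => mo S (S0.trans_le hx.1) (S0.trans_le h2) hx.2
    rw [intervalIntegral.integral_const, smul_eq_mul] at a b
    rw [le_div_iff₀ S0, div_le_iff₀ S0]
    constructor <;> linarith
  have lo := rt1_avg hw hη h1 h3 h4 (κ := 1 / 2) (by norm_num)
  have up := rt1_avg hw hη h1 h3 h4 (κ := 2) (by norm_num)
  have key : ∀ᶠ T : ℝ in Filter.atTop, 0 ≤ Real.log T ^ P.natDegree ∧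
      (∫ x in 1 / 2 * T..2 * (1 / 2 * T), M (1 / 2 * T) x) / (1 / 2 * T) ≤ M T T ∧
      M T T ≤ M T (2 * T) ∧ M T (2 * T) ≤ (∫ x in 2 * T..2 * (2 * T), M (2 * T) x) / (2 * T) := by
    filter_upwards [Filter.eventually_ge_atTop (2 : ℝ)] with T hT
    have T0 : 0 < T := by linarith
    refine ⟨pow_nonneg (Real.log_nonneg (by linarith)) _, (av _ (by linarith)).2.trans ?_,
      mo T T0 (show 0 < 2 * T by linarith) (by linarith),
      (h2 T (2 * T) _ (by linarith) (by linarith)).trans (av _ (by linarith)).1⟩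
    rw [show 2 * (1 / 2 * T) = T by ring]
    exact h2 _ _ _ (by linarith) (by linarith)
  constructor <;> refine tendsto_of_tendsto_of_tendsto_of_le_of_le' lo up ?_ ?_ <;>
    filter_upwards [key] with T ⟨k0, k1, k2, k3⟩ <;>
    exact div_le_div_of_nonneg_right (by linarith) k0

end Pool.Agent.Lib.MP_2a1a00_nt
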