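import Pool.Agent.Lib.MP_2a1a00_nt.R.S2
import Pool.Agent.Lib.MP_2a1a00_nt.V.P3

/-! Smoothing of the product of the two error terms. -/

namespace Pool.Agent.Lib.MP_2a1a00_nt

open Complex MeasureTheory Set

theorem rt2_le {f : ℝ → ℝ} {c d : ℝ} (h : Bd f c) (hc : c < d) :
    ∃ C : ℝ, 0 < C ∧ ∀ T : ℝ, 1 ≤ T → f T ≤ C * T ^ d := by
  obtain ⟨C, hC, h⟩ := h (d - c) (by linarith)
  refine ⟨C, hC, fun T hT => (h T hT).trans (le_of_eq ?_)⟩
  rw [mul_assoc, ← Real.rpow_add (by linarith), sub_add_cancel]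

theorem rt2_young {u v l : ℝ} (hv : 0 ≤ v) (hl : 0 < l) :
    (u * v) ^ 2 ≤ u ^ 6 / l ^ 2 + v ^ 3 * l := by
  rcases le_total (u ^ 2) (l * v) with h | h
  · have h1 : 0 ≤ u ^ 6 / l ^ 2 := by positivity
    nlinarith [mul_le_mul_of_nonneg_right h (sq_nonneg v)]
  · have h1 : 0 ≤ v ^ 3 * l := by positivity
    have h2 : (u * v) ^ 2 ≤ u ^ 6 / l ^ 2 := by
      rw [le_div_iff₀ (by positivity)]
      have h3 := pow_le_pow_left₀ (by positivity) h 2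
      nlinarith [mul_le_mul_of_nonneg_left h3 (sq_nonneg u)]
    linarith

theorem rt2_sq {f g : ℝ → ℂ} {T l : ℝ} (hT : 0 ≤ T) (hf : Bm f T) (hg : Bm g T) (hl : 0 < l) :
    Sq (fun x => f x * g x) T ≤ mu0 6 f T / l ^ 2 + mu0 3 g T * l := by
  have h1 := (hf.int_pow0 hT 6).div_const (l ^ 2)
  have h2 := (hg.int_pow0 hT 3).mul_const l
  rw [Sq, mu0, mu0, ← intervalIntegral.integral_div, ← intervalIntegral.integral_mul_const,
    ← intervalIntegral.integral_add h1 h2]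
  refine intervalIntegral.integral_mono_on (by linarith) ((hf.mul hg).int_sq hT) (h1.add h2)
    fun x _ => ?_
  rw [norm_mul]
  exact rt2_young (norm_nonneg _) hl

theorem rt2_split {f : ℝ → ℂ} {w : ℝ → ℝ} {T : ℝ} (hT : 0 ≤ T) (hf : Bm f T) (hw : Continuous w)
    (a : ℝ) : ∫ x in T..2 * T, (a + ‖f x‖) * w x = (∫ x in T..2 * T, w x) * a + mo 1 f w T := by
  rw [mo, ← intervalIntegral.integral_mul_const, ← intervalIntegral.integral_add
    ((hw.intervalIntegrable _ _).mul_const a) (hf.int_pow hT 1 hw.continuousOn)]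
  exact intervalIntegral.integral_congr fun x _ => by ring

/- `G = B T * B T`, `nice_B`, `Nice.mul`, `B_near`, `B1_le`, `E_sup`, `p2_B8`, `low0`, `forth`, `E_three`;
`u ^ 2 * v ^ 2 ≤ u ^ 6 / l ^ 2 + l * v ^ 3` with `l = T ^ (1 / 6)`; the calculus of `Bd` is in V/Bd. -/
theorem smooth_prod : ∃ C : ℝ, 0 < C ∧ ∀ T : ℝ, 1 ≤ T → ∃ G G' : ℝ → ℂ, Nice G G' T ∧
    (∀ x ∈ Icc T (2 * T), ‖G x‖ ≤ C * T ^ (17 / 20 : ℝ)) ∧ nm G T ≤ C * T ^ (11 / 10 : ℝ) ∧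
    nm G' T ≤ C * T ^ (17 / 20 : ℝ) ∧ ∀ x ∈ Icc T (2 * T), ‖(zs 2).E x * (zs 3).E x - G x‖ ≤
      C * T ^ (1 / 100 : ℝ) * (T ^ (2 / 5 : ℝ) + ‖(zs 3).E x‖) := by
  obtain ⟨P, hP⟩ := (zs 2).vor zs_deg2.ge
  obtain ⟨Q, hQ⟩ := (zs 3).vor (by rw [zs_deg3]; norm_num)
  obtain ⟨Λ, a1, a2⟩ := (zs 2).bd_B (y := 1 / 3) zs_deg2.ge (by rw [zs_deg2]; norm_num) hP
    zero_le_one le_rfl (by rw [zs_deg2]; norm_num) (by norm_num)
  obtain ⟨Λ', b1, b2⟩ := (zs 3).bd_B (y := 1 / 2) (by rw [zs_deg3]; norm_num) zs_deg3.le hQ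
    zero_le_one le_rfl (by rw [zs_deg3]; norm_num) (by norm_num)
  obtain ⟨K, c1, c2⟩ := (zs 2).bd_B1 zero_le_one le_rfl
  obtain ⟨K', d1, d2⟩ := (zs 3).bd_B1 zero_le_one le_rfl
  obtain ⟨N, e1, e2⟩ := (zs 2).bd_near zero_le_one le_rfl
  obtain ⟨N', f1, f2⟩ := (zs 3).bd_near zero_le_one le_rfl
  have hm : ∀ T : ℝ, 1 ≤ T → T ∈ Icc T (2 * T) := fun T hT => ⟨le_rfl, by linarith⟩
  have u := fun (T : ℝ) (hT : 1 ≤ T) => (zs 2).nice_Bw 1 hT
  have v := fun (T : ℝ) (hT : 1 ≤ T) => (zs 3).nice_Bw 1 hT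
  have m8 := (Sel.p2_B8 zs_deg2 hP).mono (d := 1 + (8 : ℕ) * (1 / 4)) (by norm_num)
  have m3 : Bd (fun T => mu0 3 ((zs 3).B (T ^ (1 : ℝ))) T) 2 :=
    (zs 3).forth (by norm_num) (bd_nat 2 fun _ hε => (zs 3).E_three zs_deg3 hQ hε)
  have m6 := low0 (n := 6) (by omega) (fun T hT => (u T hT).bm0) m8
  have m2 := low0 (n := 2) (by omega) (fun T hT => (u T hT).bm0) m8
  have m2' := low0 (n := 2) (m := 3) (x := 1 / 3) (by omega) (fun T hT => (v T hT).bm0)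
    (m3.mono (by norm_num))
  obtain ⟨C₁, p1, g1⟩ := rt2_le (d := 17 / 20) (a1.mul b1 fun T hT =>
    (norm_nonneg _).trans (b2 T hT T (hm T hT))) (by norm_num)
  obtain ⟨C₂, p2, g2⟩ := rt2_le (d := 11 / 10) ((((m6.div_rpow (1 / 3)).mono (d := 13 / 6)
    (by norm_num)).add ((m3.mul_rpow (1 / 6)).mono (by norm_num))).sqrt) (by norm_num)
  obtain ⟨C₃, p3, g3⟩ := rt2_le (d := 17 / 20) (((c1.mul m2'.sqrt fun _ _ =>
    Real.sqrt_nonneg _).mono (d := 5 / 6) (by norm_num)).add ((d1.mul m2.sqrt fun _ _ =>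
    Real.sqrt_nonneg _).mono (by norm_num))) (by norm_num)
  obtain ⟨C₄, p4, g4⟩ := rt2_le (d := 1 / 100) e1 (by norm_num)
  obtain ⟨C₅, p5, g5⟩ := rt2_le (d := 1 / 100 + 2 / 5) (a1.mul f1 fun T hT =>
    (norm_nonneg _).trans (f2 T hT T (hm T hT))) (by norm_num)
  refine ⟨C₁ + C₂ + C₃ + C₄ + C₅, by positivity, fun T hT => ⟨_, _, (u T hT).mul (v T hT),
    fun x hx => ?_, ?_, ?_, fun x hx => ?_⟩⟩
  · have h0 : 0 < T := by linarith
    refine (norm_mul_le _ _).trans ((mul_le_mul (a2 T hT x hx) (b2 T hT x hx) (norm_nonneg _)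
      ((norm_nonneg _).trans (a2 T hT x hx))).trans ((g1 T hT).trans ?_))
    exact mul_le_mul_of_nonneg_right (by linarith) (by positivity)
  · have h0 : 0 < T := by linarith
    have h1 := rt2_sq h0.le (u T hT).bm0 (v T hT).bm0 (Real.rpow_pos_of_pos h0 (1 / 6))
    rw [← Real.rpow_natCast, ← Real.rpow_mul h0.le,
      show (1 / 6 * (2 : ℕ) : ℝ) = 1 / 3 by norm_num] at h1
    refine (Real.sqrt_le_sqrt h1).trans ((g2 T hT).trans ?_)
    exact mul_le_mul_of_nonneg_right (by linarith) (by positivity)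
  · have h0 : 0 < T := by linarith
    have h1 := nm_mono h0.le ((u T hT).bm.mul (v T hT).bm0) (v T hT).bm0
      ((norm_nonneg _).trans (c2 T hT T (hm T hT))) fun x hx => (norm_mul_le _ _).trans
        (mul_le_mul_of_nonneg_right (c2 T hT x hx) (norm_nonneg _))
    have h2 := nm_mono h0.le ((u T hT).bm0.mul (v T hT).bm) (u T hT).bm0
      ((norm_nonneg _).trans (d2 T hT T (hm T hT))) fun x hx => (norm_mul_le _ _).trans
        ((mul_comm _ _).le.trans (mul_le_mul_of_nonneg_right (d2 T hT x hx) (norm_nonneg _)))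
    refine (nm_add h0.le ((u T hT).bm.mul (v T hT).bm0) ((u T hT).bm0.mul (v T hT).bm)).trans
      ((add_le_add h1 h2).trans ((g3 T hT).trans ?_))
    exact mul_le_mul_of_nonneg_right (by linarith) (by positivity)
  · have h0 : 0 < T := by linarith
    have h1 : ∀ a b c d : ℂ, a * b - c * d = (a - c) * b + c * (b - d) := fun a b c d => by ring
    have h2 := mul_le_mul_of_nonneg_right ((e2 T hT x hx).trans (g4 T hT))
      (norm_nonneg ((zs 3).E x))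
    have h3 := (mul_le_mul (a2 T hT x hx) (f2 T hT x hx) (norm_nonneg _)
      ((norm_nonneg _).trans (a2 T hT x hx))).trans (g5 T hT)
    rw [Real.rpow_add h0] at h3
    rw [h1]
    refine (norm_add_le _ _).trans ?_
    rw [norm_mul, norm_mul]
    have h4 : 0 ≤ T ^ (1 / 100 : ℝ) * T ^ (2 / 5 : ℝ) := by positivity
    have h5 : 0 ≤ T ^ (1 / 100 : ℝ) * ‖(zs 3).E x‖ := by positivity
    nlinarith [mul_nonneg (by positivity : 0 ≤ C₁ + C₂ + C₃ + C₄) h4,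
      mul_nonneg (by positivity : 0 ≤ C₁ + C₂ + C₃ + C₅) h5]

/- `p3_E2`, `p3_E0`, `mass`, `mo_low`. -/
theorem err_tw {L : Sel} (hL : L.deg ≤ 1) : ∃ C : ℝ, 0 < C ∧ ∀ T : ℝ, 1 ≤ T →
    ∫ x in T..2 * T, (T ^ (2 / 5 : ℝ) + ‖(zs 3).E x‖) * L.w x ≤ C * T ^ (29 / 20 : ℝ) ∧
      ∫ x in T..2 * T, (T ^ (2 / 5 : ℝ) + ‖(zs 3).E x‖) ≤ C * T ^ (29 / 20 : ℝ) := by
  obtain ⟨Q, hQ⟩ := (zs 3).vor (by rw [zs_deg3]; norm_num)
  have key : ∀ w : ℝ → ℝ, Continuous w → (∀ x, 0 ≤ w x) → Bd (fun T => ∫ x in T..2 * T, w x) 1 →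
      Bd (fun T => mo 2 (zs 3).E w T) (1 + 2 * (1 / 3)) → ∃ C : ℝ, 0 < C ∧ ∀ T : ℝ, 1 ≤ T →
        ∫ x in T..2 * T, (T ^ (2 / 5 : ℝ) + ‖(zs 3).E x‖) * w x ≤ C * T ^ (29 / 20 : ℝ) :=
    fun w h1 h2 h3 h4 => by
      have h5 := low_bd (n := 1) (m := 2) (x := 1 / 3) (f := fun _ => (zs 3).E) (by omega)
        (fun _ hT => Sel.bm_E _ hT) h1 h2 h3 (h4.mono (by norm_num))
      obtain ⟨C, hC, h⟩ := rt2_le (d := 29 / 20) ((h3.mul_rpow (2 / 5)).add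
        (h5.mono (by norm_num))) (by norm_num)
      exact ⟨C, hC, fun T hT => (rt2_split (by linarith) (Sel.bm_E _ hT) h1 _).trans_le (h T hT)⟩
  obtain ⟨C, hC, h⟩ := key _ L.continuous_w L.w_nonneg (L.bd_mass hL) (Sel.p3_E2 hL zs_deg3 hQ)
  obtain ⟨D, hD, h'⟩ := key _ continuous_const (fun _ => zero_le_one) bd_one
    (Sel.p3_E0 zs_deg3 hQ)
  simp only [mul_one] at h'
  refine ⟨C + D, by positivity, fun T hT => ?_⟩
  have h0 : 0 ≤ T ^ (29 / 20 : ℝ) := Real.rpow_nonneg (by linarith) _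
  exact ⟨(h T hT).trans (mul_le_mul_of_nonneg_right (by linarith) h0),
    (h' T hT).trans (mul_le_mul_of_nonneg_right (by linarith) h0)⟩

end Pool.Agent.Lib.MP_2a1a00_nt
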