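import Pool.Agent.Lib.MP_2a1a00_nt.R.B3
import Pool.Agent.Lib.MP_2a1a00_nt.R.D2
import Pool.Agent.Lib.MP_2a1a00_nt.R.Z2
import Pool.Agent.Lib.MP_2a1a00_nt.V.P3

/-! The mixed moment on a dyadic interval. -/

namespace Pool.Agent.Lib.MP_2a1a00_nt

open Complex MeasureTheory Set

variable {P : Vo}

theorem ru_num {T M : ℝ} (hT : 1 ≤ T) (h0 : 0 ≤ M) (h1 : M ≤ T ^ (2 / 5 : ℝ))
    (h2 : T ^ (2 / 5 : ℝ) ≤ 2 * M) :
    T ^ (2 - 1 / 2 : ℝ) * (M + 1) ^ (-1 / 2 : ℝ) + T * T ^ (2 - 2 : ℝ) +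
      T * (T ^ (al 2 + 1 / 2) * M / T) ^ 2 ≤ 4 * T ^ (13 / 10 : ℝ) := by
  have hp : 0 < T := by linarith
  have a1 : (M + 1) ^ (-1 / 2 : ℝ) ≤ 2 * T ^ (-1 / 5 : ℝ) := by
    have b1 : (M + 1) ^ (-1 / 2 : ℝ) ≤ (T ^ (2 / 5 : ℝ) / 4) ^ (-1 / 2 : ℝ) :=
      Real.rpow_le_rpow_of_nonpos (by positivity) (by linarith) (by norm_num)
    have b2 : (4 : ℝ) ^ (-1 / 2 : ℝ) = 1 / 2 := by
      rw [show (4 : ℝ) = 2 ^ (2 : ℝ) by norm_num, ← Real.rpow_mul (by norm_num)]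
      norm_num
    rw [Real.div_rpow (by positivity) (by norm_num), ← Real.rpow_mul hp.le, b2] at b1
    refine b1.trans (le_of_eq ?_)
    norm_num
    ring
  have a2 : T ^ (2 - 1 / 2 : ℝ) * (M + 1) ^ (-1 / 2 : ℝ) ≤ 2 * T ^ (13 / 10 : ℝ) := by
    refine (mul_le_mul_of_nonneg_left a1 (by positivity)).trans (le_of_eq ?_)
    rw [mul_left_comm, ← Real.rpow_add hp]
    norm_num
  have a3 : T * T ^ (2 - 2 : ℝ) ≤ T ^ (13 / 10 : ℝ) := by
    rw [sub_self, Real.rpow_zero, mul_one]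
    exact Real.self_le_rpow_of_one_le hT (by norm_num)
  have a4 : T * (T ^ (al 2 + 1 / 2) * M / T) ^ 2 ≤ T ^ (13 / 10 : ℝ) := by
    have b1 : T ^ (al 2 + 1 / 2) * M / T ≤ T ^ (3 / 20 : ℝ) := by
      rw [div_le_iff₀ hp]
      refine (mul_le_mul_of_nonneg_left h1 (by positivity)).trans (le_of_eq ?_)
      rw [← Real.rpow_add hp, ← Real.rpow_add_one hp.ne', al_two]
      norm_num
    refine (mul_le_mul_of_nonneg_left (pow_le_pow_left₀ (by positivity) b1 2) hp.le).trans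
      (le_of_eq ?_)
    rw [← Real.rpow_natCast, ← Real.rpow_mul hp.le, mul_comm, ← Real.rpow_add_one hp.ne']
    norm_num
  linarith

theorem ru_sq (hP : Good P) :
    Bd (fun T => Sq (fun x => (zs 2).B T x - HH P 0 (2 ^ JJ T) x) T) (13 / 10) := by
  refine ((bd_rpow (13 / 10)).const_mul (K := 4) (by norm_num)).of_forall fun ε hε => ?_
  obtain ⟨C, hC, h⟩ := (zs 2).B_sq zs_deg2.ge hP.vor hε
  refine ⟨C, hC, fun T hT => ?_⟩
  have hp : 0 < T := by linarith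
  obtain ⟨j1, j2⟩ := JJ_le hT
  have j3 := j1 _ le_rfl
  have j4 : T ^ (2 / 5 : ℝ) ≤ T := Real.rpow_le_self_of_one_le hT (by norm_num)
  have h1 := h T T (2 ^ JJ T) hT (Real.sqrt_le_self_iff.2 (Or.inr hT)) le_rfl (by
    rw [zs_deg2, Real.rpow_two, sq, mul_div_cancel_right₀ _ hp.ne']
    push_cast
    linarith)
  rw [HH_eq, zs_deg2] at h1
  refine h1.trans (mul_le_mul_of_nonneg_left ?_ (by positivity))
  push_cast
  exact ru_num hT (by positivity) j3 j2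

theorem ru_near : Bd (fun T => nm (fun x => (zs 2).E x - (zs 2).B T x) T) (1 / 2) := by
  refine bd_sqrt.of_forall fun ε hε => ?_
  obtain ⟨C, hC, h⟩ := (zs 2).B_near hε
  refine ⟨C, hC, fun T hT => ?_⟩
  have hp : 0 < T := by linarith
  refine nm_sup hp.le ((Sel.bm_E _ hT).sub (bm_pos hp ((zs 2).B_cont hp))) fun x hx => ?_
  have := h T T hT le_rfl x hx
  rwa [div_self hp.ne', mul_one] at this

/- `B_near`, `B_sq` with `W = T`, `p3_E0`, `cs`. -/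
theorem u_tail (hP : Good P) : ∃ C : ℝ, 0 < C ∧ ∀ T : ℝ, 1 ≤ T → ∀ y ∈ Icc T (2 * T),
    ‖∫ x in T..y, ((zs 2).E x - HH P 0 (2 ^ JJ T) x) * (zs 3).E x‖ ≤ C * T ^ (3 / 2 : ℝ) := by
  obtain ⟨Q, hQ⟩ := (zs 3).vor (by rw [zs_deg3]; norm_num)
  have h3 : Bd (fun T => nm (zs 3).E T) ((1 + 2 * (1 / 3)) / 2) :=
    ((zs 3).p3_E0 zs_deg3 hQ).sqrt.of_le fun T _ => by rw [mo_one, nm, Sq_eq]
  have h2 : Bd (fun T => nm (fun x => (zs 2).E x - HH P 0 (2 ^ JJ T) x) T) (13 / 10 / 2) := by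
    refine ((ru_near.mono (by norm_num)).add (ru_sq hP).sqrt).of_le fun T hT => ?_
    have hp : 0 < T := by linarith
    have := nm_add hp.le ((Sel.bm_E (zs 2) hT).sub (bm_pos hp ((zs 2).B_cont hp)))
      ((bm_pos hp ((zs 2).B_cont hp)).sub (bm_pos hp (HH_cont P 0 (2 ^ JJ T))))
    simp only [sub_add_sub_cancel] at this
    exact this
  obtain ⟨C, h⟩ := (h2.mul h3 fun T _ => nm_nonneg _ _).le (d := 3 / 2) (by norm_num)
  refine ⟨max C 1, lt_max_of_lt_right one_pos, fun T hT y hy => ?_⟩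
  have hp : 0 < T := by linarith
  exact ((cs hp.le ((Sel.bm_E (zs 2) hT).sub (bm_pos hp (HH_cont P 0 (2 ^ JJ T)))) (Sel.bm_E _ hT)
    hy).trans (h T hT)).trans (mul_le_mul_of_nonneg_right (le_max_left _ _) (by positivity))

theorem HH_split (P : Vo) (J : ℕ) (x : ℝ) :
    HH P 0 (2 ^ J) x = ∑ j ∈ Finset.range (J + 1), HH P (2 ^ j / 2) (2 ^ j) x := by
  induction J with
  | zero => simp
  | succ J ih =>
    rw [Finset.sum_range_succ, ← ih, pow_succ, Nat.mul_div_cancel _ two_pos]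
    exact (Finset.sum_Ioc_consecutive _ (Nat.zero_le _) (by omega)).symm

theorem ru_geom : ∃ K : ℝ, 0 < K ∧ ∀ J : ℕ,
    ∑ j ∈ Finset.range J, (2 ^ j : ℝ) ^ (-1 / 64 : ℝ) ≤ K := by
  have h0 : (0 : ℝ) ≤ 2 ^ (-1 / 64 : ℝ) := by positivity
  have h1 : (2 : ℝ) ^ (-1 / 64 : ℝ) < 1 :=
    Real.rpow_lt_one_of_one_lt_of_neg (by norm_num) (by norm_num)
  refine ⟨(1 - 2 ^ (-1 / 64 : ℝ))⁻¹, inv_pos.2 (sub_pos.2 h1), fun J => ?_⟩
  have e : ∀ j : ℕ, (2 ^ j : ℝ) ^ (-1 / 64 : ℝ) = (2 ^ (-1 / 64 : ℝ)) ^ j := fun j => by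
    rw [← Real.rpow_natCast, ← Real.rpow_natCast, ← Real.rpow_mul zero_le_two,
      ← Real.rpow_mul zero_le_two, mul_comm]
  simp only [e]
  exact sum_le_hasSum _ (fun j _ => by positivity) (hasSum_geometric_of_lt_one h0 h1)

theorem ru_cube {T y : ℝ} (hT : 0 < T) (hy : y ∈ Icc T (2 * T)) :
    |y ^ (3 / 2 : ℝ) - T ^ (3 / 2 : ℝ)| ≤ 3 * T ^ (3 / 2 : ℝ) := by
  have h1 : T ^ (3 / 2 : ℝ) ≤ y ^ (3 / 2 : ℝ) := Real.rpow_le_rpow hT.le hy.1 (by norm_num)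
  have h2 : y ^ (3 / 2 : ℝ) ≤ (2 * T) ^ (3 / 2 : ℝ) :=
    Real.rpow_le_rpow (hT.le.trans hy.1) hy.2 (by norm_num)
  have h3 : (2 : ℝ) ^ (3 / 2 : ℝ) ≤ 2 ^ (2 : ℝ) :=
    Real.rpow_le_rpow_of_exponent_le (by norm_num) (by norm_num)
  rw [Real.mul_rpow (by norm_num) hT.le] at h2
  have h4 : 0 < T ^ (3 / 2 : ℝ) := by positivity
  rw [Real.rpow_two] at h3
  rw [abs_of_nonneg (sub_nonneg.2 h1)]
  nlinarith

/- `u_tail`, `HH_split`, `block` with `N = NN L T j`, `diag_lim`; choose `L` large. -/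
theorem untw_asym {δ : ℝ} (hδ : 0 < δ) : ∀ᶠ T : ℝ in Filter.atTop, ∀ y ∈ Icc T (2 * T),
    ‖(∫ x in T..y, (zs 2).E x * (zs 3).E x) -
      ((cc * (y ^ (3 / 2 : ℝ) - T ^ (3 / 2 : ℝ)) * Real.log T ^ 2 : ℝ) : ℂ)‖ ≤
      δ * (T ^ (3 / 2 : ℝ) * Real.log T ^ 2) := by
  obtain ⟨P, hP⟩ := exists_good
  obtain ⟨C₁, h₁, H₁⟩ := u_tail hP
  obtain ⟨C₂, h₂, H₂⟩ := block hP
  obtain ⟨K, hK, HK⟩ := ru_geom
  obtain ⟨L, hL, hL'⟩ : ∃ L : ℝ, 1 ≤ L ∧ C₂ * K / L ≤ δ / 4 := by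
    refine ⟨max 1 (4 * (C₂ * K) / δ), le_max_left _ _, ?_⟩
    rw [div_le_iff₀ (lt_max_of_lt_left one_pos)]
    have := (div_le_iff₀ hδ).1 (le_max_right 1 (4 * (C₂ * K) / δ))
    linarith
  have e1 := (Real.tendsto_log_atTop.eventually_ge_atTop (max 1 (4 * C₁ / δ)))
  have e2 := ((tendsto_rpow_atTop (y := 1 / 2) (by norm_num)).comp
    Real.tendsto_log_atTop).eventually_ge_atTop (4 * (C₂ * K * L ^ 2) / δ)
  have e3 := Metric.tendsto_nhds.1 (diag_lim hL) (δ / 12) (by positivity)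
  filter_upwards [e1, e2, e3, NN_small hL, Filter.eventually_ge_atTop 3] with T a1 a2 a3 a4 hT y hy
  have hT1 : 1 ≤ T := by linarith
  have hp : 0 < T := by linarith
  have l1 : 1 ≤ Real.log T := (le_max_left _ _).trans a1
  have l2 : 4 * C₁ ≤ Real.log T * δ := (div_le_iff₀ hδ).1 ((le_max_right _ _).trans a1)
  have l3 : 4 * (C₂ * K * L ^ 2) ≤ Real.log T ^ (1 / 2 : ℝ) * δ := (div_le_iff₀ hδ).1 a2
  have l4 : Real.log T ^ (3 / 2 : ℝ) * Real.log T ^ (1 / 2 : ℝ) = Real.log T ^ 2 := by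
    rw [← Real.rpow_add (by linarith), ← Real.rpow_two]
    norm_num
  have l5 : 0 < Real.log T ^ 2 := by positivity
  have l6 : 0 < Real.log T ^ (3 / 2 : ℝ) := by positivity
  have t0 : 0 < T ^ (3 / 2 : ℝ) := by positivity
  set A := y ^ (3 / 2 : ℝ) - T ^ (3 / 2 : ℝ) with hA
  set S := ∑ j ∈ Finset.range (JJ T + 1), dB j (T / NN L T j) with hS
  have i1 := ((((Sel.bm_E (zs 2) hT1).sub (bm_pos hp (HH_cont P 0 (2 ^ JJ T)))).mul
    (Sel.bm_E (zs 3) hT1)).int hy)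
  have i2 : ∀ j : ℕ, IntervalIntegrable (fun x => HH P (2 ^ j / 2) (2 ^ j) x * (zs 3).E x)
      volume T y := fun j => ((bm_pos hp (HH_cont P _ _)).mul (Sel.bm_E (zs 3) hT1)).int hy
  have i3 : IntervalIntegrable (fun x => ∑ j ∈ Finset.range (JJ T + 1),
      HH P (2 ^ j / 2) (2 ^ j) x * (zs 3).E x) volume T y := by
    have := ((bm_pos hp (HH_cont P 0 (2 ^ JJ T))).mul (Sel.bm_E (zs 3) hT1)).int hy
    simpa only [HH_split, Finset.sum_mul] using this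
  have split : (∫ x in T..y, (zs 2).E x * (zs 3).E x) =
      (∫ x in T..y, ((zs 2).E x - HH P 0 (2 ^ JJ T) x) * (zs 3).E x) +
        ∑ j ∈ Finset.range (JJ T + 1), ∫ x in T..y, HH P (2 ^ j / 2) (2 ^ j) x * (zs 3).E x := by
    rw [← intervalIntegral.integral_finsetSum fun j _ => i2 j, ← intervalIntegral.integral_add i1 i3]
    refine intervalIntegral.integral_congr fun x _ => ?_
    simp only [← Finset.sum_mul, ← HH_split]
    ring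
  have key : (∫ x in T..y, (zs 2).E x * (zs 3).E x) - ((cc * A * Real.log T ^ 2 : ℝ) : ℂ) =
      (∫ x in T..y, ((zs 2).E x - HH P 0 (2 ^ JJ T) x) * (zs 3).E x) +
        ∑ j ∈ Finset.range (JJ T + 1), ((∫ x in T..y, HH P (2 ^ j / 2) (2 ^ j) x * (zs 3).E x) -
          ((1 / (6 * Real.pi ^ 2) * A * dB j (T / NN L T j) : ℝ) : ℂ)) +
        ((A * Real.log T ^ 2 * (1 / (6 * Real.pi ^ 2) * S / Real.log T ^ 2 - cc) : ℝ) : ℂ) := by
    have r : A * Real.log T ^ 2 * (1 / (6 * Real.pi ^ 2) * S / Real.log T ^ 2 - cc) =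
        1 / (6 * Real.pi ^ 2) * A * S - cc * A * Real.log T ^ 2 := by
      field_simp
    rw [split, r, Finset.sum_sub_distrib, ← ofReal_sum, ← Finset.mul_sum, ← hS, ofReal_sub]
    ring
  have b1 := H₁ T hT1 y hy
  have b2 : ‖∑ j ∈ Finset.range (JJ T + 1),
      ((∫ x in T..y, HH P (2 ^ j / 2) (2 ^ j) x * (zs 3).E x) -
        ((1 / (6 * Real.pi ^ 2) * A * dB j (T / NN L T j) : ℝ) : ℂ))‖ ≤ C₂ * T ^ (3 / 2 : ℝ) * K *
        (Real.log T ^ 2 / L + L ^ 2 * Real.log T ^ (3 / 2 : ℝ)) := by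
    refine (norm_sum_le _ _).trans ((Finset.sum_le_sum fun j hj => ?_).trans
      (?_ : ∑ j ∈ Finset.range (JJ T + 1), C₂ * T ^ (3 / 2 : ℝ) * (2 ^ j : ℝ) ^ (-1 / 64 : ℝ) *
        (Real.log T ^ 2 / L + L ^ 2 * Real.log T ^ (3 / 2 : ℝ)) ≤ _))
    · have hj' : j ≤ JJ T := Nat.lt_succ_iff.1 (Finset.mem_range.1 hj)
      exact H₂ j _ L T y hL hT ((JJ_le hT1).1 j hj') (NN_le hL hT1 j).1 (NN_le hL hT1 j).2
        (a4 j hj') hy
    · rw [← Finset.sum_mul, ← Finset.mul_sum]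
      have := HK (JJ T + 1)
      have : 0 < L := by linarith
      gcongr
  have b3 : ‖((A * Real.log T ^ 2 * (1 / (6 * Real.pi ^ 2) * S / Real.log T ^ 2 - cc) : ℝ) : ℂ)‖ ≤
      3 * T ^ (3 / 2 : ℝ) * Real.log T ^ 2 * (δ / 12) := by
    rw [norm_real, Real.norm_eq_abs, abs_mul, abs_mul, abs_of_pos l5]
    rw [Real.dist_eq] at a3
    have := ru_cube hp hy
    gcongr
  rw [key]
  refine (norm_add₃_le.trans (add_le_add (add_le_add b1 b2) b3)).trans ?_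
  have c1 : C₁ ≤ δ / 4 * Real.log T ^ 2 := by nlinarith [mul_pos hδ (zero_lt_one.trans_le l1)]
  have c2 : C₂ * K * (Real.log T ^ 2 / L) ≤ δ / 4 * Real.log T ^ 2 := by
    rw [← mul_div_assoc, mul_div_right_comm]
    exact mul_le_mul_of_nonneg_right hL' l5.le
  have c3 : C₂ * K * (L ^ 2 * Real.log T ^ (3 / 2 : ℝ)) ≤ δ / 4 * Real.log T ^ 2 := by
    rw [← l4]
    nlinarith [mul_le_mul_of_nonneg_left l3 l6.le]
  nlinarith [mul_le_mul_of_nonneg_left (add_le_add (add_le_add c1 c2) c3) t0.le]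

end Pool.Agent.Lib.MP_2a1a00_nt
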