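import Pool.Agent.Lib.MP_2a1a00_nt.R.T0
import Pool.Agent.Lib.MP_2a1a00_nt.R.T1
import Pool.Agent.Lib.MP_2a1a00_nt.R.T2
import Pool.Agent.Lib.MP_2a1a00_nt.R.U
import Pool.Agent.Lib.MP_2a1a00_nt.Unt

/-! The twisted mixed moment on a dyadic interval. -/

namespace Pool.Agent.Lib.MP_2a1a00_nt

open Complex MeasureTheory Set

theorem rt3_pow {T a b c : ℝ} (hT : 1 ≤ T) (h : a + b ≤ c) : T ^ a * T ^ b ≤ T ^ c := by
  rw [← Real.rpow_add (one_pos.trans_le hT)]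
  exact Real.rpow_le_rpow_of_exponent_le hT h

theorem rt3_sqrt {T d a : ℝ} (hT : 1 ≤ T) (hd : d ≤ 1) :
    √((T + T ^ d) * T ^ a) ≤ 2 * T ^ ((1 + a) / 2) := by
  have hT0 : 0 < T := one_pos.trans_le hT
  have h1 : T ^ d ≤ T := by simpa using Real.rpow_le_rpow_of_exponent_le hT hd
  have h2 : T * T ^ a = (T ^ ((1 + a) / 2)) ^ 2 := by
    rw [sq, ← Real.rpow_add hT0, add_halves, Real.rpow_add hT0, Real.rpow_one]
  refine Real.sqrt_le_iff.2 ⟨by positivity, ?_⟩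
  have h3 : 0 < T ^ a := by positivity
  rw [mul_pow, ← h2]
  nlinarith [mul_pos hT0 h3]

theorem rt3_mean {L : Sel} (hL : L.deg ≤ 1) {C : ℝ} {M : ℝ → ℝ} {T : ℝ} (hC : 0 < C) (hT : 1 ≤ T)
    (hB : ∀ (G G' : ℝ → ℂ) (lam B₁ B₂ B₃ : ℝ), Nice G G' T → 1 / T ≤ lam → lam ≤ 1 →
      (∀ x ∈ Icc T (2 * T), ‖G x‖ ≤ B₁) → nm G T ≤ B₂ → nm G' T ≤ B₃ →
      ‖∫ x in T..2 * T, G x * (L.L2 x - (M x : ℝ))‖ ≤ C * T ^ (1 / 100 : ℝ) * (T ^ (L.deg / 2) * B₁ +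
        √((T + T ^ L.deg) * lam) * B₂ + √((T + T ^ L.deg) / lam) * B₃)) :
    |∫ x in T..2 * T, (L.w x - M x)| ≤ 3 * C * T ^ (3 / 4 : ℝ) := by
  have hT0 : 0 < T := one_pos.trans_le hT
  have h2 := hB (fun _ => 1) (fun _ => 0) (1 / T) 1 (√T) 0 (nice_one T) le_rfl
    (by rw [div_le_one hT0]; exact hT) (fun x _ => by simp)
    (by
      simp only [nm, Sq, norm_one, one_pow, intervalIntegral.integral_const, smul_eq_mul, mul_one]
      rw [show 2 * T - T = T by ring])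
    (by simp [nm, Sq])
  simp only [one_mul, mul_one, mul_zero, add_zero, Sel.L2_eq, ← ofReal_sub] at h2
  rw [intervalIntegral.integral_ofReal, norm_real, Real.norm_eq_abs] at h2
  have h3 := rt3_sqrt (a := -1) hT hL
  rw [Real.rpow_neg_one, ← one_div, add_neg_cancel, zero_div, Real.rpow_zero, mul_one] at h3
  have h4 : T ^ (L.deg / 2) ≤ T ^ (1 / 2 : ℝ) := Real.rpow_le_rpow_of_exponent_le hT (by linarith)
  rw [Real.sqrt_eq_rpow T] at h2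
  have h5 := rt3_pow (a := 1 / 100) (b := 1 / 2) (c := 3 / 4) hT (by norm_num)
  calc _ ≤ _ := h2
    _ ≤ C * T ^ (1 / 100 : ℝ) * (T ^ (1 / 2 : ℝ) + 2 * T ^ (1 / 2 : ℝ)) := by gcongr
    _ = 3 * C * (T ^ (1 / 100 : ℝ) * T ^ (1 / 2 : ℝ)) := by ring
    _ ≤ _ := by gcongr

theorem rt3_key {L : Sel} (hL : L.deg ≤ 1) {C₀ : ℝ} {M M' : ℝ → ℝ → ℝ} (hC₀ : 0 < C₀)
    (hM : ∀ T x, 0 ≤ M T x) (h1 : ∀ T x, 0 < x → HasDerivAt (M T) (M' T x) x ∧ 0 ≤ M' T x)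
    (hc : ∀ T, ContinuousOn (M' T) (Ioi 0))
    (hB : ∀ T : ℝ, 1 ≤ T → ∀ (G G' : ℝ → ℂ) (lam B₁ B₂ B₃ : ℝ), Nice G G' T → 1 / T ≤ lam → lam ≤ 1 →
      (∀ x ∈ Icc T (2 * T), ‖G x‖ ≤ B₁) → nm G T ≤ B₂ → nm G' T ≤ B₃ →
      ‖∫ x in T..2 * T, G x * (L.L2 x - (M T x : ℝ))‖ ≤ C₀ * T ^ (1 / 100 : ℝ) *
        (T ^ (L.deg / 2) * B₁ + √((T + T ^ L.deg) * lam) * B₂ + √((T + T ^ L.deg) / lam) * B₃)) :
    ∃ C : ℝ, 0 < C ∧ ∀ T : ℝ, 1 ≤ T → ∀ Z : ℝ,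
      (∀ y ∈ Icc T (2 * T), ‖∫ x in T..y, (zs 2).E x * (zs 3).E x‖ ≤ Z) →
      ‖(∫ x in T..2 * T, hz3 L x) - (M T T : ℝ) * ∫ x in T..2 * T, (zs 2).E x * (zs 3).E x‖ ≤
        C * T ^ (149 / 100 : ℝ) * (1 + M T T + M T (2 * T)) + 2 * Z * (M T (2 * T) - M T T) := by
  obtain ⟨C₁, hC₁, H₁⟩ := smooth_prod
  obtain ⟨C₂, hC₂, H₂⟩ := err_tw hL
  refine ⟨2 * (C₁ * C₂) + 5 * (C₀ * C₁), by positivity, fun T hT Z hZ => ?_⟩
  obtain ⟨G, G', hG, g1, g2, g3, g4⟩ := H₁ T hT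
  obtain ⟨e1, e2⟩ := H₂ T hT
  have hT0 : 0 < T := one_pos.trans_le hT
  have hle : T ≤ 2 * T := by linarith
  have h2T : 2 * T ∈ Icc T (2 * T) := ⟨hle, le_rfl⟩
  have bE : Bm (fun x => (zs 2).E x * (zs 3).E x) T := (Sel.bm_E _ hT).mul (Sel.bm_E _ hT)
  have bG := hG.bm0
  have bw : Bm L.L2 T := Bm.of_cont (continuous_ofReal.comp L.continuous_w).continuousOn
  have bM : Bm (fun x => ((M T x : ℝ) : ℂ)) T := Bm.of_cont fun x hx =>
    (continuous_ofReal.continuousAt.comp (h1 T x (hT0.trans_le hx.1)).1.continuousAt).continuousWithinAt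
  have iE : IntervalIntegrable (fun x => T ^ (2 / 5 : ℝ) + ‖(zs 3).E x‖) volume T (2 * T) :=
    intervalIntegrable_const.add ((Sel.bm_E _ hT).int h2T).norm
  have hp := rt3_pow (a := 1 / 100) (b := 29 / 20) (c := 149 / 100) hT (by norm_num)
  obtain ⟨R, hR⟩ : ∃ R : ℝ, R = T ^ (149 / 100 : ℝ) := ⟨_, rfl⟩
  have hR0 : 0 < R := by rw [hR]; positivity
  have hq : C₁ * T ^ (1 / 100 : ℝ) * (C₂ * T ^ (29 / 20 : ℝ)) ≤ C₁ * C₂ * R := by
    calc _ = C₁ * C₂ * (T ^ (1 / 100 : ℝ) * T ^ (29 / 20 : ℝ)) := by ring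
      _ ≤ _ := by rw [hR]; gcongr
  have k1 : ‖∫ x in T..2 * T, ((zs 2).E x * (zs 3).E x - G x) * L.L2 x‖ ≤ C₁ * C₂ * R := by
    refine (intervalIntegral.norm_integral_le_of_norm_le hle (g := fun x => C₁ * T ^ (1 / 100 : ℝ) *
      ((T ^ (2 / 5 : ℝ) + ‖(zs 3).E x‖) * L.w x)) (Filter.Eventually.of_forall fun x hx => ?_)
      ((iE.mul_continuousOn L.continuous_w.continuousOn).const_mul _)).trans ?_
    · rw [norm_mul, Sel.L2_eq, norm_real, Real.norm_of_nonneg (L.w_nonneg x), ← mul_assoc]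
      exact mul_le_mul_of_nonneg_right (g4 x (Ioc_subset_Icc_self hx)) (L.w_nonneg x)
    · rw [intervalIntegral.integral_const_mul]
      exact (mul_le_mul_of_nonneg_left e1 (by positivity)).trans hq
  have k0 : ∀ y ∈ Icc T (2 * T), ‖(∫ x in T..y, (zs 2).E x * (zs 3).E x) - ∫ x in T..y, G x‖ ≤
      C₁ * C₂ * R := fun y hy => by
    rw [← intervalIntegral.integral_sub (bE.int hy) (bG.int hy)]
    have iy : IntervalIntegrable (fun x => T ^ (2 / 5 : ℝ) + ‖(zs 3).E x‖) volume T y :=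
      intervalIntegrable_const.add ((Sel.bm_E _ hT).int hy).norm
    refine (intervalIntegral.norm_integral_le_of_norm_le hy.1 (g := fun x => C₁ * T ^ (1 / 100 : ℝ) *
      (T ^ (2 / 5 : ℝ) + ‖(zs 3).E x‖)) (Filter.Eventually.of_forall fun x hx =>
        g4 x ⟨hx.1.le, hx.2.trans hy.2⟩) (iy.const_mul _)).trans ?_
    rw [intervalIntegral.integral_const_mul]
    refine (mul_le_mul_of_nonneg_left (le_trans ?_ e2) (by positivity)).trans hq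
    exact intervalIntegral.integral_mono_interval le_rfl hy.1 hy.2
      (Filter.Eventually.of_forall fun x => by positivity) iE
  have k2 : ‖∫ x in T..2 * T, G x * (L.L2 x - (M T x : ℝ))‖ ≤ 5 * (C₀ * C₁) * R := by
    have l1 : 1 / T ≤ T ^ (-1 / 4 : ℝ) := by
      rw [one_div, ← Real.rpow_neg_one]
      exact Real.rpow_le_rpow_of_exponent_le hT (by norm_num)
    have l2 : T ^ (-1 / 4 : ℝ) ≤ 1 := Real.rpow_le_one_of_one_le_of_nonpos hT (by norm_num)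
    have l3 := hB T hT G G' _ _ _ _ hG l1 l2 g1 g2 g3
    have s1 := rt3_sqrt (a := -1 / 4) hT hL
    have s2 := rt3_sqrt (a := 1 / 4) hT hL
    have s3 : (T + T ^ L.deg) / T ^ (-1 / 4 : ℝ) = (T + T ^ L.deg) * T ^ (1 / 4 : ℝ) := by
      rw [neg_div, Real.rpow_neg hT0.le, div_inv_eq_mul]
    rw [s3] at l3
    have p1 := rt3_pow (a := L.deg / 2) (b := 17 / 20) (c := 148 / 100) hT (by linarith)
    have p2 := rt3_pow (a := (1 + -1 / 4) / 2) (b := 11 / 10) (c := 148 / 100) hT (by norm_num)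
    have p3 := rt3_pow (a := (1 + 1 / 4) / 2) (b := 17 / 20) (c := 148 / 100) hT (by norm_num)
    have p4 := rt3_pow (a := 1 / 100) (b := 148 / 100) (c := 149 / 100) hT (by norm_num)
    calc _ ≤ _ := l3
      _ ≤ C₀ * T ^ (1 / 100 : ℝ) * (T ^ (L.deg / 2) * (C₁ * T ^ (17 / 20 : ℝ)) +
          2 * T ^ ((1 + -1 / 4) / 2 : ℝ) * (C₁ * T ^ (11 / 10 : ℝ)) +
          2 * T ^ ((1 + 1 / 4) / 2 : ℝ) * (C₁ * T ^ (17 / 20 : ℝ))) := by gcongr
      _ = C₀ * C₁ * T ^ (1 / 100 : ℝ) * (T ^ (L.deg / 2) * T ^ (17 / 20 : ℝ) +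
          2 * (T ^ ((1 + -1 / 4) / 2 : ℝ) * T ^ (11 / 10 : ℝ)) +
          2 * (T ^ ((1 + 1 / 4) / 2 : ℝ) * T ^ (17 / 20 : ℝ))) := by ring
      _ ≤ C₀ * C₁ * T ^ (1 / 100 : ℝ) * (T ^ (148 / 100 : ℝ) + 2 * T ^ (148 / 100 : ℝ) +
          2 * T ^ (148 / 100 : ℝ)) := by gcongr
      _ = 5 * (C₀ * C₁) * (T ^ (1 / 100 : ℝ) * T ^ (148 / 100 : ℝ)) := by ring
      _ ≤ _ := by rw [hR]; gcongr
  have k3 := mono_parts (Z := Z + C₁ * C₂ * R) hT0 hG.cont (h1 T) (hc T) fun y hy => by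
    have a1 := hZ y hy
    have a2 := k0 y hy
    have a3 := norm_sub_le (∫ x in T..y, (zs 2).E x * (zs 3).E x)
      ((∫ x in T..y, (zs 2).E x * (zs 3).E x) - ∫ x in T..y, G x)
    rw [sub_sub_cancel] at a3
    linarith
  have k4 : ‖((M T T : ℝ) : ℂ) * ((∫ x in T..2 * T, (zs 2).E x * (zs 3).E x) -
      ∫ x in T..2 * T, G x)‖ ≤ M T T * (C₁ * C₂ * R) := by
    rw [norm_mul, norm_real, Real.norm_of_nonneg (hM T T)]
    exact mul_le_mul_of_nonneg_left (k0 _ h2T) (hM T T)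
  have e : (∫ x in T..2 * T, hz3 L x) = (∫ x in T..2 * T, ((zs 2).E x * (zs 3).E x - G x) * L.L2 x) +
      (∫ x in T..2 * T, G x * (L.L2 x - (M T x : ℝ))) + ∫ x in T..2 * T, G x * (M T x : ℝ) := by
    rw [← intervalIntegral.integral_add (((bE.sub bG).mul bw).int h2T) ((bG.mul (bw.sub bM)).int h2T),
      ← intervalIntegral.integral_add ((((bE.sub bG).mul bw).add (bG.mul (bw.sub bM))).int h2T)
        ((bG.mul bM).int h2T)]
    refine intervalIntegral.integral_congr fun x _ => ?_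
    simp only [hz3, Del_eq, Sel.L2]
    ring
  rw [e, ← hR]
  generalize (∫ x in T..2 * T, ((zs 2).E x * (zs 3).E x - G x) * L.L2 x) = A₁ at *
  generalize (∫ x in T..2 * T, G x * (L.L2 x - (M T x : ℝ))) = A₂ at *
  generalize (∫ x in T..2 * T, G x * (M T x : ℝ)) = A₃ at *
  generalize (∫ x in T..2 * T, (zs 2).E x * (zs 3).E x) = A₄ at *
  generalize (∫ x in T..2 * T, G x) = A₅ at *
  rw [show A₁ + A₂ + A₃ - ((M T T : ℝ) : ℂ) * A₄ = A₁ + A₂ + (A₃ - ((M T T : ℝ) : ℂ) * A₅) -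
    ((M T T : ℝ) : ℂ) * (A₄ - A₅) by ring]
  refine (norm_sub_le _ _).trans ((add_le_add (norm_add₃_le.trans
    (add_le_add (add_le_add k1 k2) k3)) k4).trans ?_)
  have u0 := hM T T
  have v0 := hM T (2 * T)
  have q1 : 0 < C₁ * C₂ * R := by positivity
  have q2 : 0 < C₀ * C₁ * R := by positivity
  nlinarith [mul_nonneg q1.le u0, mul_nonneg q1.le v0, mul_nonneg q2.le u0, mul_nonneg q2.le v0]

/- `smooth_prod`, `err_tw`, `tw_mono` with `ε = 1 / 100`, `lam = T ^ (-1 / 4)`, `mono_parts`, `M_lim`,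
`untw_asym`. -/
theorem tw_asym {L : Sel} (hL : L.deg ≤ 1) {P : Polynomial ℝ} {η C : ℝ} (hη : 0 < η)
    (h : ∀ T, 1 ≤ T → |(∫ x in (1 : ℝ)..T, L.w x) - T * P.eval (Real.log T)| ≤ C * T ^ (1 - η)) :
    Filter.Tendsto (fun T : ℝ => (∫ x in T..2 * T, hz3 L x) /
      ((T ^ (3 / 2 : ℝ) * Real.log T ^ (2 + P.natDegree) : ℝ) : ℂ)) Filter.atTop
      (nhds ((cc * P.leadingCoeff * (2 ^ (3 / 2 : ℝ) - 1) : ℝ) : ℂ)) := by
  obtain ⟨C₀, M, M', hC₀, hM, h1, hc, h2, hB⟩ := tw_mono L (ε := 1 / 100) (by norm_num)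
  obtain ⟨hu, hv⟩ := M_lim L.continuous_w hη h1 h2
    (fun T hT => rt3_mean hL hC₀ hT (hB T hT)) h
  obtain ⟨K, hK, H⟩ := rt3_key hL hC₀ hM h1 hc hB
  have hS : ∀ T : ℝ, 3 ≤ T → 1 ≤ Real.log T := fun T hT => by
    rw [Real.le_log_iff_exp_le (by linarith)]
    linarith [Real.exp_one_lt_d9]
  have hE : Filter.Tendsto (fun T : ℝ => (∫ x in T..2 * T, (zs 2).E x * (zs 3).E x) /
      ((T ^ (3 / 2 : ℝ) * Real.log T ^ 2 : ℝ) : ℂ)) Filter.atTop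
      (nhds ((cc * (2 ^ (3 / 2 : ℝ) - 1) : ℝ) : ℂ)) := by
    refine Metric.tendsto_nhds.2 fun δ hδ => ?_
    filter_upwards [untw_asym (half_pos hδ), Filter.eventually_ge_atTop 3] with T a1 hT
    have hl := hS T hT
    have hT0 : 0 < T := by linarith
    have a2 := a1 (2 * T) ⟨by linarith, le_rfl⟩
    have hp : 0 < T ^ (3 / 2 : ℝ) * Real.log T ^ 2 := by positivity
    rw [Real.mul_rpow zero_le_two hT0.le, show cc * (2 ^ (3 / 2 : ℝ) * T ^ (3 / 2 : ℝ) -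
      T ^ (3 / 2 : ℝ)) * Real.log T ^ 2 = cc * (2 ^ (3 / 2 : ℝ) - 1) *
        (T ^ (3 / 2 : ℝ) * Real.log T ^ 2) by ring, ofReal_mul] at a2
    rw [dist_eq_norm, div_sub' (ofReal_ne_zero.2 hp.ne'), norm_div, norm_real,
      Real.norm_of_nonneg hp.le, div_lt_iff₀ hp, mul_comm (((_ : ℝ)) : ℂ)]
    exact a2.trans_lt (mul_lt_mul_of_pos_right (half_lt_self hδ) hp)
  have hm := (continuous_ofReal.tendsto _ |>.comp hu).mul hE
  have hb : Filter.Tendsto (fun T : ℝ => K * T ^ (-(1 / 100) : ℝ) *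
      (1 + M T T / Real.log T ^ P.natDegree + M T (2 * T) / Real.log T ^ P.natDegree) +
      2 * (2 * |cc| + 1) * (M T (2 * T) / Real.log T ^ P.natDegree -
        M T T / Real.log T ^ P.natDegree)) Filter.atTop (nhds 0) := by
    have := (((tendsto_rpow_neg_atTop (y := 1 / 100) (by norm_num)).const_mul K).mul
      ((hu.const_add 1).add hv)).add ((hv.sub hu).const_mul (2 * (2 * |cc| + 1)))
    simpa using this
  rw [show ((cc * P.leadingCoeff * (2 ^ (3 / 2 : ℝ) - 1) : ℝ) : ℂ) = (P.leadingCoeff : ℂ) *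
    ((cc * (2 ^ (3 / 2 : ℝ) - 1) : ℝ) : ℂ) by push_cast; ring]
  refine hm.congr_dist (squeeze_zero' (Filter.Eventually.of_forall fun _ => dist_nonneg) ?_ hb)
  filter_upwards [untw_asym one_pos, Filter.eventually_ge_atTop 3] with T a1 hT
  have hl := hS T hT
  have hT1 : 1 ≤ T := by linarith
  have hT0 : 0 < T := by linarith
  have hl2 : 1 ≤ Real.log T ^ 2 := one_le_pow₀ hl
  have hln : 1 ≤ Real.log T ^ P.natDegree := one_le_pow₀ hl
  have hp : 0 < T ^ (3 / 2 : ℝ) * Real.log T ^ 2 := by positivity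
  have a2 := H T hT1 ((2 * |cc| + 1) * (T ^ (3 / 2 : ℝ) * Real.log T ^ 2)) fun y hy => by
    have b1 : T ^ (3 / 2 : ℝ) ≤ y ^ (3 / 2 : ℝ) := Real.rpow_le_rpow hT0.le hy.1 (by norm_num)
    have b2 : y ^ (3 / 2 : ℝ) ≤ 3 * T ^ (3 / 2 : ℝ) := by
      refine (Real.rpow_le_rpow (hT0.le.trans hy.1) hy.2 (by norm_num)).trans ?_
      rw [Real.mul_rpow zero_le_two hT0.le]
      refine mul_le_mul_of_nonneg_right ?_ (by positivity)
      refine (pow_le_pow_iff_left₀ (by positivity) (by norm_num) two_ne_zero).1 ?_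
      rw [← Real.rpow_natCast, ← Real.rpow_mul zero_le_two]
      norm_num
    have b3 : ‖((cc * (y ^ (3 / 2 : ℝ) - T ^ (3 / 2 : ℝ)) * Real.log T ^ 2 : ℝ) : ℂ)‖ ≤
        2 * |cc| * (T ^ (3 / 2 : ℝ) * Real.log T ^ 2) := by
      rw [norm_real, Real.norm_eq_abs, abs_mul, abs_mul, abs_of_nonneg (sub_nonneg.2 b1),
        abs_of_nonneg (sq_nonneg (Real.log T))]
      calc _ ≤ |cc| * (2 * T ^ (3 / 2 : ℝ)) * Real.log T ^ 2 := by gcongr; linarith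
        _ = _ := by ring
    have b4 := norm_le_norm_add_norm_sub' (∫ x in T..y, (zs 2).E x * (zs 3).E x)
      ((cc * (y ^ (3 / 2 : ℝ) - T ^ (3 / 2 : ℝ)) * Real.log T ^ 2 : ℝ) : ℂ)
    linarith [a1 y hy]
  have hn : 0 < Real.log T ^ P.natDegree := by positivity
  have a3 : T ^ (149 / 100 : ℝ) = T ^ (-(1 / 100) : ℝ) * T ^ (3 / 2 : ℝ) := by
    rw [← Real.rpow_add hT0]
    norm_num
  rw [pow_add, ← mul_assoc, dist_comm, dist_eq_norm, Function.comp_apply, ofReal_div, div_mul_div_comm,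
    ← ofReal_mul, mul_comm (Real.log T ^ P.natDegree), ← sub_div, norm_div, norm_real,
    Real.norm_of_nonneg (mul_pos hp hn).le, div_le_iff₀ (mul_pos hp hn)]
  refine a2.trans ?_
  rw [a3]
  have u0 := hM T T
  have v0 := hM T (2 * T)
  have hr : 0 < T ^ (-(1 / 100) : ℝ) := by positivity
  have hs : 0 < T ^ (3 / 2 : ℝ) := by positivity
  generalize Real.log T ^ P.natDegree = ℓ at *
  generalize Real.log T ^ 2 = m at *
  generalize T ^ (-(1 / 100) : ℝ) = r at *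
  generalize T ^ (3 / 2 : ℝ) = s at *
  generalize M T T = u at *
  generalize M T (2 * T) = v at *
  calc _ ≤ K * (r * s) * ((ℓ + u + v) * m) + 2 * ((2 * |cc| + 1) * (s * m)) * (v - u) := by
        gcongr
        nlinarith
    _ = _ := by field_simp

end Pool.Agent.Lib.MP_2a1a00_nt
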