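import Pool.Agent.Lib.MP_2a1a00_nt.R.Defs
import Pool.Agent.Lib.MP_2a1a00_nt.V.Ga

/-! Averages with the Gaussian weight. -/

namespace Pool.Agent.Lib.MP_2a1a00_nt

open Complex MeasureTheory Set

/- Substitute `v = u / W`; dominated convergence with the bound `ph 1 u * C * (exp u + exp (-u))`. -/
theorem ph_lim {h : ℝ → ℂ} (hh : Continuous h) {C : ℝ} (hC : ∀ v, ‖h v‖ ≤ C * Real.exp |v|) :
    Filter.Tendsto (fun W : ℝ => ∫ v : ℝ, (ph W v : ℂ) * h v) Filter.atTop (nhds (h 0)) := by
  have hC0 : 0 ≤ C := by simpa using (norm_nonneg _).trans (hC 0)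
  have e1 : ∀ W : ℝ, 1 ≤ W →
      ∫ v : ℝ, (ph W v : ℂ) * h v = ∫ u : ℝ, (ph 1 u : ℂ) * h (u / W) := fun W hW => by
    have hW0 : 0 < W := by linarith
    have h1 := Measure.integral_comp_mul_left (fun u : ℝ => (ph 1 u : ℂ) * h (u / W)) W
    have h2 : ∀ v : ℝ, (ph W v : ℂ) * h v = W * ((ph 1 (W * v) : ℂ) * h (W * v / W)) :=
      fun v => by
        rw [mul_div_cancel_left₀ _ hW0.ne', ← mul_assoc, ← ofReal_mul]
        congr 2
        unfold ph
        rw [one_mul]
        ring
    simp only [h2]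
    rw [integral_const_mul, h1, abs_of_pos (inv_pos.2 hW0), real_smul, ← mul_assoc, ← ofReal_mul,
      mul_inv_cancel₀ hW0.ne', ofReal_one, one_mul]
  have e2 : h 0 = ∫ u : ℝ, (ph 1 u : ℂ) * h 0 := by
    rw [integral_mul_const, integral_complex_ofReal, (ph_int one_pos).2, ofReal_one, one_mul]
  rw [e2]
  refine Filter.Tendsto.congr' ((Filter.eventually_ge_atTop 1).mono fun W hW => (e1 W hW).symm) ?_
  refine tendsto_integral_filter_of_dominated_convergence
    (fun u => C * (ph 1 u * Real.exp (1 * u) + ph 1 u * Real.exp (-1 * u)))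
    (Filter.Eventually.of_forall fun W => ?_)
    ((Filter.eventually_ge_atTop 1).mono fun W hW => Filter.Eventually.of_forall fun u => ?_)
    (((ph_exp_re one_pos 1).1.add (ph_exp_re one_pos (-1)).1).const_mul C)
    (Filter.Eventually.of_forall fun u => ?_)
  · exact ((continuous_ofReal.comp (continuous_ph 1)).mul
      (hh.comp (continuous_id.div_const W))).aestronglyMeasurable
  · have h0 := (ph_pos one_pos u).le
    have h1 : Real.exp |u / W| ≤ Real.exp (1 * u) + Real.exp (-1 * u) := by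
      have h2 : |u / W| ≤ |u| := by
        rw [abs_div, abs_of_pos (by linarith : 0 < W)]
        exact div_le_self (abs_nonneg u) hW
      refine (Real.exp_le_exp.2 h2).trans ?_
      rw [one_mul, neg_one_mul]
      rcases abs_choice u with h3 | h3 <;> rw [h3]
      · exact le_add_of_nonneg_right (Real.exp_pos _).le
      · exact le_add_of_nonneg_left (Real.exp_pos _).le
    rw [norm_mul, norm_real, Real.norm_of_nonneg h0]
    calc ph 1 u * ‖h (u / W)‖ ≤ ph 1 u * (C * (Real.exp (1 * u) + Real.exp (-1 * u))) :=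
          mul_le_mul_of_nonneg_left ((hC _).trans (mul_le_mul_of_nonneg_left h1 hC0)) h0
      _ = _ := by ring
  · exact ((hh.tendsto 0).comp (tendsto_const_nhds.div_atTop Filter.tendsto_id)).const_mul _

/- `ph_exp_re`. -/
theorem ph_le {h : ℝ → ℂ} {C β W : ℝ} (hW : 1 ≤ W) (hβ : |β| ≤ 1) (hC : 0 ≤ C)
    (h1 : ∀ v, ‖h v‖ ≤ C * Real.exp (β * v)) : ‖∫ v : ℝ, (ph W v : ℂ) * h v‖ ≤ 3 * C := by
  have hW0 : 0 < W := by linarith
  obtain ⟨h2, h3⟩ := ph_exp_re hW0 β
  refine (norm_integral_le_of_norm_le (h2.const_mul C)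
    (Filter.Eventually.of_forall fun v => ?_)).trans ?_
  · have h0 := (ph_pos hW0 v).le
    rw [norm_mul, norm_real, Real.norm_of_nonneg h0, mul_left_comm]
    exact mul_le_mul_of_nonneg_left (h1 v) h0
  · rw [integral_const_mul, h3, mul_comm]
    refine mul_le_mul_of_nonneg_right ?_ hC
    have h4 : (β / W) ^ 2 ≤ 1 := by
      rw [sq_le_one_iff_abs_le_one, abs_div, abs_of_pos hW0]
      exact (div_le_self (abs_nonneg β) hW).trans hβ
    exact (Real.exp_le_exp.2 h4).trans (Real.exp_one_lt_d9.le.trans (by norm_num))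

/- `integral_integral_swap`. -/
theorem fub_cont {f : ℝ → ℝ → ℂ} {α β : ℝ} (hβ : α ≤ β)
    (hf : ContinuousOn (Function.uncurry f) (Icc α β ×ˢ univ)) {k : ℝ → ℝ} (hk : Integrable k)
    (h : ∀ x ∈ Icc α β, ∀ v, ‖f x v‖ ≤ k v) :
    IntervalIntegrable (fun x => ∫ v : ℝ, f x v) volume α β ∧
      ∫ x in α..β, ∫ v : ℝ, f x v = ∫ v : ℝ, ∫ x in α..β, f x v := by
  have hm : MeasurableSet (Ioc α β ×ˢ (univ : Set ℝ)) := measurableSet_Ioc.prod MeasurableSet.univ
  have e : (volume.restrict (Ioc α β)).prod (volume : Measure ℝ) =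
      ((volume : Measure ℝ).prod volume).restrict (Ioc α β ×ˢ univ) := by
    rw [← Measure.prod_restrict, Measure.restrict_univ]
  have hi : Integrable (Function.uncurry f) ((volume.restrict (Ioc α β)).prod volume) := by
    refine Integrable.mono' (g := fun p : ℝ × ℝ => (1 : ℝ) * k p.2)
      (Integrable.mul_prod (integrable_const 1) hk) ?_ ?_
    · rw [e]
      exact (hf.mono (prod_mono Ioc_subset_Icc_self subset_rfl)).aestronglyMeasurable hm
    · rw [e]
      refine (ae_restrict_iff' hm).2 (Filter.Eventually.of_forall fun p hp => ?_)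
      rw [one_mul]
      exact h p.1 (Ioc_subset_Icc_self hp.1) p.2
  refine ⟨(intervalIntegrable_iff_integrableOn_Ioc_of_le hβ).2 hi.integral_prod_left, ?_⟩
  simp only [intervalIntegral.integral_of_le hβ]
  exact integral_integral_swap hi

end Pool.Agent.Lib.MP_2a1a00_nt
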