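import Pool.Agent.Lib.MP_2a1a00_nt.R.Defs
import Pool.Agent.Lib.MP_2a1a00_nt.V.St3

/-! The explicit model for the factor in the functional equation. -/

namespace Pool.Agent.Lib.MP_2a1a00_nt

open Complex MeasureTheory Set

theorem zs_q2 : (zs 2).q = 1 / (4 * Real.pi ^ 2) := by
  have e : (zs 2).q = Real.exp (-(((2 : ℕ) : ℝ) / 2) * Real.log Real.pi) ^ 2 *
      ∏ _i : Fin 2, (1 / 2 : ℝ) ^ (2 * (1 / 2 : ℝ)) := rfl
  have e2 : -(((2 : ℕ) : ℝ) / 2) * Real.log Real.pi = -Real.log Real.pi := by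
    push_cast
    ring
  have hp := Real.pi_pos
  rw [e, e2, Real.exp_neg, Real.exp_log hp, Fin.prod_univ_two,
    show (2 * (1 / 2 : ℝ)) = 1 by norm_num, Real.rpow_one]
  field_simp
  norm_num

theorem zs_th2 : (zs 2).th = 0 := by
  change 2 * ∑ _i : Fin 2, (0 : ℂ).im = 0
  simp

/- `(Gamma 0)⁻¹ = 0`. -/
theorem zs_chi0 : (zs 2).chi 0 = 0 := by
  change (1 : ℂ) * ((zs 2).Q : ℂ) ^ (1 - 2 * (0 : ℂ)) * ∏ _i : Fin 2,
    (Gamma (((1 / 2 : ℝ) : ℂ) * (1 - 0) + (starRingEnd ℂ) 0) *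
      (Gamma (((1 / 2 : ℝ) : ℂ) * 0 + 0))⁻¹) = 0
  simp

theorem rz1_factor {lam : ℝ} (hl : 0 < lam) (mu : ℂ) (A : ℝ) : ∃ C t₀ : ℝ,
    0 < C ∧ 1 ≤ t₀ ∧ ∀ s : ℂ, |s.re| ≤ A → t₀ ≤ |s.im| → ∃ r : ℂ, ‖r‖ ≤ C / |s.im| ∧
      Gamma (lam * (1 - s) + (starRingEnd ℂ) mu) * (Gamma (lam * s + mu))⁻¹ =
        exp ((if 0 < s.im then
          -2 * mu.im * I * (Real.log lam : ℝ) - Real.pi / 2 * I * (lam + 2 * mu.re - 1) else
          -2 * mu.im * I * (Real.log lam : ℝ) + Real.pi / 2 * I * (lam + 2 * mu.re - 1)) +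
          (1 / 2 - s) * (2 * lam * Real.log lam : ℝ) +
          (2 * lam * (1 / 2 - s) - 2 * mu.im * I) * (Real.log |s.im| : ℝ) + 2 * lam * s.im * I + r) := by
  obtain ⟨C1, τ1, hC1, hτ1, h1⟩ := stir_pos (lam * (1 + A) + ‖mu‖)
  obtain ⟨C2, τ2, hC2, hτ2, h2⟩ := stir_neg (lam * (1 + A) + ‖mu‖)
  refine ⟨(C1 + C2) / lam, max 1 (max τ1 τ2 / lam), by positivity, le_max_left _ _,
    fun s hs ht => ?_⟩
  obtain ⟨n1, n2⟩ := vst2_norm hl mu hs
  have t1 : 1 ≤ |s.im| := (le_max_left _ _).trans ht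
  have t0 : 0 < |s.im| := one_pos.trans_le t1
  have t2 : max τ1 τ2 ≤ lam * |s.im| := by
    have := (le_max_right _ _).trans ht
    rwa [div_le_iff₀ hl, mul_comm] at this
  have a1 : τ1 ≤ lam * |s.im| := (le_max_left _ _).trans t2
  have a2 : τ2 ≤ lam * |s.im| := (le_max_right _ _).trans t2
  have lg : Real.log (lam * |s.im|) = Real.log lam + Real.log |s.im| := Real.log_mul hl.ne' t0.ne'
  have hm : (starRingEnd ℂ) mu = mu.re - mu.im * I := by
    apply Complex.ext <;> simp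
  have hm' : mu = mu.re + mu.im * I := (re_add_im mu).symm
  have hs' : s = s.re + s.im * I := (re_add_im s).symm
  have nb : ∀ r1 r2 : ℂ, ∀ D1 D2 : ℝ, D1 + D2 = C1 + C2 → ‖r1‖ ≤ D1 / (lam * |s.im|) →
      ‖r2‖ ≤ D2 / (lam * |s.im|) → ‖r1 - r2‖ ≤ (C1 + C2) / lam / |s.im| := fun r1 r2 D1 D2 e b1 b2 => by
    refine (norm_sub_le _ _).trans ((add_le_add b1 b2).trans (le_of_eq ?_))
    rw [← add_div, e, div_div]
  by_cases hp : 0 < s.im
  · obtain ⟨r1, b1, g1⟩ := h2 _ _ n1 a2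
    obtain ⟨r2, b2, g2⟩ := h1 _ _ n2 a1
    refine ⟨r1 - r2, nb r1 r2 C2 C1 (add_comm _ _) b1 b2, ?_⟩
    have ab : |s.im| = s.im := abs_of_pos hp
    have e1 : lam * (1 - s) + (starRingEnd ℂ) mu =
        lam * (1 - s.re) + (starRingEnd ℂ) mu - (lam * |s.im| : ℝ) * I := by
      rw [ab]
      conv_lhs => rw [hs']
      push_cast
      ring
    have e2 : lam * s + mu = lam * s.re + mu + (lam * |s.im| : ℝ) * I := by
      rw [ab]
      conv_lhs => rw [hs']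
      push_cast
      ring
    rw [e1, e2, g1, g2, ← Complex.exp_neg, ← Complex.exp_add, if_pos hp, lg, hm]
    congr 1
    generalize Real.log |s.im| = l
    rw [ab]
    generalize s.im = t at hs'
    generalize s.re = σ at hs'
    generalize mu.im = b at hm'
    generalize mu.re = a at hm'
    subst hs' hm'
    push_cast
    ring
  · obtain ⟨r1, b1, g1⟩ := h1 _ _ n1 a1
    obtain ⟨r2, b2, g2⟩ := h2 _ _ n2 a2
    refine ⟨r1 - r2, nb r1 r2 C1 C2 rfl b1 b2, ?_⟩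
    have ab : |s.im| = -s.im := abs_of_nonpos (not_lt.1 hp)
    have e1 : lam * (1 - s) + (starRingEnd ℂ) mu =
        lam * (1 - s.re) + (starRingEnd ℂ) mu + (lam * |s.im| : ℝ) * I := by
      rw [ab]
      conv_lhs => rw [hs']
      push_cast
      ring
    have e2 : lam * s + mu = lam * s.re + mu - (lam * |s.im| : ℝ) * I := by
      rw [ab]
      conv_lhs => rw [hs']
      push_cast
      ring
    rw [e1, e2, g1, g2, ← Complex.exp_neg, ← Complex.exp_add, if_neg hp, lg, hm]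
    congr 1
    generalize Real.log |s.im| = l
    rw [ab]
    generalize s.im = t at hs'
    generalize s.re = σ at hs'
    generalize mu.im = b at hm'
    generalize mu.re = a at hm'
    subst hs' hm'
    push_cast
    ring

theorem rz1_asymp (A : ℝ) : ∃ C t₀ : ℝ, 0 < C ∧ 1 ≤ t₀ ∧
    ∀ s : ℂ, |s.re| ≤ A → t₀ ≤ |s.im| → ∃ r : ℂ, ‖r‖ ≤ C / |s.im| ∧
      (zs 2).chi s = exp ((if 0 < s.im then Real.pi / 2 * I else -(Real.pi / 2 * I)) +
        (1 / 2 - s) * (Real.log (zs 2).q : ℝ) +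
        ((zs 2).deg * (1 / 2 - s) - (zs 2).th * I) * (Real.log |s.im| : ℝ) +
        (zs 2).deg * s.im * I + r) := by
  obtain ⟨C, t₀, hC, ht, h⟩ := rz1_factor (lam := 1 / 2) (by norm_num) 0 A
  refine ⟨2 * C, t₀, by positivity, ht, fun s hs hi => ?_⟩
  obtain ⟨r, hr, e⟩ := h s hs hi
  refine ⟨2 * r, ?_, ?_⟩
  · rw [norm_mul, Complex.norm_ofNat, mul_div_assoc]
    linarith
  · have e1 : (zs 2).chi s = 1 * ((zs 2).Q : ℂ) ^ (1 - 2 * s) * ∏ _i : Fin 2,
        (Gamma (((1 / 2 : ℝ) : ℂ) * (1 - s) + (starRingEnd ℂ) 0) *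
          (Gamma (((1 / 2 : ℝ) : ℂ) * s + 0))⁻¹) := rfl
    have e2 : Real.log (zs 2).q = 2 * Real.log (zs 2).Q + ∑ _i : Fin 2,
        2 * (1 / 2 : ℝ) * Real.log (1 / 2 : ℝ) := (zs 2).vst2_logq
    rw [e1, e, e2, px_cpow _ (zs 2).Q_pos, px, zs_deg2, zs_th2, Fin.prod_univ_two, Fin.sum_univ_two,
      one_mul, ← Complex.exp_add, ← Complex.exp_add]
    congr 1
    simp only [zero_im, zero_re]
    push_cast
    split_ifs <;> ring

theorem rz1_core {K σ u : ℝ} {e r r' E : ℂ} (he : e = I ∨ e = -I) (h1 : |σ| ≤ 1)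
    (hK : 1 ≤ K) (hu : K ≤ u) (hr : ‖r‖ ≤ K / u) (hr' : ‖r'‖ ≤ K / u) (hE : ‖E‖ ≤ K / u) :
    ‖exp r' / (σ + u * e) - exp r / (u * e) * (1 + E)‖ ≤ 8 * K / u ^ 2 := by
  have hu0 : 0 < u := by linarith
  have hk : K / u ≤ 1 := (div_le_one hu0).2 hu
  have hk0 : 0 ≤ K / u := by positivity
  have hn : ‖(u : ℂ) * e‖ = u := by
    rcases he with rfl | rfl <;> simp [hu0.le]
  have hs : u ≤ ‖(σ : ℂ) + u * e‖ := by
    refine le_trans ?_ (abs_im_le_norm _)
    rcases he with rfl | rfl <;> simp [abs_of_pos hu0]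
  have hn0 : (u : ℂ) * e ≠ 0 := norm_pos_iff.1 (by rw [hn]; exact hu0)
  have hs0 : (σ : ℂ) + u * e ≠ 0 := norm_pos_iff.1 (hu0.trans_le hs)
  have a1 : ‖exp r - 1‖ ≤ 2 * (K / u) :=
    (norm_exp_sub_one_le (hr.trans hk)).trans (by linarith)
  have a2 : ‖exp r' - 1‖ ≤ 2 * (K / u) :=
    (norm_exp_sub_one_le (hr'.trans hk)).trans (by linarith)
  have a3 : ‖exp r‖ ≤ 3 := by
    have := norm_add_le (exp r - 1) 1
    rw [sub_add_cancel, norm_one] at this
    linarith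
  have a4 : ‖exp r - 1 + exp r * E‖ ≤ 5 * (K / u) := by
    refine (norm_add_le _ _).trans ?_
    rw [norm_mul]
    have := mul_le_mul a3 hE (norm_nonneg _) (by norm_num)
    linarith
  have a5 : ‖(σ : ℂ) / (u * e)‖ ≤ K / u := by
    rw [norm_div, hn, norm_real, Real.norm_eq_abs]
    exact div_le_div_of_nonneg_right (h1.trans hK) hu0.le
  have id : exp r' / (σ + u * e) - exp r / (u * e) * (1 + E) =
      (exp r' - 1 - σ / (u * e)) / (σ + u * e) - (exp r - 1 + exp r * E) / (u * e) := by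
    generalize (u : ℂ) * e = w at hn0 hs0
    field_simp
    ring
  rw [id]
  refine (norm_sub_le _ _).trans ?_
  rw [norm_div, norm_div _ (_ * e), hn]
  have b1 : ‖exp r' - 1 - σ / (u * e)‖ / ‖(σ : ℂ) + u * e‖ ≤ 3 * (K / u) / u :=
    div_le_div₀ (by positivity) ((norm_sub_le _ _).trans (by linarith)) hu0 hs
  have b2 := div_le_div_of_nonneg_right a4 hu0.le
  refine (add_le_add b1 b2).trans (le_of_eq ?_)
  field_simp
  ring

namespace Sel

variable (F : Sel)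

theorem rz1_half (hd : 0 < F.deg) {σ : ℝ} (h0 : |σ| ≤ 1) (h1 : σ < 1 / 2) {e : ℂ} (c b : ℂ)
    (he : e = I ∨ e = -I) {C₁ t₁ C₂ t₂ : ℝ} (hC₁ : 0 < C₁) (hC₂ : 0 < C₂)
    (hx : ∀ u : ℝ, t₁ ≤ u → ∃ r : ℂ, ‖r‖ ≤ C₁ / u ∧ F.chi (σ + u * e) =
      exp (c + (1 / 2 - (σ + u * e)) * (Real.log F.q : ℝ) +
        (F.deg * (1 / 2 - (σ + u * e)) - F.th * I) * (Real.log u : ℝ) + F.deg * u * e + r))
    (hg : ∀ τ : ℝ, t₂ ≤ τ → ∃ r : ℂ, ‖r‖ ≤ C₂ / τ ∧ Gamma (F.zz σ - τ * e) =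
      exp (c0 + (F.zz σ - 1 / 2 - τ * e) * (Real.log τ - Real.pi / 2 * e) + τ * e + r)) :
    ∃ C T : ℝ, 0 < C ∧ ∀ u : ℝ, T ≤ u → ‖F.chi (σ + u * e) / (σ + u * e) -
      exp ((1 / 2 - (σ + u * e)) * (Real.log (F.q / F.deg ^ F.deg) : ℝ)) * Gamma (F.zz (σ + u * e)) *
      (exp (c - c0 - Real.pi / 4 * e + (1 + F.th * I) * (Real.log F.deg : ℝ)) / e *
        exp (Real.pi / 2 * e * F.zz (σ + u * e)) + b * exp (-(Real.pi / 2 * e * F.zz (σ + u * e))))‖ ≤
      C * (1 + u) ^ (F.deg * (1 / 2 - σ) - 2) := by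
  have e2 : e * e = -1 := by rcases he with rfl | rfl <;> simp
  have e0 : e ≠ 0 := by rcases he with rfl | rfl <;> simp
  have er : e.re = 0 := by rcases he with rfl | rfl <;> simp
  set a : ℂ := exp (c - c0 - Real.pi / 4 * e + (1 + F.th * I) * (Real.log F.deg : ℝ)) / e with ha
  set k : ℝ := ‖b / a * exp (-(Real.pi * e * F.zz σ))‖ with hk
  have hk0 : 0 ≤ k := norm_nonneg _
  set K : ℝ := 1 + C₁ + C₂ / F.deg + k / F.deg with hK
  have p1 : 0 ≤ C₂ / F.deg := by positivity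
  have p2 : 0 ≤ k / F.deg := by positivity
  have hK1 : 1 ≤ K := by linarith
  refine ⟨Real.exp (c.re + (1 / 2 - σ) * Real.log F.q) * (32 * K), max K (max t₁ (t₂ / F.deg)),
    by positivity, fun u hu => ?_⟩
  have hKu : K ≤ u := (le_max_left _ _).trans hu
  have hu1 : 1 ≤ u := hK1.trans hKu
  have hu0 : 0 < u := by linarith
  have hdu : 0 < F.deg * u := by positivity
  obtain ⟨r', hr', hx⟩ := hx u (((le_max_left _ _).trans (le_max_right _ _)).trans hu)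
  obtain ⟨r, hr, hg⟩ := hg (F.deg * u) (by
    have := ((le_max_right _ _).trans (le_max_right _ _)).trans hu
    rwa [div_le_iff₀' hd] at this)
  have hz : F.zz (σ + u * e) = F.zz σ - (F.deg * u : ℝ) * e := by
    simp only [zz, ofReal_mul]
    ring
  have hg' : Gamma (F.zz (σ + u * e)) = exp (c0 + (F.zz (σ + u * e) - 1 / 2) *
      ((Real.log F.deg : ℝ) + (Real.log u : ℝ) - Real.pi / 2 * e) + F.deg * u * e + r) := by
    rw [hz, hg, Real.log_mul hd.ne' hu0.ne']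
    congr 1
    push_cast
    ring
  have hl : ((Real.log (F.q / F.deg ^ F.deg) : ℝ) : ℂ) =
      (Real.log F.q : ℝ) - F.deg * (Real.log F.deg : ℝ) := by
    rw [Real.log_div F.q_pos.ne' (Real.rpow_pos_of_pos hd _).ne', Real.log_rpow hd, ofReal_sub,
      ofReal_mul]
  have hE : ‖b / a * exp (-(Real.pi * e * F.zz (σ + u * e)))‖ ≤ K / u := by
    have : -(Real.pi * e * F.zz (σ + u * e)) =
        -(Real.pi * e * F.zz σ) + (-(Real.pi * (F.deg * u)) : ℝ) := by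
      rw [hz]
      push_cast
      linear_combination (Real.pi * F.deg * u : ℂ) * e2
    rw [this, exp_add, ← mul_assoc, norm_mul, ← hk, norm_exp_ofReal]
    have h3 : Real.exp (-(Real.pi * (F.deg * u))) ≤ 1 / (F.deg * u) := by
      rw [Real.exp_neg, one_div]
      refine inv_anti₀ hdu ?_
      have := Real.add_one_le_exp (Real.pi * (F.deg * u))
      nlinarith [Real.pi_gt_three]
    refine (mul_le_mul_of_nonneg_left h3 hk0).trans ?_
    rw [mul_one_div, ← div_div]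
    exact div_le_div_of_nonneg_right (by linarith) hu0.le
  have hco := rz1_core (K := K) (r := r) (r' := r') he h0 hK1 hKu
    (hr.trans (by rw [← div_div]; exact div_le_div_of_nonneg_right (by linarith) hu0.le))
    (hr'.trans (div_le_div_of_nonneg_right (by linarith) hu0.le)) hE
  rw [hg', hl, ha, vst3_alg (z := F.zz (σ + u * e)) e0 rfl, ← ha, hx, exp_add _ r', ← ofReal_exp, Real.exp_log hu0,
    mul_div_assoc, ← mul_sub, norm_mul, Complex.norm_exp]
  have hre : (c + (1 / 2 - (σ + u * e)) * (Real.log F.q : ℝ) +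
      (F.deg * (1 / 2 - (σ + u * e)) - F.th * I) * (Real.log u : ℝ) + F.deg * u * e).re =
      c.re + (1 / 2 - σ) * Real.log F.q + Real.log u * (F.deg * (1 / 2 - σ)) := by
    simp only [add_re, sub_re, mul_re, ofReal_re, ofReal_im, er, I_re, I_im, mul_im,
      div_ofNat_re, one_re]
    ring
  rw [hre, Real.exp_add _ (Real.log u * _), ← Real.rpow_def_of_pos hu0,
    Real.rpow_sub (by positivity), Real.rpow_two]
  have q1 : u ^ (F.deg * (1 / 2 - σ)) ≤ (1 + u) ^ (F.deg * (1 / 2 - σ)) :=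
    Real.rpow_le_rpow hu0.le (by linarith) (mul_nonneg hd.le (by linarith))
  have q2 : 8 * K / u ^ 2 ≤ 32 * K / (1 + u) ^ 2 := by
    rw [div_le_div_iff₀ (by positivity) (by positivity)]
    have : (1 + u) ^ 2 ≤ 4 * u ^ 2 := by nlinarith
    nlinarith
  refine (mul_le_mul (mul_le_mul_of_nonneg_left q1 (by positivity)) (hco.trans q2)
    (norm_nonneg _) (by positivity)).trans (le_of_eq ?_)
  ring

theorem rz1_cont (hd : 0 < F.deg) (c₁ c₂ : ℂ) {σ : ℝ} (h0 : σ ≠ 0) (h1 : σ < al F.deg) :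
    Continuous fun t : ℝ => F.chi (σ + t * I) / (σ + t * I) - F.mdl c₁ c₂ (σ + t * I) := by
  have h2 : 0 < 1 / (2 * F.deg) := by positivity
  have h3 : F.deg * (1 / (2 * F.deg)) = 1 / 2 := by field_simp
  unfold al at h1
  have c1 : Continuous fun t : ℝ => F.chi (σ + t * I) :=
    F.chi_diff.continuousOn.comp_continuous (by fun_prop) fun t => by
      simp only [mem_ofPred_eq, add_re, ofReal_re, re_ofReal_mul, I_re]
      linarith
  have c2 : Continuous fun t : ℝ => F.zz (σ + t * I) := by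
    unfold zz
    fun_prop
  have c3 : Continuous fun t : ℝ => Gamma (F.zz (σ + t * I)) := by
    refine continuous_iff_continuousAt.2 fun t => ContinuousAt.comp
      (f := fun t : ℝ => F.zz (σ + t * I)) (differentiableAt_Gamma _ fun m hm => ?_).continuousAt
      c2.continuousAt
    have h4 := congrArg re hm
    have h5 : (0 : ℝ) ≤ m := Nat.cast_nonneg m
    have h6 := mul_lt_mul_of_pos_left h1 hd
    simp only [zz, sub_re, add_re, re_ofReal_mul, ofReal_re, I_re, div_ofNat_re, one_re, neg_re,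
      natCast_re] at h4
    nlinarith
  unfold mdl
  refine (c1.div (by fun_prop) fun t h => ?_).sub (by fun_prop)
  have := congrArg re h
  simp only [add_re, ofReal_re, re_ofReal_mul, I_re, zero_re] at this
  exact h0 (by linarith)

theorem rz1_gen (hd : 0 < F.deg) (cp cm : ℂ) (hc : ∀ A : ℝ, ∃ C t₀ : ℝ, 0 < C ∧ 1 ≤ t₀ ∧
    ∀ s : ℂ, |s.re| ≤ A → t₀ ≤ |s.im| → ∃ r : ℂ, ‖r‖ ≤ C / |s.im| ∧
      F.chi s = exp ((if 0 < s.im then cp else cm) + (1 / 2 - s) * (Real.log F.q : ℝ) +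
        (F.deg * (1 / 2 - s) - F.th * I) * (Real.log |s.im| : ℝ) + F.deg * s.im * I + r))
    {c₁ c₂ : ℂ}
    (hc₁ : c₁ = exp (cp - c0 - Real.pi / 4 * I + (1 + F.th * I) * (Real.log F.deg : ℝ)) / I)
    (hc₂ : c₂ = exp (cm - c0 - Real.pi / 4 * (-I) + (1 + F.th * I) * (Real.log F.deg : ℝ)) / (-I))
    {σ : ℝ} (h0 : σ ≠ 0) (hσ : |σ| ≤ 1) (h1 : σ < al F.deg) : ∃ C : ℝ, 0 < C ∧
    ∀ t : ℝ, ‖F.chi (σ + t * I) / (σ + t * I) - F.mdl c₁ c₂ (σ + t * I)‖ ≤
      C * (1 + |t|) ^ (F.deg * (1 / 2 - σ) - 2) := by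
  have h2 : σ < 1 / 2 := by
    have : 0 < 1 / (2 * F.deg) := by positivity
    unfold al at h1
    linarith
  obtain ⟨C₁, t₁, hC₁, ht₁, hc⟩ := hc 1
  obtain ⟨C₂, t₂, hC₂, -, hn⟩ := stir_neg ‖F.zz σ‖
  obtain ⟨C₃, t₃, hC₃, -, hp⟩ := stir_pos ‖F.zz σ‖
  obtain ⟨A, T, hA, hP⟩ := F.rz1_half hd hσ h2 cp c₂ (Or.inl rfl) (t₁ := t₁) hC₁ hC₂ (fun u hu => by
    have hu0 : 0 < u := by linarith
    have := hc (σ + u * I) (by simpa using hσ) (by simpa [abs_of_pos hu0] using hu)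
    simpa [abs_of_pos hu0, hu0] using this) fun τ hτ => hn _ τ le_rfl hτ
  obtain ⟨A', T', hA', hM⟩ := F.rz1_half hd hσ h2 cm c₁ (Or.inr rfl) (t₁ := t₁) (t₂ := t₃) hC₁ hC₃
    (fun u hu => by
      have hu0 : 0 < u := by linarith
      have := hc (σ + u * -I) (by simpa using hσ) (by simpa [abs_of_pos hu0] using hu)
      simpa [abs_of_pos hu0, hu0.le, not_lt.2 hu0.le] using this) fun τ hτ => by
      simpa [sub_eq_add_neg] using hp _ τ le_rfl hτ
  have hco : Continuous fun t : ℝ =>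
      ‖F.chi (σ + t * I) / (σ + t * I) - F.mdl c₁ c₂ (σ + t * I)‖ /
        (1 + |t|) ^ (F.deg * (1 / 2 - σ) - 2) :=
    (F.rz1_cont hd c₁ c₂ h0 h1).norm.div ((continuous_const.add continuous_abs).rpow_const
      fun t => Or.inl (jb_pos t).ne') fun t => by positivity
  obtain ⟨B, hB⟩ := (isCompact_Icc (a := -(max T' 0)) (b := max T 0)).exists_bound_of_continuousOn
    hco.continuousOn
  refine ⟨max A (max A' B), hA.trans_le (le_max_left _ _), fun t => ?_⟩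
  have hw : 0 < (1 + |t|) ^ (F.deg * (1 / 2 - σ) - 2) := by positivity
  by_cases ht : t ∈ Icc (-(max T' 0)) (max T 0)
  · have := hB t ht
    rw [Real.norm_of_nonneg (by positivity), div_le_iff₀ hw] at this
    exact this.trans (mul_le_mul_of_nonneg_right
      ((le_max_right _ _).trans (le_max_right _ _)) hw.le)
  rw [mem_Icc, not_and_or, not_le, not_le] at ht
  rcases ht with ht | ht
  · rw [lt_neg, max_lt_iff] at ht
    have := hM (-t) ht.1.le
    rw [← hc₂, ← abs_of_neg (neg_pos.1 ht.2)] at this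
    refine le_trans (le_of_eq ?_) (this.trans (mul_le_mul_of_nonneg_right
      ((le_max_left _ _).trans (le_max_right _ _)) hw.le))
    rw [abs_of_neg (neg_pos.1 ht.2), mdl, add_comm (c₂ * _)]
    simp
  · rw [max_lt_iff] at ht
    have := hP t ht.1.le
    rw [← hc₁] at this
    rw [abs_of_pos ht.2] at hw ⊢
    exact this.trans (mul_le_mul_of_nonneg_right (le_max_left _ _) hw.le)

end Sel

/- Copy `st2_factor`, `chi_asymp` (V/St2) with the explicit constants, and `vst3_core`, `vst3_half`, `vst3_cont`,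
`model` (V/St3) with `0 < σ` replaced by `σ ≠ 0`, `|σ| ≤ 1`.  For `zs 2`: `cp = π i / 2`, `cm = -π i / 2`,
`c₁ = exp (cp - c0 - π / 4 * i + log 2) / i`, `c₂ = exp (cm - c0 + π / 4 * i + log 2) / (-i)`,
`c₁ * c₂ = 4 * exp (-2 c0) = 2 / π`. -/
theorem rz1_model : ∃ c₁ c₂ : ℂ, c₁ * c₂ = ((2 / Real.pi : ℝ) : ℂ) ∧ ∀ σ : ℝ, σ ≠ 0 → -1 ≤ σ →
    σ < 1 / 4 → ∃ C : ℝ, 0 < C ∧
      (Continuous fun t : ℝ => (zs 2).chi (σ + t * I) / (σ + t * I) - (zs 2).mdl c₁ c₂ (σ + t * I)) ∧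
      ∀ t : ℝ, ‖(zs 2).chi (σ + t * I) / (σ + t * I) - (zs 2).mdl c₁ c₂ (σ + t * I)‖ ≤
        C * (1 + |t|) ^ (-1 - 2 * σ) := by
  have hd : 0 < (zs 2).deg := by rw [zs_deg2]; norm_num
  refine ⟨exp (Real.pi / 2 * I - c0 - Real.pi / 4 * I +
      (1 + (zs 2).th * I) * (Real.log (zs 2).deg : ℝ)) / I,
    exp (-(Real.pi / 2 * I) - c0 - Real.pi / 4 * (-I) +
      (1 + (zs 2).th * I) * (Real.log (zs 2).deg : ℝ)) / (-I), ?_, fun σ h0 h1 h2 => ?_⟩
  · have hp := Real.pi_pos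
    have e : Real.exp (2 * Real.log 2 - 2 * c0) = 2 / Real.pi := by
      rw [Real.exp_sub, c0, ← Nat.cast_ofNat (n := 2), Real.exp_nat_mul, Real.exp_nat_mul,
        Nat.cast_ofNat, Real.exp_log two_pos, Real.exp_log (by positivity),
        Real.sq_sqrt (by positivity)]
      field_simp
    rw [div_mul_div_comm, ← exp_add, mul_neg I I, I_mul_I, neg_neg, div_one, ← e, ofReal_exp,
      zs_th2, zs_deg2]
    congr 1
    push_cast
    ring
  · have ha : σ < al (zs 2).deg := by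
      rw [zs_deg2, al]
      linarith
    obtain ⟨C, hC, h⟩ := (zs 2).rz1_gen hd _ _ rz1_asymp rfl rfl h0
      (abs_le.2 ⟨h1, by linarith⟩) ha
    refine ⟨C, hC, (zs 2).rz1_cont hd _ _ h0 ha, fun t => ?_⟩
    have := h t
    rwa [show (zs 2).deg * (1 / 2 - σ) - 2 = -1 - 2 * σ by rw [zs_deg2]; ring] at this

end Pool.Agent.Lib.MP_2a1a00_nt
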